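import Mathlib
import Pool.Agent.W_2411c4_h59.Family
import Pool.Agent.W_2411c4_h59.Cut
import Pool.Agent.W_2411c4_h59.Pwo

/-! Bounded tree-width, internal form: closed labelled graphs, typed pieces, atoms, elimination
orders, segments, nodes. All files of this folder use these definitions. -/

set_option autoImplicit false
set_option linter.unusedSectionVars false

open Set

namespace Pool.Agent.W2411ls

open Pool.Agent.W2411c4

/-- labels: a natural number (with the discrete order) and an element of `Ω` -/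
structure Lb (Ω : Type) where
  v : ℕ
  w : Ω

variable {Ω : Type} [Preorder Ω] [Inhabited Ω]

instance : Preorder (Lb Ω) where
  le x y := x.v = y.v ∧ x.w ≤ y.w
  le_refl _ := ⟨rfl, le_rfl⟩
  le_trans _ _ _ h h' := ⟨h.1.trans h'.1, h.2.trans h'.2⟩

omit [Inhabited Ω] in
theorem Lb.le_iff {x y : Lb Ω} : x ≤ y ↔ x.v = y.v ∧ x.w ≤ y.w := Iff.rfl

/-- a graph with a set of vertices; `Cls` says that it contains all ends -/
structure CG (Ω : Type) where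
  G : Gr (Lb Ω)
  X : Finset ℕ

/-- all ends of edges are in `X` -/
def Cls (P : (CG Ω)) : Prop := ∀ e ∈ P.G.E, P.G.a e ∈ P.X ∧ P.G.b e ∈ P.X

/-- strong immersion of closed graphs -/
structure CImm (P P' : (CG Ω)) (η : ℕ → ℕ) (Φ : ℕ → Set ℕ) : Prop where
  maps : ∀ x ∈ P.X, η x ∈ P'.X
  inj : ∀ x ∈ P.X, ∀ y ∈ P.X, η x = η y → x = y
  lab : ∀ x ∈ P.X, P.G.lab x ≤ P'.G.lab (η x)
  sub : ∀ e ∈ P.G.E, ∀ f ∈ Φ e, f ∈ P'.G.E
  conn : ∀ e ∈ P.G.E, P'.G.Conn (Φ e) (η (P.G.a e)) (η (P.G.b e))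
  disj : ∀ e ∈ P.G.E, ∀ f ∈ P.G.E, e ≠ f → Disjoint (Φ e) (Φ f)
  strong : ∀ e ∈ P.G.E, ∀ y ∈ P.X, ¬ P.G.Inc e y → ∀ f ∈ Φ e, ¬ P'.G.Inc f (η y)

/-- the quasi-order of closed graphs -/
def CR (P P' : (CG Ω)) : Prop := ∃ η Φ, CImm P P' η Φ

theorem CR.refl (P : (CG Ω)) : CR P P := by
  refine ⟨id, fun e => {e}, ?_, ?_, ?_, ?_, ?_, ?_, ?_⟩
  · intro x hx; exact hx
  · intro x _ y _ h; exact h
  · intro x _; exact le_rfl
  · intro e he f hf; rw [Set.mem_singleton_iff.1 hf]; exact he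
  · intro e _; exact Gr.conn_edge rfl (Or.inl rfl) (Or.inr rfl)
  · intro e _ f _ hef; simpa using hef
  · intro e _ y _ hy f hf; rw [Set.mem_singleton_iff.1 hf]; exact hy

theorem CR.trans {P P' P'' : (CG Ω)} (h₁ : CR P P') (h₂ : CR P' P'') : CR P P'' := by
  obtain ⟨η₁, Φ₁, h₁⟩ := h₁
  obtain ⟨η₂, Φ₂, h₂⟩ := h₂
  refine ⟨fun x => η₂ (η₁ x), fun e => ⋃ f ∈ Φ₁ e, Φ₂ f, ?_, ?_, ?_, ?_, ?_, ?_, ?_⟩
  · intro x hx; exact h₂.maps _ (h₁.maps _ hx)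
  · intro x hx y hy h
    exact h₁.inj _ hx _ hy (h₂.inj _ (h₁.maps _ hx) _ (h₁.maps _ hy) h)
  · intro x hx; exact le_trans (h₁.lab _ hx) (h₂.lab _ (h₁.maps _ hx))
  · intro e he f hf
    simp only [Set.mem_iUnion] at hf
    obtain ⟨g, hg, hf⟩ := hf
    exact h₂.sub g (h₁.sub e he g hg) f hf
  · intro e he
    refine conn_map (G := P'.G) (F := Φ₁ e) η₂ ?_ (h₁.conn e he)
    intro f hf
    exact Gr.Conn.mono (Set.subset_biUnion_of_mem (u := fun f => Φ₂ f) hf)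
      (h₂.conn f (h₁.sub e he f hf))
  · intro e he f hf hef
    rw [Set.disjoint_left]
    intro g hg hg'
    simp only [Set.mem_iUnion] at hg hg'
    obtain ⟨p, hp, hg⟩ := hg
    obtain ⟨q, hq, hg'⟩ := hg'
    by_cases hpq : p = q
    · subst hpq
      exact Set.disjoint_left.1 (h₁.disj e he f hf hef) hp hq
    · exact Set.disjoint_left.1 (h₂.disj p (h₁.sub e he p hp) q (h₁.sub f hf q hq) hpq) hg hg'
  · intro e he y hy hey f hf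
    simp only [Set.mem_iUnion] at hf
    obtain ⟨g, hg, hf⟩ := hf
    exact h₂.strong g (h₁.sub e he g hg) (η₁ y) (h₁.maps _ hy) (h₁.strong e he y hy hey g hg) f hf

instance : IsPreorder (CG Ω) CR where
  refl := CR.refl
  trans := fun _ _ _ => CR.trans

/-- the closed graph of `X`: every boundary edge `e` of `X` gets a private leaf `2 * e + 1` with
label `ty e`; the vertex `x` of `X` is called `2 * x`; edges keep their names -/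
def cl (G : Gr (Lb Ω)) (X : Finset ℕ) (ty : ℕ → ℕ) : (CG Ω) where
  G := {
    E := G.E.filter fun e => G.Touch X e
    a := fun e => if G.a e ∈ X then 2 * G.a e else 2 * e + 1
    b := fun e => if G.b e ∈ X then 2 * G.b e else 2 * e + 1
    ne := by
      intro e he
      rw [Finset.mem_filter] at he
      obtain ⟨he, ht⟩ := he
      have hne := G.ne e he
      unfold Gr.Touch at ht
      by_cases h1 : G.a e ∈ X <;> by_cases h2 : G.b e ∈ X <;> simp only [h1, h2, if_true, if_false]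
      · omega
      · omega
      · omega
      · tauto
    lab := fun n => if n % 2 = 0 then G.lab (n / 2) else ⟨ty (n / 2), default⟩ }
  X := X.image (fun x => 2 * x) ∪ (G.bd X).image (fun e => 2 * e + 1)

/-- local immersion of the typed piece `(G, X, ty)` in `(G', X', ty')`: the boundary edge `e` goes to
the boundary edge `ι e` of the same type -/
structure TImm (G : Gr (Lb Ω)) (X : Finset ℕ) (G' : Gr (Lb Ω)) (X' : Finset ℕ) (ty ty' : ℕ → ℕ)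
    (η : ℕ → ℕ) (Φ : ℕ → Set ℕ) (ι : ℕ → ℕ) : Prop where
  maps : ∀ x ∈ X, η x ∈ X'
  inj : ∀ x ∈ X, ∀ y ∈ X, η x = η y → x = y
  lab : ∀ x ∈ X, G.lab x ≤ G'.lab (η x)
  sub_in : ∀ e ∈ G.E, G.Inner X e → ∀ f ∈ Φ e, f ∈ G'.E ∧ G'.Inner X' f
  sub_cr : ∀ e ∈ G.bd X, ∀ f ∈ Φ e, f = ι e ∨ (f ∈ G'.E ∧ G'.Inner X' f)
  cr_bd : ∀ e ∈ G.bd X, ι e ∈ G'.bd X'
  cr_mem : ∀ e ∈ G.bd X, ι e ∈ Φ e
  cr_ty : ∀ e ∈ G.bd X, ty' (ι e) = ty e
  conn_in : ∀ e ∈ G.E, G.Inner X e → G'.Conn (Φ e) (η (G.a e)) (η (G.b e))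
  conn_cr : ∀ e ∈ G.bd X, ∀ x ∈ X, G.Inc e x → ∀ z, G'.Inc (ι e) z → G'.Conn (Φ e) z (η x)
  disj : ∀ e ∈ G.E, ∀ f ∈ G.E, G.Touch X e → G.Touch X f → e ≠ f → Disjoint (Φ e) (Φ f)
  strong : ∀ e ∈ G.E, G.Touch X e → ∀ y ∈ X, ¬ G.Inc e y → ∀ f ∈ Φ e, ¬ G'.Inc f (η y)

/-- number of edges from `U` to the outside of `U ∪ T` (meant for disjoint `U`, `T`) -/
def eb {Q : Type} (G : Gr Q) (U T : Finset ℕ) : ℕ :=
  (G.E.filter fun e => (G.a e ∈ U ∧ G.b e ∉ U ∧ G.b e ∉ T) ∨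
    (G.b e ∈ U ∧ G.a e ∉ U ∧ G.a e ∉ T)).card

/-- number of edges between `U` and `W` (meant for disjoint `U`, `W`) -/
def ee {Q : Type} (G : Gr Q) (U W : Finset ℕ) : ℕ :=
  (G.E.filter fun e => (G.a e ∈ U ∧ G.b e ∈ W) ∨ (G.b e ∈ U ∧ G.a e ∈ W)).card

/-- some vertex of `Y` cannot be separated from the boundary by a smaller set -/
def Solid {Q : Type} (G : Gr Q) (Y : Finset ℕ) : Prop :=
  ∃ x ∈ Y, ∀ Z ⊆ Y, x ∈ Z → G.d Y ≤ G.d Z

/-- sets of pieces closed under equivalence -/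
def Sat (W : Set (Pc (Lb Ω))) : Prop := ∀ P P' : Pc (Lb Ω), P ∈ W → Rp P P' → Rp P' P → P' ∈ W

/-- atoms -/
structure Atom (W : Set (Pc (Lb Ω))) (M : ℕ) (G : Gr (Lb Ω)) (Y : Finset ℕ) : Prop where
  mem : ∃ en : En G Y, (⟨G, Y, en⟩ : Pc (Lb Ω)) ∈ W
  solid : Solid G Y
  conn : ConnOn G Y
  ord : G.d Y < M

/-- the part number `p` -/
def fib (X : Finset ℕ) (pt : ℕ → ℕ) (p : ℕ) : Finset ℕ := X.filter fun x => pt x = p

theorem mem_fib {X : Finset ℕ} {pt : ℕ → ℕ} {p x : ℕ} : x ∈ fib X pt p ↔ x ∈ X ∧ pt x = p := by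
  simp [fib]

/-- elimination order of width `k` of the quotient of `X` by the parts of `pt` -/
structure Elim {Q : Type} (G : Gr Q) (X : Finset ℕ) (k : ℕ∞) (pt : ℕ → ℕ) (up : ℕ → Finset ℕ)
    (rk : ℕ → ℕ) : Prop where
  card : ∀ p, ((up p).card : ℕ∞) ≤ k
  rk : ∀ p, ∀ q ∈ up p, rk p < rk q
  chord : ∀ p, ∀ q ∈ up p, ∀ r ∈ up p, q = r ∨ r ∈ up q ∨ q ∈ up r
  edge : ∀ e ∈ G.E, G.a e ∈ X → G.b e ∈ X →
    pt (G.a e) = pt (G.b e) ∨ pt (G.b e) ∈ up (pt (G.a e)) ∨ pt (G.a e) ∈ up (pt (G.b e))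

/-- `X` is partitioned into the hubs (elements of `H`) and atoms, quotient of width at most `k` -/
structure Parts (W : Set (Pc (Lb Ω))) (M : ℕ) (k : ℕ∞) (G : Gr (Lb Ω)) (X H : Finset ℕ) (pt : ℕ → ℕ)
    (up : ℕ → Finset ℕ) (rk : ℕ → ℕ) : Prop where
  elim : Elim G X k pt up rk
  sub : H ⊆ X
  hub : ∀ x ∈ H, ∀ y ∈ X, pt y = pt x → y = x
  atom : ∀ x ∈ X, x ∉ H → Atom W M G (fib X pt (pt x))

/-- thin closed graphs: only atoms -/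
def ThinC (W : Set (Pc (Lb Ω))) (M : ℕ) (k : ℕ∞) : Set (CG Ω) :=
  {P | Cls P ∧ ∃ pt up rk, Parts W M k P.G P.X ∅ pt up rk}

/-- all labels of `X` are below `T` -/
def LabT (G : Gr (Lb Ω)) (X : Finset ℕ) (T : ℕ) : Prop := ∀ x ∈ X, (G.lab x).v < T

/-- the set of the first `N + 1` hubs -/
def hs (N : ℕ) (b : ℕ → ℕ) : Finset ℕ := (Finset.range (N + 1)).image b

theorem mem_hs {N : ℕ} {b : ℕ → ℕ} {x : ℕ} : x ∈ hs N b ↔ ∃ i ≤ N, b i = x := by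
  simp only [hs, Finset.mem_image, Finset.mem_range]
  exact ⟨fun ⟨i, h, h'⟩ => ⟨i, by omega, h'⟩, fun ⟨i, h, h'⟩ => ⟨i, by omega, h'⟩⟩

/-- `U` contains exactly the first `i` hubs -/
def Fst (N : ℕ) (b : ℕ → ℕ) (i : ℕ) (U : Finset ℕ) : Prop := ∀ j ≤ N, b j ∈ U ↔ j < i

/-- segments: hubs `b 0, ..., b N` in a row; few edges pass a hub, many edges between two
consecutive hubs -/
structure IsSeg (W : Set (Pc (Lb Ω))) (M : ℕ) (k : ℕ∞) (m Θ T : ℕ) (P : (CG Ω)) (N : ℕ) (b : ℕ → ℕ) (pt : ℕ → ℕ)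
    (up : ℕ → Finset ℕ) (rk : ℕ → ℕ) : Prop where
  cls : Cls P
  binj : ∀ i ≤ N, ∀ j ≤ N, b i = b j → i = j
  parts : Parts W M k P.G P.X (hs N b) pt up rk
  lab : LabT P.G P.X T
  bis : ∀ i ≤ N, ∃ V ⊆ P.X, Fst N b i V ∧ eb P.G V {b i} ≤ m
  cut : ∀ i, 1 ≤ i → i ≤ N → ∀ L ⊆ P.X, Fst N b i L → Θ ≤ P.G.d L

/-- the class of segments -/
def SegC (W : Set (Pc (Lb Ω))) (M : ℕ) (k : ℕ∞) (m Θ T : ℕ) : Set (CG Ω) :=
  {P | ∃ N b pt up rk, IsSeg W M k m Θ T P N b pt up rk}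

/-- the edges crossing `pos ≤ 4 * i` -/
def cutE (P : (CG Ω)) (pos : ℕ → ℕ) (i : ℕ) : Finset ℕ :=
  P.G.bd (P.X.filter fun x => pos x ≤ 4 * i)

/-- the edges passing the hub number `i` -/
def strE (P : (CG Ω)) (pos : ℕ → ℕ) (i : ℕ) : Finset ℕ :=
  P.G.E.filter fun e => (pos (P.G.a e) = 4 * i + 2 ∧ pos (P.G.b e) = 4 * i + 4) ∨
    (pos (P.G.b e) = 4 * i + 2 ∧ pos (P.G.a e) = 4 * i + 4)

/-- linear closed graphs. Hub `i` (`0 ≤ i ≤ N`) has position `4 * i + 3`, all other vertices have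
even positions between `2` and `4 * N + 4`, edges join positions at distance at most `2` (so hubs are
only joined to the two neighbouring even positions). -/
structure IsLin (W : Set (Pc (Lb Ω))) (M : ℕ) (k : ℕ∞) (m Θ T : ℕ) (P : (CG Ω)) (N : ℕ) (b pos : ℕ → ℕ) (pt : ℕ → ℕ)
    (up : ℕ → Finset ℕ) (rk : ℕ → ℕ) : Prop where
  cls : Cls P
  parts : Parts W M k P.G P.X (hs N b) pt up rk
  lab : LabT P.G P.X T
  posb : ∀ i ≤ N, pos (b i) = 4 * i + 3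
  pose : ∀ x ∈ P.X, x ∉ hs N b → pos x % 2 = 0 ∧ 2 ≤ pos x ∧ pos x ≤ 4 * N + 4
  post : ∀ x ∈ P.X, ∀ y ∈ P.X, pt x = pt y → pos x = pos y
  edge : ∀ e ∈ P.G.E, pos (P.G.a e) ≤ pos (P.G.b e) + 2 ∧ pos (P.G.b e) ≤ pos (P.G.a e) + 2
  str : ∀ i ≤ N, (strE P pos i).card ≤ m
  cut : ∀ i, 1 ≤ i → i ≤ N → Θ ≤ (cutE P pos i).card
  loc : ∀ i, 1 ≤ i → i < N → ∀ U ⊆ P.X, (∀ x ∈ P.X, pos x ≤ 4 * i → x ∈ U) →
    (∀ x ∈ U, pos x ≤ 4 * i + 4) →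
    (b i ∈ U → (cutE P pos (i + 1)).card ≤ P.G.d U) ∧ (b i ∉ U → (cutE P pos i).card ≤ P.G.d U)

/-- the class of linear closed graphs -/
def LinC (W : Set (Pc (Lb Ω))) (M : ℕ) (k : ℕ∞) (m Θ T : ℕ) : Set (CG Ω) :=
  {P | ∃ N b pos pt up rk, IsLin W M k m Θ T P N b pos pt up rk}

/-- strong immersion of the graph with `t` vertices, any two joined by `t` parallel edges -/
def HasK {Q : Type} (t : ℕ) (G : Gr Q) : Prop :=
  ∃ (s : ℕ → ℕ) (Ψ : ℕ → ℕ → ℕ → Set ℕ), (∀ i < t, ∀ j < t, s i = s j → i = j) ∧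
    (∀ i j l, i < j → j < t → l < t → (∀ f ∈ Ψ i j l, f ∈ G.E) ∧ G.Conn (Ψ i j l) (s i) (s j) ∧
      ∀ q < t, q ≠ i → q ≠ j → ∀ f ∈ Ψ i j l, ¬ G.Inc f (s q)) ∧
    ∀ i j l i' j' l', i < j → j < t → l < t → i' < j' → j' < t → l' < t →
      ¬ (i = i' ∧ j = j' ∧ l = l') → Disjoint (Ψ i j l) (Ψ i' j' l')

/-- nodes: closed graphs whose hubs are pairwise highly edge-connected, without `K(t)` -/
structure IsNode (W : Set (Pc (Lb Ω))) (M M1 : ℕ) (k : ℕ∞) (t T : ℕ) (P : (CG Ω)) (B : Finset ℕ) (pt : ℕ → ℕ)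
    (up : ℕ → Finset ℕ) (rk : ℕ → ℕ) : Prop where
  cls : Cls P
  parts : Parts W M k P.G P.X B pt up rk
  lab : LabT P.G P.X T
  con : ∀ u ∈ B, ∀ v ∈ B, ∀ U ⊆ P.X, u ∈ U → v ∉ U → M1 ≤ P.G.d U
  free : ¬ HasK t P.G

/-- the class of nodes -/
def NodeC (W : Set (Pc (Lb Ω))) (M M1 : ℕ) (k : ℕ∞) (t T : ℕ) : Set (CG Ω) :=
  {P | ∃ B pt up rk, IsNode W M M1 k t T P B pt up rk}

/-- single vertices of degree less than `M` with a label less than `T` -/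
def Sing (M T : ℕ) : Set (Pc (Lb Ω)) :=
  {P | ∃ v, P.X = {v} ∧ P.n < M ∧ (P.G.lab v).v < T}

/-- the isomorphism of the piece `Y` of `G` with the piece `Y.image fv` of `G₂` given by `fv` on
vertices and `fe` on edges -/
structure PIso {Q : Type} (G : Gr Q) (Y : Finset ℕ) (G₂ : Gr Q) (fv fe : ℕ → ℕ) : Prop where
  inj : ∀ x ∈ Y, ∀ y ∈ Y, fv x = fv y → x = y
  einj : ∀ e ∈ G.E, ∀ f ∈ G.E, G.Touch Y e → G.Touch Y f → fe e = fe f → e = f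
  edges : ∀ g, (g ∈ G₂.E ∧ G₂.Touch (Y.image fv) g) ↔ ∃ e ∈ G.E, G.Touch Y e ∧ fe e = g
  inc : ∀ e ∈ G.E, G.Touch Y e → ∀ y ∈ Y, G.Inc e y ↔ G₂.Inc (fe e) (fv y)
  lab : ∀ y ∈ Y, G.lab y = G₂.lab (fv y)

end Pool.Agent.W2411ls
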