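import Mathlib
import Pool.Agent.W_2411ls_h59.Defs
import Pool.Agent.W_2411c4_h59.Linked
import Pool.Agent.W_2411c4_h59.Node

/-! The outer level: classes of closed graphs and the family of small critical cuts. -/

set_option autoImplicit false
set_option linter.unusedSectionVars false

open Set

namespace Pool.Agent.W2411ls

open Pool.Agent.W2411c4

variable {Ω : Type} [Preorder Ω] [Inhabited Ω]

/-- every quotient of a part of `X` by connected sets has an elimination order of width `k` -/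
def TWI {Q : Type} (G : Gr Q) (X : Finset ℕ) (k : ℕ∞) : Prop :=
  ∀ X' ⊆ X, ∀ pt : ℕ → ℕ, (∀ x ∈ X', ConnOn G (fib X' pt (pt x))) → ∃ up rk, Elim G X' k pt up rk

/-- connected closed graphs without `K(t)` of tree-width at most `k` -/
def OutC (t : ℕ) (k : ℕ∞) (T : ℕ) : Set (CG Ω) :=
  {P | Cls P ∧ P.X.Nonempty ∧ ConnOn P.G P.X ∧ LabT P.G P.X T ∧ ¬ HasK t P.G ∧ TWI P.G P.X k}

/-- closed graphs without `K(t)` of tree-width at most `k` -/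
def GenC (t : ℕ) (k : ℕ∞) (T : ℕ) : Set (CG Ω) :=
  {P | Cls P ∧ LabT P.G P.X T ∧ ¬ HasK t P.G ∧ TWI P.G P.X k}

/-- the outer family: cuts of order less than `M` -/
structure OF (P : (CG Ω)) (M : ℕ) (F : Finset (Finset ℕ)) : Prop where
  top : P.X ∈ F
  ne : ∀ L ∈ F, L.Nonempty
  sub : ∀ L ∈ F, L ⊆ P.X
  lam : ∀ A ∈ F, ∀ B ∈ F, Lam A B
  ord : ∀ L ∈ F, P.G.d L < M
  linked : Linked P.G F
  solid : ∀ L ∈ F, L ≠ P.X → Solid P.G L
  conn : ∀ L ∈ F, ConnOn P.G L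
  sep : ∀ L ∈ F, ∀ u ∈ L, ∀ v ∈ L, (∀ N ∈ F, N ⊂ L → (u ∈ N ↔ v ∈ N)) →
    ∀ U ⊆ P.X, u ∈ U → v ∉ U → M ≤ P.G.d U

/-- outer nodes -/
structure ON (Ω : Type) [Preorder Ω] [Inhabited Ω] (t : ℕ) (k : ℕ∞) (T M : ℕ) where
  P : (CG Ω)
  hP : P ∈ OutC t k T
  F : Finset (Finset ℕ)
  hF : OF P M F
  L : Finset ℕ
  hL : L ∈ F

/-- the node of another member -/
def ON.sub {t : ℕ} {k : ℕ∞} {T M : ℕ} (x : ON Ω t k T M) (Y : Finset ℕ) (h : Y ∈ x.F) : ON Ω t k T M :=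
  ⟨x.P, x.hP, x.F, x.hF, Y, h⟩

/-- the kids of a node -/
def kidsO {t : ℕ} {k : ℕ∞} {T M : ℕ} (x : ON Ω t k T M) : Set (ON Ω t k T M) :=
  {z | ∃ (Y : Finset ℕ) (h : IsKid x.F x.L Y), z = x.sub Y h.1}

/-- the piece of a node with an enumeration -/
def pcO {t : ℕ} {k : ℕ∞} {T M : ℕ} (p : (x : ON Ω t k T M) × En x.P.G x.L) : Pc (Lb Ω) := ⟨p.1.P.G, p.1.L, p.2⟩

end Pool.Agent.W2411ls
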