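import Mathlib
import Pool.Agent.W_2411ls_h59.Defs

/-! Rooted trees of connected sets. -/

set_option autoImplicit false

namespace Pool.Agent.W2411ls

/-- Abstract rooted form of a finite tree: a relation `anc i j` (`i` is an ancestor of or equal to
`j`), a depth, and for every nonempty connected set of nodes a top node.
PROOF. Fix a root `r`; in a tree there is a unique path between two nodes
(`SimpleGraph.IsTree.existsUnique_path`); `anc i j` iff `i` is on the path from `r` to `j`;
`dep j := T.dist r j` = length of the path. (1) reflexive. (2) two ancestors `i, i'` of `j` are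
comparable, and `anc i i'` if `dep i ≤ dep i'`: both are on one path, the part of the path up to `i'`
is the path from `r` to `i'`. (3) if `anc i j` then `dep i ≤ dep j`, equality only for `i = j`.
(4) for a set `S` with `T.induce S` connected there is `s ∈ S` with `anc s j` for all `j ∈ S`: take
`s ∈ S` with minimal depth; for a step `j ~ j'` in `S` either `j` is the parent of `j'` or conversely,
so the property `anc s j` propagates from `s` along walks in `S` (if `j'` is the parent of `j`,
`anc s j`, `j ≠ s` as otherwise `dep j' < dep s`, then `s` is on the path to `j'`). (5) for such `S`,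
`s`: if `j ∈ S`, `anc s i`, `anc i j` then `i ∈ S`: the path in `T` from `s` to `j` lies in `S`
(`T.induce S` connected gives a path in `S`, paths in `T` are unique) and contains `i`. -/
theorem exists_anc {ι : Type} (T : SimpleGraph ι) [Finite ι] (hT : T.IsTree) :
    ∃ (anc : ι → ι → Prop) (dep : ι → ℕ), (∀ i, anc i i) ∧
      (∀ i i' j, anc i j → anc i' j → dep i ≤ dep i' → anc i i') ∧
      (∀ i j, anc i j → dep i ≤ dep j ∧ (dep i = dep j → i = j)) ∧
      ∀ S : Set ι, (T.induce S).Connected → ∃ s ∈ S, (∀ j ∈ S, anc s j) ∧
        ∀ i, ∀ j ∈ S, anc s i → anc i j → i ∈ S := by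
  classical
  obtain ⟨r0⟩ := hT.1.nonempty
  have hP : ∀ t, ∃ P : T.Walk r0 t, P.IsPath ∧ ∀ q : T.Walk r0 t, q.IsPath → q = P := by
    intro t
    obtain ⟨P, h1, h2⟩ := hT.existsUnique_path r0 t
    exact ⟨P, h1, fun q hq => h2 q hq⟩
  choose P hPp hPu using hP
  have hlen : ∀ x t, x ∈ (P t).support → (P x).length ≤ (P t).length ∧
      ((P x).length = (P t).length → x = t) := by
    intro x t hx
    have h1 : ((P t).takeUntil x hx) = P x := hPu x _ ((hPp t).takeUntil hx)
    have h2 := congrArg SimpleGraph.Walk.length ((P t).take_spec hx)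
    rw [SimpleGraph.Walk.length_append, h1] at h2
    refine ⟨by omega, fun h3 => ?_⟩
    exact SimpleGraph.Walk.eq_of_length_eq_zero (p := (P t).dropUntil x hx) (by omega)
  refine ⟨fun i j => i ∈ (P j).support, fun j => (P j).length,
    fun i => SimpleGraph.Walk.end_mem_support _, ?_, hlen, ?_⟩
  · intro i i' j hi hi' hle
    have h1 : ((P j).takeUntil i' hi') = P i' := hPu i' _ ((hPp j).takeUntil hi')
    have h2 := (P j).take_spec hi'
    rw [h1] at h2
    rw [← h2, SimpleGraph.Walk.mem_support_append_iff] at hi
    rcases hi with hi | hi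
    · exact hi
    · have h3 := ((P j).dropUntil i' hi').take_spec hi
      have h4 : ((P i').append (((P j).dropUntil i' hi').takeUntil i hi)).IsPath := by
        have h5 := hPp j
        rw [← h2, ← h3, SimpleGraph.Walk.append_assoc] at h5
        exact h5.of_append_left
      have h5 := congrArg SimpleGraph.Walk.length (hPu i _ h4)
      rw [SimpleGraph.Walk.length_append] at h5
      have h6 : i' = i := SimpleGraph.Walk.eq_of_length_eq_zero
        (p := ((P j).dropUntil i' hi').takeUntil i hi) (by
          have : (P i).length ≤ (P i').length := hle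
          omega)
      rw [h6]
      exact SimpleGraph.Walk.end_mem_support _
  · intro S hS
    obtain ⟨⟨s0, hs0⟩⟩ := hS.nonempty
    have h1 : ∃ n, ∃ t ∈ S, (P t).length = n := ⟨_, s0, hs0, rfl⟩
    obtain ⟨s, hs, hn⟩ := Nat.find_spec h1
    have hmin : ∀ t ∈ S, (P s).length ≤ (P t).length := fun t ht => by
      rw [hn]
      exact Nat.find_min' h1 ⟨t, ht, rfl⟩
    have hsplit : ∀ t ∈ S, ∃ p : T.Walk s t, (∀ x ∈ p.support, x ∈ S) ∧
        P t = (P s).append p := by
      intro t ht
      obtain ⟨w⟩ := hS.preconnected ⟨s, hs⟩ ⟨t, ht⟩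
      let f : (T.induce S) →g T := (SimpleGraph.Embedding.induce S).toHom
      have hf : Function.Injective f := fun a b h => Subtype.ext h
      let q : T.Walk s t := (w.toPath : (T.induce S).Walk ⟨s, hs⟩ ⟨t, ht⟩).map f
      have hq : q.IsPath := SimpleGraph.Walk.map_isPath_of_injective hf w.toPath.2
      have hqS : ∀ x ∈ q.support, x ∈ S := by
        intro x hx
        have hx' : x ∈ ((w.toPath : (T.induce S).Walk ⟨s, hs⟩ ⟨t, ht⟩).map f).support := hx
        rw [SimpleGraph.Walk.support_map] at hx'
        obtain ⟨y, _, rfl⟩ := List.mem_map.1 hx'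
        exact y.2
      refine ⟨q, hqS, (hPu t _ ?_).symm⟩
      rw [SimpleGraph.Walk.isPath_def, SimpleGraph.Walk.support_append, List.nodup_append]
      have hnd : q.support.Nodup := (SimpleGraph.Walk.isPath_def q).1 hq
      have hcons : q.support = s :: q.support.tail := (SimpleGraph.Walk.cons_tail_support q).symm
      rw [hcons] at hnd
      refine ⟨(SimpleGraph.Walk.isPath_def _).1 (hPp _), (List.nodup_cons.1 hnd).2, ?_⟩
      intro x hx y hy hxy
      subst hxy
      have h2 := hmin x (hqS x (List.mem_of_mem_tail hy))
      have h3 := hlen _ _ hx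
      have h4 := h3.2 (by omega)
      exact (List.nodup_cons.1 hnd).1 (h4 ▸ hy)
    refine ⟨s, hs, ?_, ?_⟩
    · intro t ht
      obtain ⟨p, _, h2⟩ := hsplit t ht
      change s ∈ (P t).support
      rw [h2, SimpleGraph.Walk.mem_support_append_iff]
      exact Or.inl (SimpleGraph.Walk.end_mem_support _)
    · intro i j hj hsi hij
      obtain ⟨p, h2, h3⟩ := hsplit j hj
      change i ∈ (P j).support at hij
      rw [h3, SimpleGraph.Walk.mem_support_append_iff] at hij
      rcases hij with h4 | h4
      · have h5 := hlen _ _ h4
        have h6 := hlen _ _ hsi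
        rw [h5.2 (by omega)]
        exact hs
      · exact h2 i h4

end Pool.Agent.W2411ls
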