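import Mathlib
import Pool.Agent.W_2411c4_h59.Defs

/-! Tree-width of graphs with parallel edges. -/

set_option autoImplicit false

namespace Pool.Agent.W2411ls

open Pool.Agent.W2411c4

/-- `G` has a tree decomposition of width at most `k`: a finite tree `T` with a set of vertices
`β i` for each node `i`, each of at most `k + 1` vertices, such that the ends of every edge are
together in some `β i`, and for every vertex `v` the nodes `i` with `v ∈ β i` form a nonempty
connected subgraph of `T`. -/
def TreeWidthLE (G : MGraph) (k : ℕ) : Prop :=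
  ∃ (ι : Type) (T : SimpleGraph ι) (β : ι → Set G.V), Finite ι ∧ T.IsTree ∧
    (∀ v, (T.induce {i | v ∈ β i}).Connected) ∧
    (∀ e, ∃ i, ∀ v ∈ G.ends e, v ∈ β i) ∧ ∀ i, (β i).ncard ≤ k + 1

end Pool.Agent.W2411ls
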