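import Mathlib
import Pool.Agent.W_2411ls_h59.TreeA
import Pool.Agent.W_2411ls_h59.TwDef
import Pool.Agent.W_2411ls_h59.OutDef
import Pool.Agent.W_2411c4_h59.Conv

/-! From a tree decomposition to elimination orders of quotients. -/

set_option autoImplicit false
set_option linter.unusedSectionVars false

namespace Pool.Agent.W2411ls

open Pool.Agent.W2411c4

variable {Ω : Type} [Preorder Ω] [Inhabited Ω]

/-- Elimination order of a quotient. PROOF. `anc`, `dep` from `exists_anc`. For a part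
number `p` let `S p := {i | ∃ x ∈ X', pt x = p ∧ x ∈ β i}`. If the part is nonempty then `S p` is
nonempty and `T.induce (S p)` is connected: each `{i | x ∈ β i}` is connected, and for an edge `xy`
inside the part these sets meet; go along a connection inside the part (`ConnOn`, induction on
`Relation.ReflTransGen`). Let `top p` be its top node (junk for empty parts). Let `Mx` be a bound
greater than all part numbers `pt x`, `x ∈ X'` (and `Dm` greater than all depths of the finitely many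
nodes). For a nonempty part `p`:
`up p := {q ∈ X'.image pt | q ≠ p, top p ∈ S q, dep (top q) < dep (top p) ∨ (top q = top p ∧ p < q)}`;
`up p := ∅` for empty parts. `rk p := (Dm - dep (top p)) * Mx + p`.
`card`: every `q ∈ up p` has an element in `β (top p)`, different for different `q`, and `p` has one
too; `β (top p)` has at most `k + 1` elements. `rk`: clear. `chord`: `q, r ∈ up p`, `q ≠ r`:
`top q`, `top r` are ancestors of `top p` (`top p ∈ S q`, `top p ∈ S r`). Say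
`dep (top r) < dep (top q)`, or `top r = top q` and `q < r` (otherwise exchange; if the depths are
equal the tops are equal by (2), (3)). Then `anc (top r) (top q)`, `anc (top q) (top p)`,
`top p ∈ S r`, so `top q ∈ S r` by (5), so `r ∈ up q`. `edge`: `e` with ends `x, y ∈ X'`,
`p := pt x ≠ q := pt y`: some bag `β i` contains both, `i ∈ S p ∩ S q`; `top p`, `top q` are ancestors
of `i`. If `dep (top q) < dep (top p)` or (`top q = top p`, `p < q`) then `top p ∈ S q` by (5)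
(`anc (top q) (top p)` by (2)), so `q ∈ up p`; otherwise `p ∈ up q`. -/
theorem twi_of {Q : Type} {G : Gr Q} {X : Finset ℕ} {k : ℕ} {ι : Type} (T : SimpleGraph ι)
    [Finite ι] (hT : T.IsTree) (β : ι → Set ℕ)
    (hv : ∀ x ∈ X, (T.induce {i | x ∈ β i}).Connected)
    (he : ∀ e ∈ G.E, G.a e ∈ X → G.b e ∈ X → ∃ i, G.a e ∈ β i ∧ G.b e ∈ β i)
    (hβ : ∀ i, (β i).Finite) (hk : ∀ i, (β i).ncard ≤ k + 1) : TWI G X k := by
  classical
  obtain ⟨anc, dep, h1, h2, h3, h4⟩ := exists_anc T hT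
  intro X' hX' pt hpt
  let S : ℕ → Set ι := fun p => {i | ∃ x ∈ X', pt x = p ∧ x ∈ β i}
  have hne : ∀ p, (∃ x ∈ X', pt x = p) → (T.induce (S p)).Connected := by
    rintro p ⟨x0, hx0, hp0⟩
    have hC : ∀ x (hx : x ∈ fib X' pt p) i j (hi : x ∈ β i) (hj : x ∈ β j),
        (T.induce (S p)).Reachable ⟨i, ⟨x, (mem_fib.1 hx).1, (mem_fib.1 hx).2, hi⟩⟩
          ⟨j, ⟨x, (mem_fib.1 hx).1, (mem_fib.1 hx).2, hj⟩⟩ := by
      intro x hx i j hi hj
      have hsub : {i | x ∈ β i} ≤ S p := fun i hi => ⟨x, (mem_fib.1 hx).1, (mem_fib.1 hx).2, hi⟩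
      have h5 := (hv x (hX' (mem_fib.1 hx).1)).preconnected ⟨i, hi⟩ ⟨j, hj⟩
      exact h5.map (SimpleGraph.induceHomOfLE T hsub).toHom
    have key : ∀ x (hx : x ∈ fib X' pt p) i (hi : x ∈ β i) z,
        G.Conn (inE G (fib X' pt p)) x z → ∃ hz : z ∈ fib X' pt p, ∀ j (hj : z ∈ β j),
          (T.induce (S p)).Reachable ⟨i, ⟨x, (mem_fib.1 hx).1, (mem_fib.1 hx).2, hi⟩⟩
            ⟨j, ⟨z, (mem_fib.1 hz).1, (mem_fib.1 hz).2, hj⟩⟩ := by
      intro x hx i hi z hz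
      induction hz with
      | refl => exact ⟨hx, fun j hj => hC x hx i j hi hj⟩
      | @tail b c _ hbc ih =>
        obtain ⟨hb, hr⟩ := ih
        obtain ⟨f, hf, hend⟩ := hbc
        obtain ⟨hfE, hfa, hfb⟩ := hf
        have hcm : c ∈ fib X' pt p := by
          rcases hend with ⟨_, h⟩ | ⟨h, _⟩
          · exact h ▸ hfb
          · exact h ▸ hfa
        obtain ⟨i0, hi0, hi0'⟩ := he f hfE (hX' (mem_fib.1 hfa).1) (hX' (mem_fib.1 hfb).1)
        have hb0 : b ∈ β i0 ∧ c ∈ β i0 := by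
          rcases hend with ⟨h, h'⟩ | ⟨h, h'⟩
          · exact ⟨h ▸ hi0, h' ▸ hi0'⟩
          · exact ⟨h' ▸ hi0', h ▸ hi0⟩
        exact ⟨hcm, fun j hj => (hr i0 hb0.1).trans (hC c hcm i0 j hb0.2 hj)⟩
    have hx0' : x0 ∈ fib X' pt p := mem_fib.2 ⟨hx0, hp0⟩
    obtain ⟨⟨i0, hi0⟩⟩ := (hv x0 (hX' hx0)).nonempty
    have hNe : Nonempty ↑(S p) := ⟨⟨i0, ⟨x0, hx0, hp0, hi0⟩⟩⟩
    refine ⟨?_⟩
    · rintro ⟨i, x, hx, hpx, hi⟩ ⟨j, y, hy, hpy, hj⟩
      have h5 := hpt x hx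
      rw [hpx] at h5
      obtain ⟨hz, h6⟩ := key x (mem_fib.2 ⟨hx, hpx⟩) i hi y (h5 x (mem_fib.2 ⟨hx, hpx⟩) y
        (mem_fib.2 ⟨hy, hpy⟩))
      exact h6 j hj
  have htop : ∀ p, ∃ s, (∃ x ∈ X', pt x = p) → s ∈ S p ∧ (∀ j ∈ S p, anc s j) ∧
      ∀ i, ∀ j ∈ S p, anc s i → anc i j → i ∈ S p := by
    intro p
    by_cases hp : ∃ x ∈ X', pt x = p
    · obtain ⟨s, h5, h6, h7⟩ := h4 (S p) (hne p hp)
      exact ⟨s, fun _ => ⟨h5, h6, h7⟩⟩
    · obtain ⟨s⟩ := hT.1.nonempty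
      exact ⟨s, fun h => absurd h hp⟩
  choose top htop using htop
  let up : ℕ → Finset ℕ := fun p => if ∃ x ∈ X', pt x = p then
    (X'.image pt).filter fun q => q ≠ p ∧ top p ∈ S q ∧
      (dep (top q) < dep (top p) ∨ (top q = top p ∧ p < q)) else ∅
  have hup : ∀ p q, q ∈ up p ↔ (∃ x ∈ X', pt x = p) ∧ (∃ x ∈ X', pt x = q) ∧ q ≠ p ∧
      top p ∈ S q ∧ (dep (top q) < dep (top p) ∨ (top q = top p ∧ p < q)) := by
    intro p q
    by_cases hp : ∃ x ∈ X', pt x = p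
    · simp only [up, if_pos hp, Finset.mem_filter, Finset.mem_image]
      tauto
    · simp only [up, if_neg hp, Finset.notMem_empty, false_iff]
      exact fun h => hp h.1
  have mk : ∀ p q i, (∃ x ∈ X', pt x = p) → (∃ x ∈ X', pt x = q) → q ≠ p → anc (top p) i →
      i ∈ S q → (dep (top q) < dep (top p) ∨ (top q = top p ∧ p < q)) → q ∈ up p := by
    intro p q i hp hq hpq hpi hiq hd
    rw [hup]
    refine ⟨hp, hq, hpq, ?_, hd⟩
    obtain ⟨h5, h6, h7⟩ := htop q hq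
    refine h7 (top p) i hiq ?_ hpi
    rcases hd with hd | hd
    · exact h2 _ _ i (h6 i hiq) hpi hd.le
    · rw [hd.1]
      exact h1 _
  have total : ∀ p q i, (∃ x ∈ X', pt x = p) → (∃ x ∈ X', pt x = q) → q ≠ p → i ∈ S p →
      i ∈ S q → q ∈ up p ∨ p ∈ up q := by
    intro p q i hp hq hpq hip hiq
    have h5 := (htop p hp).2.1 i hip
    have h6 := (htop q hq).2.1 i hiq
    rcases lt_trichotomy (dep (top q)) (dep (top p)) with h7 | h7 | h7
    · exact Or.inl (mk p q i hp hq hpq h5 hiq (Or.inl h7))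
    · have h8 : top q = top p := (h3 _ _ (h2 _ _ i h6 h5 h7.le)).2 h7
      rcases lt_or_gt_of_ne hpq with h9 | h9
      · exact Or.inr (mk q p i hq hp hpq.symm h6 hip (Or.inr ⟨h8.symm, h9⟩))
      · exact Or.inl (mk p q i hp hq hpq h5 hiq (Or.inr ⟨h8, h9⟩))
    · exact Or.inr (mk q p i hq hp hpq.symm h6 hip (Or.inl h7))
  obtain ⟨Dm, hDm⟩ : ∃ D, ∀ i, dep i ≤ D := by
    obtain ⟨D, hD⟩ := (Set.finite_range dep).bddAbove
    exact ⟨D, fun i => hD ⟨i, rfl⟩⟩
  obtain ⟨Mx, hMx⟩ : ∃ M, ∀ x ∈ X', pt x < M := by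
    refine ⟨(X'.image pt).sup id + 1, fun x hx => Nat.lt_succ_of_le ?_⟩
    exact Finset.le_sup (f := id) (Finset.mem_image_of_mem pt hx)
  refine ⟨up, fun p => (Dm - dep (top p)) * Mx + p, ?_, ?_, ?_, ?_⟩
  · intro p
    by_cases hp : ∃ x ∈ X', pt x = p
    · have h5 : ∀ q ∈ insert p (up p), ∃ x, pt x = q ∧ x ∈ β (top p) := by
        intro q hq
        have h6 : top p ∈ S q := by
          rcases Finset.mem_insert.1 hq with rfl | hq
          · exact (htop q hp).1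
          · exact ((hup p q).1 hq).2.2.2.1
        obtain ⟨x, _, h7, h8⟩ := h6
        exact ⟨x, h7, h8⟩
      choose! g hg1 hg2 using h5
      have h6 : ((insert p (up p)).image g).card = (insert p (up p)).card := by
        apply Finset.card_image_of_injOn
        intro q hq q' hq' hqq
        have := congrArg pt hqq
        rwa [hg1 q hq, hg1 q' hq'] at this
      have h7 : ((insert p (up p)).image g).card ≤ (β (top p)).ncard := by
        rw [← Set.ncard_coe_finset]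
        apply Set.ncard_le_ncard _ (hβ _)
        intro x hx
        obtain ⟨q, hq, rfl⟩ := Finset.mem_image.1 hx
        exact hg2 q hq
      have h8 : p ∉ up p := fun h => ((hup p p).1 h).2.2.1 rfl
      rw [Finset.card_insert_of_notMem h8] at h6
      have h9 := hk (top p)
      exact Nat.cast_le.2 (by omega)
    · simp only [up, if_neg hp, Finset.card_empty]
      exact Nat.cast_le.2 (Nat.zero_le _)
  · intro p q hq
    obtain ⟨⟨x, hx, hpx⟩, _, _, _, h5⟩ := (hup p q).1 hq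
    have h6 := hMx x hx
    rcases h5 with h5 | ⟨h5, h7⟩
    · have h8 : (Dm - dep (top p)) + 1 ≤ Dm - dep (top q) := by
        have := hDm (top p)
        omega
      have h9 := Nat.mul_le_mul_right Mx h8
      rw [Nat.add_mul, one_mul] at h9
      omega
    · rw [h5]
      omega
  · intro p q hq r hr
    obtain ⟨_, h5, _, h6, _⟩ := (hup p q).1 hq
    obtain ⟨_, h7, _, h8, _⟩ := (hup p r).1 hr
    by_cases hqr : q = r
    · exact Or.inl hqr
    · exact Or.inr (total q r (top p) h5 h7 (fun h => hqr h.symm) h6 h8)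
  · intro e heE ha hb
    by_cases hpq : pt (G.a e) = pt (G.b e)
    · exact Or.inl hpq
    · obtain ⟨i, hi, hi'⟩ := he e heE (hX' ha) (hX' hb)
      exact Or.inr (total _ _ i ⟨_, ha, rfl⟩ ⟨_, hb, rfl⟩ (fun h => hpq h.symm)
        ⟨_, ha, rfl, hi⟩ ⟨_, hb, rfl, hi'⟩)

/-- the closed graph of a graph with labels `φ` -/
noncomputable def ofM (G : MGraph) (φ : G.V → Ω) : (CG Ω) :=
  ⟨G.toGr ∅ (fun v => (⟨0, φ v⟩ : (Lb Ω))) ⟨0, default⟩, G.cs Set.univ⟩

/-- PROOF. `MGraph.mem_E`, `a_cE`, `b_cE`, `mem_cs`. -/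
theorem ofM_cls (G : MGraph) (φ : G.V → Ω) : Cls (ofM G φ) := by
  intro e he
  obtain ⟨e', _, rfl⟩ := (G.mem_E ∅ (fun v => (⟨0, φ v⟩ : (Lb Ω))) ⟨0, default⟩).1 he
  change (G.toGr ∅ (fun v => (⟨0, φ v⟩ : (Lb Ω))) ⟨0, default⟩).a (G.cE e') ∈ G.cs Set.univ ∧
    (G.toGr ∅ (fun v => (⟨0, φ v⟩ : (Lb Ω))) ⟨0, default⟩).b (G.cE e') ∈ G.cs Set.univ
  rw [G.a_cE, G.b_cE]
  exact ⟨G.cV_mem.2 (Set.mem_univ _), G.cV_mem.2 (Set.mem_univ _)⟩

/-- PROOF. `lab_cV`. -/
theorem ofM_lab (G : MGraph) (φ : G.V → Ω) : LabT (ofM G φ).G (ofM G φ).X 1 := by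
  intro x hx
  obtain ⟨v, _, rfl⟩ := G.mem_cs.1 hx
  change ((G.toGr ∅ (fun v => (⟨0, φ v⟩ : (Lb Ω))) ⟨0, default⟩).lab (G.cV v)).v < 1
  rw [G.lab_cV]
  exact Nat.zero_lt_one

/-- PROOF. `twi_of` with the bags `G.cV '' β i` (finite, `cV` injective;
`G.V` is finite by `G.finV`). -/
theorem ofM_twi {G : MGraph} (φ : G.V → Ω) {k : ℕ} (h : TreeWidthLE G k) :
    TWI (ofM G φ).G (ofM G φ).X k := by
  obtain ⟨ι, T, β, hι, hT, hv, he, hk⟩ := h
  have := hι
  have := G.finV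
  refine twi_of T hT (fun i => G.cV '' β i) ?_ ?_ ?_ ?_
  · intro x hx
    obtain ⟨v, _, rfl⟩ := G.mem_cs.1 hx
    have h1 : {i | G.cV v ∈ G.cV '' β i} = {i | v ∈ β i} := by
      ext i
      constructor
      · rintro ⟨w, hw, h⟩
        rwa [← G.cV_inj h]
      · exact fun h => ⟨v, h, rfl⟩
    rw [h1]
    exact hv v
  · intro e he' _ _
    obtain ⟨e', _, rfl⟩ := (G.mem_E ∅ (fun v => (⟨0, φ v⟩ : (Lb Ω))) ⟨0, default⟩).1 he'
    change ∃ i, (G.toGr ∅ (fun v => (⟨0, φ v⟩ : (Lb Ω))) ⟨0, default⟩).a (G.cE e') ∈ G.cV '' β i ∧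
      (G.toGr ∅ (fun v => (⟨0, φ v⟩ : (Lb Ω))) ⟨0, default⟩).b (G.cE e') ∈ G.cV '' β i
    rw [G.a_cE, G.b_cE]
    obtain ⟨i, hi⟩ := he e'
    exact ⟨i, ⟨_, hi _ (G.mem_ends.2 (Or.inl rfl)), rfl⟩,
      ⟨_, hi _ (G.mem_ends.2 (Or.inr rfl)), rfl⟩⟩
  · intro i
    exact (Set.toFinite (β i)).image _
  · intro i
    rw [Set.ncard_image_of_injective _ (fun _ _ h => G.cV_inj h)]
    exact hk i

end Pool.Agent.W2411ls
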