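import Mathlib
import Pool.Agent.W_2411ls_h59.OutDef

/-! Elimination orders of quotients from an abstract rooted tree decomposition (ancestor relation). -/

set_option autoImplicit false

namespace Pool.Agent.W2411ls

open Pool.Agent.W2411c4

/-- `anc i j`: `i` is an ancestor of or equal to `j`; `β i` are the bags. -/
theorem twi_anc {Q : Type} {G : Gr Q} {X : Finset ℕ} {k : ℕ} {ι : Type} (anc : ι → ι → Prop)
    (dep : ι → ℕ) (h1 : ∀ i, anc i i) (htr : ∀ i j l, anc i j → anc j l → anc i l)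
    (h2 : ∀ i i' j, anc i j → anc i' j → dep i ≤ dep i' → anc i i')
    (h3 : ∀ i j, anc i j → dep i ≤ dep j ∧ (dep i = dep j → i = j)) (β : ι → Set ℕ)
    (hv : ∀ x ∈ X, ∃ s, x ∈ β s ∧ (∀ j, x ∈ β j → anc s j) ∧
      ∀ i j, anc s i → anc i j → x ∈ β j → x ∈ β i)
    (he : ∀ e ∈ G.E, G.a e ∈ X → G.b e ∈ X → ∃ i, G.a e ∈ β i ∧ G.b e ∈ β i)
    (hβ : ∀ i, (β i).Finite) (hk : ∀ i, (β i).ncard ≤ k + 1) : TWI G X k := by
  classical
  intro X' hX' pt hpt
  let S : ℕ → Set ι := fun p => {i | ∃ x ∈ X', pt x = p ∧ x ∈ β i}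
  have htop : ∀ p, (∃ x ∈ X', pt x = p) → ∃ s, s ∈ S p ∧ (∀ j ∈ S p, anc s j) ∧
      ∀ i, ∀ j ∈ S p, anc s i → anc i j → i ∈ S p := by
    rintro p ⟨x1, hx1, hp1⟩
    have h5 : ∃ n, ∃ i ∈ S p, dep i = n := by
      obtain ⟨s, hs, _⟩ := hv x1 (hX' hx1)
      exact ⟨_, s, ⟨x1, hx1, hp1, hs⟩, rfl⟩
    obtain ⟨s, ⟨x0, hx0, hp0, hs0⟩, hn⟩ := Nat.find_spec h5
    have hmin : ∀ i ∈ S p, dep s ≤ dep i := fun i hi => by
      rw [hn]
      exact Nat.find_min' h5 ⟨i, hi, rfl⟩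
    have key : ∀ z, G.Conn (inE G (fib X' pt p)) x0 z → z ∈ fib X' pt p ∧
        ∀ j, z ∈ β j → anc s j ∧ ∀ i, anc s i → anc i j → i ∈ S p := by
      intro z hz
      induction hz with
      | refl =>
        refine ⟨mem_fib.2 ⟨hx0, hp0⟩, fun j hj => ?_⟩
        obtain ⟨s', h6, h7, h8⟩ := hv x0 (hX' hx0)
        have h9 : s' = s := by
          have h10 := h3 _ _ (h7 s hs0)
          have h11 := hmin s' ⟨x0, hx0, hp0, h6⟩
          exact h10.2 (by omega)
        rw [h9] at h7 h8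
        exact ⟨h7 j hj, fun i hi hij => ⟨x0, hx0, hp0, h8 i j hi hij hj⟩⟩
      | @tail b c _ hbc ih =>
        obtain ⟨hb, hr⟩ := ih
        obtain ⟨f, hf, hend⟩ := hbc
        obtain ⟨hfE, hfa, hfb⟩ := hf
        have hcm : c ∈ fib X' pt p := by
          rcases hend with ⟨_, h⟩ | ⟨h, _⟩
          · exact h ▸ hfb
          · exact h ▸ hfa
        obtain ⟨i0, hi0, hi0'⟩ := he f hfE (hX' (mem_fib.1 hfa).1) (hX' (mem_fib.1 hfb).1)
        have hb0 : b ∈ β i0 ∧ c ∈ β i0 := by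
          rcases hend with ⟨h, h'⟩ | ⟨h, h'⟩
          · exact ⟨h ▸ hi0, h' ▸ hi0'⟩
          · exact ⟨h' ▸ hi0', h ▸ hi0⟩
        obtain ⟨hcX, hcp⟩ := mem_fib.1 hcm
        obtain ⟨u, h6, h7, h8⟩ := hv c (hX' hcX)
        obtain ⟨hs1, hs2⟩ := hr i0 hb0.1
        have hui := h7 i0 hb0.2
        have hsu : anc s u := h2 _ _ _ hs1 hui (hmin u ⟨c, hcX, hcp, h6⟩)
        refine ⟨hcm, fun j hj => ⟨htr _ _ _ hsu (h7 j hj), fun i hi hij => ?_⟩⟩
        rcases le_total (dep u) (dep i) with h9 | h9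
        · exact ⟨c, hcX, hcp, h8 i j (h2 _ _ _ (h7 j hj) hij h9) hij hj⟩
        · exact hs2 i hi (htr _ _ _ (h2 _ _ _ hij (h7 j hj) h9) hui)
    have hconn : ∀ j ∈ S p, anc s j ∧ ∀ i, anc s i → anc i j → i ∈ S p := by
      rintro j ⟨y, hy, hpy, hj⟩
      have h6 := hpt x0 hx0
      rw [hp0] at h6
      exact (key y (h6 x0 (mem_fib.2 ⟨hx0, hp0⟩) y (mem_fib.2 ⟨hy, hpy⟩))).2 j hj
    exact ⟨s, ⟨x0, hx0, hp0, hs0⟩, fun j hj => (hconn j hj).1,
      fun i j hj hi hij => (hconn j hj).2 i hi hij⟩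
  by_cases hX0 : X' = ∅
  · refine ⟨fun _ => ∅, fun _ => 0, fun _ => by simp, fun p q hq => by simp at hq,
      fun p q hq => by simp at hq, fun e _ ha => ?_⟩
    rw [hX0] at ha
    exact absurd ha (Finset.notMem_empty _)
  obtain ⟨w0, hw0⟩ := Finset.nonempty_iff_ne_empty.2 hX0
  obtain ⟨i0, _⟩ := htop _ ⟨w0, hw0, rfl⟩
  have htop2 : ∀ p, ∃ s, (∃ x ∈ X', pt x = p) → s ∈ S p ∧ (∀ j ∈ S p, anc s j) ∧
      ∀ i, ∀ j ∈ S p, anc s i → anc i j → i ∈ S p := by
    intro p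
    by_cases hp : ∃ x ∈ X', pt x = p
    · obtain ⟨s, h5⟩ := htop p hp
      exact ⟨s, fun _ => h5⟩
    · exact ⟨i0, fun h => absurd h hp⟩
  choose top htop using htop2
  let up : ℕ → Finset ℕ := fun p => if ∃ x ∈ X', pt x = p then
    (X'.image pt).filter fun q => q ≠ p ∧ top p ∈ S q ∧
      (dep (top q) < dep (top p) ∨ (top q = top p ∧ p < q)) else ∅
  have hup : ∀ p q, q ∈ up p ↔ (∃ x ∈ X', pt x = p) ∧ (∃ x ∈ X', pt x = q) ∧ q ≠ p ∧
      top p ∈ S q ∧ (dep (top q) < dep (top p) ∨ (top q = top p ∧ p < q)) := by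
    intro p q
    by_cases hp : ∃ x ∈ X', pt x = p
    · simp only [up, if_pos hp, Finset.mem_filter, Finset.mem_image]
      tauto
    · simp only [up, if_neg hp, Finset.notMem_empty, false_iff]
      exact fun h => hp h.1
  have mk : ∀ p q i, (∃ x ∈ X', pt x = p) → (∃ x ∈ X', pt x = q) → q ≠ p → anc (top p) i →
      i ∈ S q → (dep (top q) < dep (top p) ∨ (top q = top p ∧ p < q)) → q ∈ up p := by
    intro p q i hp hq hpq hpi hiq hd
    rw [hup]
    refine ⟨hp, hq, hpq, ?_, hd⟩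
    obtain ⟨h5, h6, h7⟩ := htop q hq
    refine h7 (top p) i hiq ?_ hpi
    rcases hd with hd | hd
    · exact h2 _ _ i (h6 i hiq) hpi hd.le
    · rw [hd.1]
      exact h1 _
  have total : ∀ p q i, (∃ x ∈ X', pt x = p) → (∃ x ∈ X', pt x = q) → q ≠ p → i ∈ S p →
      i ∈ S q → q ∈ up p ∨ p ∈ up q := by
    intro p q i hp hq hpq hip hiq
    have h5 := (htop p hp).2.1 i hip
    have h6 := (htop q hq).2.1 i hiq
    rcases lt_trichotomy (dep (top q)) (dep (top p)) with h7 | h7 | h7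
    · exact Or.inl (mk p q i hp hq hpq h5 hiq (Or.inl h7))
    · have h8 : top q = top p := (h3 _ _ (h2 _ _ i h6 h5 h7.le)).2 h7
      rcases lt_or_gt_of_ne hpq with h9 | h9
      · exact Or.inr (mk q p i hq hp hpq.symm h6 hip (Or.inr ⟨h8.symm, h9⟩))
      · exact Or.inl (mk p q i hp hq hpq h5 hiq (Or.inr ⟨h8, h9⟩))
    · exact Or.inr (mk q p i hq hp hpq.symm h6 hip (Or.inl h7))
  obtain ⟨Dm, hDm⟩ : ∃ D, ∀ p ∈ X'.image pt, dep (top p) ≤ D :=
    ⟨(X'.image pt).sup fun p => dep (top p),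
      fun p hp => Finset.le_sup (f := fun p => dep (top p)) hp⟩
  obtain ⟨Mx, hMx⟩ : ∃ M, ∀ x ∈ X', pt x < M := by
    refine ⟨(X'.image pt).sup id + 1, fun x hx => Nat.lt_succ_of_le ?_⟩
    exact Finset.le_sup (f := id) (Finset.mem_image_of_mem pt hx)
  refine ⟨up, fun p => (Dm - dep (top p)) * Mx + p, ?_, ?_, ?_, ?_⟩
  · intro p
    by_cases hp : ∃ x ∈ X', pt x = p
    · have h5 : ∀ q ∈ insert p (up p), ∃ x, pt x = q ∧ x ∈ β (top p) := by
        intro q hq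
        have h6 : top p ∈ S q := by
          rcases Finset.mem_insert.1 hq with rfl | hq
          · exact (htop q hp).1
          · exact ((hup p q).1 hq).2.2.2.1
        obtain ⟨x, _, h7, h8⟩ := h6
        exact ⟨x, h7, h8⟩
      choose! g hg1 hg2 using h5
      have h6 : ((insert p (up p)).image g).card = (insert p (up p)).card := by
        apply Finset.card_image_of_injOn
        intro q hq q' hq' hqq
        have := congrArg pt hqq
        rwa [hg1 q hq, hg1 q' hq'] at this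
      have h7 : ((insert p (up p)).image g).card ≤ (β (top p)).ncard := by
        rw [← Set.ncard_coe_finset]
        apply Set.ncard_le_ncard _ (hβ _)
        intro x hx
        obtain ⟨q, hq, rfl⟩ := Finset.mem_image.1 hx
        exact hg2 q hq
      have h8 : p ∉ up p := fun h => ((hup p p).1 h).2.2.1 rfl
      rw [Finset.card_insert_of_notMem h8] at h6
      have h9 := hk (top p)
      exact Nat.cast_le.2 (by omega)
    · simp only [up, if_neg hp, Finset.card_empty]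
      exact Nat.cast_le.2 (Nat.zero_le _)
  · intro p q hq
    obtain ⟨⟨x, hx, hpx⟩, _, _, _, h5⟩ := (hup p q).1 hq
    have h6 := hMx x hx
    rcases h5 with h5 | ⟨h5, h7⟩
    · have h8 : (Dm - dep (top p)) + 1 ≤ Dm - dep (top q) := by
        have := hDm p (Finset.mem_image.2 ⟨x, hx, hpx⟩)
        omega
      have h9 := Nat.mul_le_mul_right Mx h8
      rw [Nat.add_mul, one_mul] at h9
      omega
    · rw [h5]
      omega
  · intro p q hq r hr
    obtain ⟨_, h5, _, h6, _⟩ := (hup p q).1 hq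
    obtain ⟨_, h7, _, h8, _⟩ := (hup p r).1 hr
    by_cases hqr : q = r
    · exact Or.inl hqr
    · exact Or.inr (total q r (top p) h5 h7 (fun h => hqr h.symm) h6 h8)
  · intro e heE ha hb
    by_cases hpq : pt (G.a e) = pt (G.b e)
    · exact Or.inl hpq
    · obtain ⟨i, hi, hi'⟩ := he e heE (hX' ha) (hX' hb)
      exact Or.inr (total _ _ i ⟨_, ha, rfl⟩ ⟨_, hb, rfl⟩ (fun h => hpq h.symm)
        ⟨_, ha, rfl, hi⟩ ⟨_, hb, rfl, hi'⟩)

end Pool.Agent.W2411ls
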