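import Mathlib
import Pool.Agent.W_2411ls_h59.Defs
import Pool.Agent.W_2411c4_h59.Hubs

/-! Splitting of a node into apices and typed pieces. -/

set_option autoImplicit false
set_option linter.unusedSectionVars false

namespace Pool.Agent.W2411ls

open Pool.Agent.W2411c4

variable {Ω : Type} [Preorder Ω] [Inhabited Ω]

/-- `P.X` is partitioned into the apices `α 0, ..., α (s-1)` and the pieces `Pi 0, ..., Pi r`; the
type of an edge from a piece to the apex `α j` is `T + j`, the edges between different pieces have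
distinct types in `[T + a, T + a + ρ)`. -/
structure ND (P : (CG Ω)) (T a ρ s r : ℕ) (α : ℕ → ℕ) (Pi : ℕ → Finset ℕ) (ty : ℕ → ℕ) : Prop where
  cls : Cls P
  lab : LabT P.G P.X T
  sa : s ≤ a
  αX : ∀ j < s, α j ∈ P.X
  αinj : ∀ i < s, ∀ j < s, α i = α j → i = j
  sub : ∀ i ≤ r, Pi i ⊆ P.X
  cov : ∀ x ∈ P.X, (∃ j < s, α j = x) ∨ ∃ i ≤ r, x ∈ Pi i
  dA : ∀ j < s, ∀ i ≤ r, α j ∉ Pi i
  dj : ∀ i ≤ r, ∀ l ≤ r, i ≠ l → Disjoint (Pi i) (Pi l)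
  tyA : ∀ i ≤ r, ∀ e ∈ P.G.bd (Pi i), ∀ j < s, P.G.Inc e (α j) → ty e = T + j
  tyN : ∀ i ≤ r, ∀ e ∈ P.G.bd (Pi i), (∀ j < s, ¬ P.G.Inc e (α j)) → T + a ≤ ty e ∧ ty e < T + a + ρ
  tyI : ∀ i ≤ r, ∀ e ∈ P.G.bd (Pi i), (∀ j < s, ¬ P.G.Inc e (α j)) →
    ∀ l ≤ r, ∀ f ∈ P.G.bd (Pi l), (∀ j < s, ¬ P.G.Inc f (α j)) → ty e = ty f → e = f

end Pool.Agent.W2411ls
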