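import Mathlib
import Pool.Agent.W_2411ls_h59.Defs

/-! The structure of nodes. -/

set_option autoImplicit false
set_option linter.unusedSectionVars false

namespace Pool.Agent.W2411ls

open Pool.Agent.W2411c4

variable {Ω : Type} [Preorder Ω] [Inhabited Ω]

/-- Structure of a closed graph `P` with hub set `B`: a bounded set `A` of hubs, `r` disjoint regions
`R 0, ..., R (r-1)` of `P.X \ A` (unions of parts) that contain all other hubs; the hubs of `R s` are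
`bs s 0, ..., bs s (Ns s)`, few edges pass a hub inside `R s`, many edges between consecutive hubs. -/
structure IsStr (P : (CG Ω)) (B : Finset ℕ) (pt : ℕ → ℕ) (a m Θ κ : ℕ) (A : Finset ℕ) (r : ℕ)
    (R : ℕ → Finset ℕ) (Ns : ℕ → ℕ) (bs : ℕ → ℕ → ℕ) : Prop where
  AB : A ⊆ B
  cardA : A.card ≤ a
  sub : ∀ s < r, R s ⊆ P.X
  dA : ∀ s < r, Disjoint (R s) A
  disj : ∀ s < r, ∀ s' < r, s ≠ s' → Disjoint (R s) (R s')
  resp : ∀ s < r, ∀ x ∈ P.X, ∀ y ∈ P.X, pt x = pt y → x ∈ R s → y ∈ R s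
  cover : ∀ x ∈ B, x ∉ A → ∃ s < r, x ∈ R s
  ord : ∀ s < r, eb P.G (R s) A ≤ κ
  binj : ∀ s < r, ∀ i ≤ Ns s, ∀ j ≤ Ns s, bs s i = bs s j → i = j
  hubs : ∀ s < r, ∀ x, x ∈ hs (Ns s) (bs s) ↔ x ∈ B ∧ x ∈ R s
  bis : ∀ s < r, ∀ i ≤ Ns s, ∃ V ⊆ R s, Fst (Ns s) (bs s) i V ∧
    ee P.G V ((R s \ V) \ {bs s i}) ≤ m
  cut : ∀ s < r, ∀ i, 1 ≤ i → i ≤ Ns s → ∀ L ⊆ R s, Fst (Ns s) (bs s) i L →
    Θ ≤ ee P.G L (R s \ L)

end Pool.Agent.W2411ls
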