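import Mathlib
import Pool.Agent.W_2411ls_h59.NdDef
import Pool.Agent.W_2411ls_h59.StrDef

/-! Every node has a splitting. -/

set_option autoImplicit false
set_option linter.unusedSectionVars false

namespace Pool.Agent.W2411ls

open Pool.Agent.W2411c4

variable {Ω : Type} [Preorder Ω] [Inhabited Ω]

/-- PROOF. `s := |A|`, `α` an enumeration of `A` (`exists_enumN` in W_2411c4_h59/Hubs.lean).
`Pi i := R i` for `i < r` and `Pi r := (P.X \ A) \ ⋃ i < r, R i`. The set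
`S := {e ∈ E | no end of e in A, e not inside any Pi i}`: every `e ∈ S` has its ends in two different
`Pi i` (`Cls`, cover), at least one of them with `i < r`, so `e` is counted by `eb P.G (R i) A`;
`|S| ≤ r * κ ≤ r0 * κ` (`Finset.card_biUnion_le`). Let `num` be an injection of `S` into
`{0, ..., r0 * κ - 1}` (`exists_inj` in W_2411c4_h59/Hubs.lean). `ty e := T + j` if `e` has the end
`α j` for some `j < s` (choose one; a boundary edge of a piece has at most one apex end), and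
`T + a + num e` otherwise. `Resp`-property of `Pi r` in the last statement: a part meeting `Pi r`
does not meet `A` (elements of `A ⊆ B` are alone in their parts) nor `R i` (`resp`). No element of
`B` is in `Pi r` (`cover`). -/
theorem exists_nd {W : Set (Pc (Lb Ω))} {M M1 : ℕ} {k : ℕ∞} {t T a m Θ κ r0 : ℕ} {P : (CG Ω)} {B : Finset ℕ}
    {pt : ℕ → ℕ} {up : ℕ → Finset ℕ} {rk : ℕ → ℕ} (h : IsNode W M M1 k t T P B pt up rk)
    {A : Finset ℕ} {r : ℕ} {R : ℕ → Finset ℕ} {Ns : ℕ → ℕ} {bs : ℕ → ℕ → ℕ} (hr : r ≤ r0)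
    (hs : IsStr P B pt a m Θ κ A r R Ns bs) :
    ∃ s α Pi ty, ND P T a (r0 * κ) s r α Pi ty ∧ (∀ i < r, Pi i = R i) ∧
      Disjoint B (Pi r) ∧ ∀ x ∈ Pi r, ∀ y ∈ P.X, pt x = pt y → y ∈ Pi r := by
  classical
  have hAX : A ⊆ P.X := hs.AB.trans h.parts.sub
  obtain ⟨α, hα, hαi⟩ := exists_enumN A
  obtain ⟨Pi, hPi⟩ : ∃ Pi : ℕ → Finset ℕ, Pi = fun i => if i < r then R i else
    (P.X \ A) \ (Finset.range r).biUnion R := ⟨_, rfl⟩
  have hlt : ∀ i < r, Pi i = R i := fun i hi => by rw [hPi]; exact if_pos hi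
  have hr' : Pi r = (P.X \ A) \ (Finset.range r).biUnion R := by
    rw [hPi]; exact if_neg (lt_irrefl r)
  have memr : ∀ x, x ∈ Pi r ↔ (x ∈ P.X ∧ x ∉ A) ∧ ∀ i < r, x ∉ R i := by
    intro x
    rw [hr', Finset.mem_sdiff, Finset.mem_sdiff, Finset.mem_biUnion]
    refine and_congr_right fun _ => ?_
    constructor
    · intro h1 i hi hx
      exact h1 ⟨i, Finset.mem_range.2 hi, hx⟩
    · rintro h1 ⟨i, hi, hx⟩
      exact h1 i (Finset.mem_range.1 hi) hx
  have sub : ∀ i ≤ r, Pi i ⊆ P.X := by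
    intro i hi
    rcases Nat.lt_or_eq_of_le hi with h1 | rfl
    · rw [hlt i h1]; exact hs.sub i h1
    · intro x hx
      exact ((memr x).1 hx).1.1
  have dA : ∀ i ≤ r, ∀ x ∈ Pi i, x ∉ A := by
    intro i hi x hx
    rcases Nat.lt_or_eq_of_le hi with h1 | rfl
    · rw [hlt i h1] at hx
      exact Finset.disjoint_left.1 (hs.dA i h1) hx
    · exact ((memr x).1 hx).1.2
  have dj : ∀ i ≤ r, ∀ l ≤ r, ∀ x ∈ Pi i, x ∈ Pi l → i = l := by
    intro i hi l hl x hx hx'
    by_contra hne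
    rcases Nat.lt_or_eq_of_le hi with h1 | h1
    · rcases Nat.lt_or_eq_of_le hl with h2 | h2
      · rw [hlt i h1] at hx
        rw [hlt l h2] at hx'
        exact Finset.disjoint_left.1 (hs.disj i h1 l h2 hne) hx hx'
      · rw [hlt i h1] at hx
        rw [h2] at hx'
        exact ((memr x).1 hx').2 i h1 hx
    · rcases Nat.lt_or_eq_of_le hl with h2 | h2
      · rw [hlt l h2] at hx'
        rw [h1] at hx
        exact ((memr x).1 hx).2 l h2 hx'
      · exact hne (h1.trans h2.symm)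
  have cov : ∀ x ∈ P.X, x ∉ A → ∃ i ≤ r, x ∈ Pi i := by
    intro x hx hxA
    by_cases h1 : ∃ i < r, x ∈ R i
    · obtain ⟨i, hi, hxi⟩ := h1
      exact ⟨i, hi.le, by rw [hlt i hi]; exact hxi⟩
    · exact ⟨r, le_rfl, (memr x).2 ⟨⟨hx, hxA⟩, fun i hi hxi => h1 ⟨i, hi, hxi⟩⟩⟩
  -- edges between different pieces
  obtain ⟨S, hS⟩ : ∃ S : Finset ℕ, S = P.G.E.filter fun e => P.G.a e ∉ A ∧ P.G.b e ∉ A ∧
    ∀ i ≤ r, ¬ (P.G.a e ∈ Pi i ∧ P.G.b e ∈ Pi i) := ⟨_, rfl⟩
  have memS : ∀ e, e ∈ S ↔ e ∈ P.G.E ∧ P.G.a e ∉ A ∧ P.G.b e ∉ A ∧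
      ∀ i ≤ r, ¬ (P.G.a e ∈ Pi i ∧ P.G.b e ∈ Pi i) := by
    intro e
    rw [hS, Finset.mem_filter]
  have hSc : S.card ≤ (Finset.range (r0 * κ)).card := by
    have h1 : S ⊆ (Finset.range r).biUnion fun i => P.G.E.filter fun e =>
        (P.G.a e ∈ R i ∧ P.G.b e ∉ R i ∧ P.G.b e ∉ A) ∨
        (P.G.b e ∈ R i ∧ P.G.a e ∉ R i ∧ P.G.a e ∉ A) := by
      intro e he
      obtain ⟨heE, ha, hb, hin⟩ := (memS e).1 he
      obtain ⟨i, hi, hai⟩ := cov _ (h.cls e heE).1 ha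
      obtain ⟨l, hl, hbl⟩ := cov _ (h.cls e heE).2 hb
      rw [Finset.mem_biUnion]
      have hil : i ≠ l := by
        rintro rfl
        exact hin i hi ⟨hai, hbl⟩
      rcases Nat.lt_or_eq_of_le hi with h1 | h1
      · refine ⟨i, Finset.mem_range.2 h1, Finset.mem_filter.2 ⟨heE, Or.inl ⟨?_, ?_, hb⟩⟩⟩
        · rw [← hlt i h1]; exact hai
        · intro hc
          rw [← hlt i h1] at hc
          exact hin i hi ⟨hai, hc⟩
      · have h2 : l < r := by
          rcases Nat.lt_or_eq_of_le hl with h2 | h2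
          · exact h2
          · exact absurd (h1.trans h2.symm) hil
        refine ⟨l, Finset.mem_range.2 h2, Finset.mem_filter.2 ⟨heE, Or.inr ⟨?_, ?_, ha⟩⟩⟩
        · rw [← hlt l h2]; exact hbl
        · intro hc
          rw [← hlt l h2] at hc
          exact hin l hl ⟨hc, hbl⟩
    have h2 := Finset.card_biUnion_le_card_mul (Finset.range r) (fun i => P.G.E.filter fun e =>
        (P.G.a e ∈ R i ∧ P.G.b e ∉ R i ∧ P.G.b e ∉ A) ∨
        (P.G.b e ∈ R i ∧ P.G.a e ∉ R i ∧ P.G.a e ∉ A)) κ (by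
          intro i hi
          have h3 := hs.ord i (Finset.mem_range.1 hi)
          unfold eb at h3
          convert h3)
    rw [Finset.card_range] at h2 ⊢
    exact ((Finset.card_le_card h1).trans h2).trans (Nat.mul_le_mul_right κ hr)
  obtain ⟨num, hn1, hn2⟩ := exists_inj S (Finset.range (r0 * κ)) hSc
  have bdS : ∀ i ≤ r, ∀ e ∈ P.G.bd (Pi i), (∀ j < A.card, ¬ P.G.Inc e (α j)) → e ∈ S := by
    intro i hi e he hno
    obtain ⟨heE, hc⟩ := P.G.mem_bd.1 he
    refine (memS e).2 ⟨heE, ?_, ?_, ?_⟩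
    · intro hA
      obtain ⟨l, hl, hl'⟩ := (hα _).1 hA
      exact hno l hl (Or.inl hl'.symm)
    · intro hA
      obtain ⟨l, hl, hl'⟩ := (hα _).1 hA
      exact hno l hl (Or.inr hl'.symm)
    · rintro l hl ⟨h1, h2⟩
      rcases hc with ⟨h3, h4⟩ | ⟨h3, h4⟩
      · have := dj i hi l hl _ h3 h1
        subst this
        exact h4 h2
      · have := dj i hi l hl _ h4 h2
        subst this
        exact h3 h1
  refine ⟨A.card, α, Pi, fun e => if h1 : ∃ j, j < A.card ∧ P.G.Inc e (α j) then T + h1.choose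
    else T + a + num e, ⟨h.cls, h.lab, hs.cardA, ?_, hαi, sub, ?_, ?_, ?_, ?_, ?_, ?_⟩, hlt, ?_, ?_⟩
  · intro j hj
    exact hAX ((hα _).2 ⟨j, hj, rfl⟩)
  · intro x hx
    by_cases hxA : x ∈ A
    · obtain ⟨j, hj, hj'⟩ := (hα x).1 hxA
      exact Or.inl ⟨j, hj, hj'.symm⟩
    · exact Or.inr (cov x hx hxA)
  · intro j hj i hi hmem
    exact dA i hi _ hmem ((hα _).2 ⟨j, hj, rfl⟩)
  · intro i hi l hl hne
    rw [Finset.disjoint_left]
    intro x hx hx'
    exact hne (dj i hi l hl x hx hx')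
  · intro i hi e he j hj hinc
    have h1 : ∃ j, j < A.card ∧ P.G.Inc e (α j) := ⟨j, hj, hinc⟩
    simp only [dif_pos h1]
    obtain ⟨hj', hinc'⟩ := h1.choose_spec
    have hjA : ∀ j' < A.card, α j' ∈ A := fun j' h' => (hα _).2 ⟨j', h', rfl⟩
    obtain ⟨heE, hc⟩ := P.G.mem_bd.1 he
    have h2 : α h1.choose = α j := by
      rcases hc with ⟨h3, h4⟩ | ⟨h3, h4⟩
      · have h5 : ∀ j' < A.card, P.G.Inc e (α j') → α j' = P.G.b e := by
          intro j' hj' hi'
          rcases hi' with h6 | h6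
          · exact absurd (h6 ▸ hjA j' hj') (dA i hi _ h3)
          · exact h6
        rw [h5 _ hj' hinc', h5 _ hj hinc]
      · have h5 : ∀ j' < A.card, P.G.Inc e (α j') → α j' = P.G.a e := by
          intro j' hj' hi'
          rcases hi' with h6 | h6
          · exact h6
          · exact absurd (h6 ▸ hjA j' hj') (dA i hi _ h4)
        rw [h5 _ hj' hinc', h5 _ hj hinc]
    rw [hαi _ hj' _ hj h2]
  · intro i hi e he hno
    have h1 : ¬ ∃ j, j < A.card ∧ P.G.Inc e (α j) := fun ⟨j, hj, hj'⟩ => hno j hj hj'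
    simp only [dif_neg h1]
    have h2 := Finset.mem_range.1 (hn1 e (bdS i hi e he hno))
    omega
  · intro i hi e he hno l hl f hf hnof hty
    have h1 : ¬ ∃ j, j < A.card ∧ P.G.Inc e (α j) := fun ⟨j, hj, hj'⟩ => hno j hj hj'
    have h2 : ¬ ∃ j, j < A.card ∧ P.G.Inc f (α j) := fun ⟨j, hj, hj'⟩ => hnof j hj hj'
    simp only [dif_neg h1, dif_neg h2] at hty
    exact hn2 e (bdS i hi e he hno) f (bdS l hl f hf hnof) (by omega)
  · rw [Finset.disjoint_left]
    intro x hx hx'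
    obtain ⟨⟨_, h1⟩, h2⟩ := (memr x).1 hx'
    obtain ⟨i, hi, hxi⟩ := hs.cover x hx h1
    exact h2 i hi hxi
  · intro x hx y hy hxy
    obtain ⟨⟨h1, h2⟩, h3⟩ := (memr x).1 hx
    refine (memr y).2 ⟨⟨hy, ?_⟩, ?_⟩
    · intro hyA
      exact h2 ((h.parts.hub y (hs.AB hyA) x h1 hxy) ▸ hyA)
    · intro i hi hyi
      exact h3 i hi (hs.resp i hi y hy x h1 hxy.symm hyi)

end Pool.Agent.W2411ls
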