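import Mathlib
import Pool.Agent.W_2411ls_h59.Defs

/-! From an immersion of closed pieces to a local immersion. -/

set_option autoImplicit false
set_option linter.unusedSectionVars false

namespace Pool.Agent.W2411ls

open Pool.Agent.W2411c4

variable {Ω : Type} [Preorder Ω] [Inhabited Ω]

private theorem dt_lab_even (G : Gr (Lb Ω)) (X : Finset ℕ) (ty : ℕ → ℕ) (x : ℕ) :
    (cl G X ty).G.lab (2 * x) = G.lab x := by
  show (if (2 * x) % 2 = 0 then G.lab (2 * x / 2) else (⟨ty (2 * x / 2), default⟩ : (Lb Ω))) = G.lab x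
  rw [if_pos (by omega), show 2 * x / 2 = x by omega]

private theorem dt_lab_odd (G : Gr (Lb Ω)) (X : Finset ℕ) (ty : ℕ → ℕ) (e : ℕ) :
    (cl G X ty).G.lab (2 * e + 1) = ⟨ty e, default⟩ := by
  show (if (2 * e + 1) % 2 = 0 then G.lab ((2 * e + 1) / 2) else
    (⟨ty ((2 * e + 1) / 2), default⟩ : (Lb Ω))) = ⟨ty e, default⟩
  rw [if_neg (by omega), show (2 * e + 1) / 2 = e by omega]

private theorem dt_mem {G : Gr (Lb Ω)} {X : Finset ℕ} {ty : ℕ → ℕ} {n : ℕ} :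
    n ∈ (cl G X ty).X ↔ (∃ x ∈ X, 2 * x = n) ∨ ∃ e ∈ G.bd X, 2 * e + 1 = n := by
  show n ∈ X.image (fun x => 2 * x) ∪ (G.bd X).image (fun e => 2 * e + 1) ↔ _
  rw [Finset.mem_union, Finset.mem_image, Finset.mem_image]

private theorem dt_E {G : Gr (Lb Ω)} {X : Finset ℕ} {ty : ℕ → ℕ} {e : ℕ} :
    e ∈ (cl G X ty).G.E ↔ e ∈ G.E ∧ G.Touch X e := by
  show e ∈ G.E.filter (fun e => G.Touch X e) ↔ _
  rw [Finset.mem_filter]

private theorem dt_a_pos {G : Gr (Lb Ω)} {X : Finset ℕ} {ty : ℕ → ℕ} {e : ℕ} (h : G.a e ∈ X) :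
    (cl G X ty).G.a e = 2 * G.a e := if_pos h

private theorem dt_a_neg {G : Gr (Lb Ω)} {X : Finset ℕ} {ty : ℕ → ℕ} {e : ℕ} (h : G.a e ∉ X) :
    (cl G X ty).G.a e = 2 * e + 1 := if_neg h

private theorem dt_b_pos {G : Gr (Lb Ω)} {X : Finset ℕ} {ty : ℕ → ℕ} {e : ℕ} (h : G.b e ∈ X) :
    (cl G X ty).G.b e = 2 * G.b e := if_pos h

private theorem dt_b_neg {G : Gr (Lb Ω)} {X : Finset ℕ} {ty : ℕ → ℕ} {e : ℕ} (h : G.b e ∉ X) :
    (cl G X ty).G.b e = 2 * e + 1 := if_neg h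

private theorem dt_inc_odd {G : Gr (Lb Ω)} {X : Finset ℕ} {ty : ℕ → ℕ} {e f : ℕ}
    (h : (cl G X ty).G.Inc f (2 * e + 1)) : f = e := by
  rcases h with h | h
  · by_cases ha : G.a f ∈ X
    · rw [dt_a_pos ha] at h; omega
    · rw [dt_a_neg ha] at h; omega
  · by_cases ha : G.b f ∈ X
    · rw [dt_b_pos ha] at h; omega
    · rw [dt_b_neg ha] at h; omega

private theorem dt_inc_even {G : Gr (Lb Ω)} {X : Finset ℕ} {ty : ℕ → ℕ} {f y : ℕ} :
    (cl G X ty).G.Inc f (2 * y) ↔ y ∈ X ∧ G.Inc f y := by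
  constructor
  · rintro (h | h)
    · by_cases ha : G.a f ∈ X
      · rw [dt_a_pos ha] at h
        have : y = G.a f := by omega
        exact ⟨this ▸ ha, Or.inl this⟩
      · rw [dt_a_neg ha] at h; omega
    · by_cases ha : G.b f ∈ X
      · rw [dt_b_pos ha] at h
        have : y = G.b f := by omega
        exact ⟨this ▸ ha, Or.inr this⟩
      · rw [dt_b_neg ha] at h; omega
  · rintro ⟨hy, rfl | rfl⟩
    · exact Or.inl (dt_a_pos hy).symm
    · exact Or.inr (dt_b_pos hy).symm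

/-- projection of the closed graph to the graph -/
private def dtR (G : Gr (Lb Ω)) (X : Finset ℕ) (n : ℕ) : ℕ :=
  if n % 2 = 0 then n / 2 else if G.a (n / 2) ∈ X then G.a (n / 2) else G.b (n / 2)

private theorem dtR_even (G : Gr (Lb Ω)) (X : Finset ℕ) (x : ℕ) : dtR G X (2 * x) = x := by
  unfold dtR
  rw [if_pos (by omega)]
  omega

private theorem dtR_odd (G : Gr (Lb Ω)) (X : Finset ℕ) (e : ℕ) :
    dtR G X (2 * e + 1) = if G.a e ∈ X then G.a e else G.b e := by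
  unfold dtR
  rw [if_neg (by omega), show (2 * e + 1) / 2 = e by omega]

private theorem dtR_inc (G : Gr (Lb Ω)) (X : Finset ℕ) (e : ℕ) : G.Inc e (dtR G X (2 * e + 1)) := by
  rw [dtR_odd]
  split_ifs
  · exact Or.inl rfl
  · exact Or.inr rfl

private theorem dtR_edge {G : Gr (Lb Ω)} {X : Finset ℕ} {ty : ℕ → ℕ} {F : Set ℕ} {f : ℕ}
    (ht : G.Touch X f) (hF : G.Inner X f → f ∈ F) :
    G.Conn F (dtR G X ((cl G X ty).G.a f)) (dtR G X ((cl G X ty).G.b f)) := by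
  by_cases ha : G.a f ∈ X <;> by_cases hb : G.b f ∈ X
  · rw [dt_a_pos ha, dt_b_pos hb, dtR_even, dtR_even]
    exact Gr.conn_edge (hF ⟨ha, hb⟩) (Or.inl rfl) (Or.inr rfl)
  · rw [dt_a_pos ha, dt_b_neg hb, dtR_even, dtR_odd, if_pos ha]
    exact Gr.Conn.refl
  · rw [dt_a_neg ha, dt_b_pos hb, dtR_even, dtR_odd, if_neg ha]
    exact Gr.Conn.refl
  · exact absurd ht (by unfold Gr.Touch; tauto)

/-- Detaching. `T` bounds the labels of the vertices, all types are at least `T`. PROOF.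
Let `η₀, Φ₀` be the immersion. In `cl G X ty` the vertices are `2 * x` (`x ∈ X`, label `G.lab x`,
value `< T`) and `2 * e + 1` (`e ∈ G.bd X`, label `⟨ty e⟩`, value `≥ T`), the same in `cl G' X' ty'`;
as labels are preserved, `η₀ (2 x) = 2 x'` with `x' ∈ X'` for `x ∈ X` and `η₀ (2 e + 1) = 2 e' + 1`
with `e' ∈ G'.bd X'`, `ty' e' = ty e` for `e ∈ G.bd X`. Put `η x := η₀ (2 x) / 2`,
`ι e := η₀ (2 e + 1) / 2`, and
`Φ e := {f ∈ Φ₀ e | G'.Inner X' f} ∪ {f | e ∈ G.bd X ∧ f = ι e}`.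
`ι` is injective on `G.bd X`. `ι e ∈ Φ₀ e` for `e ∈ G.bd X` with end `x ∈ X`: `Φ₀ e` connects
`2 ι(e) + 1` with `η₀ (2 x) = 2 η(x)`, which are different, and the only edge of `cl G' X' ty'`
incident with the vertex `2 ι(e) + 1` is `ι e` (`Relation.ReflTransGen.cases_head` gives an edge of
`Φ₀ e` at this vertex, by `sub` it is in `E`).
Connectivity: let `ρ (2 x') := x'` and `ρ (2 e' + 1) :=` the end of `e'` in `X'`. For `f ∈ Φ₀ e`: if
`f` is inner then its two ends go to its ends and `f ∈ Φ e`; if `f ∈ bd X'` then both ends of `f` in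
the closed graph (`2 x'` and `2 f + 1`) go to `x'`. So by `conn_map` (W_2411c4_h59/Trans.lean)
connectivity by `Φ₀ e` in the closed graph between `p`, `q` gives connectivity of `ρ p`, `ρ q` by
`Φ e` in `G'`. For inner `e` this is `conn_in`; for `e ∈ bd X` with end `x ∈ X` we get
`Conn (Φ e) (end of ι e in X') (η x)`, and `ι e ∈ Φ e` joins its two ends (`Gr.conn_edge`), this is
`conn_cr`. `disj`: `Φ e ∩ Φ f`: inner elements are in `Φ₀ e ∩ Φ₀ f`, `ι e ≠ ι f`, and `ι e` is not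
inner. `strong`: elements of `Φ e` are in `Φ₀ e`, and `Inc f (η y)` in `G'` gives
`Inc f (2 η(y))` in the closed graph since `η y ∈ X'`. -/
theorem detach {G G' : Gr (Lb Ω)} {X X' : Finset ℕ} {ty ty' : ℕ → ℕ} {T : ℕ} (hX : LabT G X T)
    (hX' : LabT G' X' T) (hty : ∀ e ∈ G.bd X, T ≤ ty e) (hty' : ∀ e ∈ G'.bd X', T ≤ ty' e)
    (h : CR (cl G X ty) (cl G' X' ty')) : ∃ η Φ ι, TImm G X G' X' ty ty' η Φ ι := by
  obtain ⟨η₀, Φ₀, h⟩ := h
  -- inner vertices go to inner vertices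
  have hη : ∀ x ∈ X, η₀ (2 * x) / 2 ∈ X' ∧ 2 * (η₀ (2 * x) / 2) = η₀ (2 * x) := by
    intro x hx
    have hm := h.maps (2 * x) (dt_mem.2 (Or.inl ⟨x, hx, rfl⟩))
    have hl := h.lab (2 * x) (dt_mem.2 (Or.inl ⟨x, hx, rfl⟩))
    rcases dt_mem.1 hm with ⟨x', hx', e1⟩ | ⟨e', he', e1⟩
    · rw [← e1]
      have : 2 * x' / 2 = x' := by omega
      rw [this]
      exact ⟨hx', rfl⟩
    · rw [← e1, dt_lab_even, dt_lab_odd] at hl
      have h1 := hX x hx
      rw [hl.1] at h1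
      have h2 := hty' e' he'
      have h3 : ty' e' < T := h1
      omega
  have hι : ∀ e ∈ G.bd X, η₀ (2 * e + 1) / 2 ∈ G'.bd X' ∧
      2 * (η₀ (2 * e + 1) / 2) + 1 = η₀ (2 * e + 1) ∧ ty' (η₀ (2 * e + 1) / 2) = ty e := by
    intro e he
    have hm := h.maps (2 * e + 1) (dt_mem.2 (Or.inr ⟨e, he, rfl⟩))
    have hl := h.lab (2 * e + 1) (dt_mem.2 (Or.inr ⟨e, he, rfl⟩))
    rcases dt_mem.1 hm with ⟨x', hx', e1⟩ | ⟨e', he', e1⟩
    · rw [← e1, dt_lab_even, dt_lab_odd] at hl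
      have h1 := hX' x' hx'
      rw [← hl.1] at h1
      have h2 := hty e he
      have h3 : ty e < T := h1
      omega
    · rw [← e1, dt_lab_odd, dt_lab_odd] at hl
      have h3 : ty e = ty' e' := hl.1
      rw [← e1]
      have : (2 * e' + 1) / 2 = e' := by omega
      rw [this]
      exact ⟨he', rfl, h3.symm⟩
  -- edges used by the immersion
  have hused : ∀ e ∈ G.E, G.Touch X e → ∀ f ∈ Φ₀ e, f ∈ G'.E ∧ G'.Touch X' f := by
    intro e he ht f hf
    exact dt_E.1 (h.sub e (dt_E.2 ⟨he, ht⟩) f hf)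
  have hcr : ∀ e ∈ G.bd X, ∀ x ∈ X, G.Inc e x →
      (cl G' X' ty').G.Conn (Φ₀ e) (2 * (η₀ (2 * e + 1) / 2) + 1) (2 * (η₀ (2 * x) / 2)) := by
    intro e he x hx hex
    obtain ⟨heE, hec⟩ := G.mem_bd.1 he
    have hc := h.conn e (dt_E.2 ⟨heE, hec.touch⟩)
    rw [(hη x hx).2, (hι e he).2.1]
    rcases hec with ⟨h1, h2⟩ | ⟨h1, h2⟩
    · have : x = G.a e := by
        rcases hex with h | h
        · exact h
        · exact absurd (h ▸ hx) h2
      rw [dt_a_pos h1, dt_b_neg h2, ← this] at hc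
      exact hc.symm
    · have : x = G.b e := by
        rcases hex with h | h
        · exact absurd (h ▸ hx) h1
        · exact h
      rw [dt_a_neg h1, dt_b_pos h2, ← this] at hc
      exact hc
  have hιm : ∀ e ∈ G.bd X, η₀ (2 * e + 1) / 2 ∈ Φ₀ e := by
    intro e he
    obtain ⟨heE, hec⟩ := G.mem_bd.1 he
    obtain ⟨x, hx, hex⟩ : ∃ x ∈ X, G.Inc e x := by
      rcases hec with h | h
      · exact ⟨_, h.1, Or.inl rfl⟩
      · exact ⟨_, h.2, Or.inr rfl⟩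
    have hc := hcr e he x hx hex
    rcases Relation.ReflTransGen.cases_head hc with h1 | ⟨c, ⟨f, hf, h1⟩, _⟩
    · omega
    · have hi : (cl G' X' ty').G.Inc f (2 * (η₀ (2 * e + 1) / 2) + 1) := by
        rcases h1 with h1 | h1
        · exact Or.inl h1.1.symm
        · exact Or.inr h1.2.symm
      rw [← dt_inc_odd hi]
      exact hf
  -- the projected connectivity
  have hproj : ∀ e ∈ G.E, G.Touch X e → ∀ u v, (cl G' X' ty').G.Conn (Φ₀ e) u v →
      G'.Conn ({f | f ∈ Φ₀ e ∧ G'.Inner X' f} ∪ {f | e ∈ G.bd X ∧ f = η₀ (2 * e + 1) / 2})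
        (dtR G' X' u) (dtR G' X' v) := by
    intro e he ht u v huv
    refine conn_map (G := (cl G' X' ty').G) (F := Φ₀ e) (dtR G' X') ?_ huv
    intro f hf
    exact dtR_edge (hused e he ht f hf).2 (fun hi => Or.inl ⟨hf, hi⟩)
  refine ⟨fun x => η₀ (2 * x) / 2,
    fun e => {f | f ∈ Φ₀ e ∧ G'.Inner X' f} ∪ {f | e ∈ G.bd X ∧ f = η₀ (2 * e + 1) / 2},
    fun e => η₀ (2 * e + 1) / 2, ?_⟩
  have hΦ : ∀ e, e ∈ G.E → ∀ f,
      f ∈ ({f | f ∈ Φ₀ e ∧ G'.Inner X' f} ∪ {f | e ∈ G.bd X ∧ f = η₀ (2 * e + 1) / 2} : Set ℕ) →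
      f ∈ Φ₀ e := by
    intro e _ f hf
    rcases hf with hf | ⟨hf, rfl⟩
    · exact hf.1
    · exact hιm e hf
  constructor
  · intro x hx
    exact (hη x hx).1
  · intro x hx y hy hxy
    have h1 : η₀ (2 * x) = η₀ (2 * y) := by
      rw [← (hη x hx).2, ← (hη y hy).2]
      exact congrArg (fun n => 2 * n) hxy
    have := h.inj _ (dt_mem.2 (Or.inl ⟨x, hx, rfl⟩)) _ (dt_mem.2 (Or.inl ⟨y, hy, rfl⟩)) h1
    omega
  · intro x hx
    have hl := h.lab (2 * x) (dt_mem.2 (Or.inl ⟨x, hx, rfl⟩))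
    rw [← (hη x hx).2, dt_lab_even, dt_lab_even] at hl
    exact hl
  · intro e he hi f hf
    rcases hf with hf | ⟨hf, _⟩
    · exact ⟨(hused e he hi.touch f hf.1).1, hf.2⟩
    · exact absurd hi (G.mem_bd.1 hf).2.not_inner
  · intro e he f hf
    obtain ⟨heE, hec⟩ := G.mem_bd.1 he
    rcases hf with hf | ⟨_, rfl⟩
    · exact Or.inr ⟨(hused e heE hec.touch f hf.1).1, hf.2⟩
    · exact Or.inl rfl
  · intro e he
    exact (hι e he).1
  · intro e he
    exact Or.inr ⟨he, rfl⟩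
  · intro e he
    exact (hι e he).2.2
  · intro e he hi
    have hc := h.conn e (dt_E.2 ⟨he, hi.touch⟩)
    have hp := hproj e he hi.touch _ _ hc
    rw [dt_a_pos hi.1, dt_b_pos hi.2, ← (hη _ hi.1).2, ← (hη _ hi.2).2, dtR_even, dtR_even] at hp
    exact hp
  · intro e he x hx hex z hz
    obtain ⟨heE, hec⟩ := G.mem_bd.1 he
    have hp := hproj e heE hec.touch _ _ (hcr e he x hx hex)
    rw [dtR_even] at hp
    refine Gr.Conn.trans ?_ hp
    exact Gr.conn_edge (Or.inr ⟨he, rfl⟩) hz (dtR_inc G' X' _)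
  · intro e he f hf hte htf hef
    rw [Set.disjoint_left]
    intro g hg hg'
    exact Set.disjoint_left.1 (h.disj e (dt_E.2 ⟨he, hte⟩) f (dt_E.2 ⟨hf, htf⟩) hef)
      (hΦ e he g hg) (hΦ f hf g hg')
  · intro e he hte y hy hey f hf hinc
    have h1 : ¬ (cl G X ty).G.Inc e (2 * y) := fun h => hey (dt_inc_even.1 h).2
    have h2 := h.strong e (dt_E.2 ⟨he, hte⟩) (2 * y) (dt_mem.2 (Or.inl ⟨y, hy, rfl⟩)) h1 f
      (hΦ e he f hf)
    rw [← (hη y hy).2] at h2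
    exact h2 (dt_inc_even.2 ⟨(hη y hy).1, hinc⟩)

end Pool.Agent.W2411ls
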