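import Mathlib
import Pool.Agent.W_2411ls_h59.Defs

/-! Gluing local immersions. -/

set_option autoImplicit false
set_option linter.unusedSectionVars false

namespace Pool.Agent.W2411ls

open Pool.Agent.W2411c4

variable {Ω : Type} [Preorder Ω] [Inhabited Ω]

/-- an edge that is not inside a piece -/
def Out {κ : Type} (P : (CG Ω)) (Pi : κ → Finset ℕ) (e : ℕ) : Prop :=
  e ∈ P.G.E ∧ ∀ k, ¬ P.G.Inner (Pi k) e

/-- **(gluing).** `P.X` is partitioned into hubs `H` and pieces `Pi k`; the pieces have local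
immersions into disjoint pieces `Pi' k`, the hubs go to vertices outside the pieces `Pi' k`, and the
outer edges have connectors `Γ e`. PROOF. `η x := θ x` for `x ∈ H`, `η x := η_k x` for `x ∈ Pi k`
(definable by choice: `if x ∈ H then θ x else if h : ∃ k, x ∈ Pi k then η_(choose) x else 0`).
`Φ e := Φ_k e` if `e` is inner in `Pi k`, and `Φ e := Γ e ∪ ⋃ {Φ_k e | e ∈ bd (Pi k)}` for outer `e`.
`maps`, `inj`, `lab`: from the pieces, `dj'`, `θPi`. `sub`: `sub_in`, `sub_cr` (with `cr_bd`), `Γsub`.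
`conn`: for `e` inner in `Pi k` this is `conn_in`. For outer `e` with ends `u`, `v` (all ends are in
`P.X`, so in `H` or in a piece; if `u ∈ Pi k` then `e ∈ bd (Pi k)` as `e` is not inner): a hub end
`u` has `η u = θ u`; an end `u ∈ Pi k` is connected by `Φ_k e` with every end of `ι_k e`
(`conn_cr`); the terminals are connected by `Γ e` (`c1`, `c2`, `c3`; every edge has an end
`G.a (ι_k e)`). `disj`, `e ≠ f`: inner–inner in the same piece: `disj`; in different pieces: the sets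
consist of inner edges of disjoint `Pi' k`, `Pi' l`. Inner `e` in `Pi k`, outer `f`: `Φ_k e` consists
of inner edges of `Pi' k`; an element of `Γ f` touching `Pi' k` is `ι_k f`, `f ∈ bd (Pi k)`, in
`Φ_k f` (`cr_mem`), disjoint from `Φ_k e`; an element of `Φ_l f` is inner in `Pi' l` or is `ι_l f ∈ Γ f`
(`Γmem`); for `l = k` use `disj`, for `l ≠ k` disjointness of `Pi' l`, `Pi' k`. Outer–outer: `Γdisj`;
`g ∈ Γ e ∩ Φ_l f`: if `g = ι_l f ∈ Γ f` use `Γdisj`, if `g` is inner in `Pi' l` then `g` touches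
`Pi' l`, so `g = ι_l e`, `e ∈ bd (Pi l)`, `g ∈ bd (Pi' l)` is not inner. `g ∈ Φ_k e ∩ Φ_l f`: if
`g = ι_k e ∈ Γ e` previous case; symmetric; if inner in both then `k = l`, use `disj`.
`strong`: `y ∈ P.X` not an end of `e`, `f ∈ Φ e`, `Inc f (η y)`. If `y ∈ H`: `f ∈ Γ e`: `Γhub`;
`f ∈ Φ_k e` inner in `Pi' k`: its ends are in `Pi' k`, contradiction to `θPi`; `f = ι_k e ∈ Γ e`. If
`y ∈ Pi l`: `f` touches `Pi' l`; if `f ∈ Γ e` then `e ∈ bd (Pi l)`, `f = ι_l e ∈ Φ_l e`, use `strong`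
of the piece `l`; if `f ∈ Φ_k e` is inner in `Pi' k` then `k = l`, `strong`; else `f = ι_k e ∈ Γ e`. -/
theorem glueS {P P' : (CG Ω)} (hP : Cls P) {κ : Type} (Pi Pi' : κ → Finset ℕ) (H : Finset ℕ)
    (θ : ℕ → ℕ) (part : ∀ x, x ∈ P.X ↔ x ∈ H ∨ ∃ k, x ∈ Pi k)
    (dj : ∀ k l, k ≠ l → Disjoint (Pi k) (Pi l)) (djH : ∀ k, Disjoint H (Pi k))
    (sub' : ∀ k, Pi' k ⊆ P'.X) (dj' : ∀ k l, k ≠ l → Disjoint (Pi' k) (Pi' l))
    (hθ : ∀ x ∈ H, θ x ∈ P'.X) (θinj : ∀ x ∈ H, ∀ y ∈ H, θ x = θ y → x = y)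
    (θlab : ∀ x ∈ H, P.G.lab x ≤ P'.G.lab (θ x)) (θPi : ∀ x ∈ H, ∀ k, θ x ∉ Pi' k)
    (ty ty' η ι : κ → ℕ → ℕ) (Φ : κ → ℕ → Set ℕ)
    (im : ∀ k, TImm P.G (Pi k) P'.G (Pi' k) (ty k) (ty' k) (η k) (Φ k) (ι k)) (Γ : ℕ → Set ℕ)
    (Γsub : ∀ e, Out P Pi e → ∀ f ∈ Γ e, f ∈ P'.G.E)
    (Γmem : ∀ e, Out P Pi e → ∀ k, e ∈ P.G.bd (Pi k) → ι k e ∈ Γ e)
    (Γloc : ∀ e, Out P Pi e → ∀ k, ∀ f ∈ Γ e, P'.G.Touch (Pi' k) f →
      e ∈ P.G.bd (Pi k) ∧ f = ι k e)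
    (Γhub : ∀ e, Out P Pi e → ∀ x ∈ H, ¬ P.G.Inc e x → ∀ f ∈ Γ e, ¬ P'.G.Inc f (θ x))
    (c1 : ∀ e, Out P Pi e → ∀ x ∈ H, P.G.Inc e x → ∀ k, e ∈ P.G.bd (Pi k) →
      ∀ z, P'.G.Inc (ι k e) z → P'.G.Conn (Γ e) z (θ x))
    (c2 : ∀ e, Out P Pi e → ∀ k l, e ∈ P.G.bd (Pi k) → e ∈ P.G.bd (Pi l) →
      ∀ z z', P'.G.Inc (ι k e) z → P'.G.Inc (ι l e) z' → P'.G.Conn (Γ e) z z')
    (c3 : ∀ e, Out P Pi e → ∀ x ∈ H, ∀ y ∈ H, P.G.Inc e x → P.G.Inc e y →
      P'.G.Conn (Γ e) (θ x) (θ y))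
    (Γdisj : ∀ e f, Out P Pi e → Out P Pi f → e ≠ f → Disjoint (Γ e) (Γ f)) : CR P P' := by
  classical
  -- basic facts
  have uniq : ∀ x k l, x ∈ Pi k → x ∈ Pi l → k = l := by
    intro x k l hk hl
    by_contra hkl
    exact Finset.disjoint_left.1 (dj k l hkl) hk hl
  have uniq' : ∀ x k l, x ∈ Pi' k → x ∈ Pi' l → k = l := by
    intro x k l hk hl
    by_contra hkl
    exact Finset.disjoint_left.1 (dj' k l hkl) hk hl
  have nH : ∀ x k, x ∈ Pi k → x ∉ H := fun x k hk hH => Finset.disjoint_left.1 (djH k) hH hk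
  let ηη : ℕ → ℕ := fun x => if x ∈ H then θ x else
    if h : ∃ k, x ∈ Pi k then η (Classical.choose h) x else 0
  have ηH : ∀ x ∈ H, ηη x = θ x := by
    intro x hx
    simp only [ηη, if_pos hx]
  have ηP : ∀ x k, x ∈ Pi k → ηη x = η k x := by
    intro x k hk
    have hx := nH x k hk
    have h : ∃ k, x ∈ Pi k := ⟨k, hk⟩
    have hc : Classical.choose h = k := uniq x _ _ (Classical.choose_spec h) hk
    simp only [ηη, if_neg hx, dif_pos h]
    rw [hc]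
  have bdOut : ∀ e k, e ∈ P.G.bd (Pi k) → Out P Pi e := by
    intro e k he
    rw [Gr.mem_bd] at he
    refine ⟨he.1, fun l hl => ?_⟩
    have hkl : k = l := by
      rcases he.2 with h | h
      · exact uniq _ k l h.1 hl.1
      · exact uniq _ k l h.2 hl.2
    subst hkl
    exact he.2.not_inner hl
  let Ψ : ℕ → Set ℕ := fun e => {g | (∃ k, P.G.Touch (Pi k) e ∧ g ∈ Φ k e) ∨
    (Out P Pi e ∧ g ∈ Γ e)}
  have subP : ∀ e k, P.G.Touch (Pi k) e → Φ k e ⊆ Ψ e := fun e k h g hg => Or.inl ⟨k, h, hg⟩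
  have subG : ∀ e, Out P Pi e → Γ e ⊆ Ψ e := fun e h g hg => Or.inr ⟨h, hg⟩
  have cls : ∀ e ∈ P.G.E, ∀ g ∈ Ψ e,
      (∃ k, P.G.Touch (Pi k) e ∧ g ∈ Φ k e ∧ g ∈ P'.G.E ∧ P'.G.Inner (Pi' k) g) ∨
      (Out P Pi e ∧ g ∈ Γ e) := by
    intro e he g hg
    rcases hg with ⟨k, hk, hg⟩ | hg
    · rcases Gr.touch_iff.1 hk with hi | hc
      · obtain ⟨h1, h2⟩ := (im k).sub_in e he hi g hg
        exact Or.inl ⟨k, hk, hg, h1, h2⟩
      · have hb : e ∈ P.G.bd (Pi k) := (Gr.mem_bd _).2 ⟨he, hc⟩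
        rcases (im k).sub_cr e hb g hg with rfl | ⟨h1, h2⟩
        · exact Or.inr ⟨bdOut e k hb, Γmem e (bdOut e k hb) k hb⟩
        · exact Or.inl ⟨k, hk, hg, h1, h2⟩
    · exact Or.inr hg
  -- an inner edge of a piece is not in a connector
  have notin : ∀ f, Out P Pi f → ∀ g ∈ Γ f, ∀ k, ¬ P'.G.Inner (Pi' k) g := by
    intro f hf g hg k hk
    obtain ⟨h1, rfl⟩ := Γloc f hf k g hg hk.touch
    exact (((Gr.mem_bd _).1 ((im k).cr_bd f h1)).2).not_inner hk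
  have incT : ∀ g y (Z : Finset ℕ), P'.G.Inc g y → y ∈ Z → P'.G.Touch Z g := by
    intro g y Z h hy
    rcases h with rfl | rfl
    · exact Or.inl hy
    · exact Or.inr hy
  have innerInc : ∀ g y (Z : Finset ℕ), P'.G.Inner Z g → P'.G.Inc g y → y ∈ Z := by
    intro g y Z h hy
    rcases hy with rfl | rfl
    · exact h.1
    · exact h.2
  -- ends in pieces
  have toEnd : ∀ e k, Out P Pi e → e ∈ P.G.bd (Pi k) → ∀ x ∈ Pi k, P.G.Inc e x →
      ∃ z, P'.G.Inc (ι k e) z ∧ P'.G.Conn (Ψ e) z (ηη x) := by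
    intro e k ho hb x hx hi
    refine ⟨P'.G.a (ι k e), Or.inl rfl, ?_⟩
    rw [ηP x k hx]
    exact ((im k).conn_cr e hb x hx hi _ (Or.inl rfl)).mono
      (subP e k ((Gr.mem_bd _).1 hb).2.touch)
  have conn2 : ∀ e, Out P Pi e → ∀ u v, P.G.Inc e u → P.G.Inc e v → u ∈ P.X → v ∈ P.X →
      (∀ k, u ∈ Pi k → e ∈ P.G.bd (Pi k)) → (∀ k, v ∈ Pi k → e ∈ P.G.bd (Pi k)) →
      P'.G.Conn (Ψ e) (ηη u) (ηη v) := by
    intro e ho u v hu hv huX hvX hbu hbv
    rcases (part u).1 huX with hu' | ⟨k, hk⟩ <;> rcases (part v).1 hvX with hv' | ⟨l, hl⟩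
    · rw [ηH u hu', ηH v hv']
      exact (c3 e ho u hu' v hv' hu hv).mono (subG e ho)
    · obtain ⟨z, hz, hzc⟩ := toEnd e l ho (hbv l hl) v hl hv
      rw [ηH u hu']
      exact ((c1 e ho u hu' hu l (hbv l hl) z hz).mono (subG e ho)).symm.trans hzc
    · obtain ⟨z, hz, hzc⟩ := toEnd e k ho (hbu k hk) u hk hu
      rw [ηH v hv']
      exact hzc.symm.trans ((c1 e ho v hv' hv k (hbu k hk) z hz).mono (subG e ho))
    · obtain ⟨z, hz, hzc⟩ := toEnd e k ho (hbu k hk) u hk hu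
      obtain ⟨z', hz', hzc'⟩ := toEnd e l ho (hbv l hl) v hl hv
      exact hzc.symm.trans
        (((c2 e ho k l (hbu k hk) (hbv l hl) z z' hz hz').mono (subG e ho)).trans hzc')
  refine ⟨ηη, Ψ, ?_, ?_, ?_, ?_, ?_, ?_, ?_⟩
  · -- maps
    intro x hx
    rcases (part x).1 hx with h | ⟨k, hk⟩
    · rw [ηH x h]; exact hθ x h
    · rw [ηP x k hk]; exact sub' k ((im k).maps x hk)
  · -- inj
    intro x hx y hy hxy
    rcases (part x).1 hx with h | ⟨k, hk⟩ <;> rcases (part y).1 hy with h' | ⟨l, hl⟩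
    · rw [ηH x h, ηH y h'] at hxy
      exact θinj x h y h' hxy
    · rw [ηH x h, ηP y l hl] at hxy
      exact absurd (hxy ▸ (im l).maps y hl) (θPi x h l)
    · rw [ηP x k hk, ηH y h'] at hxy
      exact absurd (hxy ▸ (im k).maps x hk) (θPi y h' k)
    · rw [ηP x k hk, ηP y l hl] at hxy
      have hkl : k = l := uniq' _ k l ((im k).maps x hk) (hxy ▸ (im l).maps y hl)
      subst hkl
      exact (im k).inj x hk y hl hxy
  · -- lab
    intro x hx
    rcases (part x).1 hx with h | ⟨k, hk⟩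
    · rw [ηH x h]; exact θlab x h
    · rw [ηP x k hk]; exact (im k).lab x hk
  · -- sub
    intro e he g hg
    rcases cls e he g hg with ⟨k, _, _, h, _⟩ | ⟨ho, h⟩
    · exact h
    · exact Γsub e ho g h
  · -- conn
    intro e he
    obtain ⟨ha, hb⟩ := hP e he
    by_cases hin : ∃ k, P.G.Inner (Pi k) e
    · obtain ⟨k, hk⟩ := hin
      rw [ηP _ k hk.1, ηP _ k hk.2]
      exact ((im k).conn_in e he hk).mono (subP e k hk.touch)
    · push Not at hin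
      refine conn2 e ⟨he, hin⟩ _ _ (Or.inl rfl) (Or.inr rfl) ha hb ?_ ?_
      · intro k hk
        exact (Gr.mem_bd _).2 ⟨he, Or.inl ⟨hk, fun h => hin k ⟨hk, h⟩⟩⟩
      · intro k hk
        exact (Gr.mem_bd _).2 ⟨he, Or.inr ⟨fun h => hin k ⟨h, hk⟩, hk⟩⟩
  · -- disj
    intro e he f hf hef
    rw [Set.disjoint_left]
    intro g hg hg'
    rcases cls e he g hg with ⟨k, hk, hgk, _, hik⟩ | ⟨ho, h⟩ <;>
      rcases cls f hf g hg' with ⟨l, hl, hgl, _, hil⟩ | ⟨ho', h'⟩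
    · have hkl : k = l := uniq' _ k l hik.1 hil.1
      subst hkl
      exact Set.disjoint_left.1 ((im k).disj e he f hf hk hl hef) hgk hgl
    · exact notin f ho' g h' k hik
    · exact notin e ho g h l hil
    · exact Set.disjoint_left.1 (Γdisj e f ho ho' hef) h h'
  · -- strong
    intro e he y hy hey g hg hinc
    rcases (part y).1 hy with h | ⟨l, hl⟩
    · rw [ηH y h] at hinc
      rcases cls e he g hg with ⟨k, hk, hgk, _, hik⟩ | ⟨ho, h'⟩
      · exact θPi y h k (innerInc g _ _ hik hinc)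
      · exact Γhub e ho y h hey g h' hinc
    · rw [ηP y l hl] at hinc
      rcases cls e he g hg with ⟨k, hk, hgk, _, hik⟩ | ⟨ho, h'⟩
      · have hkl : k = l := uniq' _ k l (innerInc g _ _ hik hinc) ((im l).maps y hl)
        subst hkl
        exact (im k).strong e he hk y hl hey g hgk hinc
      · obtain ⟨hb, rfl⟩ := Γloc e ho l g h' (incT g _ _ hinc ((im l).maps y hl))
        exact (im l).strong e he ((Gr.mem_bd _).1 hb).2.touch y hl hey _
          ((im l).cr_mem e hb) hinc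

end Pool.Agent.W2411ls
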