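import Mathlib
import Pool.Agent.W_2411ls_h59.NdDef
import Pool.Agent.W_2411ls_h59.GlueS
import Pool.Agent.W_2411ls_h59.Detach

/-! Gluing nodes. -/

set_option autoImplicit false
set_option linter.unusedSectionVars false

namespace Pool.Agent.W2411ls

open Pool.Agent.W2411c4

variable {Ω : Type} [Preorder Ω] [Inhabited Ω]

private theorem nd_ty_ge {P : (CG Ω)} {T a ρ s r : ℕ} {α : ℕ → ℕ} {Pi : ℕ → Finset ℕ} {ty : ℕ → ℕ}
    (h : ND P T a ρ s r α Pi ty) {i : ℕ} (hi : i ≤ r) {e : ℕ} (he : e ∈ P.G.bd (Pi i)) :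
    T ≤ ty e := by
  by_cases hA : ∃ j < s, P.G.Inc e (α j)
  · obtain ⟨j, hj, hj'⟩ := hA
    have := h.tyA i hi e he j hj hj'
    omega
  · push Not at hA
    have := (h.tyN i hi e he hA).1
    omega

private theorem nd_two {P : (CG Ω)} {T a ρ s r : ℕ} {α : ℕ → ℕ} {Pi : ℕ → Finset ℕ} {ty : ℕ → ℕ}
    (h : ND P T a ρ s r α Pi ty) {i l : ℕ} (hi : i ≤ r) (hl : l ≤ r) (hil : i ≠ l) {e : ℕ}
    (he : e ∈ P.G.bd (Pi i)) (he' : e ∈ P.G.bd (Pi l)) {z : ℕ} (hz : P.G.Inc e z) :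
    z ∈ Pi i ∨ z ∈ Pi l := by
  have h1 := (P.G.mem_bd.1 he).2
  have h2 := (P.G.mem_bd.1 he').2
  have h3 : ¬ (P.G.a e ∈ Pi i ∧ P.G.a e ∈ Pi l) := fun h' =>
    Finset.disjoint_left.1 (h.dj i hi l hl hil) h'.1 h'.2
  have h4 : ¬ (P.G.b e ∈ Pi i ∧ P.G.b e ∈ Pi l) := fun h' =>
    Finset.disjoint_left.1 (h.dj i hi l hl hil) h'.1 h'.2
  unfold Gr.Cross at h1 h2
  rcases hz with rfl | rfl <;> tauto

private theorem nd_noapex {P : (CG Ω)} {T a ρ s r : ℕ} {α : ℕ → ℕ} {Pi : ℕ → Finset ℕ} {ty : ℕ → ℕ}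
    (h : ND P T a ρ s r α Pi ty) {i l : ℕ} (hi : i ≤ r) (hl : l ≤ r) (hil : i ≠ l) {e : ℕ}
    (he : e ∈ P.G.bd (Pi i)) (he' : e ∈ P.G.bd (Pi l)) : ∀ j < s, ¬ P.G.Inc e (α j) := by
  intro j hj hj'
  rcases nd_two h hi hl hil he he' hj' with h1 | h1
  · exact h.dA j hj i hi h1
  · exact h.dA j hj l hl h1

private theorem nd_apex_end {P : (CG Ω)} {T a ρ s r : ℕ} {α : ℕ → ℕ} {Pi : ℕ → Finset ℕ}
    {ty : ℕ → ℕ} (h : ND P T a ρ s r α Pi ty) {i j : ℕ} (hi : i ≤ r) (hj : j < s) {e : ℕ}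
    (he : e ∈ P.G.bd (Pi i)) (he' : P.G.Inc e (α j)) {z : ℕ} (hz : P.G.Inc e z) :
    z = α j ∨ z ∈ Pi i := by
  have h1 := (P.G.mem_bd.1 he).2
  have h2 := h.dA j hj i hi
  unfold Gr.Cross at h1
  rcases hz with rfl | rfl <;> rcases he' with h3 | h3 <;> rw [h3] at h2 ⊢ <;> tauto

private theorem nd_other {P : (CG Ω)} {T a ρ s r : ℕ} {α : ℕ → ℕ} {Pi : ℕ → Finset ℕ}
    {ty : ℕ → ℕ} (h : ND P T a ρ s r α Pi ty) {i : ℕ} (hi : i ≤ r) {e : ℕ}
    (he : e ∈ P.G.bd (Pi i)) (hA : ∀ j < s, ¬ P.G.Inc e (α j)) :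
    ∃ l ≤ r, l ≠ i ∧ e ∈ P.G.bd (Pi l) := by
  obtain ⟨heE, hc⟩ := P.G.mem_bd.1 he
  have key : ∀ w v, P.G.Inc e w → w ∉ Pi i → v ∈ Pi i →
      ((w = P.G.a e ∧ v = P.G.b e) ∨ (w = P.G.b e ∧ v = P.G.a e)) →
      ∃ l ≤ r, l ≠ i ∧ e ∈ P.G.bd (Pi l) := by
    intro w v hw hwi hvi hwv
    have hwX : w ∈ P.X := by
      rcases hw with rfl | rfl
      · exact (h.cls e heE).1
      · exact (h.cls e heE).2
    rcases h.cov w hwX with ⟨j, hj, rfl⟩ | ⟨l, hl, hwl⟩
    · exact absurd hw (hA j hj)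
    · have hli : l ≠ i := by
        rintro rfl
        exact hwi hwl
      have hvl : v ∉ Pi l := fun hv => Finset.disjoint_left.1 (h.dj l hl i hi hli) hv hvi
      refine ⟨l, hl, hli, P.G.mem_bd.2 ⟨heE, ?_⟩⟩
      unfold Gr.Cross
      rcases hwv with ⟨rfl, rfl⟩ | ⟨rfl, rfl⟩
      · exact Or.inl ⟨hwl, hvl⟩
      · exact Or.inr ⟨hvl, hwl⟩
  rcases hc with ⟨h1, h2⟩ | ⟨h1, h2⟩
  · exact key _ _ (Or.inr rfl) h2 h1 (Or.inr ⟨rfl, rfl⟩)
  · exact key _ _ (Or.inl rfl) h1 h2 (Or.inl ⟨rfl, rfl⟩)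

private theorem nd_bd_empty {G : Gr (Lb Ω)} {e : ℕ} (h : e ∈ G.bd ∅) : False := by
  have h1 := (G.mem_bd.1 h).2
  unfold Gr.Cross at h1
  simp at h1

private theorem nd_timm_empty (G G' : Gr (Lb Ω)) (ty ty' : ℕ → ℕ) :
    TImm G ∅ G' ∅ ty ty' id (fun _ => ∅) id where
  maps := by intro x hx; simp at hx
  inj := by intro x hx; simp at hx
  lab := by intro x hx; simp at hx
  sub_in := by intro e _ hi; unfold Gr.Inner at hi; simp at hi
  sub_cr := fun e he => (nd_bd_empty he).elim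
  cr_bd := fun e he => (nd_bd_empty he).elim
  cr_mem := fun e he => (nd_bd_empty he).elim
  cr_ty := fun e he => (nd_bd_empty he).elim
  conn_in := by intro e _ hi; unfold Gr.Inner at hi; simp at hi
  conn_cr := fun e he => (nd_bd_empty he).elim
  disj := by intro e _ f _ _ _ _; simp
  strong := by intro e _ hi; unfold Gr.Touch at hi; simp at hi

/-- **Gluing nodes.** `detach` for every `i ≤ r` (types are `≥ T` by `tyA`, `tyN`): local
immersions `η_i, Φ_i, ι_i`. `hub_inj` (W_2411c4_h59/Hubs.lean) gives an injection `g` of the edges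
with both ends apices, preserving the pair of apices. Apply `glueS` with `κ := ℕ`,
`Pi k := Pi k` for `k ≤ r`, `∅` otherwise, `H :=` the apices, `θ (α j) := α' j`,
`Γ e := {g e}` if both ends of `e` are apices, and `Γ e := {ι_k e}` for the least `k ≤ r` with
`e ∈ bd (Pi k)` otherwise (an outer edge with an end in a piece is in its `bd`).
Key facts: (1) if `e ∈ bd (Pi i)` has the apex end `α j` then `ty' (ι_i e) = ty e = T + j < T + a`, so
`ι_i e` has an apex end `α' j'` (`tyN`), `j' = j` (`tyA`), and its other end is in `Pi' i`, so it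
touches no other piece and no other apex. (2) if `e ∈ bd (Pi i)` has no apex end, its other end is in
`Pi l`, `l ≠ i` (`cov`), so `e ∈ bd (Pi l)`; `ty' (ι_i e) = ty e ≥ T + a`, so `ι_i e` has no apex end
(`tyA`, `j < s ≤ a`), the same for `ι_l e`, and `ι_i e = ι_l e` by `tyI` of `P'`. It is in
`bd (Pi' i)` and `bd (Pi' l)`, so its ends are in `Pi' i` and `Pi' l`, and it touches no other piece
and no apex. All conditions of `glueS` follow. `Γdisj`: `ι_k e = ι_l f`, `e ≠ f`: if `e` has an apex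
end then `ι_k e` has one end in `Pi' k` and the other is an apex, so `l = k`, and `ι_k e ≠ ι_k f` by
`TImm.disj`, `cr_mem`; if `e` has no apex end then `f` has none and `ty e = ty' (ι_k e) = ty f`, so
`e = f` by `tyI`; edges between apices: injectivity of `g`, and `g e` has both ends apices. -/
theorem nd_glue {P P' : (CG Ω)} {T a ρ s r : ℕ} {α α' : ℕ → ℕ} {Pi Pi' : ℕ → Finset ℕ}
    {ty ty' : ℕ → ℕ} (h : ND P T a ρ s r α Pi ty) (h' : ND P' T a ρ s r α' Pi' ty')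
    (hl : ∀ j < s, P.G.lab (α j) ≤ P'.G.lab (α' j))
    (hc : ∀ i ≤ r, CR (cl P.G (Pi i) ty) (cl P'.G (Pi' i) ty'))
    (hm : ∀ l < s, ∀ m < s, (EH P.G (α l) (α m)).card ≤ (EH P'.G (α' l) (α' m)).card) :
    CR P P' := by
  classical
  obtain ⟨g, hg1, hg2⟩ := hub_inj (G := P.G) (G' := P'.G) s α α' h.αinj h'.αinj hm
  -- the pieces
  let Q : ℕ → Finset ℕ := fun k => if k ≤ r then Pi k else ∅
  let Q' : ℕ → Finset ℕ := fun k => if k ≤ r then Pi' k else ∅
  have hQ : ∀ k, k ≤ r → Q k = Pi k := fun k hk => if_pos hk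
  have hQ' : ∀ k, k ≤ r → Q' k = Pi' k := fun k hk => if_pos hk
  have hQn : ∀ k, ¬ k ≤ r → Q k = ∅ := fun k hk => if_neg hk
  have hQn' : ∀ k, ¬ k ≤ r → Q' k = ∅ := fun k hk => if_neg hk
  have hQm : ∀ {k x}, x ∈ Q k → k ≤ r ∧ x ∈ Pi k := by
    intro k x hx
    by_cases hk : k ≤ r
    · rw [hQ k hk] at hx
      exact ⟨hk, hx⟩
    · rw [hQn k hk] at hx
      simp at hx
  have hQm' : ∀ {k x}, x ∈ Q' k → k ≤ r ∧ x ∈ Pi' k := by
    intro k x hx
    by_cases hk : k ≤ r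
    · rw [hQ' k hk] at hx
      exact ⟨hk, hx⟩
    · rw [hQn' k hk] at hx
      simp at hx
  have hQb : ∀ {k e}, e ∈ P.G.bd (Q k) → k ≤ r ∧ e ∈ P.G.bd (Pi k) := by
    intro k e he
    by_cases hk : k ≤ r
    · rw [hQ k hk] at he
      exact ⟨hk, he⟩
    · rw [hQn k hk] at he
      exact (nd_bd_empty he).elim
  -- local immersions
  have him : ∀ k, ∃ η Φ ι, TImm P.G (Q k) P'.G (Q' k) ty ty' η Φ ι := by
    intro k
    by_cases hk : k ≤ r
    · rw [hQ k hk, hQ' k hk]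
      exact detach (T := T) (fun x hx => h.lab x (h.sub k hk hx))
        (fun x hx => h'.lab x (h'.sub k hk hx)) (fun e he => nd_ty_ge h hk he)
        (fun e he => nd_ty_ge h' hk he) (hc k hk)
    · rw [hQn k hk, hQn' k hk]
      exact ⟨_, _, _, nd_timm_empty _ _ _ _⟩
  choose η Φ ι him using him
  have hιb : ∀ {k e}, k ≤ r → e ∈ P.G.bd (Pi k) → ι k e ∈ P'.G.bd (Pi' k) := by
    intro k e hk he
    have := (him k).cr_bd e (by rw [hQ k hk]; exact he)
    rwa [hQ' k hk] at this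
  have hιt : ∀ {k e}, k ≤ r → e ∈ P.G.bd (Pi k) → ty' (ι k e) = ty e := by
    intro k e hk he
    exact (him k).cr_ty e (by rw [hQ k hk]; exact he)
  -- apex ends
  have fA : ∀ {k e j}, k ≤ r → e ∈ P.G.bd (Pi k) → j < s → P.G.Inc e (α j) →
      P'.G.Inc (ι k e) (α' j) := by
    intro k e j hk he hj hej
    have h1 := h.tyA k hk e he j hj hej
    have h2 := hιt hk he
    have h3 := h.sa
    by_cases hA : ∃ j' < s, P'.G.Inc (ι k e) (α' j')
    · obtain ⟨j', hj', hA⟩ := hA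
      have h4 := h'.tyA k hk _ (hιb hk he) j' hj' hA
      have h5 : j' = j := by omega
      rw [← h5]
      exact hA
    · push Not at hA
      have h4 := (h'.tyN k hk _ (hιb hk he) hA).1
      omega
  have fB : ∀ {k e j}, k ≤ r → e ∈ P.G.bd (Pi k) → j < s → P'.G.Inc (ι k e) (α' j) →
      P.G.Inc e (α j) := by
    intro k e j hk he hj hej
    have h1 := h'.tyA k hk _ (hιb hk he) j hj hej
    have h2 := hιt hk he
    have h3 := h.sa
    by_cases hA : ∃ j' < s, P.G.Inc e (α j')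
    · obtain ⟨j', hj', hA⟩ := hA
      have h4 := h.tyA k hk _ he j' hj' hA
      have h5 : j' = j := by omega
      rw [← h5]
      exact hA
    · push Not at hA
      have h4 := (h.tyN k hk _ he hA).1
      omega
  have fD : ∀ {k l e}, k ≤ r → l ≤ r → e ∈ P.G.bd (Pi k) → e ∈ P.G.bd (Pi l) →
      ι k e = ι l e := by
    intro k l e hk hl hek hel
    by_cases hkl : k = l
    · rw [hkl]
    · have hA := nd_noapex h hk hl hkl hek hel
      refine h'.tyI k hk _ (hιb hk hek) (fun j hj hj' => hA j hj (fB hk hek hj hj')) l hl _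
        (hιb hl hel) (fun j hj hj' => hA j hj (fB hl hel hj hj')) ?_
      rw [hιt hk hek, hιt hl hel]
  -- connectors
  let Γ : ℕ → Set ℕ := fun e =>
    if hx : ∃ k, k ≤ r ∧ e ∈ P.G.bd (Pi k) then {ι hx.choose e} else {g e}
  have hΓ1 : ∀ {k e}, k ≤ r → e ∈ P.G.bd (Pi k) → Γ e = {ι k e} := by
    intro k e hk he
    have hx : ∃ k, k ≤ r ∧ e ∈ P.G.bd (Pi k) := ⟨k, hk, he⟩
    simp only [Γ, dif_pos hx]
    rw [fD hx.choose_spec.1 hk hx.choose_spec.2 he]
  have hΓ2 : ∀ {e}, (¬ ∃ k, k ≤ r ∧ e ∈ P.G.bd (Pi k)) → Γ e = {g e} := by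
    intro e hx
    simp only [Γ, dif_neg hx]
  have hout : ∀ {e}, Out P Q e → (¬ ∃ k, k ≤ r ∧ e ∈ P.G.bd (Pi k)) →
      ∀ z, P.G.Inc e z → ∃ l < s, z = α l := by
    intro e he hx z hz
    have hzX : z ∈ P.X := by
      rcases hz with rfl | rfl
      · exact (h.cls e he.1).1
      · exact (h.cls e he.1).2
    rcases h.cov z hzX with ⟨j, hj, rfl⟩ | ⟨l, hl, hzl⟩
    · exact ⟨j, hj, rfl⟩
    · exfalso
      have ht : P.G.Touch (Pi l) e := by
        rcases hz with rfl | rfl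
        · exact Or.inl hzl
        · exact Or.inr hzl
      rcases Gr.touch_iff.1 ht with h1 | h1
      · exact he.2 l (by rw [hQ l hl]; exact h1)
      · exact hx ⟨l, hl, P.G.mem_bd.2 ⟨he.1, h1⟩⟩
  have hga : ∀ {e}, Out P Q e → (¬ ∃ k, k ≤ r ∧ e ∈ P.G.bd (Pi k)) →
      g e ∈ P'.G.E ∧ (∀ z, P'.G.Inc (g e) z → ∃ l < s, z = α' l) ∧
        ∀ l < s, (P.G.Inc e (α l) ↔ P'.G.Inc (g e) (α' l)) := by
    intro e he hx
    exact hg1 e he.1 (hout he hx _ (Or.inl rfl)) (hout he hx _ (Or.inr rfl))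
  -- hubs
  let H : Finset ℕ := (Finset.range s).image α
  have hH : ∀ x, x ∈ H ↔ ∃ j < s, α j = x := by
    intro x
    simp [H]
  let θ : ℕ → ℕ := fun x => if hx : ∃ j, j < s ∧ α j = x then α' hx.choose else 0
  have hθ : ∀ j < s, θ (α j) = α' j := by
    intro j hj
    have hx : ∃ j', j' < s ∧ α j' = α j := ⟨j, hj, rfl⟩
    simp only [θ, dif_pos hx]
    exact congrArg α' (h.αinj _ hx.choose_spec.1 j hj hx.choose_spec.2)
  -- one end in the piece
  have hend : ∀ {k e}, k ≤ r → e ∈ P'.G.bd (Pi' k) → ∃ z ∈ Pi' k, P'.G.Inc e z := by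
    intro k e hk he
    rcases (P'.G.mem_bd.1 he).2 with h1 | h1
    · exact ⟨_, h1.1, Or.inl rfl⟩
    · exact ⟨_, h1.2, Or.inr rfl⟩
  refine glueS h.cls Q Q' H θ ?_ ?_ ?_ ?_ ?_ ?_ ?_ ?_ ?_ (fun _ => ty) (fun _ => ty') η ι Φ him Γ
    ?_ ?_ ?_ ?_ ?_ ?_ ?_ ?_
  · -- part
    intro x
    constructor
    · intro hx
      rcases h.cov x hx with h1 | ⟨i, hi, h1⟩
      · exact Or.inl ((hH x).2 h1)
      · exact Or.inr ⟨i, by rw [hQ i hi]; exact h1⟩
    · rintro (h1 | ⟨i, h1⟩)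
      · obtain ⟨j, hj, rfl⟩ := (hH x).1 h1
        exact h.αX j hj
      · exact h.sub i (hQm h1).1 (hQm h1).2
  · -- dj
    intro k l hkl
    rw [Finset.disjoint_left]
    intro x hx hx'
    exact Finset.disjoint_left.1 (h.dj k (hQm hx).1 l (hQm hx').1 hkl) (hQm hx).2 (hQm hx').2
  · -- djH
    intro k
    rw [Finset.disjoint_left]
    intro x hx hx'
    obtain ⟨j, hj, rfl⟩ := (hH x).1 hx
    exact h.dA j hj k (hQm hx').1 (hQm hx').2
  · -- sub'
    intro k x hx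
    exact h'.sub k (hQm' hx).1 (hQm' hx).2
  · -- dj'
    intro k l hkl
    rw [Finset.disjoint_left]
    intro x hx hx'
    exact Finset.disjoint_left.1 (h'.dj k (hQm' hx).1 l (hQm' hx').1 hkl) (hQm' hx).2 (hQm' hx').2
  · -- hθ
    intro x hx
    obtain ⟨j, hj, rfl⟩ := (hH x).1 hx
    rw [hθ j hj]
    exact h'.αX j hj
  · -- θinj
    intro x hx y hy hxy
    obtain ⟨j, hj, rfl⟩ := (hH x).1 hx
    obtain ⟨i, hi, rfl⟩ := (hH y).1 hy
    rw [hθ j hj, hθ i hi] at hxy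
    rw [h'.αinj j hj i hi hxy]
  · -- θlab
    intro x hx
    obtain ⟨j, hj, rfl⟩ := (hH x).1 hx
    rw [hθ j hj]
    exact hl j hj
  · -- θPi
    intro x hx k hk
    obtain ⟨j, hj, rfl⟩ := (hH x).1 hx
    rw [hθ j hj] at hk
    exact h'.dA j hj k (hQm' hk).1 (hQm' hk).2
  · -- Γsub
    intro e he f hf
    by_cases hx : ∃ k, k ≤ r ∧ e ∈ P.G.bd (Pi k)
    · obtain ⟨k, hk, hek⟩ := hx
      rw [hΓ1 hk hek, Set.mem_singleton_iff] at hf
      rw [hf]
      exact (P'.G.mem_bd.1 (hιb hk hek)).1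
    · rw [hΓ2 hx, Set.mem_singleton_iff] at hf
      rw [hf]
      exact (hga he hx).1
  · -- Γmem
    intro e he k hk
    rw [hΓ1 (hQb hk).1 (hQb hk).2]
    exact rfl
  · -- Γloc
    intro e he k f hf ht
    obtain ⟨w, hwi, hwk⟩ : ∃ w, P'.G.Inc f w ∧ w ∈ Q' k := by
      rcases ht with h1 | h1
      · exact ⟨_, Or.inl rfl, h1⟩
      · exact ⟨_, Or.inr rfl, h1⟩
    obtain ⟨hk, hwk⟩ := hQm' hwk
    rw [hQ k hk]
    by_cases hx : ∃ l, l ≤ r ∧ e ∈ P.G.bd (Pi l)
    · obtain ⟨l, hlr, hel⟩ := hx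
      rw [hΓ1 hlr hel, Set.mem_singleton_iff] at hf
      by_cases hkl : k = l
      · rw [hkl]
        exact ⟨hel, hf⟩
      · have hfl := hιb hlr hel
        rw [← hf] at hfl
        have hwl : w ∉ Pi' l := fun hw =>
          Finset.disjoint_left.1 (h'.dj k hk l hlr hkl) hwk hw
        by_cases hA : ∃ j < s, P.G.Inc e (α j)
        · exfalso
          obtain ⟨j, hj, hA⟩ := hA
          have h1 := fA hlr hel hj hA
          rw [← hf] at h1
          rcases nd_apex_end h' hlr hj hfl h1 hwi with h2 | h2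
          · exact h'.dA j hj k hk (h2 ▸ hwk)
          · exact hwl h2
        · push Not at hA
          obtain ⟨i, hi, hil, hei⟩ := nd_other h hlr hel hA
          have h1 : f = ι i e := hf.trans (fD hlr hi hel hei)
          have hfi := hιb hi hei
          rw [← h1] at hfi
          have hki : k = i := by
            rcases nd_two h' hi hlr hil hfi hfl hwi with h2 | h2
            · by_contra hne
              exact Finset.disjoint_left.1 (h'.dj k hk i hi hne) hwk h2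
            · exact absurd h2 hwl
          rw [hki]
          exact ⟨hei, h1⟩
    · exfalso
      rw [hΓ2 hx, Set.mem_singleton_iff] at hf
      rw [hf] at hwi
      obtain ⟨j, hj, rfl⟩ := (hga he hx).2.1 w hwi
      exact h'.dA j hj k hk hwk
  · -- Γhub
    intro e he x hx hex f hf hfx
    obtain ⟨j, hj, rfl⟩ := (hH x).1 hx
    rw [hθ j hj] at hfx
    by_cases hx : ∃ k, k ≤ r ∧ e ∈ P.G.bd (Pi k)
    · obtain ⟨k, hk, hek⟩ := hx
      rw [hΓ1 hk hek, Set.mem_singleton_iff] at hf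
      rw [hf] at hfx
      exact hex (fB hk hek hj hfx)
    · rw [hΓ2 hx, Set.mem_singleton_iff] at hf
      rw [hf] at hfx
      exact hex (((hga he hx).2.2 j hj).2 hfx)
  · -- c1
    intro e he x hx hex k hk z hz
    obtain ⟨j, hj, rfl⟩ := (hH x).1 hx
    obtain ⟨hk, hek⟩ := hQb hk
    rw [hθ j hj, hΓ1 hk hek]
    exact Gr.conn_edge rfl hz (fA hk hek hj hex)
  · -- c2
    intro e he k l hk hl z z' hz hz'
    obtain ⟨hk, hek⟩ := hQb hk
    obtain ⟨hl, hel⟩ := hQb hl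
    rw [hΓ1 hk hek]
    rw [← fD hk hl hek hel] at hz'
    exact Gr.conn_edge rfl hz hz'
  · -- c3
    intro e he x hx y hy hex hey
    obtain ⟨j, hj, rfl⟩ := (hH x).1 hx
    obtain ⟨i, hi, rfl⟩ := (hH y).1 hy
    rw [hθ j hj, hθ i hi]
    by_cases hx : ∃ k, k ≤ r ∧ e ∈ P.G.bd (Pi k)
    · obtain ⟨k, hk, hek⟩ := hx
      rw [hΓ1 hk hek]
      exact Gr.conn_edge rfl (fA hk hek hj hex) (fA hk hek hi hey)
    · rw [hΓ2 hx]
      exact Gr.conn_edge rfl (((hga he hx).2.2 j hj).1 hex) (((hga he hx).2.2 i hi).1 hey)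
  · -- Γdisj
    have h12 : ∀ e f, Out P Q f → (∃ k, k ≤ r ∧ e ∈ P.G.bd (Pi k)) →
        (¬ ∃ k, k ≤ r ∧ f ∈ P.G.bd (Pi k)) → Disjoint (Γ e) (Γ f) := by
      rintro e f hf ⟨k, hk, hek⟩ hx
      rw [hΓ1 hk hek, hΓ2 hx, Set.disjoint_singleton]
      intro heq
      obtain ⟨z, hz, hzi⟩ := hend hk (hιb hk hek)
      rw [heq] at hzi
      obtain ⟨j, hj, rfl⟩ := (hga hf hx).2.1 z hzi
      exact h'.dA j hj k hk hz
    intro e f he hf hef
    by_cases hx : ∃ k, k ≤ r ∧ e ∈ P.G.bd (Pi k)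
    · by_cases hy : ∃ k, k ≤ r ∧ f ∈ P.G.bd (Pi k)
      · obtain ⟨k, hk, hek⟩ := hx
        obtain ⟨l, hlr, hfl⟩ := hy
        rw [hΓ1 hk hek, hΓ1 hlr hfl, Set.disjoint_singleton]
        intro heq
        have ht : ty e = ty f := by
          rw [← hιt hk hek, ← hιt hlr hfl, heq]
        have hsa := h.sa
        by_cases hA : ∃ j < s, P.G.Inc e (α j)
        · obtain ⟨j, hj, hA⟩ := hA
          have h1 := fA hk hek hj hA
          rw [heq] at h1
          have hkl : k = l := by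
            by_contra hne
            have h2 := hιb hk hek
            rw [heq] at h2
            exact nd_noapex h' hk hlr hne h2 (hιb hlr hfl) j hj h1
          subst hkl
          have h3 := P.G.mem_bd.1 hek
          have h4 := P.G.mem_bd.1 hfl
          have h5 := (him k).disj e h3.1 f h4.1 (by rw [hQ k hk]; exact h3.2.touch)
            (by rw [hQ k hk]; exact h4.2.touch) hef
          refine Set.disjoint_left.1 h5 ((him k).cr_mem e (by rw [hQ k hk]; exact hek)) ?_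
          rw [heq]
          exact (him k).cr_mem f (by rw [hQ k hk]; exact hfl)
        · push Not at hA
          by_cases hB : ∃ j < s, P.G.Inc f (α j)
          · obtain ⟨j, hj, hB⟩ := hB
            have h1 := h.tyA l hlr f hfl j hj hB
            have h2 := (h.tyN k hk e hek hA).1
            omega
          · push Not at hB
            exact hef (h.tyI k hk e hek hA l hlr f hfl hB ht)
      · exact h12 e f hf hx hy
    · by_cases hy : ∃ k, k ≤ r ∧ f ∈ P.G.bd (Pi k)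
      · exact (h12 f e he hy hx).symm
      · rw [hΓ2 hx, hΓ2 hy, Set.disjoint_singleton]
        intro heq
        exact hef (hg2 e he.1 (hout he hx _ (Or.inl rfl)) (hout he hx _ (Or.inr rfl)) f hf.1
          (hout hf hy _ (Or.inl rfl)) (hout hf hy _ (Or.inr rfl)) heq)

end Pool.Agent.W2411ls
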