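import Mathlib
import Pool.Agent.W_2411ls_h59.Defs

/-! Isomorphic pieces. -/

set_option autoImplicit false
set_option linter.unusedSectionVars false

namespace Pool.Agent.W2411ls

open Pool.Agent.W2411c4

variable {Ω : Type} [Preorder Ω] [Inhabited Ω]

theorem touch_iff_inc {Q : Type} {G : Gr Q} {Z : Finset ℕ} {e : ℕ} :
    G.Touch Z e ↔ ∃ y ∈ Z, G.Inc e y := by
  unfold Gr.Touch Gr.Inc
  constructor
  · rintro (h | h)
    · exact ⟨_, h, Or.inl rfl⟩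
    · exact ⟨_, h, Or.inr rfl⟩
  · rintro ⟨y, hy, rfl | rfl⟩
    · exact Or.inl hy
    · exact Or.inr hy

theorem inner_iff_inc {Q : Type} {G : Gr Q} {Z : Finset ℕ} {e : ℕ} (hne : G.a e ≠ G.b e) :
    G.Inner Z e ↔ ∃ y ∈ Z, ∃ y' ∈ Z, y ≠ y' ∧ G.Inc e y ∧ G.Inc e y' := by
  unfold Gr.Inner Gr.Inc
  constructor
  · rintro ⟨h1, h2⟩
    exact ⟨_, h1, _, h2, hne, Or.inl rfl, Or.inr rfl⟩
  · rintro ⟨y, hy, y', hy', hyy, rfl | rfl, rfl | rfl⟩
    · exact absurd rfl hyy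
    · exact ⟨hy, hy'⟩
    · exact ⟨hy', hy⟩
    · exact absurd rfl hyy

theorem cross_iff_ti {Q : Type} {G : Gr Q} {Z : Finset ℕ} {e : ℕ} :
    G.Cross Z e ↔ G.Touch Z e ∧ ¬ G.Inner Z e := by
  unfold Gr.Cross Gr.Touch Gr.Inner
  tauto

theorem PIso.mem₂ {Q : Type} {G G₂ : Gr Q} {Y : Finset ℕ} {fv fe : ℕ → ℕ}
    (h : PIso G Y G₂ fv fe) {e : ℕ} (he : e ∈ G.E) (ht : G.Touch Y e) :
    fe e ∈ G₂.E ∧ G₂.Touch (Y.image fv) (fe e) :=
  (h.edges _).2 ⟨e, he, ht, rfl⟩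

theorem PIso.touch {Q : Type} {G G₂ : Gr Q} {Y : Finset ℕ} {fv fe : ℕ → ℕ}
    (h : PIso G Y G₂ fv fe) {e : ℕ} (he : e ∈ G.E) (ht : G.Touch Y e) {Z : Finset ℕ}
    (hZ : Z ⊆ Y) : G₂.Touch (Z.image fv) (fe e) ↔ G.Touch Z e := by
  rw [touch_iff_inc, touch_iff_inc]
  constructor
  · rintro ⟨z, hz, hi⟩
    obtain ⟨y, hy, rfl⟩ := Finset.mem_image.1 hz
    exact ⟨y, hy, (h.inc e he ht y (hZ hy)).2 hi⟩
  · rintro ⟨y, hy, hi⟩
    exact ⟨fv y, Finset.mem_image_of_mem _ hy, (h.inc e he ht y (hZ hy)).1 hi⟩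

theorem PIso.inner {Q : Type} {G G₂ : Gr Q} {Y : Finset ℕ} {fv fe : ℕ → ℕ}
    (h : PIso G Y G₂ fv fe) {e : ℕ} (he : e ∈ G.E) (ht : G.Touch Y e) {Z : Finset ℕ}
    (hZ : Z ⊆ Y) : G₂.Inner (Z.image fv) (fe e) ↔ G.Inner Z e := by
  rw [inner_iff_inc (G.ne e he), inner_iff_inc (G₂.ne _ (h.mem₂ he ht).1)]
  constructor
  · rintro ⟨z, hz, z', hz', hne, hi, hi'⟩
    obtain ⟨y, hy, rfl⟩ := Finset.mem_image.1 hz
    obtain ⟨y', hy', rfl⟩ := Finset.mem_image.1 hz'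
    exact ⟨y, hy, y', hy', fun hh => hne (by rw [hh]), (h.inc e he ht y (hZ hy)).2 hi,
      (h.inc e he ht y' (hZ hy')).2 hi'⟩
  · rintro ⟨y, hy, y', hy', hne, hi, hi'⟩
    exact ⟨fv y, Finset.mem_image_of_mem _ hy, fv y', Finset.mem_image_of_mem _ hy',
      fun hh => hne (h.inj y (hZ hy) y' (hZ hy') hh), (h.inc e he ht y (hZ hy)).1 hi,
      (h.inc e he ht y' (hZ hy')).1 hi'⟩

theorem PIso.cross {Q : Type} {G G₂ : Gr Q} {Y : Finset ℕ} {fv fe : ℕ → ℕ}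
    (h : PIso G Y G₂ fv fe) {e : ℕ} (he : e ∈ G.E) (ht : G.Touch Y e) {Z : Finset ℕ}
    (hZ : Z ⊆ Y) : G₂.Cross (Z.image fv) (fe e) ↔ G.Cross Z e := by
  rw [cross_iff_ti, cross_iff_ti, h.touch he ht hZ, h.inner he ht hZ]

theorem touch_mono {Q : Type} {G : Gr Q} {Z Y : Finset ℕ} (hZ : Z ⊆ Y) {e : ℕ}
    (h : G.Touch Z e) : G.Touch Y e := by
  rcases h with h | h
  · exact Or.inl (hZ h)
  · exact Or.inr (hZ h)

theorem PIso.bd_eq {Q : Type} {G G₂ : Gr Q} {Y : Finset ℕ} {fv fe : ℕ → ℕ}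
    (h : PIso G Y G₂ fv fe) {Z : Finset ℕ} (hZ : Z ⊆ Y) :
    G₂.bd (Z.image fv) = (G.bd Z).image fe := by
  ext g
  rw [Gr.mem_bd, Finset.mem_image]
  constructor
  · rintro ⟨hg, hc⟩
    obtain ⟨e, he, ht, rfl⟩ := (h.edges g).1
      ⟨hg, touch_mono (Finset.image_subset_image hZ) hc.touch⟩
    exact ⟨e, (Gr.mem_bd _).2 ⟨he, (h.cross he ht hZ).1 hc⟩, rfl⟩
  · rintro ⟨e, he, rfl⟩
    obtain ⟨he, hc⟩ := (Gr.mem_bd _).1 he
    have ht := touch_mono hZ hc.touch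
    exact ⟨(h.mem₂ he ht).1, (h.cross he ht hZ).2 hc⟩

/-- Boundary sizes are preserved. PROOF. For `Z ⊆ Y` the map `fe` restricts to a bijection
`G.bd Z → G₂.bd (Z.image fv)`: let `e ∈ E` touch `Z` (so it touches `Y`). An edge `e` (ends distinct)
crosses `Z` iff exactly one end is in `Z`. The ends of `fe e`: by `inc`, for `y ∈ Y`:
`Inc e y ↔ Inc₂ (fe e) (fv y)`. If both ends `y₁ ≠ y₂` of `e` are in `Y` then `fe e` has the two ends
`fv y₁ ≠ fv y₂` (`inj`); if exactly one end `y` is in `Y` then `fe e` has the end `fv y` and its other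
end is not in `Y.image fv` (if it were `fv y'` then `Inc e y'`, so `y' = y`, but the ends of `fe e`
are distinct by `ne`). So `fe e` crosses `Z.image fv` iff `e` crosses `Z`. Every `g ∈ bd (Z.image fv)`
touches `Y.image fv`, so it is `fe e` (`edges`). Injectivity: `einj`. -/
theorem PIso.d_eq {Q : Type} {G G₂ : Gr Q} {Y : Finset ℕ} {fv fe : ℕ → ℕ}
    (h : PIso G Y G₂ fv fe) {Z : Finset ℕ} (hZ : Z ⊆ Y) : G₂.d (Z.image fv) = G.d Z := by
  unfold Gr.d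
  rw [h.bd_eq hZ]
  apply Finset.card_image_of_injOn
  intro e he f hf hef
  obtain ⟨he, hc⟩ := (Gr.mem_bd _).1 (Finset.mem_coe.1 he)
  obtain ⟨hf, hc'⟩ := (Gr.mem_bd _).1 (Finset.mem_coe.1 hf)
  exact h.einj e he f hf (touch_mono hZ hc.touch) (touch_mono hZ hc'.touch) hef

/-- PROOF. `fv x` is the special vertex of `Y.image fv` if `x` is one of `Y`; a subset `Z'`
of `Y.image fv` is `Z.image fv` with `Z := Y.filter (fv · ∈ Z')`; use `PIso.d_eq`. -/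
theorem PIso.solid {Q : Type} {G G₂ : Gr Q} {Y : Finset ℕ} {fv fe : ℕ → ℕ}
    (h : PIso G Y G₂ fv fe) (hs : Solid G Y) : Solid G₂ (Y.image fv) := by
  obtain ⟨x, hx, hm⟩ := hs
  refine ⟨fv x, Finset.mem_image_of_mem _ hx, ?_⟩
  intro Z' hZ' hxZ
  have hZ : (Y.filter fun y => fv y ∈ Z') ⊆ Y := Finset.filter_subset _ _
  have h1 : (Y.filter fun y => fv y ∈ Z').image fv = Z' := by
    ext z
    rw [Finset.mem_image]
    constructor
    · rintro ⟨y, hy, rfl⟩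
      exact (Finset.mem_filter.1 hy).2
    · intro hz
      obtain ⟨y, hy, rfl⟩ := Finset.mem_image.1 (hZ' hz)
      exact ⟨y, Finset.mem_filter.2 ⟨hy, hz⟩, rfl⟩
  rw [h.d_eq (Finset.Subset.refl Y), ← h1, h.d_eq hZ]
  exact hm _ hZ (Finset.mem_filter.2 ⟨hx, hxZ⟩)

/-- PROOF. `conn_map` (W_2411c4_h59/Trans.lean) with `θ := fv`: an inner edge `e` of `Y`
goes to the inner edge `fe e` of `Y.image fv` with the ends `fv (a e)`, `fv (b e)`. -/
theorem PIso.connOn {Q : Type} {G G₂ : Gr Q} {Y : Finset ℕ} {fv fe : ℕ → ℕ}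
    (h : PIso G Y G₂ fv fe) (hs : ConnOn G Y) : ConnOn G₂ (Y.image fv) := by
  intro x' hx' y' hy'
  obtain ⟨x, hx, rfl⟩ := Finset.mem_image.1 hx'
  obtain ⟨y, hy, rfl⟩ := Finset.mem_image.1 hy'
  refine conn_map fv ?_ (hs x hx y hy)
  rintro f ⟨hf, hi⟩
  have ht : G.Touch Y f := hi.touch
  have hmem : fe f ∈ inE G₂ (Y.image fv) :=
    ⟨(h.mem₂ hf ht).1, (h.inner hf ht (Finset.Subset.refl Y)).2 hi⟩
  exact Gr.conn_edge hmem ((h.inc f hf ht _ hi.1).1 (Or.inl rfl))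
    ((h.inc f hf ht _ hi.2).1 (Or.inr rfl))

/-- PROOF. Transport the enumeration: `o := fe ∘ en.o` with the same `n`; it enumerates
`G₂.bd (Y.image fv)` by the argument of `PIso.d_eq`. `Rp` forwards: `η := fv`, `Φ e := {fe e}`.
Backwards: `η :=` the inverse of `fv` on `Y.image fv`, `Φ g := {e | e ∈ E, Touch Y e, fe e = g}`
(one element for the edges in question); `conn_in`, `conn_bd` by `Gr.conn_edge`. -/
theorem PIso.rp {G G₂ : Gr (Lb Ω)} {Y : Finset ℕ} {fv fe : ℕ → ℕ}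
    (h : PIso G Y G₂ fv fe) (en : En G Y) : ∃ en₂ : En G₂ (Y.image fv),
      Rp (⟨G, Y, en⟩ : Pc (Lb Ω)) ⟨G₂, Y.image fv, en₂⟩ ∧
      Rp (⟨G₂, Y.image fv, en₂⟩ : Pc (Lb Ω)) ⟨G, Y, en⟩ := by
  have hYY : Y ⊆ Y := Finset.Subset.refl Y
  have oE : ∀ i < en.n, en.o i ∈ G.E := fun i hi => ((Gr.mem_bd _).1 ((en.mem _).1 ⟨i, hi, rfl⟩)).1
  have oC : ∀ i < en.n, G.Cross Y (en.o i) := fun i hi =>
    ((Gr.mem_bd _).1 ((en.mem _).1 ⟨i, hi, rfl⟩)).2
  have oT : ∀ i < en.n, G.Touch Y (en.o i) := fun i hi => (oC i hi).touch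
  refine ⟨{ n := en.n, o := fun i => fe (en.o i), inj := ?_, mem := ?_ }, ⟨fv, fun e => {fe e}, ?_⟩, ?_⟩
  · intro i hi j hj hij
    exact en.inj i hi j hj (h.einj _ (oE i hi) _ (oE j hj) (oT i hi) (oT j hj) hij)
  · intro g
    rw [h.bd_eq hYY, Finset.mem_image]
    constructor
    · rintro ⟨i, hi, rfl⟩
      exact ⟨en.o i, (en.mem _).1 ⟨i, hi, rfl⟩, rfl⟩
    · rintro ⟨e, he, rfl⟩
      obtain ⟨i, hi, rfl⟩ := (en.mem e).2 he
      exact ⟨i, hi, rfl⟩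
  · refine
      { n_eq := rfl
        maps := fun x hx => Finset.mem_image_of_mem _ hx
        inj := h.inj
        lab := fun x hx => (h.lab x hx).le
        sub_in := ?_
        sub_bd := ?_
        mem_bd := fun i _ => rfl
        conn_in := ?_
        conn_bd := ?_
        disj := ?_
        strong := ?_ }
    · intro e he hi f hf
      rw [Set.mem_singleton_iff.1 hf]
      exact ⟨(h.mem₂ he hi.touch).1, (h.inner he hi.touch hYY).2 hi⟩
    · intro i hi f hf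
      exact Or.inl (Set.mem_singleton_iff.1 hf)
    · intro e he hi
      exact Gr.conn_edge rfl ((h.inc e he hi.touch _ hi.1).1 (Or.inl rfl))
        ((h.inc e he hi.touch _ hi.2).1 (Or.inr rfl))
    · intro i hi x hx hxY z hz
      exact Gr.conn_edge rfl hz ((h.inc _ (oE i hi) (oT i hi) x hxY).1 hx)
    · intro e he f hf hte htf hef
      rw [Set.disjoint_singleton]
      exact fun hh => hef (h.einj e he f hf hte htf hh)
    · intro e he hte y hy hey f hf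
      rw [Set.mem_singleton_iff.1 hf]
      exact fun hh => hey ((h.inc e he hte y hy).2 hh)
  · classical
    have hinv : ∀ y ∈ Y, Function.invFunOn fv (Y : Set ℕ) (fv y) = y := by
      intro y hy
      have h1 : ∃ a ∈ (Y : Set ℕ), fv a = fv y := ⟨y, hy, rfl⟩
      exact h.inj _ (Function.invFunOn_mem h1) _ hy (Function.invFunOn_eq h1)
    -- every edge in question comes from `G`
    have hpre : ∀ g ∈ G₂.E, G₂.Touch (Y.image fv) g → ∃ e ∈ G.E, G.Touch Y e ∧ fe e = g :=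
      fun g hg ht => (h.edges g).1 ⟨hg, ht⟩
    refine ⟨Function.invFunOn fv (Y : Set ℕ), fun g => {e | e ∈ G.E ∧ G.Touch Y e ∧ fe e = g}, ?_⟩
    refine
      { n_eq := rfl
        maps := ?_
        inj := ?_
        lab := ?_
        sub_in := ?_
        sub_bd := ?_
        mem_bd := fun i hi => ⟨oE i hi, oT i hi, rfl⟩
        conn_in := ?_
        conn_bd := ?_
        disj := ?_
        strong := ?_ }
    · intro z hz
      obtain ⟨y, hy, rfl⟩ := Finset.mem_image.1 hz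
      rw [hinv y hy]
      exact hy
    · intro z hz z' hz' hzz
      obtain ⟨y, hy, rfl⟩ := Finset.mem_image.1 hz
      obtain ⟨y', hy', rfl⟩ := Finset.mem_image.1 hz'
      rw [hinv y hy, hinv y' hy'] at hzz
      rw [hzz]
    · intro z hz
      obtain ⟨y, hy, rfl⟩ := Finset.mem_image.1 hz
      rw [hinv y hy]
      exact (h.lab y hy).symm.le
    · rintro g hg hi e ⟨he, ht, rfl⟩
      exact ⟨he, (h.inner he ht hYY).1 hi⟩
    · rintro i hi e ⟨he, ht, hee⟩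
      exact Or.inl (h.einj e he _ (oE i hi) ht (oT i hi) hee)
    · intro g hg hi
      obtain ⟨e, he, ht, rfl⟩ := hpre g hg hi.touch
      have hi' := (h.inner he ht hYY).1 hi
      obtain ⟨y, hy, hya⟩ := Finset.mem_image.1 hi.1
      obtain ⟨y', hy', hyb⟩ := Finset.mem_image.1 hi.2
      change G.Conn _ (Function.invFunOn fv (Y : Set ℕ) (G₂.a (fe e)))
        (Function.invFunOn fv (Y : Set ℕ) (G₂.b (fe e)))
      rw [← hya, ← hyb, hinv y hy, hinv y' hy']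
      exact Gr.conn_edge (e := e) ⟨he, ht, rfl⟩ ((h.inc e he ht y hy).2 (Or.inl hya))
        ((h.inc e he ht y' hy').2 (Or.inr hyb))
    · intro i hi z hz hzY x hx
      obtain ⟨y, hy, rfl⟩ := Finset.mem_image.1 hzY
      rw [hinv y hy]
      exact Gr.conn_edge (e := en.o i) ⟨oE i hi, oT i hi, rfl⟩ hx
        ((h.inc _ (oE i hi) (oT i hi) y hy).2 hz)
    · intro g hg g' hg' _ _ hne
      rw [Set.disjoint_left]
      rintro e ⟨_, _, h1⟩ ⟨_, _, h2⟩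
      exact hne (h1.symm.trans h2)
    · rintro g hg hgt z hz hgz e ⟨he, ht, rfl⟩
      obtain ⟨y, hy, rfl⟩ := Finset.mem_image.1 hz
      rw [hinv y hy]
      exact fun hh => hgz ((h.inc e he ht y hy).1 hh)

/-- PROOF. From the four lemmas above and `Sat`. -/
theorem PIso.atom {W : Set (Pc (Lb Ω))} {M : ℕ} {G G₂ : Gr (Lb Ω)} {Y : Finset ℕ} {fv fe : ℕ → ℕ}
    (hW : Sat W) (h : PIso G Y G₂ fv fe) (ha : Atom W M G Y) : Atom W M G₂ (Y.image fv) := by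
  obtain ⟨⟨en, hen⟩, hs, hc, ho⟩ := ha
  obtain ⟨en₂, h1, h2⟩ := h.rp en
  exact ⟨⟨en₂, hW _ _ hen h1 h2⟩, h.solid hs, h.connOn hc, by
    rw [h.d_eq (Finset.Subset.refl Y)]
    exact ho⟩

end Pool.Agent.W2411ls
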