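import Mathlib
import Pool.Agent.W_2411ls_h59.IsoA

/-! Parts of a closed piece. -/

set_option autoImplicit false
set_option linter.unusedSectionVars false

namespace Pool.Agent.W2411ls

open Pool.Agent.W2411c4

variable {Ω : Type} [Preorder Ω] [Inhabited Ω]

theorem cl_cls (G : Gr (Lb Ω)) (X : Finset ℕ) (ty : ℕ → ℕ) : Cls (cl G X ty) := by
  intro e he
  simp only [cl, Finset.mem_filter] at he
  obtain ⟨he, ht⟩ := he
  unfold Gr.Touch at ht
  have hb : ∀ e, e ∈ G.bd X ↔ e ∈ G.E ∧ G.Cross X e := fun e => G.mem_bd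
  unfold Gr.Cross at hb
  simp only [cl, Finset.mem_union, Finset.mem_image, hb]
  by_cases h1 : G.a e ∈ X <;> by_cases h2 : G.b e ∈ X
  · simp only [h1, h2, if_true]
    exact ⟨Or.inl ⟨_, h1, rfl⟩, Or.inl ⟨_, h2, rfl⟩⟩
  · simp only [h1, h2, if_true, if_false]
    exact ⟨Or.inl ⟨_, h1, rfl⟩, Or.inr ⟨e, by tauto, rfl⟩⟩
  · simp only [h1, h2, if_true, if_false]
    exact ⟨Or.inr ⟨e, by tauto, rfl⟩, Or.inl ⟨_, h2, rfl⟩⟩
  · tauto

theorem cl_a (G : Gr (Lb Ω)) (X : Finset ℕ) (ty : ℕ → ℕ) (e : ℕ) :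
    (cl G X ty).G.a e = if G.a e ∈ X then 2 * G.a e else 2 * e + 1 := rfl

theorem cl_b (G : Gr (Lb Ω)) (X : Finset ℕ) (ty : ℕ → ℕ) (e : ℕ) :
    (cl G X ty).G.b e = if G.b e ∈ X then 2 * G.b e else 2 * e + 1 := rfl

theorem cl_mem_E {G : Gr (Lb Ω)} {X : Finset ℕ} {ty : ℕ → ℕ} {e : ℕ} :
    e ∈ (cl G X ty).G.E ↔ e ∈ G.E ∧ G.Touch X e := by
  simp [cl]

theorem cl_lab_eq (G : Gr (Lb Ω)) (X : Finset ℕ) (ty : ℕ → ℕ) (n : ℕ) :
    (cl G X ty).G.lab n = if n % 2 = 0 then G.lab (n / 2) else ⟨ty (n / 2), default⟩ := rfl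

theorem cl_mem_X {G : Gr (Lb Ω)} {X : Finset ℕ} {ty : ℕ → ℕ} {n : ℕ} :
    n ∈ (cl G X ty).X ↔ (∃ x ∈ X, 2 * x = n) ∨ ∃ e ∈ G.bd X, 2 * e + 1 = n := by
  simp [cl]

theorem mem_dbl {Y : Finset ℕ} {n : ℕ} : n ∈ Y.image (fun x => 2 * x) ↔ ∃ y ∈ Y, 2 * y = n := by
  simp

theorem ite_mem_dbl {X Y : Finset ℕ} (hY : Y ⊆ X) (v e : ℕ) :
    (if v ∈ X then 2 * v else 2 * e + 1) ∈ Y.image (fun x => 2 * x) ↔ v ∈ Y := by
  rw [mem_dbl]
  constructor
  · rintro ⟨y, hy, h⟩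
    split_ifs at h with hv
    · have : y = v := by omega
      exact this ▸ hy
    · omega
  · intro hv
    exact ⟨v, hv, by rw [if_pos (hY hv)]⟩

/-- A subset `Y` of `X` is isomorphic to its copy in `cl G X ty`. PROOF. `fv x = 2 x`,
`fe = id`: an edge touching `Y ⊆ X` touches `X`, its ends in `X` are doubled, an end outside `X`
becomes the odd vertex `2 e + 1`, which is not in `Y.image (2 * ·)`. Labels: `(2 x) % 2 = 0`,
`2 x / 2 = x`. -/
theorem cl_piso {G : Gr (Lb Ω)} {X Y : Finset ℕ} (hY : Y ⊆ X) (ty : ℕ → ℕ) :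
    PIso G Y (cl G X ty).G (fun x => 2 * x) (fun e => e) := by
  refine ⟨?_, ?_, ?_, ?_, ?_⟩
  · intro x _ y _ h
    omega
  · intro e _ f _ _ _ h
    exact h
  · intro g
    have h1 : (cl G X ty).G.Touch (Y.image fun x => 2 * x) g ↔ G.Touch Y g := by
      unfold Gr.Touch
      rw [cl_a, cl_b, ite_mem_dbl hY, ite_mem_dbl hY]
    rw [h1, cl_mem_E]
    constructor
    · rintro ⟨⟨h2, _⟩, h3⟩
      exact ⟨g, h2, h3, rfl⟩
    · rintro ⟨e, he, ht, rfl⟩
      refine ⟨⟨he, ?_⟩, ht⟩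
      exact ht.imp (fun h => hY h) (fun h => hY h)
  · intro e _ _ y hy
    have key : ∀ v, (y = v ↔ 2 * y = if v ∈ X then 2 * v else 2 * e + 1) := by
      intro v
      constructor
      · rintro rfl
        rw [if_pos (hY hy)]
      · intro h
        split_ifs at h with hv <;> omega
    unfold Gr.Inc
    rw [cl_a, cl_b, ← key, ← key]
  · intro y _
    rw [cl_lab_eq]
    have h1 : 2 * y % 2 = 0 := by omega
    have h2 : 2 * y / 2 = y := by omega
    rw [if_pos h1, h2]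

/-- Labels of `cl G X ty`. PROOF. Vertices `2 x` have label `G.lab x`, vertices `2 e + 1`
label `⟨ty e⟩`. -/
theorem cl_lab {G : Gr (Lb Ω)} {X : Finset ℕ} {ty : ℕ → ℕ} {T T' : ℕ} (hX : LabT G X T) (hT : T ≤ T')
    (hty : ∀ e ∈ G.bd X, ty e < T') : LabT (cl G X ty).G (cl G X ty).X T' := by
  intro n hn
  rw [cl_lab_eq]
  rcases cl_mem_X.1 hn with ⟨x, hx, rfl⟩ | ⟨e, he, rfl⟩
  · have h1 : 2 * x % 2 = 0 := by omega
    have h2 : 2 * x / 2 = x := by omega
    rw [if_pos h1, h2]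
    exact (hX x hx).trans_le hT
  · have h1 : ¬ (2 * e + 1) % 2 = 0 := by omega
    have h2 : (2 * e + 1) / 2 = e := by omega
    rw [if_neg h1, h2]
    exact hty e he

/-- The closed singleton `{2 e + 1}` is an atom. -/
theorem cl_leaf_atom {W' : Set (Pc (Lb Ω))} {M' T' : ℕ} {G : Gr (Lb Ω)} {X₀ : Finset ℕ} {ty : ℕ → ℕ}
    (hS : Sing M' T' ⊆ W') (hM2 : 2 ≤ M') {e : ℕ} (hty : ty e < T') :
    Atom W' M' (cl G X₀ ty).G {2 * e + 1} := by
  have hd : (cl G X₀ ty).G.d {2 * e + 1} < M' := by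
    have h1 : (cl G X₀ ty).G.bd {2 * e + 1} ⊆ {e} := by
      intro f hf
      rw [Gr.mem_bd] at hf
      obtain ⟨_, hc⟩ := hf
      have hc := hc.touch
      unfold Gr.Touch at hc
      rw [cl_a, cl_b, Finset.mem_singleton, Finset.mem_singleton] at hc
      rw [Finset.mem_singleton]
      rcases hc with hc | hc
      · split_ifs at hc <;> omega
      · split_ifs at hc <;> omega
    have h2 := Finset.card_le_card h1
    rw [Finset.card_singleton] at h2
    have h3 : (cl G X₀ ty).G.d {2 * e + 1} ≤ 1 := h2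
    omega
  refine ⟨⟨mkEn _ _, hS ⟨2 * e + 1, rfl, ?_, ?_⟩⟩, ⟨2 * e + 1, Finset.mem_singleton_self _, ?_⟩,
    ?_, hd⟩
  · exact hd
  · change ((cl G X₀ ty).G.lab (2 * e + 1)).v < T'
    rw [cl_lab_eq]
    have h1 : ¬ (2 * e + 1) % 2 = 0 := by omega
    have h2 : (2 * e + 1) / 2 = e := by omega
    rw [if_neg h1, h2]
    exact hty
  · intro Z hZ hZ2
    have : Z = {2 * e + 1} :=
      Finset.Subset.antisymm hZ (Finset.singleton_subset_iff.2 hZ2)
    rw [this]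
  · intro x hx y hy
    rw [Finset.mem_singleton] at hx hy
    rw [hx, hy]
    exact Gr.Conn.refl

/-- (parts of a closed piece). `X₀ ⊆ X` is a union of parts. PROOF.
`pt' n := if n % 2 = 0 then 2 * pt (n / 2) else n`;
`up' p := if p % 2 = 0 then (up (p / 2)).image (2 * ·) else {2 * pt (the end of the edge p / 2 in X₀)}`
(the end of `e` in `X₀` is `if G.a e ∈ X₀ then G.a e else G.b e`);
`rk' p := if p % 2 = 0 then rk (p / 2) + 1 else 0`.
`Elim`: `card`: `k ≤ k'`, `1 ≤ k'`. `rk`, `chord`: elements of `up' p` are even. `edge`: an inner edge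
of `X₀` by `elim.edge` of `X`; a boundary edge `e` of `X₀` joins the leaf `2 e + 1` (part `2 e + 1`)
with `2 x`, `x` the end in `X₀`, and `2 * pt x ∈ up' (2 e + 1)`. `sub`, `hub`: clear. `atom`: for
`x' = 2 x`, `x ∈ X₀ \ H`: the part of `x'` is `(fib X pt (pt x)).image (2 * ·)` (`resp`), an atom by
`cl_piso` and `PIso.atom` and `Atom.mono`-style enlargement (`hWW`, `hM`). For `x' = 2 e + 1`
(`e ∈ bd X₀`): the part is `{2 e + 1}`: it is in `Sing M' T'` (`mkEn` gives an enumeration, its `n` is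
`d {2 e + 1} = 1 < M'` as the only edge at `2 e + 1` is `e`; label `⟨ty e⟩`, `ty e < T'`), solid
(`Z ⊆ {x}`, `x ∈ Z` gives `Z = {x}`), connected (`Gr.Conn.refl`). -/
theorem cl_parts {W W' : Set (Pc (Lb Ω))} {M M' : ℕ} {k k' : ℕ∞} {T' : ℕ} {G : Gr (Lb Ω)} {X X₀ H : Finset ℕ}
    {pt : ℕ → ℕ} {up : ℕ → Finset ℕ} {rk : ℕ → ℕ} {ty : ℕ → ℕ} (h : Parts W M k G X H pt up rk)
    (hW : Sat W') (hWW : W ⊆ W') (hS : Sing M' T' ⊆ W') (hM : M ≤ M') (hM2 : 2 ≤ M') (hk : k ≤ k')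
    (hk1 : 1 ≤ k') (hX : X₀ ⊆ X) (resp : ∀ x ∈ X₀, ∀ y ∈ X, pt x = pt y → y ∈ X₀)
    (hty : ∀ e ∈ G.bd X₀, ty e < T') :
    ∃ pt' up' rk', Parts W' M' k' (cl G X₀ ty).G (cl G X₀ ty).X
      ((H ∩ X₀).image (fun x => 2 * x)) pt' up' rk' := by
  classical
  let en : ℕ → ℕ := fun e => if G.a e ∈ X₀ then G.a e else G.b e
  let pt' : ℕ → ℕ := fun n => if n % 2 = 0 then 2 * pt (n / 2) else n
  let up' : ℕ → Finset ℕ := fun p => if p % 2 = 0 then (up (p / 2)).image (fun x => 2 * x)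
    else {2 * pt (en (p / 2))}
  let rk' : ℕ → ℕ := fun p => if p % 2 = 0 then rk (p / 2) + 1 else 0
  have d1 : ∀ n, 2 * n % 2 = 0 := fun n => by omega
  have d2 : ∀ n, 2 * n / 2 = n := fun n => by omega
  have d3 : ∀ n, ¬ (2 * n + 1) % 2 = 0 := fun n => by omega
  have d4 : ∀ n, (2 * n + 1) / 2 = n := fun n => by omega
  have p0 : ∀ n, pt' (2 * n) = 2 * pt n := by
    intro n
    simp only [pt', if_pos (d1 n), d2]
  have p1 : ∀ n, pt' (2 * n + 1) = 2 * n + 1 := by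
    intro n
    simp only [pt', if_neg (d3 n)]
  have u0 : ∀ n, up' (2 * n) = (up n).image (fun x => 2 * x) := by
    intro n
    simp only [up', if_pos (d1 n), d2]
  have u1 : ∀ n, up' (2 * n + 1) = {2 * pt (en n)} := by
    intro n
    simp only [up', if_neg (d3 n), d4]
  have r0 : ∀ n, rk' (2 * n) = rk n + 1 := by
    intro n
    simp only [rk', if_pos (d1 n), d2]
  have r1 : ∀ n, rk' (2 * n + 1) = 0 := by
    intro n
    simp only [rk', if_neg (d3 n)]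
  have par : ∀ n : ℕ, (∃ m, n = 2 * m) ∨ ∃ m, n = 2 * m + 1 := fun n => by
    rcases Nat.even_or_odd' n with ⟨m, h | h⟩
    · exact Or.inl ⟨m, h⟩
    · exact Or.inr ⟨m, h⟩
  have hmono : ∀ Y, Atom W M G Y → Atom W' M' G Y := by
    intro Y hY
    obtain ⟨⟨e1, he1⟩, h2, h3, h4⟩ := hY
    exact ⟨⟨e1, hWW he1⟩, h2, h3, h4.trans_le hM⟩
  refine ⟨pt', up', rk', ⟨⟨?_, ?_, ?_, ?_⟩, ?_, ?_, ?_⟩⟩
  · intro p
    rcases par p with ⟨m, rfl⟩ | ⟨m, rfl⟩
    · rw [u0]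
      exact (Nat.cast_le.2 Finset.card_image_le).trans ((h.elim.card m).trans hk)
    · rw [u1, Finset.card_singleton]
      exact hk1
  · intro p q hq
    rcases par p with ⟨m, rfl⟩ | ⟨m, rfl⟩
    · rw [u0, mem_dbl] at hq
      obtain ⟨q', hq', rfl⟩ := hq
      rw [r0, r0]
      have := h.elim.rk m q' hq'
      omega
    · rw [u1, Finset.mem_singleton] at hq
      rw [hq, r0, r1]
      omega
  · intro p q hq r hr
    rcases par p with ⟨m, rfl⟩ | ⟨m, rfl⟩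
    · rw [u0, mem_dbl] at hq hr
      obtain ⟨q', hq', rfl⟩ := hq
      obtain ⟨r', hr', rfl⟩ := hr
      rw [u0, u0, mem_dbl, mem_dbl]
      rcases h.elim.chord m q' hq' r' hr' with h1 | h1 | h1
      · exact Or.inl (by rw [h1])
      · exact Or.inr (Or.inl ⟨r', h1, rfl⟩)
      · exact Or.inr (Or.inr ⟨q', h1, rfl⟩)
    · rw [u1, Finset.mem_singleton] at hq hr
      exact Or.inl (hq.trans hr.symm)
  · intro e he _ _
    rw [cl_mem_E] at he
    obtain ⟨he, ht⟩ := he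
    unfold Gr.Touch at ht
    rw [cl_a, cl_b]
    by_cases h1 : G.a e ∈ X₀ <;> by_cases h2 : G.b e ∈ X₀
    · rw [if_pos h1, if_pos h2, p0, p0, u0, u0, mem_dbl, mem_dbl]
      rcases h.elim.edge e he (hX h1) (hX h2) with h3 | h3 | h3
      · exact Or.inl (by rw [h3])
      · exact Or.inr (Or.inl ⟨_, h3, rfl⟩)
      · exact Or.inr (Or.inr ⟨_, h3, rfl⟩)
    · rw [if_pos h1, if_neg h2, p0, p1, u1, Finset.mem_singleton]
      exact Or.inr (Or.inr (by simp only [en, if_pos h1]))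
    · rw [if_neg h1, if_pos h2, p0, p1, u1, Finset.mem_singleton]
      exact Or.inr (Or.inl (by simp only [en, if_neg h1]))
    · tauto
  · intro n hn
    rw [mem_dbl] at hn
    obtain ⟨x, hx, rfl⟩ := hn
    exact cl_mem_X.2 (Or.inl ⟨x, (Finset.mem_inter.1 hx).2, rfl⟩)
  · intro n hn y hy hpt
    rw [mem_dbl] at hn
    obtain ⟨x, hx, rfl⟩ := hn
    obtain ⟨hx1, hx2⟩ := Finset.mem_inter.1 hx
    rcases cl_mem_X.1 hy with ⟨z, hz, rfl⟩ | ⟨e, he, rfl⟩
    · rw [p0, p0] at hpt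
      rw [h.hub x hx1 z (hX hz) (by omega)]
    · rw [p0, p1] at hpt
      omega
  · intro n hn hnH
    rcases cl_mem_X.1 hn with ⟨x, hx, rfl⟩ | ⟨e, he, rfl⟩
    · have hxH : x ∉ H := fun hc => hnH (mem_dbl.2 ⟨x, Finset.mem_inter.2 ⟨hc, hx⟩, rfl⟩)
      have hsub : fib X pt (pt x) ⊆ X₀ := by
        intro y hy
        rw [mem_fib] at hy
        exact resp x hx y hy.1 hy.2.symm
      have hfib : fib (cl G X₀ ty).X pt' (pt' (2 * x)) =
          (fib X pt (pt x)).image (fun x => 2 * x) := by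
        ext m
        rw [mem_fib, mem_dbl, p0]
        constructor
        · rintro ⟨hm, hm2⟩
          rcases cl_mem_X.1 hm with ⟨z, hz, rfl⟩ | ⟨f, hf, rfl⟩
          · rw [p0] at hm2
            exact ⟨z, mem_fib.2 ⟨hX hz, by omega⟩, rfl⟩
          · rw [p1] at hm2
            omega
        · rintro ⟨z, hz, rfl⟩
          rw [p0]
          exact ⟨cl_mem_X.2 (Or.inl ⟨z, hsub hz, rfl⟩), by rw [(mem_fib.1 hz).2]⟩
      rw [hfib]
      exact PIso.atom hW (cl_piso hsub ty) (hmono _ (h.atom x (hX hx) hxH))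
    · have hfib : fib (cl G X₀ ty).X pt' (pt' (2 * e + 1)) = {2 * e + 1} := by
        ext m
        rw [mem_fib, Finset.mem_singleton, p1]
        constructor
        · rintro ⟨hm, hm2⟩
          rcases cl_mem_X.1 hm with ⟨z, hz, rfl⟩ | ⟨f, hf, rfl⟩
          · rw [p0] at hm2
            omega
          · rw [p1] at hm2
            exact hm2
        · rintro rfl
          exact ⟨hn, p1 e⟩
      rw [hfib]
      exact cl_leaf_atom hS hM2 (hty e he)

end Pool.Agent.W2411ls
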