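import Mathlib
import Pool.Agent.W_2411ls_h59.StrDef
import Pool.Agent.W_2411ls_h59.ClParts

/-! The regions are segments. -/

set_option autoImplicit false
set_option linter.unusedSectionVars false

namespace Pool.Agent.W2411ls

open Pool.Agent.W2411c4

variable {Ω : Type} [Preorder Ω] [Inhabited Ω]

/-- PROOF. The hubs of the closed graph of `R s` are `2 * bs s i`. `cls`: `cl_cls`.
`parts`: `cl_parts` (`X₀ := R s`, `resp`), `(B ∩ R s).image (2 * ·) = hs (Ns s) (fun i => 2 * bs s i)`
by `hubs`. `lab`: `cl_lab`. `bis`: for `V ⊆ R s` from `IsStr.bis` take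
`V' := V.image (2 * ·) ∪ {2 e + 1 | e ∈ bd (R s), the end of e in R s is in V}`; `Fst` is clear
(even numbers); an edge counted by `eb _ V' {2 b_i}` is not a boundary edge of `R s` (its leaf is in
`V'` iff its other end is), so it is an inner edge of `R s` from `V` to `(R s \ V) \ {b_i}`.
`cut`: for `L ⊆ X` of the closed graph with `Fst` let `L₀ := (R s).filter (2 x ∈ L)`; edges between
`L₀` and `R s \ L₀` cross `L` (edges keep their names). -/
theorem reg_seg {W W' : Set (Pc (Lb Ω))} {M M' M1 : ℕ} {k k' : ℕ∞} {t T T' a m Θ κ : ℕ} {P : (CG Ω)} {B : Finset ℕ}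
    {pt : ℕ → ℕ} {up : ℕ → Finset ℕ} {rk : ℕ → ℕ} (hW : Sat W') (hWW : W ⊆ W')
    (hS : Sing M' T' ⊆ W') (hM : M ≤ M') (hM2 : 2 ≤ M') (hk : k ≤ k') (hk1 : 1 ≤ k')
    (hT : T ≤ T') (h : IsNode W M M1 k t T P B pt up rk) {A : Finset ℕ} {r : ℕ}
    {R : ℕ → Finset ℕ} {Ns : ℕ → ℕ} {bs : ℕ → ℕ → ℕ} (hs : IsStr P B pt a m Θ κ A r R Ns bs)
    {s : ℕ} (hsr : s < r) {ty : ℕ → ℕ} (hty : ∀ e ∈ P.G.bd (R s), ty e < T') :
    cl P.G (R s) ty ∈ SegC W' M' k' m Θ T' := by
  have hsub := hs.sub s hsr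
  have hbR : ∀ j ≤ Ns s, bs s j ∈ R s := fun j hj =>
    ((hs.hubs s hsr (bs s j)).1 (mem_hs.2 ⟨j, hj, rfl⟩)).2
  obtain ⟨pt', up', rk', hp⟩ := cl_parts (X₀ := R s) (ty := ty) h.parts hW hWW hS hM hM2 hk hk1
    hsub (fun x hx y hy hxy => hs.resp s hsr x (hsub hx) y hy hxy hx) hty
  have hH : (B ∩ R s).image (fun x => 2 * x) = Pool.Agent.W2411ls.hs (Ns s)
      (fun i => 2 * bs s i) := by
    ext x
    simp only [Finset.mem_image, Finset.mem_inter, mem_hs]
    constructor
    · rintro ⟨y, ⟨hyB, hyR⟩, rfl⟩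
      obtain ⟨i, hi, hiy⟩ := mem_hs.1 ((hs.hubs s hsr y).2 ⟨hyB, hyR⟩)
      exact ⟨i, hi, by rw [hiy]⟩
    · rintro ⟨i, hi, rfl⟩
      exact ⟨bs s i, (hs.hubs s hsr (bs s i)).1 (mem_hs.2 ⟨i, hi, rfl⟩), rfl⟩
  rw [hH] at hp
  refine ⟨Ns s, fun i => 2 * bs s i, pt', up', rk', cl_cls _ _ _, ?_, hp,
    cl_lab (fun x hx => h.lab x (hsub hx)) hT hty, ?_, ?_⟩
  · intro i hi j hj hij
    exact hs.binj s hsr i hi j hj (by omega)
  · intro i hi
    obtain ⟨V, hVR, hVF, hVm⟩ := hs.bis s hsr i hi
    refine ⟨V.image (fun x => 2 * x) ∪ ((P.G.bd (R s)).filter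
      (fun e => P.G.a e ∈ V ∨ P.G.b e ∈ V)).image (fun e => 2 * e + 1), ?_, ?_, ?_⟩
    · refine Finset.union_subset_union (Finset.image_subset_image hVR)
        (Finset.image_subset_image (Finset.filter_subset _ _))
    · intro j hj
      rw [← hVF j hj]
      simp only [Finset.mem_union, Finset.mem_image]
      constructor
      · rintro (⟨x, hx, hxj⟩ | ⟨e, _, hej⟩)
        · have : x = bs s j := by omega
          rw [← this]; exact hx
        · omega
      · intro hj'
        exact Or.inl ⟨_, hj', rfl⟩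
    · refine le_trans (Finset.card_le_card ?_) hVm
      have key : ∀ e ∈ P.G.E, ∀ x y, ((x = P.G.a e ∧ y = P.G.b e) ∨ (x = P.G.b e ∧ y = P.G.a e)) →
          (x ∈ R s ∨ y ∈ R s) →
          (if x ∈ R s then 2 * x else 2 * e + 1) ∈ V.image (fun x => 2 * x) ∪
            ((P.G.bd (R s)).filter
              (fun e => P.G.a e ∈ V ∨ P.G.b e ∈ V)).image (fun e => 2 * e + 1) →
          (if y ∈ R s then 2 * y else 2 * e + 1) ∉ V.image (fun x => 2 * x) ∪
            ((P.G.bd (R s)).filter
              (fun e => P.G.a e ∈ V ∨ P.G.b e ∈ V)).image (fun e => 2 * e + 1) →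
          (if y ∈ R s then 2 * y else 2 * e + 1) ∉ ({2 * bs s i} : Finset ℕ) →
          x ∈ V ∧ y ∈ (R s \ V) \ {bs s i} := by
        intro e he x y hxy ht h1 h2 h3
        have hbd : ∀ e, e ∈ P.G.bd (R s) ↔ e ∈ P.G.E ∧ P.G.Cross (R s) e := fun e => P.G.mem_bd
        unfold Gr.Cross at hbd
        by_cases hx : x ∈ R s <;> by_cases hy : y ∈ R s
        · simp only [hx, hy, if_true, Finset.mem_union, Finset.mem_image, Finset.mem_filter,
            Finset.mem_singleton, not_or] at h1 h2 h3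
          have hxV : x ∈ V := by
            rcases h1 with ⟨z, hz, hzx⟩ | ⟨f, _, hf⟩
            · have : z = x := by omega
              rw [← this]; exact hz
            · omega
          refine ⟨hxV, ?_⟩
          simp only [Finset.mem_sdiff, Finset.mem_singleton]
          refine ⟨⟨hy, fun hyV => h2.1 ⟨y, hyV, rfl⟩⟩, fun hyb => h3 (by rw [hyb])⟩
        · exfalso
          simp only [hx, hy, if_true, if_false, Finset.mem_union, Finset.mem_image,
            Finset.mem_filter, Finset.mem_singleton, not_or] at h1 h2 h3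
          have hxV : x ∈ V := by
            rcases h1 with ⟨z, hz, hzx⟩ | ⟨f, _, hf⟩
            · have : z = x := by omega
              rw [← this]; exact hz
            · omega
          refine h2.2 ⟨e, ⟨(hbd e).2 ⟨he, ?_⟩, ?_⟩, rfl⟩
          · rcases hxy with ⟨rfl, rfl⟩ | ⟨rfl, rfl⟩
            · exact Or.inl ⟨hx, hy⟩
            · exact Or.inr ⟨hy, hx⟩
          · rcases hxy with ⟨rfl, rfl⟩ | ⟨rfl, rfl⟩
            · exact Or.inl hxV
            · exact Or.inr hxV
        · exfalso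
          simp only [hx, hy, if_true, if_false, Finset.mem_union, Finset.mem_image,
            Finset.mem_filter, Finset.mem_singleton, not_or] at h1 h2 h3
          rcases h1 with ⟨z, hz, hzx⟩ | ⟨f, ⟨_, hfV⟩, hf⟩
          · omega
          · have hfe : f = e := by omega
            subst hfe
            have hyV : y ∈ V := by
              rcases hxy with ⟨rfl, rfl⟩ | ⟨rfl, rfl⟩
              · rcases hfV with hfV | hfV
                · exact absurd (hVR hfV) hx
                · exact hfV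
              · rcases hfV with hfV | hfV
                · exact hfV
                · exact absurd (hVR hfV) hx
            exact h2.1 ⟨y, hyV, rfl⟩
        · rcases ht with ht | ht
          · exact absurd ht hx
          · exact absurd ht hy
      intro e he
      simp only [cl] at he
      rw [Finset.mem_filter] at he
      obtain ⟨he, hc⟩ := he
      rw [Finset.mem_filter] at he
      obtain ⟨he, ht⟩ := he
      unfold Gr.Touch at ht
      rw [Finset.mem_filter]
      refine ⟨he, ?_⟩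
      rcases hc with ⟨h1, h2, h3⟩ | ⟨h1, h2, h3⟩
      · exact Or.inl (key e he _ _ (Or.inl ⟨rfl, rfl⟩) ht h1 h2 h3)
      · exact Or.inr (key e he _ _ (Or.inr ⟨rfl, rfl⟩) ht.symm h1 h2 h3)
  · intro i hi1 hi L hL hLF
    have hF : Fst (Ns s) (bs s) i ((R s).filter (fun x => 2 * x ∈ L)) := by
      intro j hj
      rw [Finset.mem_filter]
      constructor
      · intro hj'
        exact (hLF j hj).1 hj'.2
      · intro hj'
        exact ⟨hbR j hj, (hLF j hj).2 hj'⟩
    refine le_trans (hs.cut s hsr i hi1 hi _ (Finset.filter_subset _ _) hF)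
      (Finset.card_le_card ?_)
    intro e he
    rw [Finset.mem_filter] at he
    obtain ⟨he, hc⟩ := he
    simp only [Finset.mem_filter, Finset.mem_sdiff, not_and] at hc
    rw [Gr.mem_bd]
    unfold Gr.Cross
    simp only [cl, Finset.mem_filter]
    unfold Gr.Touch
    rcases hc with ⟨⟨h1, h2⟩, h3, h4⟩ | ⟨⟨h1, h2⟩, h3, h4⟩
    · refine ⟨⟨he, Or.inl h1⟩, Or.inl ?_⟩
      simp only [h1, h3, if_true]
      exact ⟨h2, h4 h3⟩
    · refine ⟨⟨he, Or.inl h3⟩, Or.inr ?_⟩
      simp only [h1, h3, if_true]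
      exact ⟨h4 h3, h2⟩

end Pool.Agent.W2411ls
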