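import Mathlib

/-! Line systems: the combinatorial part of the gap linking lemma. -/

set_option autoImplicit false

namespace Pool.Agent.W2411ls

/-- positions `1, ..., N`, finite sets `C i`, partial injections `τ i : D i → C (i + 1)` for
`1 ≤ i < N`, and colours: `col i e ≠ 0` iff `e` is special, i.e. in `D i` or in `τ (i - 1) (D (i - 1))`;
colours are constant along `τ` and injective on the special elements of each `C i`. -/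
structure LS (N m : ℕ) (C D : ℕ → Finset ℕ) (τ col : ℕ → ℕ → ℕ) : Prop where
  sub : ∀ i, 1 ≤ i → i < N → D i ⊆ C i
  map : ∀ i, 1 ≤ i → i < N → ∀ e ∈ D i, τ i e ∈ C (i + 1)
  inj : ∀ i, 1 ≤ i → i < N → ∀ e ∈ D i, ∀ f ∈ D i, τ i e = τ i f → e = f
  card : ∀ i, 1 ≤ i → i < N → (D i).card ≤ m
  colD : ∀ i, 1 ≤ i → i < N → ∀ e ∈ D i, col i e ≠ 0 ∧ col (i + 1) (τ i e) = col i e
  col0 : ∀ i, 1 ≤ i → i ≤ N → ∀ e ∈ C i, col i e ≠ 0 →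
    (i < N ∧ e ∈ D i) ∨ (1 < i ∧ ∃ g ∈ D (i - 1), τ (i - 1) g = e)
  colinj : ∀ i, 1 ≤ i → i ≤ N → ∀ e ∈ C i, ∀ f ∈ C i, col i e ≠ 0 → col i e = col i f → e = f
  colb : ∀ i e, col i e ≤ 2 * m

/-- `g` in `C y` is reached from `f` in `C z` along `τ` -/
inductive Rch (D : ℕ → Finset ℕ) (τ : ℕ → ℕ → ℕ) (y : ℕ) : ℕ → ℕ → ℕ → Prop
  | refl (f : ℕ) : Rch D τ y y f f
  | step {z f g : ℕ} : z < y → f ∈ D z → Rch D τ y (z + 1) (τ z f) g → Rch D τ y z f g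

/-- the data of the gap linking lemma -/
structure GD (N m : ℕ) (C D : ℕ → Finset ℕ) (τ col : ℕ → ℕ → ℕ) (x y : ℕ) (U : Finset ℕ)
    (ι ι' : ℕ → ℕ) : Prop where
  ls : LS N m C D τ col
  x1 : 1 ≤ x
  yN : y ≤ N
  map : ∀ u ∈ U, ι u ∈ C x
  inj : ∀ u ∈ U, ∀ v ∈ U, ι u = ι v → u = v
  map' : ∀ u ∈ U, ι' u ∈ C y
  inj' : ∀ u ∈ U, ∀ v ∈ U, ι' u = ι' v → u = v
  card : ∀ z, x ≤ z → z ≤ y → U.card ≤ (C z).card
  big : 5 * m ≤ U.card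
  coleq : ∀ u ∈ U, col x (ι u) = col y (ι' u)
  cov : ∀ f ∈ C x, col x f ≠ 0 → ∃ u ∈ U, ι u = f
  cov' : ∀ f ∈ C y, col y f ≠ 0 → ∃ u ∈ U, ι' u = f

/-- the invariant of a placement `p` at position `z` -/
structure Inv (C D : ℕ → Finset ℕ) (τ col : ℕ → ℕ → ℕ) (x y : ℕ) (U : Finset ℕ)
    (ι ι' : ℕ → ℕ) (z : ℕ) (p : ℕ → ℕ) : Prop where
  map : ∀ u ∈ U, p u ∈ C z
  inj : ∀ u ∈ U, ∀ v ∈ U, p u = p v → u = v
  occ : ∀ f ∈ C z, col z f ≠ 0 → ∃ u ∈ U, p u = f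
  des : ∀ u ∈ U, ∀ g, Rch D τ y z (p u) g → ι' u = g
  own : ∀ u ∈ U, col x (ι u) ≠ 0 → col z (p u) = 0 ∨ col z (p u) = col x (ι u)

/-- `p` at `z` and `p'` at `z + 1` are compatible with `τ z` -/
def Cmp (D : ℕ → Finset ℕ) (τ : ℕ → ℕ → ℕ) (U : Finset ℕ) (z : ℕ) (p p' : ℕ → ℕ) : Prop :=
  ∀ u ∈ U, (p u ∈ D z → p' u = τ z (p u)) ∧ ∀ g ∈ D z, p' u = τ z g → p u = g

end Pool.Agent.W2411ls
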