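import Mathlib
import Pool.Agent.W_2411ls_h59.LineDef

/-! Colours of a line system. -/

set_option autoImplicit false

namespace Pool.Agent.W2411ls

private theorem colA_ext (I S : Finset ℕ) (hIS : I ⊆ S) (k : ℕ) (hS : S.card ≤ k) (c0 : ℕ → ℕ)
    (hc : ∀ x ∈ I, 1 ≤ c0 x ∧ c0 x ≤ k) (hinj : ∀ x ∈ I, ∀ y ∈ I, c0 x = c0 y → x = y) :
    ∃ c' : ℕ → ℕ, (∀ x ∈ I, c' x = c0 x) ∧ (∀ x ∈ S, 1 ≤ c' x ∧ c' x ≤ k) ∧
      (∀ x ∈ S, ∀ y ∈ S, c' x = c' y → x = y) ∧ ∀ x, x ∉ S → c' x = 0 := by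
  classical
  obtain ⟨U, hU⟩ : ∃ U : Finset ℕ, U = Finset.Icc 1 k \ I.image c0 := ⟨_, rfl⟩
  have h1 : (I.image c0).card = I.card := Finset.card_image_of_injOn (fun x hx y hy h =>
    hinj x hx y hy h)
  have h2 : I.image c0 ⊆ Finset.Icc 1 k := by
    intro x hx
    obtain ⟨a, ha, rfl⟩ := Finset.mem_image.1 hx
    exact Finset.mem_Icc.2 (hc a ha)
  have h3 : U.card = k - I.card := by
    rw [hU, Finset.card_sdiff_of_subset h2, h1, Nat.card_Icc, Nat.add_sub_cancel]
  have h4 : (S \ I).card = S.card - I.card := Finset.card_sdiff_of_subset hIS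
  have h5 : Fintype.card {x // x ∈ S \ I} ≤ Fintype.card {x // x ∈ U} := by
    rw [Fintype.card_coe, Fintype.card_coe, h3, h4]
    omega
  obtain ⟨f⟩ := Function.Embedding.nonempty_of_card_le h5
  have hUm : ∀ x, x ∈ U → x ∈ Finset.Icc 1 k ∧ x ∉ I.image c0 := by
    intro x hx
    rw [hU] at hx
    exact Finset.mem_sdiff.1 hx
  have hfU : ∀ z, (f z).1 ∈ Finset.Icc 1 k ∧ (f z).1 ∉ I.image c0 :=
    fun z => hUm _ (f z).2
  refine ⟨fun x => if h : x ∈ S \ I then (f ⟨x, h⟩).1 else if x ∈ I then c0 x else 0,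
    ?_, ?_, ?_, ?_⟩
  · intro x hx
    have h6 : x ∉ S \ I := fun h => (Finset.mem_sdiff.1 h).2 hx
    simp only [dif_neg h6, if_pos hx]
  · intro x hx
    by_cases hxI : x ∈ I
    · have h6 : x ∉ S \ I := fun h => (Finset.mem_sdiff.1 h).2 hxI
      simp only [dif_neg h6, if_pos hxI]
      exact hc x hxI
    · have h6 : x ∈ S \ I := Finset.mem_sdiff.2 ⟨hx, hxI⟩
      simp only [dif_pos h6]
      exact Finset.mem_Icc.1 (hfU _).1
  · intro x hx y hy hxy
    by_cases hxI : x ∈ I <;> by_cases hyI : y ∈ I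
    · have h6 : x ∉ S \ I := fun h => (Finset.mem_sdiff.1 h).2 hxI
      have h7 : y ∉ S \ I := fun h => (Finset.mem_sdiff.1 h).2 hyI
      simp only [dif_neg h6, if_pos hxI, dif_neg h7, if_pos hyI] at hxy
      exact hinj x hxI y hyI hxy
    · have h6 : x ∉ S \ I := fun h => (Finset.mem_sdiff.1 h).2 hxI
      have h7 : y ∈ S \ I := Finset.mem_sdiff.2 ⟨hy, hyI⟩
      simp only [dif_neg h6, if_pos hxI, dif_pos h7] at hxy
      exact absurd (Finset.mem_image.2 ⟨x, hxI, hxy⟩) (hfU _).2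
    · have h6 : x ∈ S \ I := Finset.mem_sdiff.2 ⟨hx, hxI⟩
      have h7 : y ∉ S \ I := fun h => (Finset.mem_sdiff.1 h).2 hyI
      simp only [dif_pos h6, dif_neg h7, if_pos hyI] at hxy
      exact absurd (Finset.mem_image.2 ⟨y, hyI, hxy.symm⟩) (hfU _).2
    · have h6 : x ∈ S \ I := Finset.mem_sdiff.2 ⟨hx, hxI⟩
      have h7 : y ∈ S \ I := Finset.mem_sdiff.2 ⟨hy, hyI⟩
      simp only [dif_pos h6, dif_pos h7] at hxy
      have h8 := f.injective (Subtype.ext hxy)
      exact congrArg Subtype.val h8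
  · intro x hx
    have h6 : x ∉ S \ I := fun h => hx (Finset.mem_sdiff.1 h).1
    have h7 : x ∉ I := fun h => hx (hIS h)
    simp only [dif_neg h6, if_neg h7]

open Classical in
/-- the special elements at position `i` -/
private noncomputable def colA_sp (N : ℕ) (D : ℕ → Finset ℕ) (τ : ℕ → ℕ → ℕ) (i : ℕ) : Finset ℕ :=
  (if i < N then D i else ∅) ∪ (if 1 < i then (D (i - 1)).image (τ (i - 1)) else ∅)

private def colA_good (N m : ℕ) (D : ℕ → Finset ℕ) (τ : ℕ → ℕ → ℕ) (i : ℕ) (c : ℕ → ℕ) : Prop :=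
  (∀ x ∈ colA_sp N D τ i, 1 ≤ c x ∧ c x ≤ 2 * m) ∧
    (∀ x ∈ colA_sp N D τ i, ∀ y ∈ colA_sp N D τ i, c x = c y → x = y) ∧
    ∀ x, x ∉ colA_sp N D τ i → c x = 0

private theorem colA_next {N m : ℕ} {D : ℕ → Finset ℕ} {τ : ℕ → ℕ → ℕ}
    (inj : ∀ i, 1 ≤ i → i < N → ∀ e ∈ D i, ∀ f ∈ D i, τ i e = τ i f → e = f)
    (card : ∀ i, 1 ≤ i → i < N → (D i).card ≤ m) {i : ℕ} (hi : 1 ≤ i) (hiN : i < N)
    {c : ℕ → ℕ} (hc : colA_good N m D τ i c) :
    ∃ c', colA_good N m D τ (i + 1) c' ∧ ∀ e ∈ D i, c' (τ i e) = c e := by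
  classical
  have hDs : ∀ e ∈ D i, e ∈ colA_sp N D τ i := by
    intro e he
    unfold colA_sp
    rw [if_pos hiN]
    exact Finset.mem_union_left _ he
  obtain ⟨I, hI⟩ : ∃ I : Finset ℕ, I = (D i).image (τ i) := ⟨_, rfl⟩
  have hpre : ∀ x, ∃ e, x ∈ I → e ∈ D i ∧ τ i e = x := by
    intro x
    by_cases hx : x ∈ I
    · rw [hI] at hx
      obtain ⟨e, he, hex⟩ := Finset.mem_image.1 hx
      exact ⟨e, fun _ => ⟨he, hex⟩⟩
    · exact ⟨0, fun h => absurd h hx⟩
  choose g hg using hpre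
  have hsp : colA_sp N D τ (i + 1) = (if i + 1 < N then D (i + 1) else ∅) ∪ I := by
    unfold colA_sp
    rw [if_pos (by omega : 1 < i + 1), Nat.add_sub_cancel, hI]
  have hIS : I ⊆ colA_sp N D τ (i + 1) := by
    rw [hsp]
    exact Finset.subset_union_right
  have hIc : I.card ≤ m := by
    rw [hI]
    exact Finset.card_image_le.trans (card i hi hiN)
  have hSc : (colA_sp N D τ (i + 1)).card ≤ 2 * m := by
    rw [hsp]
    refine (Finset.card_union_le _ _).trans ?_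
    have : (if i + 1 < N then D (i + 1) else ∅).card ≤ m := by
      split_ifs with h
      · exact card (i + 1) (by omega) h
      · simp
    omega
  obtain ⟨c', h1, h2, h3, h4⟩ := colA_ext I (colA_sp N D τ (i + 1)) hIS (2 * m) hSc
    (fun x => c (g x)) (fun x hx => hc.1 _ (hDs _ (hg x hx).1)) (fun x hx y hy hxy => by
      have h5 := hc.2.1 _ (hDs _ (hg x hx).1) _ (hDs _ (hg y hy).1) hxy
      rw [← (hg x hx).2, ← (hg y hy).2, h5])
  refine ⟨c', ⟨h2, h3, h4⟩, fun e he => ?_⟩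
  have hx : τ i e ∈ I := by
    rw [hI]
    exact Finset.mem_image_of_mem _ he
  rw [h1 _ hx]
  have h5 := inj i hi hiN _ (hg _ hx).1 _ he (hg _ hx).2
  simp only [h5]

private theorem colA_first {N m : ℕ} {D : ℕ → Finset ℕ} {τ : ℕ → ℕ → ℕ}
    (card : ∀ i, 1 ≤ i → i < N → (D i).card ≤ m) : ∃ c, colA_good N m D τ 1 c := by
  classical
  have hSc : (colA_sp N D τ 1).card ≤ 2 * m := by
    unfold colA_sp
    rw [if_neg (by omega : ¬ 1 < 1), Finset.union_empty]
    split_ifs with h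
    · exact (card 1 le_rfl h).trans (by omega)
    · simp
  obtain ⟨c', _, h2, h3, h4⟩ := colA_ext ∅ (colA_sp N D τ 1) (Finset.empty_subset _) (2 * m) hSc
    (fun _ => 0) (by simp) (by simp)
  exact ⟨c', h2, h3, h4⟩

/-- **Colours.** `E0` = no edge is in two of the sets is not needed. PROOF. Define `col i` by
recursion on `i` (or prove by induction on `n ≤ N` that there is `col` with all properties for
positions `≤ n`; extend by `Function.update`). At position `i` the inherited elements are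
`I := τ (i-1) (D (i-1))` (empty for `i ≤ 1`), at most `m` of them, with colours
`col i (τ (i-1) g) := col (i-1) g` (well defined as `τ (i-1)` is injective on `D (i-1)`, nonzero,
distinct since `g` are special at `i - 1` and `colinj` at `i - 1`). The new special elements
`D i \ I` (for `i < N`), at most `m`, get distinct colours in `{1, ..., 2 m}` not used by `I`
(`{1, ..., 2m} \ used` has at least `m` elements). All other elements of `C i` (and all numbers not
in `C i`) get colour `0`. -/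
theorem exists_col {N m : ℕ} {C D : ℕ → Finset ℕ} {τ : ℕ → ℕ → ℕ}
    (sub : ∀ i, 1 ≤ i → i < N → D i ⊆ C i)
    (map : ∀ i, 1 ≤ i → i < N → ∀ e ∈ D i, τ i e ∈ C (i + 1))
    (inj : ∀ i, 1 ≤ i → i < N → ∀ e ∈ D i, ∀ f ∈ D i, τ i e = τ i f → e = f)
    (card : ∀ i, 1 ≤ i → i < N → (D i).card ≤ m) : ∃ col, LS N m C D τ col := by
  classical
  obtain ⟨c1, hc1⟩ := colA_first (N := N) (m := m) (D := D) (τ := τ) card
  have hnext : ∀ (i : ℕ) (c : ℕ → ℕ), ∃ c' : ℕ → ℕ, 1 ≤ i → i < N → colA_good N m D τ i c →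
      colA_good N m D τ (i + 1) c' ∧ ∀ e ∈ D i, c' (τ i e) = c e := by
    intro i c
    by_cases h : 1 ≤ i ∧ i < N ∧ colA_good N m D τ i c
    · obtain ⟨c', hc'⟩ := colA_next inj card h.1 h.2.1 h.2.2
      exact ⟨c', fun _ _ _ => hc'⟩
    · exact ⟨c, fun h1 h2 h3 => absurd ⟨h1, h2, h3⟩ h⟩
  choose nx hnx using hnext
  obtain ⟨cc, hcc0, hccs⟩ : ∃ cc : ℕ → ℕ → ℕ, cc 0 = c1 ∧ ∀ k, cc (k + 1) = nx (k + 1) (cc k) :=
    ⟨fun k => Nat.rec c1 (fun k c => nx (k + 1) c) k, rfl, fun _ => rfl⟩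
  have hgood : ∀ k, k + 1 ≤ N → colA_good N m D τ (k + 1) (cc k) := by
    intro k
    induction k with
    | zero =>
      intro _
      rw [hcc0]
      exact hc1
    | succ k ih =>
      intro h
      rw [hccs]
      exact (hnx (k + 1) (cc k) (by omega) (by omega) (ih (by omega))).1
  have hstep : ∀ k, k + 1 < N → ∀ e ∈ D (k + 1), cc (k + 1) (τ (k + 1) e) = cc k e := by
    intro k h
    rw [hccs]
    exact (hnx (k + 1) (cc k) (by omega) h (hgood k (by omega))).2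
  refine ⟨fun i => if 1 ≤ i ∧ i ≤ N then cc (i - 1) else fun _ => 0, sub, map, inj, card,
    ?_, ?_, ?_, ?_⟩
  · intro i hi hiN e he
    obtain ⟨k, rfl⟩ : ∃ k, i = k + 1 := ⟨i - 1, by omega⟩
    simp only [if_pos (⟨by omega, by omega⟩ : 1 ≤ k + 1 ∧ k + 1 ≤ N),
      if_pos (⟨by omega, by omega⟩ : 1 ≤ k + 1 + 1 ∧ k + 1 + 1 ≤ N), Nat.add_sub_cancel]
    refine ⟨?_, hstep k hiN e he⟩
    have h1 : e ∈ colA_sp N D τ (k + 1) := by
      unfold colA_sp
      rw [if_pos hiN]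
      exact Finset.mem_union_left _ he
    have := (hgood k (by omega)).1 e h1
    omega
  · intro i hi hiN e _ hne
    obtain ⟨k, rfl⟩ : ∃ k, i = k + 1 := ⟨i - 1, by omega⟩
    simp only [if_pos (⟨by omega, by omega⟩ : 1 ≤ k + 1 ∧ k + 1 ≤ N), Nat.add_sub_cancel]
      at hne ⊢
    have h1 : e ∈ colA_sp N D τ (k + 1) := by
      by_contra h
      exact hne ((hgood k hiN).2.2 e h)
    unfold colA_sp at h1
    rcases Finset.mem_union.1 h1 with h2 | h2
    · left
      split_ifs at h2 with h3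
      · exact ⟨h3, h2⟩
      · exact absurd h2 (Finset.notMem_empty _)
    · right
      split_ifs at h2 with h3
      · refine ⟨h3, ?_⟩
        obtain ⟨g, hg, hge⟩ := Finset.mem_image.1 h2
        simp only [Nat.add_sub_cancel] at hg hge
        exact ⟨g, hg, hge⟩
      · exact absurd h2 (Finset.notMem_empty _)
  · intro i hi hiN e _ f _ hne hef
    obtain ⟨k, rfl⟩ : ∃ k, i = k + 1 := ⟨i - 1, by omega⟩
    simp only [if_pos (⟨by omega, by omega⟩ : 1 ≤ k + 1 ∧ k + 1 ≤ N), Nat.add_sub_cancel]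
      at hne hef
    have h1 : e ∈ colA_sp N D τ (k + 1) := by
      by_contra h
      exact hne ((hgood k hiN).2.2 e h)
    have h2 : f ∈ colA_sp N D τ (k + 1) := by
      by_contra h
      exact hne (hef.trans ((hgood k hiN).2.2 f h))
    exact (hgood k hiN).2.1 e h1 f h2 hef
  · intro i e
    by_cases h : 1 ≤ i ∧ i ≤ N
    · simp only [if_pos h]
      obtain ⟨k, rfl⟩ : ∃ k, i = k + 1 := ⟨i - 1, by omega⟩
      simp only [Nat.add_sub_cancel]
      by_cases h1 : e ∈ colA_sp N D τ (k + 1)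
      · exact ((hgood k h.2).1 e h1).2
      · rw [(hgood k h.2).2.2 e h1]
        omega
    · simp only [if_neg h]
      omega

end Pool.Agent.W2411ls
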