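import Mathlib
import Pool.Agent.W_2411ls_h59.Defs
import Pool.Agent.W_2411ls_h59.LineDef

/-! Local linkages at a hub; dressed linear graphs; letters and words. -/

set_option autoImplicit false
set_option linter.unusedSectionVars false

namespace Pool.Agent.W2411ls

open Pool.Agent.W2411c4

variable {Ω : Type} [Preorder Ω] [Inhabited Ω]

/-- local linkage at the hub `h ∈ Z \ Y`: the edges `e ∈ D` of `bd Y` are linked to `τ e ∈ bd Z` by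
connected edge sets `J e = J' (τ e)` which avoid `h`, all other edges `e` of `bd Y` are linked to `h`
by `J e`, all other edges `e` of `bd Z` are linked to `h` by `J' e`, everything edge-disjoint and
(apart from the boundary edges) inside `Z \ Y` -/
structure ALk {Q : Type} (G : Gr Q) (Y Z : Finset ℕ) (h : ℕ) (D : Finset ℕ) (τ : ℕ → ℕ)
    (J J' : ℕ → Set ℕ) : Prop where
  sub : D ⊆ G.bd Y
  map : ∀ e ∈ D, τ e ∈ G.bd Z
  inj : ∀ e ∈ D, ∀ f ∈ D, τ e = τ f → e = f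
  thru : ∀ e ∈ D, J e = J' (τ e)
  mem : ∀ e ∈ G.bd Y, e ∈ J e
  mem' : ∀ e ∈ G.bd Z, e ∈ J' e
  sub1 : ∀ e ∈ G.bd Y, ∀ f ∈ J e, f = e ∨ (f ∈ G.E ∧ G.Inner (Z \ Y) f) ∨ (e ∈ D ∧ f = τ e)
  sub2 : ∀ e ∈ G.bd Z, ∀ f ∈ J' e, f = e ∨ (f ∈ G.E ∧ G.Inner (Z \ Y) f) ∨ ∃ g ∈ D, τ g = e ∧ f = g
  conn1 : ∀ e ∈ G.bd Y, e ∉ D → ∀ z, G.Inc e z → G.Conn (J e) z h
  conn2 : ∀ e ∈ G.bd Z, (∀ g ∈ D, τ g ≠ e) → ∀ z, G.Inc e z → G.Conn (J' e) z h
  connD : ∀ e ∈ D, ∀ z z', G.Inc e z → G.Inc (τ e) z' → G.Conn (J e) z z'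
  avoid : ∀ e ∈ D, ∀ f ∈ J e, ¬ G.Inc f h
  dis1 : ∀ e ∈ G.bd Y, ∀ f ∈ G.bd Y, e ≠ f → Disjoint (J e) (J f)
  dis2 : ∀ e ∈ G.bd Z, ∀ f ∈ G.bd Z, e ≠ f → Disjoint (J' e) (J' f)
  dis3 : ∀ e ∈ G.bd Y, ∀ f ∈ G.bd Z, ¬ (e ∈ D ∧ τ e = f) → Disjoint (J e) (J' f)

/-- the vertices up to the cut number `i` -/
def lvl (P : (CG Ω)) (pos : ℕ → ℕ) (i : ℕ) : Finset ℕ := P.X.filter fun x => pos x ≤ 4 * i

/-- dressed linear graphs: numbers `ν i` of the edges passing hub `i`, local linkages and colours -/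
structure Dr (W : Set (Pc (Lb Ω))) (M : ℕ) (k : ℕ∞) (m Θ T : ℕ) (P : (CG Ω)) (N : ℕ) (b pos : ℕ → ℕ) (pt : ℕ → ℕ)
    (up : ℕ → Finset ℕ) (rk : ℕ → ℕ) (ν col : ℕ → ℕ → ℕ) (D : ℕ → Finset ℕ) (τ : ℕ → ℕ → ℕ)
    (J J' : ℕ → ℕ → Set ℕ) : Prop where
  lin : IsLin W M k m Θ T P N b pos pt up rk
  ν_lt : ∀ i ≤ N, ∀ e ∈ strE P pos i, ν i e < m
  ν_inj : ∀ i ≤ N, ∀ e ∈ strE P pos i, ∀ f ∈ strE P pos i, ν i e = ν i f → e = f
  ls : LS N m (cutE P pos) D τ col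
  lk : ∀ i, 1 ≤ i → i < N → ALk P.G (lvl P pos i) (lvl P pos (i + 1)) (b i) (D i) (τ i) (J i) (J' i)

/-- the part of block `i` before the cut (position `4 * i`) -/
def blM (P : (CG Ω)) (pos : ℕ → ℕ) (i : ℕ) : Finset ℕ := P.X.filter fun x => pos x = 4 * i

/-- the part of block `i` after the cut (position `4 * i + 2`) -/
def blP (P : (CG Ω)) (pos : ℕ → ℕ) (i : ℕ) : Finset ℕ := P.X.filter fun x => pos x = 4 * i + 2

/-- block `i` -/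
def blk (P : (CG Ω)) (pos : ℕ → ℕ) (i : ℕ) : Finset ℕ :=
  P.X.filter fun x => pos x = 4 * i ∨ pos x = 4 * i + 2

open Classical in
/-- the types of the boundary edges of `blM i`, `blP i`, `blk i`: edges passing hub `i - 1`, edges
passing hub `i`, edges to hub `i`, edges of the cut `i`, edges to hub `i - 1` -/
noncomputable def tyW (P : (CG Ω)) (pos : ℕ → ℕ) (m T : ℕ) (ν col : ℕ → ℕ → ℕ) (i : ℕ) : ℕ → ℕ :=
  fun e => if 1 ≤ i ∧ e ∈ strE P pos (i - 1) then T + 2 + ν (i - 1) e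
    else if e ∈ strE P pos i then T + 2 + m + ν i e
    else if pos (P.G.a e) = 4 * i + 3 ∨ pos (P.G.b e) = 4 * i + 3 then T + 1
    else if e ∈ cutE P pos i then T + 2 + 2 * m + col i e
    else T

/-- the colours that occur at the cut number `i` -/
def cols (P : (CG Ω)) (pos : ℕ → ℕ) (col : ℕ → ℕ → ℕ) (i : ℕ) : Finset ℕ :=
  (cutE P pos i).image (col i)

/-- letters -/
structure Let (Ω : Type) where
  q : (Lb Ω)
  p1 : (CG Ω)
  p2 : (CG Ω)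
  p3 : (CG Ω)
  k1 : Finset ℕ
  k2 : Finset ℕ

/-- the quasi-order of letters -/
structure LR (x y : (Let Ω)) : Prop where
  q : x.q ≤ y.q
  p1 : CR x.p1 y.p1
  p2 : CR x.p2 y.p2
  p3 : CR x.p3 y.p3
  k1 : x.k1 = y.k1
  k2 : x.k2 = y.k2

instance : IsPreorder (Let Ω) LR where
  refl := fun _ => ⟨le_rfl, CR.refl _, CR.refl _, CR.refl _, rfl, rfl⟩
  trans := fun _ _ _ h h' => ⟨le_trans h.q h'.q, h.p1.trans h'.p1, h.p2.trans h'.p2,
    h.p3.trans h'.p3, h.k1.trans h'.k1, h.k2.trans h'.k2⟩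

/-- the letter of hub `i` -/
noncomputable def letr (P : (CG Ω)) (b pos : ℕ → ℕ) (m T : ℕ) (ν col : ℕ → ℕ → ℕ) (i : ℕ) : (Let Ω) where
  q := P.G.lab (b i)
  p1 := cl P.G (blP P pos i) (tyW P pos m T ν col i)
  p2 := cl P.G (blk P pos i) (tyW P pos m T ν col i)
  p3 := cl P.G (blM P pos (i + 1)) (tyW P pos m T ν col (i + 1))
  k1 := cols P pos col i
  k2 := cols P pos col (i + 1)

end Pool.Agent.W2411ls
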