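import Mathlib
import Pool.Agent.W_2411ls_h59.LocDef
import Pool.Agent.W_2411c4_h26.Slab2

/-! Local linkage, first case. -/

set_option autoImplicit false

namespace Pool.Agent.W2411ls

open Pool.Agent.W2411c4

open Classical in
/-- a slab (W_2411c4_h26) gives a local linkage -/
theorem alk_of_slab {Q : Type} {G : Gr Q} {Y Z : Finset ℕ} {h : ℕ}
    (s : W2411si.Slab G Y Z h) :
    ∃ D τ J J', ALk G Y Z h D τ J J' := by
  have hτ : ∀ e, ∃ f, (∃ g, s.thr e g) → s.thr e f := by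
    intro e
    by_cases hg : ∃ g, s.thr e g
    · obtain ⟨g, hg⟩ := hg
      exact ⟨g, fun _ => hg⟩
    · exact ⟨0, fun h => absurd h hg⟩
  choose τ hτ using hτ
  have hD : ∀ e, e ∈ (G.bd Y).filter (fun e => ∃ g, s.thr e g) ↔ s.thr e (τ e) := by
    intro e
    rw [Finset.mem_filter]
    constructor
    · intro h1
      exact hτ e h1.2
    · intro h1
      exact ⟨(s.thr_mem _ _ h1).1, τ e, h1⟩
  refine ⟨(G.bd Y).filter fun e => ∃ g, s.thr e g, τ, s.P, s.P', ?_⟩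
  refine
    { sub := Finset.filter_subset _ _
      map := fun e he => (s.thr_mem _ _ ((hD e).1 he)).2
      inj := ?_
      thru := fun e he => s.thr_eq _ _ ((hD e).1 he)
      mem := s.self
      mem' := s.self'
      sub1 := ?_
      sub2 := ?_
      conn1 := ?_
      conn2 := ?_
      connD := ?_
      avoid := ?_
      dis1 := s.disj
      dis2 := s.disj'
      dis3 := ?_ }
  · intro e he f hf hef
    have h1 := (hD e).1 he
    have h2 := (hD f).1 hf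
    rw [← hef] at h2
    exact s.thr_right _ _ _ h1 h2
  · intro e he f hf
    obtain ⟨h1, h2⟩ := s.sub e he f hf
    rcases h2 with h2 | h2 | h2
    · exact Or.inl h2
    · exact Or.inr (Or.inl ⟨h1, h2⟩)
    · have h3 : s.thr e (τ e) := hτ e ⟨f, h2⟩
      exact Or.inr (Or.inr ⟨(hD e).2 h3, s.thr_left _ _ _ h2 h3⟩)
  · intro e he f hf
    obtain ⟨h1, h2⟩ := s.sub' e he f hf
    rcases h2 with h2 | h2 | h2
    · exact Or.inl h2
    · exact Or.inr (Or.inl ⟨h1, h2⟩)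
    · have h3 : s.thr f (τ f) := hτ f ⟨e, h2⟩
      exact Or.inr (Or.inr ⟨f, (hD f).2 h3, s.thr_left _ _ _ h3 h2, rfl⟩)
  · intro e he hn z hz
    refine s.conn e he ?_ z hz
    intro f hf
    exact hn ((hD e).2 (hτ e ⟨f, hf⟩))
  · intro f hf hn z hz
    refine s.conn' f hf ?_ z hz
    intro e he
    have h1 : s.thr e (τ e) := hτ e ⟨f, he⟩
    exact hn e ((hD e).2 h1) (s.thr_left _ _ _ h1 he)
  · intro e he z z' hz hz'
    exact s.connT _ _ ((hD e).1 he) z z' hz hz'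
  · intro e he f hf
    exact s.avoid _ _ ((hD e).1 he) f hf
  · intro e he f hf hn
    refine s.disjT e he f hf ?_
    intro h1
    have h2 : s.thr e (τ e) := hτ e ⟨f, h1⟩
    exact hn ⟨(hD e).2 h2, s.thr_left _ _ _ h2 h1⟩

theorem loc_link1 {Q : Type} {G : Gr Q} {Y Z : Finset ℕ} {h : ℕ} (hYZ : Y ⊆ Z) (hhZ : h ∈ Z)
    (hhY : h ∉ Y) (hC : ∀ e ∈ G.bd Y, e ∉ G.bd Z) (hh : ∀ e ∈ G.bd Y, ¬ G.Inc e h)
    (hh' : ∀ e ∈ G.bd Z, ¬ G.Inc e h)
    (hcut : ∀ U, Y ⊆ U → U ⊆ Z → (h ∈ U → G.d Z ≤ G.d U) ∧ (h ∉ U → G.d Y ≤ G.d U))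
    (hle : G.d Y ≤ G.d Z) : ∃ D τ J J', ALk G Y Z h D τ J J' := by
  obtain ⟨s⟩ := W2411si.slab_le hYZ (Finset.mem_sdiff.2 ⟨hhZ, hhY⟩)
    (fun U h1 h2 h3 => (hcut U h1 h2).2 h3) (fun U h1 h2 h3 => (hcut U h1 h2).1 h3) hle
  exact alk_of_slab s

end Pool.Agent.W2411ls
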