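import Mathlib
import Pool.Agent.W_2411ls_h59.LocA

/-! Local linkage, general case. -/

set_option autoImplicit false

namespace Pool.Agent.W2411ls

open Pool.Agent.W2411c4

theorem loc_link {Q : Type} {G : Gr Q} {V Y Z : Finset ℕ} {h : ℕ}
    (hV : ∀ e ∈ G.E, G.a e ∈ V ∧ G.b e ∈ V) (hZV : Z ⊆ V) (hYZ : Y ⊆ Z) (hhZ : h ∈ Z)
    (hhY : h ∉ Y) (hC : ∀ e ∈ G.bd Y, e ∉ G.bd Z) (hh : ∀ e ∈ G.bd Y, ¬ G.Inc e h)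
    (hh' : ∀ e ∈ G.bd Z, ¬ G.Inc e h)
    (hcut : ∀ U, Y ⊆ U → U ⊆ Z → (h ∈ U → G.d Z ≤ G.d U) ∧ (h ∉ U → G.d Y ≤ G.d U)) :
    ∃ D τ J J', ALk G Y Z h D τ J J' := by
  obtain ⟨s⟩ := W2411si.slab (V0 := V) (fun e he => by have h1 := hV e he; exact ⟨fun _ => h1.2, fun _ => h1.1⟩)
    hZV hYZ (Finset.mem_sdiff.2 ⟨hhZ, hhY⟩)
    (fun U h1 h2 h3 => (hcut U h1 h2).2 h3) (fun U h1 h2 h3 => (hcut U h1 h2).1 h3)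
  exact alk_of_slab s

end Pool.Agent.W2411ls
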