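import Mathlib
import Pool.Agent.W_2411ls_h59.LocB

/-! Local linkages in linear graphs. -/

set_option autoImplicit false
set_option linter.unusedSectionVars false

namespace Pool.Agent.W2411ls

open Pool.Agent.W2411c4

variable {Ω : Type} [Preorder Ω] [Inhabited Ω]

theorem lin_pos {W : Set (Pc (Lb Ω))} {M : ℕ} {k : ℕ∞} {m Θ T : ℕ} {P : (CG Ω)} {N : ℕ} {b pos pt : ℕ → ℕ}
    {up : ℕ → Finset ℕ} {rk : ℕ → ℕ} (h : IsLin W M k m Θ T P N b pos pt up rk) {x : ℕ}
    (hx : x ∈ P.X) : (∃ j ≤ N, b j = x ∧ pos x = 4 * j + 3) ∨ pos x % 2 = 0 := by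
  by_cases hH : x ∈ hs N b
  · left
    obtain ⟨j, hj, hjx⟩ := mem_hs.1 hH
    refine ⟨j, hj, hjx, ?_⟩
    rw [← hjx]
    exact h.posb j hj
  · right
    exact (h.pose x hx hH).1

theorem mem_lvl {P : (CG Ω)} {pos : ℕ → ℕ} {i x : ℕ} : x ∈ lvl P pos i ↔ x ∈ P.X ∧ pos x ≤ 4 * i := by
  simp [lvl]

/-- PROOF. `loc_link` with `V := P.X`, `Y := lvl P pos i`, `Z := lvl P pos (i + 1)`,
`h := b i` (position `4 * i + 3`). Edges of `bd (lvl i)` have one end with `pos ≤ 4 * i` and the other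
with `pos > 4 * i`, positions differ by at most `2` and (`pose`, `posb`, `1 ≤ i < N`) the only odd
positions are `4 * j + 3`, so the positions are `4 * i` and `4 * i + 2` or `4 * i - 1` and
`4 * i + 1`, the last is impossible; so they are `4 * i`, `4 * i + 2` and the edge is not in
`bd (lvl (i+1))` and not incident with `b i`. `hcut` is the field `loc` (for `U ⊆ lvl (i+1)`;
`cutE P pos i = bd (lvl P pos i)` by definition). -/
theorem lin_link {W : Set (Pc (Lb Ω))} {M : ℕ} {k : ℕ∞} {m Θ T : ℕ} {P : (CG Ω)} {N : ℕ} {b pos pt : ℕ → ℕ}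
    {up : ℕ → Finset ℕ} {rk : ℕ → ℕ} (h : IsLin W M k m Θ T P N b pos pt up rk) {i : ℕ}
    (h1 : 1 ≤ i) (h2 : i < N) :
    ∃ D τ J J', ALk P.G (lvl P pos i) (lvl P pos (i + 1)) (b i) D τ J J' := by
  have hbX : b i ∈ P.X := h.parts.sub (mem_hs.2 ⟨i, by omega, rfl⟩)
  have hpb : pos (b i) = 4 * i + 3 := h.posb i (by omega)
  refine loc_link (V := P.X) h.cls ?_ ?_ ?_ ?_ ?_ ?_ ?_ ?_
  · intro x hx
    exact (mem_lvl.1 hx).1
  · intro x hx
    rw [mem_lvl] at hx ⊢
    exact ⟨hx.1, by omega⟩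
  · rw [mem_lvl]
    exact ⟨hbX, by omega⟩
  · rw [mem_lvl]
    rintro ⟨_, h3⟩
    omega
  · intro e he he'
    obtain ⟨heE, hc⟩ := P.G.mem_bd.1 he
    obtain ⟨-, hc'⟩ := P.G.mem_bd.1 he'
    have hX := h.cls e heE
    have hd := h.edge e heE
    unfold Gr.Cross at hc hc'
    simp only [mem_lvl, hX.1, hX.2, true_and] at hc hc'
    omega
  · intro e he hi
    obtain ⟨heE, hc⟩ := P.G.mem_bd.1 he
    have hX := h.cls e heE
    have hd := h.edge e heE
    unfold Gr.Cross at hc
    simp only [mem_lvl, hX.1, hX.2, true_and] at hc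
    rcases hi with hi | hi
    · rw [← hi] at hc hd
      omega
    · rw [← hi] at hc hd
      omega
  · intro e he hi
    obtain ⟨heE, hc⟩ := P.G.mem_bd.1 he
    have hX := h.cls e heE
    have hd := h.edge e heE
    have hpa := lin_pos h hX.1
    have hpb' := lin_pos h hX.2
    unfold Gr.Cross at hc
    simp only [mem_lvl, hX.1, hX.2, true_and] at hc
    rcases hi with hi | hi
    · rw [← hi] at hc hd
      rcases hpb' with ⟨j, -, -, hj⟩ | hj
      · omega
      · omega
    · rw [← hi] at hc hd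
      rcases hpa with ⟨j, -, -, hj⟩ | hj
      · omega
      · omega
  · intro U hU1 hU2
    have hUX : U ⊆ P.X := fun x hx => (mem_lvl.1 (hU2 hx)).1
    have hl := h.loc i h1 h2 U hUX (fun x hx hp => hU1 (mem_lvl.2 ⟨hx, hp⟩))
      (fun x hx => by
        have := (mem_lvl.1 (hU2 hx)).2
        omega)
    exact hl

/-- At most `m` edges are linked past the hub. PROOF. For `e ∈ D`, `J e` connects an end of
`e` in `lvl i` (position `4 * i`) with the end of `τ e` outside `lvl (i + 1)` (position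
`4 * i + 6`, or just `> 4 * i + 4`). By `conn_cross` (W_2411c4_h59/Cut.lean) applied to the set
`{x ∈ P.X | pos x ≤ 4 * i + 2}` some `f ∈ J e` crosses it; `f` is an edge, its positions are
`≤ 4 * i + 2` and `> 4 * i + 2`, differ by at most `2`, and `f` is not incident with `b i` (`avoid`),
the only vertex at position `4 * i + 3` (an odd position `4 * i + 3` is a hub `b j`, `j = i`); the
position `4 * i + 1` does not occur, so `f ∈ strE P pos i`. The sets `J e` are disjoint (`dis1`), so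
`e ↦ f` is injective and `|D| ≤ |strE P pos i| ≤ m`. -/
theorem lin_link_card {W : Set (Pc (Lb Ω))} {M : ℕ} {k : ℕ∞} {m Θ T : ℕ} {P : (CG Ω)} {N : ℕ} {b pos pt : ℕ → ℕ}
    {up : ℕ → Finset ℕ} {rk : ℕ → ℕ} (h : IsLin W M k m Θ T P N b pos pt up rk) {i : ℕ}
    (h1 : 1 ≤ i) (h2 : i < N) {D : Finset ℕ} {τ : ℕ → ℕ} {J J' : ℕ → Set ℕ}
    (hl : ALk P.G (lvl P pos i) (lvl P pos (i + 1)) (b i) D τ J J') : D.card ≤ m := by
  classical
  have key : ∀ e ∈ D, ∃ f, f ∈ J e ∧ f ∈ strE P pos i := by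
    intro e he
    have heY := hl.sub he
    have heZ := hl.map e he
    obtain ⟨heE, hc⟩ := P.G.mem_bd.1 heY
    obtain ⟨heE', hc'⟩ := P.G.mem_bd.1 heZ
    obtain ⟨z, hz, hzY⟩ : ∃ z, P.G.Inc e z ∧ z ∈ lvl P pos i := by
      rcases hc with h3 | h3
      · exact ⟨_, Or.inl rfl, h3.1⟩
      · exact ⟨_, Or.inr rfl, h3.2⟩
    obtain ⟨w, hw, hwZ⟩ : ∃ w, P.G.Inc (τ e) w ∧ w ∉ lvl P pos (i + 1) := by
      rcases hc' with h3 | h3
      · exact ⟨_, Or.inr rfl, h3.2⟩
      · exact ⟨_, Or.inl rfl, h3.1⟩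
    have hwX : w ∈ P.X := by
      have := h.cls (τ e) heE'
      rcases hw with hw | hw
      · rw [hw]; exact this.1
      · rw [hw]; exact this.2
    have hmem : ∀ x, x ∈ (P.X.filter fun x => pos x ≤ 4 * i + 2) ↔ x ∈ P.X ∧ pos x ≤ 4 * i + 2 := by
      intro x
      simp
    obtain ⟨f, hf, hfc⟩ := conn_cross (Z := P.X.filter fun x => pos x ≤ 4 * i + 2)
      (hl.connD e he z w hz hw)
      (by
        rw [hmem]
        rw [mem_lvl] at hzY
        exact ⟨hzY.1, by omega⟩)
      (by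
        rw [hmem]
        rintro ⟨_, h3⟩
        apply hwZ
        rw [mem_lvl]
        exact ⟨hwX, by omega⟩)
    have hfE : f ∈ P.G.E := by
      rcases hl.sub1 e heY f hf with h3 | h3 | h3
      · rw [h3]; exact heE
      · exact h3.1
      · rw [h3.2]; exact heE'
    have hfi := hl.avoid e he f hf
    have hX := h.cls f hfE
    have hd := h.edge f hfE
    unfold Gr.Cross at hfc
    simp only [hmem, hX.1, hX.2, true_and] at hfc
    have hna : pos (P.G.a f) ≠ 4 * i + 3 := by
      intro h3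
      rcases lin_pos h hX.1 with ⟨j, -, hj, hj'⟩ | hj
      · have hji : j = i := by omega
        rw [hji] at hj
        exact hfi (Or.inl hj)
      · omega
    have hnb : pos (P.G.b f) ≠ 4 * i + 3 := by
      intro h3
      rcases lin_pos h hX.2 with ⟨j, -, hj, hj'⟩ | hj
      · have hji : j = i := by omega
        rw [hji] at hj
        exact hfi (Or.inr hj)
      · omega
    refine ⟨f, hf, ?_⟩
    unfold strE
    rw [Finset.mem_filter]
    refine ⟨hfE, ?_⟩
    omega
  choose! g hg using key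
  refine le_trans ?_ (h.str i (by omega))
  refine Finset.card_le_card_of_injOn g ?_ ?_
  · intro e he
    exact Finset.mem_coe.2 (hg e he).2
  · intro e he f hf hef
    by_contra hne
    have hd := hl.dis1 e (hl.sub he) f (hl.sub hf) hne
    rw [Set.disjoint_left] at hd
    apply hd (hg e he).1
    have hef' : g e = g f := hef
    rw [hef']
    exact (hg f hf).1

end Pool.Agent.W2411ls
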