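import Mathlib
import Pool.Agent.W_2411ls_h59.LocC
import Pool.Agent.W_2411ls_h59.ColA

/-! Every linear graph can be dressed. -/

set_option autoImplicit false
set_option linter.unusedSectionVars false

namespace Pool.Agent.W2411ls

open Pool.Agent.W2411c4

variable {Ω : Type} [Preorder Ω] [Inhabited Ω]

theorem dress_inj (S : Finset ℕ) {m : ℕ} (h : S.card ≤ m) :
    ∃ f : ℕ → ℕ, (∀ x ∈ S, f x < m) ∧ ∀ x ∈ S, ∀ y ∈ S, f x = f y → x = y := by
  classical
  refine ⟨fun x => if hx : x ∈ S then (S.equivFin ⟨x, hx⟩).1 else 0, ?_, ?_⟩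
  · intro x hx
    simp only [dif_pos hx]
    exact lt_of_lt_of_le (S.equivFin ⟨x, hx⟩).2 h
  · intro x hx y hy hxy
    simp only [dif_pos hx, dif_pos hy] at hxy
    exact congrArg Subtype.val (S.equivFin.injective (Fin.ext hxy))

/-- PROOF. `ν i`: an injection of `strE P pos i` (at most `m` elements) into
`{0, ..., m-1}` (e.g. from `Finset.equivFin`, or `exists_inj` of W_2411c4_h59/Hubs.lean). For
`1 ≤ i < N` choose `D i, τ i, J i, J' i` by `lin_link` (arbitrary for other `i`, `choose` after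
proving `∀ i, ∃ D τ J J', 1 ≤ i → i < N → ALk ...`), `|D i| ≤ m` by `lin_link_card`, colours by
`exists_col` with `C := cutE P pos` (`cutE P pos i = P.G.bd (lvl P pos i)` by `rfl`). -/
theorem exists_dr {W : Set (Pc (Lb Ω))} {M : ℕ} {k : ℕ∞} {m Θ T : ℕ} {P : (CG Ω)} {N : ℕ} {b pos pt : ℕ → ℕ}
    {up : ℕ → Finset ℕ} {rk : ℕ → ℕ} (h : IsLin W M k m Θ T P N b pos pt up rk) :
    ∃ ν col D τ J J', Dr W M k m Θ T P N b pos pt up rk ν col D τ J J' := by
  have hν : ∀ i, ∃ f : ℕ → ℕ, i ≤ N → (∀ e ∈ strE P pos i, f e < m) ∧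
      ∀ e ∈ strE P pos i, ∀ g ∈ strE P pos i, f e = f g → e = g := by
    intro i
    by_cases hi : i ≤ N
    · obtain ⟨f, h1, h2⟩ := dress_inj (strE P pos i) (h.str i hi)
      exact ⟨f, fun _ => ⟨h1, h2⟩⟩
    · exact ⟨id, fun h' => absurd h' hi⟩
  choose ν hν using hν
  have hl : ∀ i, ∃ (D : Finset ℕ) (τ : ℕ → ℕ) (J J' : ℕ → Set ℕ), 1 ≤ i → i < N →
      ALk P.G (lvl P pos i) (lvl P pos (i + 1)) (b i) D τ J J' := by
    intro i
    by_cases hi : 1 ≤ i ∧ i < N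
    · obtain ⟨D, τ, J, J', h1⟩ := lin_link h hi.1 hi.2
      exact ⟨D, τ, J, J', fun _ _ => h1⟩
    · exact ⟨∅, id, fun _ => ∅, fun _ => ∅, fun h1 h2 => absurd ⟨h1, h2⟩ hi⟩
  choose D τ J J' hl using hl
  obtain ⟨col, hcol⟩ := exists_col (N := N) (m := m) (C := cutE P pos) (D := D) (τ := τ)
    (fun i h1 h2 => (hl i h1 h2).sub) (fun i h1 h2 => (hl i h1 h2).map)
    (fun i h1 h2 => (hl i h1 h2).inj) (fun i h1 h2 => lin_link_card h h1 h2 (hl i h1 h2))
  exact ⟨ν, col, D, τ, J, J', h, fun i hi => (hν i hi).1, fun i hi => (hν i hi).2, hcol, hl⟩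

end Pool.Agent.W2411ls
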