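import Mathlib

/-! Words with gap labels. -/

set_option autoImplicit false

namespace Pool.Agent.W2411ls

/-- words: letters `x 0, ..., x N`, the label `c i` (`1 ≤ i ≤ N`) is between `x (i-1)` and `x i` -/
structure Wd (α : Type) where
  N : ℕ
  x : ℕ → α
  c : ℕ → ℕ

/-- embedding of words, first letter to first letter, last letter to last letter -/
def WE {α : Type} (r : α → α → Prop) (w w' : Wd α) : Prop :=
  ∃ φ : ℕ → ℕ, φ 0 = 0 ∧ φ w.N = w'.N ∧ (∀ i, i < w.N → φ i < φ (i + 1)) ∧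
    (∀ i ≤ w.N, r (w.x i) (w'.x (φ i))) ∧
    ∀ i, 1 ≤ i → i ≤ w.N → ∀ l, φ (i - 1) < l → l ≤ φ i → w.c i ≤ w'.c l

end Pool.Agent.W2411ls
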