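import Mathlib
import Pool.Agent.W_2411ls_h59.LocDef
import Pool.Agent.W_2411ls_h59.Words

/-! The word of a dressed linear graph and the data of an embedding. -/

set_option autoImplicit false
set_option linter.unusedSectionVars false

namespace Pool.Agent.W2411ls

open Pool.Agent.W2411c4

variable {Ω : Type} [Preorder Ω] [Inhabited Ω]

/-- the word of a dressed linear graph -/
noncomputable def wrd (P : (CG Ω)) (N : ℕ) (b pos : ℕ → ℕ) (m T : ℕ) (ν col : ℕ → ℕ → ℕ) : Wd (Let Ω) where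
  N := N
  x := letr P b pos m T ν col
  c := fun i => (cutE P pos i).card

/-- data of an embedding `φ` of the word of `P` into the word of `P'`: local immersions of `blP i`,
`blk i` and of `blM (i + 1)` for every hub `i`, and connectors in the gaps -/
structure WDt (P P' : (CG Ω)) (N N' : ℕ) (b b' pos pos' : ℕ → ℕ) (m T : ℕ) (ν col ν' col' : ℕ → ℕ → ℕ)
    (φ : ℕ → ℕ) (ηP ιP ηD ιD ηM ιM : ℕ → ℕ → ℕ) (ΦP ΦD ΦM Γ : ℕ → ℕ → Set ℕ) : Prop where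
  zero : φ 0 = 0
  last : φ N = N'
  lt : ∀ i, i < N → φ i < φ (i + 1)
  lab : ∀ i ≤ N, P.G.lab (b i) ≤ P'.G.lab (b' (φ i))
  imP : ∀ i ≤ N, TImm P.G (blP P pos i) P'.G (blP P' pos' (φ i)) (tyW P pos m T ν col i)
    (tyW P' pos' m T ν' col' (φ i)) (ηP i) (ΦP i) (ιP i)
  imD : ∀ i, 1 ≤ i → i ≤ N → TImm P.G (blk P pos i) P'.G (blk P' pos' (φ i))
    (tyW P pos m T ν col i) (tyW P' pos' m T ν' col' (φ i)) (ηD i) (ΦD i) (ιD i)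
  imM : ∀ i ≤ N, TImm P.G (blM P pos (i + 1)) P'.G (blM P' pos' (φ i + 1))
    (tyW P pos m T ν col (i + 1)) (tyW P' pos' m T ν' col' (φ i + 1)) (ηM i) (ΦM i) (ιM i)
  mem : ∀ i, i < N → φ i + 1 < φ (i + 1) → ∀ u ∈ cutE P pos (i + 1),
    ιM i u ∈ Γ i u ∧ ιP (i + 1) u ∈ Γ i u
  sub : ∀ i, i < N → φ i + 1 < φ (i + 1) → ∀ u ∈ cutE P pos (i + 1), ∀ f ∈ Γ i u,
    f ∈ P'.G.E ∧ (f = ιM i u ∨ f = ιP (i + 1) u ∨
      (4 * (φ i + 1) + 2 ≤ pos' (P'.G.a f) ∧ pos' (P'.G.a f) ≤ 4 * φ (i + 1) ∧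
        4 * (φ i + 1) + 2 ≤ pos' (P'.G.b f) ∧ pos' (P'.G.b f) ≤ 4 * φ (i + 1)))
  cutM : ∀ i, i < N → φ i + 1 < φ (i + 1) → ∀ u ∈ cutE P pos (i + 1),
    ιM i u ∈ cutE P' pos' (φ i + 1)
  cutP : ∀ i, i < N → φ i + 1 < φ (i + 1) → ∀ u ∈ cutE P pos (i + 1),
    ιP (i + 1) u ∈ cutE P' pos' (φ (i + 1))
  conn : ∀ i, i < N → φ i + 1 < φ (i + 1) → ∀ u ∈ cutE P pos (i + 1), ∀ z z',
    P'.G.Inc (ιM i u) z → P'.G.Inc (ιP (i + 1) u) z' → P'.G.Conn (Γ i u) z z'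
  disj : ∀ i, i < N → φ i + 1 < φ (i + 1) → ∀ u ∈ cutE P pos (i + 1),
    ∀ v ∈ cutE P pos (i + 1), u ≠ v → Disjoint (Γ i u) (Γ i v)

end Pool.Agent.W2411ls
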