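import Mathlib
import Pool.Agent.W_2411ls_h59.LineDef

/-! Gap linking, start and end. -/

set_option autoImplicit false

namespace Pool.Agent.W2411ls

theorem LineA_rch {N m : ℕ} {C D : ℕ → Finset ℕ} {τ col : ℕ → ℕ → ℕ} {y z f g : ℕ}
    (h : LS N m C D τ col) (hy : y ≤ N) (hr : Rch D τ y z f g) (hz : 1 ≤ z) (hf : f ∈ C z) :
    g ∈ C y ∧ col y g = col z f ∧ (z < y → col z f ≠ 0) := by
  induction hr with
  | refl f => exact ⟨hf, rfl, fun h => absurd h (lt_irrefl _)⟩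
  | @step z f g h1 h2 h3 ih =>
    obtain ⟨h4, h5⟩ := h.colD z hz (by omega) f h2
    obtain ⟨h6, h7, -⟩ := ih (by omega) (h.map z hz (by omega) f h2)
    exact ⟨h6, h7.trans h5, fun _ => h4⟩

/-- PROOF. `map`, `inj`, `occ` are in `GD`. `own`: second alternative, `rfl`.
`des`: let `Rch D τ y x (ι u) g`. General facts by induction on `Rch`: if `Rch D τ y z f g`, `x ≤ z`,
`f ∈ C z` then `g ∈ C y` and `col y g = col z f` and (if `z < y`) this colour is not `0`
(use `ls.map`, `ls.colD`; the positions satisfy `1 ≤ z < y ≤ N`). As `x < y`: `a := col x (ι u) ≠ 0`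
and `col y g = a = col y (ι' u)`, so `g = ι' u` by `ls.colinj` at `y`. -/
theorem inv_start {N m : ℕ} {C D : ℕ → Finset ℕ} {τ col : ℕ → ℕ → ℕ} {x y : ℕ} {U : Finset ℕ}
    {ι ι' : ℕ → ℕ} (h : GD N m C D τ col x y U ι ι') (hxy : x < y) :
    Inv C D τ col x y U ι ι' x ι := by
  refine ⟨h.map, h.inj, h.cov, ?_, fun u _ _ => Or.inr rfl⟩
  intro u hu g hg
  obtain ⟨h1, h2, h3⟩ := LineA_rch h.ls h.yN hg h.x1 (h.map u hu)
  have h4 := h.coleq u hu
  refine h.ls.colinj y (by have := h.x1; omega) h.yN _ (h.map' u hu) g h1 ?_ ?_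
  · rw [← h4]
    exact h3 hxy
  · rw [← h4, h2]

/-- The last step, `z + 1 = y`. PROOF. If `p u ∈ D z` then
`Rch D τ y z (p u) (τ z (p u))`, so `ι' u = τ z (p u)` by `des`. If `g ∈ D z` and `ι' u = τ z g` then
`g` is occupied by some `v ∈ U` (`occ`, `colD`), `ι' v = τ z g = ι' u` by the first part, so
`v = u`. -/
theorem inv_end {N m : ℕ} {C D : ℕ → Finset ℕ} {τ col : ℕ → ℕ → ℕ} {x y : ℕ} {U : Finset ℕ}
    {ι ι' : ℕ → ℕ} (h : GD N m C D τ col x y U ι ι') {z : ℕ} (hz : x ≤ z) (hz' : z + 1 = y)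
    {p : ℕ → ℕ} (hp : Inv C D τ col x y U ι ι' z p) : Cmp D τ U z p ι' := by
  subst hz'
  have hx := h.x1
  have hy := h.yN
  have key : ∀ u ∈ U, p u ∈ D z → ι' u = τ z (p u) := fun u hu hd =>
    hp.des u hu _ (Rch.step (Nat.lt_succ_self z) hd (Rch.refl _))
  intro u hu
  refine ⟨key u hu, ?_⟩
  intro g hg hug
  obtain ⟨v, hv, hvg⟩ := hp.occ g (h.ls.sub z (by omega) (by omega) hg)
    (h.ls.colD z (by omega) (by omega) g hg).1
  have h1 := key v hv (by rw [hvg]; exact hg)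
  have h2 : v = u := h.inj' v hv u hu (by rw [h1, hvg, hug])
  rw [← h2, hvg]

end Pool.Agent.W2411ls
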