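import Mathlib
import Pool.Agent.W_2411ls_h59.LineDef

/-! Gap linking, the step. -/

set_option autoImplicit false

namespace Pool.Agent.W2411ls

/-- `Rch` is functional -/
theorem rch_uniq {D : ℕ → Finset ℕ} {τ : ℕ → ℕ → ℕ} {y z f g g' : ℕ}
    (h : Rch D τ y z f g) (h' : Rch D τ y z f g') : g = g' := by
  induction h with
  | refl f =>
    cases h' with
    | refl => rfl
    | step h1 => exact absurd h1 (lt_irrefl _)
  | step h1 h2 h3 ih =>
    cases h' with
    | refl => exact absurd h1 (lt_irrefl _)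
    | step k1 k2 k3 => exact ih k3

theorem rch_mem {D : ℕ → Finset ℕ} {τ : ℕ → ℕ → ℕ} {y z f g : ℕ}
    (h : Rch D τ y z f g) (hz : z < y) : f ∈ D z := by
  cases h with
  | refl => exact absurd hz (lt_irrefl _)
  | step h1 h2 h3 => exact h2

theorem rch_col {N m : ℕ} {C D : ℕ → Finset ℕ} {τ col : ℕ → ℕ → ℕ} (ls : LS N m C D τ col)
    {y z f g : ℕ} (hy : y ≤ N) (h : Rch D τ y z f g) (hz : 1 ≤ z) (hf : f ∈ C z) :
    g ∈ C y ∧ col y g = col z f := by
  induction h with
  | refl f => exact ⟨hf, rfl⟩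
  | @step z f g h1 h2 h3 ih =>
    have h4 := ls.map z hz (by omega) f h2
    obtain ⟨h5, h6⟩ := ih (by omega) h4
    exact ⟨h5, h6.trans (ls.colD z hz (by omega) f h2).2⟩

theorem exists_injB (S T : Finset ℕ) (h : S.card ≤ T.card) :
    ∃ f : ℕ → ℕ, (∀ x ∈ S, f x ∈ T) ∧ ∀ x ∈ S, ∀ y ∈ S, f x = f y → x = y := by
  classical
  obtain ⟨g⟩ : Nonempty (↥S ↪ ↥T) := by
    apply Function.Embedding.nonempty_of_card_le
    simpa using h
  refine ⟨fun x => if hx : x ∈ S then (g ⟨x, hx⟩).1 else 0, ?_, ?_⟩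
  · intro x hx
    simp only [dif_pos hx]
    exact (g ⟨x, hx⟩).2
  · intro x hx y hy hxy
    simp only [dif_pos hx, dif_pos hy] at hxy
    exact congrArg Subtype.val (g.injective (Subtype.ext hxy))

/-- **(step).** PROOF. All of `D z` is occupied (`occ`, `colD`), so with
`Ur := {u ∈ U | p u ∉ D z}` one has `|Ur| = |U| - |D z|`. `Av := C (z+1) \ (D z).image (τ z)` has
`|Av| = |C (z+1)| - |D z| ≥ |Ur|`. `S' := {f ∈ Av | col (z+1) f ≠ 0}`; by `col0` at `z + 1` its
elements are in `D (z+1)` (the other alternative contradicts `f ∈ Av`; note `z + 1 < y ≤ N`), so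
`|S'| ≤ m`. `Sc := {f ∈ S' | ∃ g, Rch D τ y (z+1) f g}`. For `f ∈ Sc` take its `g` (unique, `Rch` is
functional): `g ∈ C y`, `col y g = col (z+1) f ≠ 0`, so by `cov'` there is `u_f ∈ U` with
`ι' u_f = g`, and `col x (ι u_f) = col y g = col (z+1) f =: a ≠ 0`. `u_f ∈ Ur`: if `p u_f ∈ D z` then
`col z (p u_f) ≠ 0`, so it is `a` by `own`, and `τ z (p u_f)` has colour `a` at `z + 1`
(`colD`), so `f = τ z (p u_f)` by `colinj`, contradicting `f ∈ Av`. `f ↦ u_f` is injective on `Sc`
(different `f` have different colours, hence different `col x (ι u_f)`).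
Plain identities `Up := {u ∈ Ur | col x (ι u) = 0}`: at most `2 m` elements `u` of `U` have
`col x (ι u) ≠ 0` (the colours are at most `2 m`, not `0`, and injective by `colinj`, `inj`), so
`|Up| ≥ |U| - m - 2 m ≥ m ≥ |S' \ Sc|`; take an injection `f ↦ v_f` from `S' \ Sc` to `Up`. The
`u_f` are not plain, so the assignment `f ↦ w_f` (`u_f` or `v_f`) is injective from `S'` to `Ur`.
The remaining identities `Ur \ {w_f}` (`|Ur| - |S'|` many) are placed injectively in `Av \ S'`
(`|Av| - |S'|` many) (`exists_inj` in W_2411c4_h59/Hubs.lean, restated there for `Finset ℕ`; or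
`Finset.exists_subset_card_eq` and an equivalence). Define `p' u := τ z (p u)` if `p u ∈ D z`, `f` if
`u = w_f`, and the chosen element of `Av \ S'` otherwise. Check: `map`, `inj` clear. `occ`: a special
`f ∈ C (z+1)` is in the image of `τ z` (occupied as `D z` is occupied) or in `S'`. `Cmp`: clear
(elements of `Ur` go to `Av`; `τ z` is injective on `D z`). `des`: let `Rch D τ y (z+1) (p' u) g`;
if `p u ∈ D z` then `Rch D τ y z (p u) g` by `Rch.step`, use `des`; if `u = w_f`, `p' u = f`, so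
`f ∈ Sc`, `u = u_f`, `ι' u = g` by uniqueness; otherwise `p' u ∈ Av \ S'` has colour `0`, but
`Rch` with `z + 1 < y` needs `p' u ∈ D (z+1)`, which has colour `≠ 0`. `own`: if `p u ∈ D z` then
`col (z+1) (p' u) = col z (p u) ≠ 0` and `own` at `z`; if `u = u_f` then
`col (z+1) f = col x (ι u_f)`; if `u = v_f` then `u` is plain; otherwise the colour is `0`. -/
theorem inv_step {N m : ℕ} {C D : ℕ → Finset ℕ} {τ col : ℕ → ℕ → ℕ} {x y : ℕ} {U : Finset ℕ}
    {ι ι' : ℕ → ℕ} (h : GD N m C D τ col x y U ι ι') {z : ℕ} (hz : x ≤ z) (hz' : z + 1 < y)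
    {p : ℕ → ℕ} (hp : Inv C D τ col x y U ι ι' z p) :
    ∃ p', Inv C D τ col x y U ι ι' (z + 1) p' ∧ Cmp D τ U z p p' := by
  classical
  have ls := h.ls
  have hx1 := h.x1
  have hyN := h.yN
  have hz1 : 1 ≤ z := by omega
  have hzN : z < N := by omega
  have hzN' : z + 1 < N := by omega
  -- the images of `D z`
  set T := (D z).image (τ z) with hT
  set Ur := U.filter (fun u => p u ∉ D z) with hUr
  set Av := C (z + 1) \ T with hAv
  set S' := Av.filter (fun f => col (z + 1) f ≠ 0) with hS'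
  have memUr : ∀ u, u ∈ Ur ↔ u ∈ U ∧ p u ∉ D z := fun u => by rw [hUr, Finset.mem_filter]
  have memAv : ∀ f, f ∈ Av ↔ f ∈ C (z + 1) ∧ f ∉ T := fun f => by rw [hAv, Finset.mem_sdiff]
  have memS' : ∀ f, f ∈ S' ↔ f ∈ Av ∧ col (z + 1) f ≠ 0 := fun f => by rw [hS', Finset.mem_filter]
  have hTC : T ⊆ C (z + 1) := by
    intro f hf
    obtain ⟨g, hg, rfl⟩ := Finset.mem_image.1 hf
    exact ls.map z hz1 hzN g hg
  have hTcard : T.card = (D z).card := by
    rw [hT]
    apply Finset.card_image_of_injOn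
    intro a ha b hb hab
    exact ls.inj z hz1 hzN a ha b hb hab
  have hocc : ∀ f ∈ D z, ∃ u ∈ U, p u = f := fun f hf =>
    hp.occ f (ls.sub z hz1 hzN hf) (ls.colD z hz1 hzN f hf).1
  have hDcard : (U.filter (fun u => p u ∈ D z)).card = (D z).card := by
    have himg : (U.filter (fun u => p u ∈ D z)).image p = D z := by
      ext f
      rw [Finset.mem_image]
      constructor
      · rintro ⟨u, hu, rfl⟩
        exact (Finset.mem_filter.1 hu).2
      · intro hf
        obtain ⟨u, hu, rfl⟩ := hocc f hf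
        exact ⟨u, Finset.mem_filter.2 ⟨hu, hf⟩, rfl⟩
    have hc : ((U.filter (fun u => p u ∈ D z)).image p).card =
        (U.filter (fun u => p u ∈ D z)).card := by
      apply Finset.card_image_of_injOn
      intro a ha b hb hab
      have ha' := (Finset.mem_filter.1 (Finset.mem_coe.1 ha)).1
      have hb' := (Finset.mem_filter.1 (Finset.mem_coe.1 hb)).1
      exact hp.inj a ha' b hb' hab
    rw [himg] at hc
    exact hc.symm
  have hsplit : (U.filter (fun u => p u ∈ D z)).card + Ur.card = U.card := by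
    rw [hUr]
    exact Finset.card_filter_add_card_filter_not (s := U) (fun u => p u ∈ D z)
  have hAvcard : Av.card + (D z).card = (C (z + 1)).card := by
    rw [hAv, ← hTcard, Finset.card_sdiff_add_card_eq_card hTC]
  have hUC := h.card (z + 1) (by omega) (by omega)
  have hDm := ls.card z hz1 hzN
  have hbig := h.big
  -- the special free places
  have hS'D : S' ⊆ D (z + 1) := by
    intro f hf
    obtain ⟨hfA, hfc⟩ := (memS' f).1 hf
    obtain ⟨hfC, hfT⟩ := (memAv f).1 hfA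
    rcases ls.col0 (z + 1) (by omega) (by omega) f hfC hfc with ⟨_, h2⟩ | ⟨_, g, hg, hgf⟩
    · exact h2
    · exfalso
      apply hfT
      rw [hT, Finset.mem_image]
      exact ⟨g, hg, hgf⟩
  have hS'm : S'.card ≤ m := (Finset.card_le_card hS'D).trans (ls.card (z + 1) (by omega) hzN')
  have hS'C : ∀ f ∈ S', f ∈ C (z + 1) := fun f hf => ((memAv f).1 ((memS' f).1 hf).1).1
  -- identities for the places with a destination
  have key : ∀ f, ∃ u, (f ∈ S' ∧ ∃ g, Rch D τ y (z + 1) f g) →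
      u ∈ Ur ∧ (∀ g, Rch D τ y (z + 1) f g → ι' u = g) ∧ col x (ι u) = col (z + 1) f := by
    intro f
    by_cases hf : f ∈ S' ∧ ∃ g, Rch D τ y (z + 1) f g
    · obtain ⟨hfS, g, hg⟩ := hf
      have hfC := hS'C f hfS
      have hfc := ((memS' f).1 hfS).2
      have hfT := ((memAv f).1 ((memS' f).1 hfS).1).2
      obtain ⟨hgC, hgc⟩ := rch_col ls hyN hg (by omega) hfC
      obtain ⟨u, hu, hug⟩ := h.cov' g hgC (by rw [hgc]; exact hfc)
      have hcu : col x (ι u) = col (z + 1) f := by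
        rw [h.coleq u hu, hug, hgc]
      refine ⟨u, fun _ => ⟨?_, ?_, hcu⟩⟩
      · rw [memUr]
        refine ⟨hu, fun hpu => ?_⟩
        have hcz := ls.colD z hz1 hzN _ hpu
        have hown := (hp.own u hu (by rw [hcu]; exact hfc)).resolve_left hcz.1
        apply hfT
        rw [hT, Finset.mem_image]
        refine ⟨p u, hpu, ?_⟩
        apply ls.colinj (z + 1) (by omega) (by omega) _ (ls.map z hz1 hzN _ hpu) _ hfC
        · rw [hcz.2]; exact hcz.1
        · rw [hcz.2, hown, hcu]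
      · intro g' hg'
        rw [hug]
        exact rch_uniq hg hg'
    · exact ⟨0, fun h' => absurd h' hf⟩
  choose uf huf using key
  set Sc := S'.filter (fun f => ∃ g, Rch D τ y (z + 1) f g) with hSc
  have memSc : ∀ f, f ∈ Sc ↔ f ∈ S' ∧ ∃ g, Rch D τ y (z + 1) f g := fun f => by
    rw [hSc, Finset.mem_filter]
  set Up := Ur.filter (fun u => col x (ι u) = 0) with hUp
  have memUp : ∀ u, u ∈ Up ↔ u ∈ Ur ∧ col x (ι u) = 0 := fun u => by rw [hUp, Finset.mem_filter]
  -- few identities are not plain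
  have hNp : (U.filter (fun u => col x (ι u) ≠ 0)).card ≤ 2 * m := by
    have : (U.filter (fun u => col x (ι u) ≠ 0)).card ≤ (Finset.Icc 1 (2 * m)).card := by
      apply Finset.card_le_card_of_injOn (fun u => col x (ι u))
      · intro u hu
        obtain ⟨hu1, hu2⟩ := Finset.mem_filter.1 (Finset.mem_coe.1 hu)
        simp only [Finset.coe_Icc, Set.mem_Icc]
        exact ⟨Nat.one_le_iff_ne_zero.2 hu2, ls.colb x (ι u)⟩
      · intro u hu v hv huv
        obtain ⟨hu1, hu2⟩ := Finset.mem_filter.1 (Finset.mem_coe.1 hu)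
        obtain ⟨hv1, hv2⟩ := Finset.mem_filter.1 (Finset.mem_coe.1 hv)
        apply h.inj u hu1 v hv1
        exact ls.colinj x hx1 (by omega) _ (h.map u hu1) _ (h.map v hv1) hu2 huv
    simpa using this
  have hUpcard : m ≤ Up.card := by
    have h1 : Up.card + (Ur.filter (fun u => ¬ (col x (ι u) = 0))).card = Ur.card := by
      rw [hUp]
      exact Finset.card_filter_add_card_filter_not (s := Ur) (fun u => col x (ι u) = 0)
    have h2 : (Ur.filter (fun u => ¬ (col x (ι u) = 0))).card ≤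
        (U.filter (fun u => col x (ι u) ≠ 0)).card := by
      apply Finset.card_le_card
      intro u hu
      rw [Finset.mem_filter] at hu ⊢
      exact ⟨((memUr u).1 hu.1).1, hu.2⟩
    omega
  obtain ⟨vf, hvf, hvinj⟩ := exists_injB (S' \ Sc) Up
    (((Finset.card_le_card Finset.sdiff_subset).trans hS'm).trans hUpcard)
  set w : ℕ → ℕ := fun f => if f ∈ Sc then uf f else vf f with hw
  have hw1 : ∀ f ∈ Sc, w f = uf f := fun f hf => by rw [hw]; simp only [if_pos hf]
  have hw2 : ∀ f, f ∉ Sc → w f = vf f := fun f hf => by rw [hw]; simp only [if_neg hf]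
  have hwUr : ∀ f ∈ S', w f ∈ Ur := by
    intro f hf
    by_cases hc : f ∈ Sc
    · rw [hw1 f hc]; exact (huf f ((memSc f).1 hc)).1
    · rw [hw2 f hc]; exact ((memUp _).1 (hvf f (Finset.mem_sdiff.2 ⟨hf, hc⟩))).1
  have hwinj : ∀ f ∈ S', ∀ g ∈ S', w f = w g → f = g := by
    intro f hf g hg hfg
    have hfc := ((memS' f).1 hf).2
    have hgc := ((memS' g).1 hg).2
    by_cases h1 : f ∈ Sc <;> by_cases h2 : g ∈ Sc
    · rw [hw1 f h1, hw1 g h2] at hfg
      have e1 := (huf f ((memSc f).1 h1)).2.2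
      have e2 := (huf g ((memSc g).1 h2)).2.2
      apply ls.colinj (z + 1) (by omega) (by omega) f (hS'C f hf) g (hS'C g hg) hfc
      rw [← e1, ← e2, hfg]
    · rw [hw1 f h1, hw2 g h2] at hfg
      have e1 := (huf f ((memSc f).1 h1)).2.2
      have e2 := ((memUp _).1 (hvf g (Finset.mem_sdiff.2 ⟨hg, h2⟩))).2
      rw [hfg, e2] at e1
      exact absurd e1.symm hfc
    · rw [hw2 f h1, hw1 g h2] at hfg
      have e1 := (huf g ((memSc g).1 h2)).2.2
      have e2 := ((memUp _).1 (hvf f (Finset.mem_sdiff.2 ⟨hf, h1⟩))).2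
      rw [← hfg, e2] at e1
      exact absurd e1.symm hgc
    · rw [hw2 f h1, hw2 g h2] at hfg
      exact hvinj f (Finset.mem_sdiff.2 ⟨hf, h1⟩) g (Finset.mem_sdiff.2 ⟨hg, h2⟩) hfg
  have hwdes : ∀ f ∈ S', ∀ g, Rch D τ y (z + 1) f g → ι' (w f) = g := by
    intro f hf g hg
    have hc : f ∈ Sc := (memSc f).2 ⟨hf, g, hg⟩
    rw [hw1 f hc]
    exact (huf f ((memSc f).1 hc)).2.1 g hg
  have hwown : ∀ f ∈ S', col x (ι (w f)) ≠ 0 → col (z + 1) f = col x (ι (w f)) := by
    intro f hf hne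
    by_cases hc : f ∈ Sc
    · rw [hw1 f hc]; exact (huf f ((memSc f).1 hc)).2.2.symm
    · rw [hw2 f hc] at hne
      exact absurd ((memUp _).1 (hvf f (Finset.mem_sdiff.2 ⟨hf, hc⟩))).2 hne
  -- the remaining identities
  have hWsub : S'.image w ⊆ Ur := by
    intro u hu
    obtain ⟨f, hf, rfl⟩ := Finset.mem_image.1 hu
    exact hwUr f hf
  have hWcard : (S'.image w).card = S'.card := by
    apply Finset.card_image_of_injOn
    intro a ha b hb hab
    exact hwinj a ha b hb hab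
  have hS'Av : S' ⊆ Av := fun f hf => ((memS' f).1 hf).1
  have hrem : (Ur \ S'.image w).card ≤ (Av \ S').card := by
    have e1 := Finset.card_sdiff_add_card_eq_card hWsub
    have e2 := Finset.card_sdiff_add_card_eq_card hS'Av
    omega
  obtain ⟨r, hr, hrinj⟩ := exists_injB (Ur \ S'.image w) (Av \ S') hrem
  set p' : ℕ → ℕ := fun u => if p u ∈ D z then τ z (p u)
    else if hu : ∃ f ∈ S', w f = u then hu.choose else r u with hp'
  have P1 : ∀ u, p u ∈ D z → p' u = τ z (p u) := fun u hu => by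
    rw [hp']; simp only [if_pos hu]
  have P2 : ∀ f ∈ S', p' (w f) = f := by
    intro f hf
    have hu : p (w f) ∉ D z := ((memUr _).1 (hwUr f hf)).2
    have hex : ∃ f' ∈ S', w f' = w f := ⟨f, hf, rfl⟩
    have e : p' (w f) = hex.choose := by
      rw [hp']; simp only [if_neg hu, dif_pos hex]
    rw [e]
    exact hwinj _ hex.choose_spec.1 f hf hex.choose_spec.2
  have P3 : ∀ u ∈ Ur, u ∉ S'.image w → p' u = r u := by
    intro u hu hn
    have h1 : p u ∉ D z := ((memUr _).1 hu).2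
    have h2 : ¬ ∃ f ∈ S', w f = u := by
      rintro ⟨f, hf, hfu⟩
      exact hn (Finset.mem_image.2 ⟨f, hf, hfu⟩)
    rw [hp']; simp only [if_neg h1, dif_neg h2]
  have cases3 : ∀ u ∈ U, (p u ∈ D z ∧ p' u = τ z (p u) ∧ p' u ∈ T) ∨
      (p u ∉ D z ∧ ∃ f ∈ S', w f = u ∧ p' u = f) ∨
      (p u ∉ D z ∧ u ∈ Ur \ S'.image w ∧ p' u = r u ∧ r u ∈ Av ∧ r u ∉ S') := by
    intro u hu
    by_cases h1 : p u ∈ D z
    · left
      refine ⟨h1, P1 u h1, ?_⟩
      rw [P1 u h1, hT]
      exact Finset.mem_image_of_mem _ h1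
    · right
      have hur : u ∈ Ur := (memUr u).2 ⟨hu, h1⟩
      by_cases h2 : u ∈ S'.image w
      · left
        obtain ⟨f, hf, rfl⟩ := Finset.mem_image.1 h2
        exact ⟨h1, f, hf, rfl, P2 f hf⟩
      · right
        have hm : u ∈ Ur \ S'.image w := Finset.mem_sdiff.2 ⟨hur, h2⟩
        exact ⟨h1, hm, P3 u hur h2, Finset.mem_sdiff.1 (hr u hm)⟩
  refine ⟨p', ⟨?_, ?_, ?_, ?_, ?_⟩, ?_⟩
  · intro u hu
    rcases cases3 u hu with ⟨_, _, h3⟩ | ⟨_, f, hf, _, h3⟩ | ⟨_, _, h3, h4, _⟩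
    · exact hTC h3
    · rw [h3]; exact hS'C f hf
    · rw [h3]; exact ((memAv _).1 h4).1
  · intro u hu v hv huv
    rcases cases3 u hu with ⟨a1, a2, a3⟩ | ⟨a1, f, hf, a2, a3⟩ | ⟨a1, a2, a3, a4, a5⟩ <;>
      rcases cases3 v hv with ⟨b1, b2, b3⟩ | ⟨b1, g, hg, b2, b3⟩ | ⟨b1, b2, b3, b4, b5⟩
    · rw [a2, b2] at huv
      exact hp.inj u hu v hv (ls.inj z hz1 hzN _ a1 _ b1 huv)
    · rw [huv, b3] at a3
      exact absurd a3 ((memAv g).1 (hS'Av hg)).2
    · rw [huv, b3] at a3
      exact absurd a3 ((memAv _).1 b4).2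
    · rw [← huv, a3] at b3
      exact absurd b3 ((memAv f).1 (hS'Av hf)).2
    · rw [a3, b3] at huv
      rw [← a2, ← b2, huv]
    · rw [a3, b3] at huv
      rw [← huv] at b5
      exact absurd hf b5
    · rw [← huv, a3] at b3
      exact absurd b3 ((memAv _).1 a4).2
    · rw [a3, b3] at huv
      rw [huv] at a5
      exact absurd hg a5
    · rw [a3, b3] at huv
      exact hrinj u a2 v b2 huv
  · intro f hf hfc
    by_cases hfT : f ∈ T
    · rw [hT, Finset.mem_image] at hfT
      obtain ⟨g, hg, rfl⟩ := hfT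
      obtain ⟨u, hu, rfl⟩ := hocc g hg
      exact ⟨u, hu, P1 u hg⟩
    · have hfS : f ∈ S' := (memS' f).2 ⟨(memAv f).2 ⟨hf, hfT⟩, hfc⟩
      exact ⟨w f, ((memUr _).1 (hwUr f hfS)).1, P2 f hfS⟩
  · intro u hu g hg
    rcases cases3 u hu with ⟨a1, a2, a3⟩ | ⟨a1, f, hf, a2, a3⟩ | ⟨a1, a2, a3, a4, a5⟩
    · rw [a2] at hg
      exact hp.des u hu g (Rch.step (by omega) a1 hg)
    · rw [a3] at hg
      rw [← a2]
      exact hwdes f hf g hg
    · rw [a3] at hg
      exfalso
      have hD := rch_mem hg (by omega)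
      exact a5 ((memS' _).2 ⟨a4, (ls.colD (z + 1) (by omega) hzN' _ hD).1⟩)
  · intro u hu hne
    rcases cases3 u hu with ⟨a1, a2, a3⟩ | ⟨a1, f, hf, a2, a3⟩ | ⟨a1, a2, a3, a4, a5⟩
    · rw [a2, (ls.colD z hz1 hzN _ a1).2]
      exact hp.own u hu hne
    · right
      rw [a3]
      rw [← a2] at hne ⊢
      exact hwown f hf hne
    · left
      rw [a3]
      by_contra hc
      exact a5 ((memS' _).2 ⟨a4, hc⟩)
  · intro u hu
    refine ⟨P1 u, ?_⟩
    intro g hg hug
    rcases cases3 u hu with ⟨a1, a2, a3⟩ | ⟨a1, f, hf, a2, a3⟩ | ⟨a1, a2, a3, a4, a5⟩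
    · rw [a2] at hug
      exact ls.inj z hz1 hzN _ a1 _ hg hug
    · exfalso
      rw [a3] at hug
      apply ((memAv f).1 (hS'Av hf)).2
      rw [hug, hT]
      exact Finset.mem_image_of_mem _ hg
    · exfalso
      rw [a3] at hug
      apply ((memAv _).1 a4).2
      rw [hug, hT]
      exact Finset.mem_image_of_mem _ hg

end Pool.Agent.W2411ls
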