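import Mathlib
import Pool.Agent.W_2411ls_h59.LineA
import Pool.Agent.W_2411ls_h59.LineB

/-! Gap linking, combinatorial form. -/

set_option autoImplicit false

namespace Pool.Agent.W2411ls

/-- the iteration of `inv_step` -/
theorem gap_iter {N m : ℕ} {C D : ℕ → Finset ℕ} {τ col : ℕ → ℕ → ℕ} {x y : ℕ} {U : Finset ℕ}
    {ι ι' : ℕ → ℕ} (h : GD N m C D τ col x y U ι ι') (hxy : x < y) :
    ∀ z, x ≤ z → z < y → ∃ q : ℕ → ℕ → ℕ, q x = ι ∧
      (∀ w, x ≤ w → w ≤ z → Inv C D τ col x y U ι ι' w (q w)) ∧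
      ∀ w, x ≤ w → w < z → Cmp D τ U w (q w) (q (w + 1)) := by
  intro z hz
  induction z, hz using Nat.le_induction with
  | base =>
    intro _
    refine ⟨fun _ => ι, rfl, ?_, ?_⟩
    · intro w hw hw'
      obtain rfl : w = x := le_antisymm hw' hw
      exact inv_start h hxy
    · intro w hw hw'
      omega
  | succ z hz ih =>
    intro hzy
    obtain ⟨q, hq0, hq1, hq2⟩ := ih (by omega)
    obtain ⟨p', hp1, hp2⟩ := inv_step h hz hzy (hq1 z hz le_rfl)
    refine ⟨Function.update q (z + 1) p', ?_, ?_, ?_⟩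
    · rw [Function.update_of_ne (by omega)]
      exact hq0
    · intro w hw hw'
      by_cases hwz : w = z + 1
      · subst hwz
        rw [Function.update_self]
        exact hp1
      · rw [Function.update_of_ne hwz]
        exact hq1 w hw (by omega)
    · intro w hw hw'
      rw [Function.update_of_ne (by omega : w ≠ z + 1)]
      by_cases hwz : w = z
      · subst hwz
        rw [Function.update_self]
        exact hp2
      · rw [Function.update_of_ne (by omega : w + 1 ≠ z + 1)]
        exact hq2 w hw (by omega)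

/-- **Combinatorial gap linking.** Iterate `inv_step` from `inv_start` up to `y - 1`, then put
`q y := ι'` and use `inv_end`. -/
theorem gap_place {N m : ℕ} {C D : ℕ → Finset ℕ} {τ col : ℕ → ℕ → ℕ} {x y : ℕ} {U : Finset ℕ}
    {ι ι' : ℕ → ℕ} (h : GD N m C D τ col x y U ι ι') (hxy : x < y) :
    ∃ q : ℕ → ℕ → ℕ, q x = ι ∧ q y = ι' ∧
      (∀ z, x ≤ z → z ≤ y → (∀ u ∈ U, q z u ∈ C z) ∧
        ∀ u ∈ U, ∀ v ∈ U, q z u = q z v → u = v) ∧
      ∀ z, x ≤ z → z < y → Cmp D τ U z (q z) (q (z + 1)) := by
  obtain ⟨q, hq0, hq1, hq2⟩ := gap_iter h hxy (y - 1) (by omega) (by omega)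
  refine ⟨Function.update q y ι', ?_, ?_, ?_, ?_⟩
  · rw [Function.update_of_ne (by omega)]
    exact hq0
  · rw [Function.update_self]
  · intro z hz hz'
    by_cases hzy : z = y
    · subst hzy
      rw [Function.update_self]
      exact ⟨h.map', h.inj'⟩
    · rw [Function.update_of_ne hzy]
      have hi := hq1 z hz (by omega)
      exact ⟨hi.map, hi.inj⟩
  · intro z hz hz'
    rw [Function.update_of_ne (by omega : z ≠ y)]
    by_cases hzy : z + 1 = y
    · rw [hzy, Function.update_self]
      exact inv_end h hz hzy (hq1 z hz (by omega))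
    · rw [Function.update_of_ne hzy]
      exact hq2 z hz (by omega)

end Pool.Agent.W2411ls
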