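import Mathlib
import Pool.Agent.W_2411ls_h59.LocDef
import Pool.Agent.W_2411ls_h59.LineC

/-! The gap linking lemma. -/

set_option autoImplicit false
set_option linter.unusedSectionVars false

namespace Pool.Agent.W2411ls

open Pool.Agent.W2411c4

variable {Ω : Type} [Preorder Ω] [Inhabited Ω]

/-- positions in a linear graph are even or `3` mod `4` -/
theorem pos_mod {W : Set (Pc (Lb Ω))} {M : ℕ} {k : ℕ∞} {m Θ T : ℕ} {P : (CG Ω)} {N : ℕ} {b pos pt : ℕ → ℕ}
    {up : ℕ → Finset ℕ} {rk : ℕ → ℕ} (h : IsLin W M k m Θ T P N b pos pt up rk) {x : ℕ}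
    (hx : x ∈ P.X) : pos x % 4 ≠ 1 := by
  by_cases hb : x ∈ hs N b
  · obtain ⟨i, hi, rfl⟩ := mem_hs.1 hb
    have := h.posb i hi
    omega
  · have := h.pose x hx hb
    omega

/-- the positions of an edge of the cut `t` -/
theorem pos_cut {W : Set (Pc (Lb Ω))} {M : ℕ} {k : ℕ∞} {m Θ T : ℕ} {P : (CG Ω)} {N : ℕ} {b pos pt : ℕ → ℕ}
    {up : ℕ → Finset ℕ} {rk : ℕ → ℕ} (h : IsLin W M k m Θ T P N b pos pt up rk) {t f : ℕ}
    (hf : f ∈ P.G.bd (lvl P pos t)) : f ∈ P.G.E ∧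
      ((pos (P.G.a f) = 4 * t ∧ pos (P.G.b f) = 4 * t + 2) ∨
        (pos (P.G.a f) = 4 * t + 2 ∧ pos (P.G.b f) = 4 * t)) := by
  obtain ⟨hE, hc⟩ := P.G.mem_bd.1 hf
  refine ⟨hE, ?_⟩
  obtain ⟨ha, hb⟩ := h.cls f hE
  have h1 := pos_mod h ha
  have h2 := pos_mod h hb
  have h3 := h.edge f hE
  unfold Gr.Cross at hc
  simp only [lvl, Finset.mem_filter, ha, hb, true_and] at hc
  omega

/-- the positions of an edge between two cuts -/
theorem pos_inner {W : Set (Pc (Lb Ω))} {M : ℕ} {k : ℕ∞} {m Θ T : ℕ} {P : (CG Ω)} {N : ℕ} {b pos pt : ℕ → ℕ}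
    {up : ℕ → Finset ℕ} {rk : ℕ → ℕ} (h : IsLin W M k m Θ T P N b pos pt up rk) {t f : ℕ}
    (hf : P.G.Inner (lvl P pos (t + 1) \ lvl P pos t) f) :
      (4 * t + 2 ≤ pos (P.G.a f) ∧ pos (P.G.a f) ≤ 4 * t + 4) ∧
        (4 * t + 2 ≤ pos (P.G.b f) ∧ pos (P.G.b f) ≤ 4 * t + 4) := by
  obtain ⟨ha, hb⟩ := hf
  simp only [lvl, Finset.mem_sdiff, Finset.mem_filter, not_and, not_le] at ha hb
  have h1 := pos_mod h ha.1.1
  have h2 := pos_mod h hb.1.1
  have h3 := ha.2 ha.1.1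
  have h4 := hb.2 hb.1.1
  have h5 := ha.1.2
  have h6 := hb.1.2
  omega

/-- **Gap linking.** PROOF. Take `q` from `gap_place` (`C := cutE P pos`). For `x ≤ z < y` put
`S z u := J z (q z u) ∪ J' z (q (z+1) u)` and `Γ u := ⋃ z ∈ [x, y), S z u`. By `Cmp` either
`q z u ∈ D z` and `q (z+1) u = τ z (q z u)`, so `S z u = J z (q z u)` (`thru`) connects the two edges
(`connD`), or `q z u ∉ D z` and `q (z+1) u` is not in the image of `τ z` and both are connected to
`b z` (`conn1`, `conn2`). So `S z u` contains `q z u` and `q (z+1) u` (`mem`, `mem'`) and connects any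
end of one with any end of the other; by induction `Γ u` connects `q x u = ι u` with `q y u = ι' u`.
By `sub1`, `sub2` each `f ∈ S z u` is `q z u`, `q (z+1) u`, or an edge with both ends in
`lvl (z+1) \ lvl z`, i.e. both positions in `(4 z, 4 z + 4]`, hence (positions: even, or `4 j + 3`)
in `[4 z + 2, 4 z + 4]` (if `f = g ∈ D z` with `τ z g = q (z+1) u` then `g = q z u` by `Cmp`; if
`f = τ z (q z u)`, `q z u ∈ D z`, then `f = q (z+1) u`). Edges in `cutE P pos z` have one end at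
position `4 z` and the other at `4 z + 2` (as in `lin_link`), so for `x < z < y` the edge `q z u` has
positions in `[4 x + 2, 4 y]`. Disjointness for `u ≠ v`: let `f ∈ S z u ∩ S w v`. If `z = w` use
`dis1`, `dis2`, `dis3` and `Cmp`, injectivity of `q z`, `q (z+1)` on `U` (if
`J z (q z u) ∩ J' z (q (z+1) v)` is nonempty then by `dis3` `q z u ∈ D z` and
`τ z (q z u) = q (z+1) v`, so `q z v = q z u` by `Cmp`, `v = u`). If `z < w`: the positions of `f` are
at most `4 z + 6` resp. at least `4 w`; an `f` inside `lvl (z+1) \ lvl z` cannot be in `cutE w` or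
inside `lvl (w+1) \ lvl w`, so `f = q (z+1) u` (or `q z u`) on one side and `f = q w v` (or
`q (w+1) v`) on the other and comparing positions `w = z + 1`, `f = q (z+1) u = q (z+1) v`, `u = v`. -/
theorem gap_conn {W : Set (Pc (Lb Ω))} {M : ℕ} {k : ℕ∞} {m Θ T : ℕ} {P : (CG Ω)} {N : ℕ} {b pos pt : ℕ → ℕ}
    {up : ℕ → Finset ℕ} {rk : ℕ → ℕ} {ν col : ℕ → ℕ → ℕ} {D : ℕ → Finset ℕ} {τ : ℕ → ℕ → ℕ}
    {J J' : ℕ → ℕ → Set ℕ} (h : Dr W M k m Θ T P N b pos pt up rk ν col D τ J J') {x y : ℕ}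
    (hxy : x < y) {U : Finset ℕ} {ι ι' : ℕ → ℕ} (hg : GD N m (cutE P pos) D τ col x y U ι ι') :
    ∃ Γ : ℕ → Set ℕ, (∀ u ∈ U, ι u ∈ Γ u ∧ ι' u ∈ Γ u) ∧
      (∀ u ∈ U, ∀ f ∈ Γ u, f ∈ P.G.E ∧ (f = ι u ∨ f = ι' u ∨
        (4 * x + 2 ≤ pos (P.G.a f) ∧ pos (P.G.a f) ≤ 4 * y ∧
          4 * x + 2 ≤ pos (P.G.b f) ∧ pos (P.G.b f) ≤ 4 * y))) ∧
      (∀ u ∈ U, ∀ z z', P.G.Inc (ι u) z → P.G.Inc (ι' u) z' → P.G.Conn (Γ u) z z') ∧
      ∀ u ∈ U, ∀ v ∈ U, u ≠ v → Disjoint (Γ u) (Γ v) := by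
  obtain ⟨q, hqx, hqy, hq, hc⟩ := gap_place hg hxy
  have hx1 : 1 ≤ x := hg.x1
  have hyN : y ≤ N := hg.yN
  have hlk : ∀ z, x ≤ z → z < y → ALk P.G (lvl P pos z) (lvl P pos (z + 1)) (b z) (D z) (τ z) (J z)
      (J' z) := fun z h1 h2 => h.lk z (by omega) (by omega)
  have hm : ∀ z, x ≤ z → z ≤ y → ∀ u ∈ U, q z u ∈ P.G.bd (lvl P pos z) :=
    fun z h1 h2 u hu => (hq z h1 h2).1 u hu
  -- classification of the elements of the pieces
  have hcl : ∀ z, x ≤ z → z < y → ∀ u ∈ U, ∀ f, f ∈ J z (q z u) ∪ J' z (q (z + 1) u) →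
      f = q z u ∨ f = q (z + 1) u ∨ (f ∈ P.G.E ∧ P.G.Inner (lvl P pos (z + 1) \ lvl P pos z) f) := by
    intro z h1 h2 u hu f hf
    have hl := hlk z h1 h2
    have hcu := hc z h1 h2 u hu
    rcases hf with hf | hf
    · rcases hl.sub1 _ (hm z h1 h2.le u hu) f hf with h3 | h3 | ⟨h3, h4⟩
      · exact Or.inl h3
      · exact Or.inr (Or.inr h3)
      · refine Or.inr (Or.inl ?_)
        rw [h4, hcu.1 h3]
    · rcases hl.sub2 _ (hm (z + 1) (by omega) (by omega) u hu) f hf with h3 | h3 | ⟨g, hgD, h3, h4⟩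
      · exact Or.inr (Or.inl h3)
      · exact Or.inr (Or.inr h3)
      · refine Or.inl ?_
        rw [h4]
        exact (hcu.2 g hgD h3.symm).symm
  -- connection of consecutive edges
  have hcn : ∀ z, x ≤ z → z < y → ∀ u ∈ U, ∀ z₁ z₂, P.G.Inc (q z u) z₁ → P.G.Inc (q (z + 1) u) z₂ →
      P.G.Conn (J z (q z u) ∪ J' z (q (z + 1) u)) z₁ z₂ := by
    intro z h1 h2 u hu z₁ z₂ hz₁ hz₂
    have hl := hlk z h1 h2
    have hcu := hc z h1 h2 u hu
    by_cases hD : q z u ∈ D z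
    · refine Gr.Conn.mono Set.subset_union_left (hl.connD _ hD z₁ z₂ hz₁ ?_)
      rw [← hcu.1 hD]
      exact hz₂
    · have h3 := hl.conn1 _ (hm z h1 h2.le u hu) hD z₁ hz₁
      have h4 := hl.conn2 _ (hm (z + 1) (by omega) (by omega) u hu) (fun g hgD hgt => by
        have := hcu.2 g hgD hgt.symm
        exact hD (this ▸ hgD)) z₂ hz₂
      exact (Gr.Conn.mono Set.subset_union_left h3).trans
        (Gr.Conn.mono Set.subset_union_right h4).symm
  set Γ : ℕ → Set ℕ := fun u => {f | ∃ z, x ≤ z ∧ z < y ∧ f ∈ J z (q z u) ∪ J' z (q (z + 1) u)}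
    with hΓ
  have hsub : ∀ u z, x ≤ z → z < y → J z (q z u) ∪ J' z (q (z + 1) u) ⊆ Γ u :=
    fun u z h1 h2 f hf => ⟨z, h1, h2, hf⟩
  have hdis : ∀ z w, x ≤ z → z ≤ w → w < y → ∀ u ∈ U, ∀ v ∈ U, u ≠ v →
      ∀ f, f ∈ J z (q z u) ∪ J' z (q (z + 1) u) → f ∈ J w (q w v) ∪ J' w (q (w + 1) v) → False := by
    intro z w h1 h2 h3 u hu v hv huv f hf hf'
    rcases eq_or_lt_of_le h2 with h4 | h4
    · subst h4
      have hl := hlk z h1 h3
      have e1 := hm z h1 h3.le u hu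
      have e2 := hm z h1 h3.le v hv
      have e3 := hm (z + 1) (by omega) (by omega) u hu
      have e4 := hm (z + 1) (by omega) (by omega) v hv
      have i1 := (hq z h1 h3.le).2
      have i2 := (hq (z + 1) (by omega) (by omega)).2
      rcases hf with hf | hf <;> rcases hf' with hf' | hf'
      · exact Set.disjoint_left.1 (hl.dis1 _ e1 _ e2 (fun hh => huv (i1 u hu v hv hh))) hf hf'
      · refine Set.disjoint_left.1 (hl.dis3 _ e1 _ e4 ?_) hf hf'
        rintro ⟨hD, ht⟩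
        have := (hc z h1 h3 v hv).2 _ hD ht.symm
        exact huv (i1 v hv u hu this).symm
      · refine Set.disjoint_left.1 (hl.dis3 _ e2 _ e3 ?_) hf' hf
        rintro ⟨hD, ht⟩
        have := (hc z h1 h3 u hu).2 _ hD ht.symm
        exact huv (i1 u hu v hv this)
      · exact Set.disjoint_left.1 (hl.dis2 _ e3 _ e4 (fun hh => huv (i2 u hu v hv hh))) hf hf'
    · have p1 := pos_cut h.lin (hm z h1 (by omega) u hu)
      have p2 := pos_cut h.lin (hm (z + 1) (by omega) (by omega) u hu)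
      have p3 := pos_cut h.lin (hm w (by omega) (by omega) v hv)
      have p4 := pos_cut h.lin (hm (w + 1) (by omega) (by omega) v hv)
      rcases hcl z h1 (by omega) u hu f hf with h5 | h5 | h5 <;>
        rcases hcl w (by omega) h3 v hv f hf' with h6 | h6 | h6
      · rw [← h5] at p1; rw [← h6] at p3; omega
      · rw [← h5] at p1; rw [← h6] at p4; omega
      · have p5 := pos_inner h.lin h6.2
        rw [← h5] at p1; omega
      · by_cases h7 : w = z + 1
        · subst h7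
          exact huv ((hq (z + 1) (by omega) (by omega)).2 u hu v hv (h5.symm.trans h6))
        · rw [← h5] at p2; rw [← h6] at p3; omega
      · rw [← h5] at p2; rw [← h6] at p4; omega
      · have p5 := pos_inner h.lin h6.2
        rw [← h5] at p2; omega
      · have p5 := pos_inner h.lin h5.2
        rw [← h6] at p3; omega
      · have p5 := pos_inner h.lin h5.2
        rw [← h6] at p4; omega
      · have p5 := pos_inner h.lin h5.2
        have p6 := pos_inner h.lin h6.2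
        omega
  refine ⟨Γ, ?_, ?_, ?_, ?_⟩
  · intro u hu
    constructor
    · refine ⟨x, le_rfl, hxy, Or.inl ?_⟩
      have := (hlk x le_rfl hxy).mem _ (hm x le_rfl hxy.le u hu)
      rw [hqx] at this ⊢
      exact this
    · refine ⟨y - 1, by omega, by omega, Or.inr ?_⟩
      have h1 : y - 1 + 1 = y := by omega
      have := (hlk (y - 1) (by omega) (by omega)).mem' _ (hm (y - 1 + 1) (by omega) (by omega) u hu)
      rw [h1, hqy] at this
      rw [h1, hqy]
      exact this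
  · rintro u hu f ⟨z, h1, h2, hf⟩
    rcases hcl z h1 h2 u hu f hf with h3 | h3 | h3
    · have p1 := pos_cut h.lin (hm z h1 h2.le u hu)
      rw [← h3] at p1
      refine ⟨p1.1, ?_⟩
      by_cases h4 : z = x
      · left
        rw [h3, h4, hqx]
      · right; right; omega
    · have p1 := pos_cut h.lin (hm (z + 1) (by omega) (by omega) u hu)
      rw [← h3] at p1
      refine ⟨p1.1, ?_⟩
      by_cases h4 : z + 1 = y
      · right; left
        rw [h3, h4, hqy]
      · right; right; omega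
    · have p1 := pos_inner h.lin h3.2
      refine ⟨h3.1, ?_⟩
      right; right; omega
  · intro u hu
    have key : ∀ w, x < w → w ≤ y → ∀ z₁ z₂, P.G.Inc (q x u) z₁ → P.G.Inc (q w u) z₂ →
        P.G.Conn (Γ u) z₁ z₂ := by
      intro w hw
      induction w, hw using Nat.le_induction with
      | base =>
        intro hwy z₁ z₂ hz₁ hz₂
        exact Gr.Conn.mono (hsub u x le_rfl hxy) (hcn x le_rfl hxy u hu z₁ z₂ hz₁ hz₂)
      | succ w hw ih =>
        intro hwy z₁ z₂ hz₁ hz₂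
        have hw' : x < w := hw
        refine (ih (by omega) z₁ (P.G.a (q w u)) hz₁ (Or.inl rfl)).trans ?_
        exact Gr.Conn.mono (hsub u w (by omega) (by omega))
          (hcn w (by omega) (by omega) u hu _ z₂ (Or.inl rfl) hz₂)
    intro z z' hz hz'
    refine key y hxy le_rfl z z' ?_ ?_
    · rw [hqx]; exact hz
    · rw [hqy]; exact hz'
  · intro u hu v hv huv
    rw [Set.disjoint_left]
    rintro f ⟨z, h1, h2, hf⟩ ⟨w, h3, h4, hf'⟩
    rcases le_total z w with h5 | h5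
    · exact hdis z w h1 h5 h4 u hu v hv huv f hf hf'
    · exact hdis w z h3 h5 h2 v hv u hu huv.symm f hf' hf


end Pool.Agent.W2411ls
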