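import Mathlib
import Pool.Agent.W_2411ls_h59.GWDef
import Pool.Agent.W_2411ls_h59.GapG
import Pool.Agent.W_2411ls_h59.Detach

/-! The data of an embedding of words. -/

set_option autoImplicit false
set_option linter.unusedSectionVars false

namespace Pool.Agent.W2411ls

open Pool.Agent.W2411c4

variable {Ω : Type} [Preorder Ω] [Inhabited Ω]

/-- the ends of an edge of a cut -/
private theorem gw_cut_pos {W : Set (Pc (Lb Ω))} {M : ℕ} {k : ℕ∞} {m Θ T : ℕ}
    {P : (CG Ω)} {N : ℕ} {b pos pt : ℕ → ℕ} {up : ℕ → Finset ℕ} {rk : ℕ → ℕ}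
    (h : IsLin W M k m Θ T P N b pos pt up rk) {i e : ℕ} (he : e ∈ cutE P pos i) :
    e ∈ P.G.E ∧ P.G.a e ∈ P.X ∧ P.G.b e ∈ P.X ∧
      ((pos (P.G.a e) = 4 * i ∧ pos (P.G.b e) = 4 * i + 2) ∨
        (pos (P.G.b e) = 4 * i ∧ pos (P.G.a e) = 4 * i + 2)) := by
  unfold cutE at he
  rw [Gr.mem_bd] at he
  obtain ⟨heE, hc⟩ := he
  obtain ⟨ha, hb⟩ := h.cls e heE
  refine ⟨heE, ha, hb, ?_⟩
  have hed := h.edge e heE
  have hp : ∀ x ∈ P.X, (∃ j ≤ N, pos x = 4 * j + 3 ∧ b j = x) ∨ (pos x % 2 = 0) := by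
    intro x hx
    by_cases hh : x ∈ hs N b
    · obtain ⟨j, hj, rfl⟩ := mem_hs.1 hh
      exact Or.inl ⟨j, hj, h.posb j hj, rfl⟩
    · exact Or.inr (h.pose x hx hh).1
  unfold Gr.Cross at hc
  simp only [Finset.mem_filter, ha, hb, true_and] at hc
  rcases hp _ ha with ⟨j, hj, h1, hbj⟩ | h1 <;> rcases hp _ hb with ⟨l, hl, h2, hbl⟩ | h2
  · exfalso
    have : j = l := by omega
    subst this
    exact P.G.ne e heE (hbj.symm.trans hbl)
  · omega
  · omega
  · omega

/-- lower bound for the types -/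
private theorem gw_ty_le (P : (CG Ω)) (pos : ℕ → ℕ) (m T : ℕ) (ν col : ℕ → ℕ → ℕ) (i e : ℕ) :
    T ≤ tyW P pos m T ν col i e := by
  unfold tyW
  split_ifs <;> omega

/-- the type of an edge of the cut -/
private theorem gw_ty_cut {W : Set (Pc (Lb Ω))} {M : ℕ} {k : ℕ∞} {m Θ T : ℕ}
    {P : (CG Ω)} {N : ℕ} {b pos pt : ℕ → ℕ} {up : ℕ → Finset ℕ} {rk : ℕ → ℕ}
    (h : IsLin W M k m Θ T P N b pos pt up rk) (ν col : ℕ → ℕ → ℕ) {i e : ℕ} (hi : 1 ≤ i)
    (he : e ∈ cutE P pos i) : tyW P pos m T ν col i e = T + 2 + 2 * m + col i e := by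
  have hp := (gw_cut_pos h he).2.2.2
  unfold tyW
  rw [if_neg, if_neg, if_neg, if_pos he]
  · omega
  · intro hs
    unfold strE at hs
    rw [Finset.mem_filter] at hs
    omega
  · rintro ⟨_, hs⟩
    unfold strE at hs
    rw [Finset.mem_filter] at hs
    omega

/-- edges with the type of a cut edge are cut edges -/
private theorem gw_cut_of_ty {P : (CG Ω)} {N m T : ℕ} {pos : ℕ → ℕ} {ν col : ℕ → ℕ → ℕ}
    (hν : ∀ i ≤ N, ∀ e ∈ strE P pos i, ν i e < m) {i e c : ℕ} (hi : i ≤ N)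
    (h : tyW P pos m T ν col i e = T + 2 + 2 * m + c) : e ∈ cutE P pos i ∧ col i e = c := by
  unfold tyW at h
  split_ifs at h with h1 h2 h3 h4
  · have := hν (i - 1) (by omega) e h1.2
    omega
  · have := hν i hi e h2
    omega
  · omega
  · exact ⟨h4, by omega⟩
  · omega

/-- edges of a cut are boundary edges of the two parts -/
private theorem gw_cut_bd {W : Set (Pc (Lb Ω))} {M : ℕ} {k : ℕ∞} {m Θ T : ℕ}
    {P : (CG Ω)} {N : ℕ} {b pos pt : ℕ → ℕ} {up : ℕ → Finset ℕ} {rk : ℕ → ℕ}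
    (h : IsLin W M k m Θ T P N b pos pt up rk) {i e : ℕ} (he : e ∈ cutE P pos i) :
    e ∈ P.G.bd (blM P pos i) ∧ e ∈ P.G.bd (blP P pos i) := by
  obtain ⟨heE, ha, hb, hp⟩ := gw_cut_pos h he
  constructor
  · rw [Gr.mem_bd]
    refine ⟨heE, ?_⟩
    unfold Gr.Cross blM
    simp only [Finset.mem_filter, ha, hb, true_and]
    omega
  · rw [Gr.mem_bd]
    refine ⟨heE, ?_⟩
    unfold Gr.Cross blP
    simp only [Finset.mem_filter, ha, hb, true_and]
    omega

/-- PROOF. Let `φ` be the embedding; for `i ≤ N` the letters `letr P i`, `letr P' (φ i)` are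
related: labels equal, and by `detach` (types `tyW ≥ T` always, labels of `P.X`, `P'.X` are below `T`
by the field `lab`, the vertex sets `blP, blk, blM` are subsets of `X`) the three closed pieces give
local immersions (`choose`). Note `φ i ≥ 1` for `i ≥ 1`.
Connectors: let `i < N` with `x := φ i + 1 < y := φ (i + 1)`, `U := cutE P pos (i + 1)`,
`ι := ιM i`, `ι' := ιP (i + 1)`. Positions: an edge of `cutE P pos (i+1)` joins a vertex at
`4 (i+1)` (so it is in `bd (blM (i+1))`) and a vertex at `4 (i+1) + 2` (so it is in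
`bd (blP (i+1))`), it does not pass or meet a hub, so its type is `T + 2 + 2 m + col (i+1) u` for both
pieces. In `P'`: a boundary edge of `blM x` (one end at position `4 x`, the other at a position with
distance `≤ 2`) with type `T + 2 + 2 m + c` is in `cutE P' pos' x` and has `col' x = c`: the types of
edges passing hub `x - 1` are `< T + 2 + m`, it does not pass hub `x` or meet hub `x`, and the last
case has type `T`. The same for boundary edges of `blP y` (edges passing hub `y` have types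
`< T + 2 + 2 m`; it is not in `strE (y - 1)`). Hence `GD N' m (cutE P' pos') D' τ' col' x y U ι ι'`:
`x1`, `yN` clear (`φ (i+1) ≤ N'`); `map`, `map'` as said; `inj` from `TImm.disj`, `cr_mem`; `card`:
the label condition of the word embedding at `i + 1`, `φ i < z ≤ φ (i+1)`; `big`: `5 m ≤ Θ ≤ |U|`;
`coleq` as said; `cov`: the field `k2` of the letters `i`, `φ i` says
`cols P (i+1) = cols P' x`, so for `f ∈ cutE P' x` with `col' x f ≠ 0` there is `u ∈ U` with
`col (i+1) u = col' x f = col' x (ι u)`, so `f = ι u` by `colinj`; `cov'` with the field `k1` of the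
letters `i + 1`, `φ (i+1)`. Now `gap_conn` gives `Γ i`. -/
theorem exists_wdt {W : Set (Pc (Lb Ω))} {M : ℕ} {k : ℕ∞} {m Θ T : ℕ} (hΘ : 5 * m ≤ Θ)
    {P : (CG Ω)} {N : ℕ} {b pos pt : ℕ → ℕ} {up : ℕ → Finset ℕ} {rk : ℕ → ℕ} {ν col : ℕ → ℕ → ℕ}
    {D : ℕ → Finset ℕ} {τ : ℕ → ℕ → ℕ} {J J' : ℕ → ℕ → Set ℕ}
    (h : Dr W M k m Θ T P N b pos pt up rk ν col D τ J J')
    {P' : (CG Ω)} {N' : ℕ} {b' pos' pt' : ℕ → ℕ} {up' : ℕ → Finset ℕ} {rk' : ℕ → ℕ}
    {ν' col' : ℕ → ℕ → ℕ} {D' : ℕ → Finset ℕ} {τ' : ℕ → ℕ → ℕ} {K K' : ℕ → ℕ → Set ℕ}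
    (h' : Dr W M k m Θ T P' N' b' pos' pt' up' rk' ν' col' D' τ' K K')
    (hw : WE LR (wrd P N b pos m T ν col) (wrd P' N' b' pos' m T ν' col')) :
    ∃ φ ηP ιP ηD ιD ηM ιM ΦP ΦD ΦM Γ, WDt P P' N N' b b' pos pos' m T ν col ν' col' φ
      ηP ιP ηD ιD ηM ιM ΦP ΦD ΦM Γ := by
  classical
  obtain ⟨φ, h0, hN, hlt, hr, hc⟩ := hw
  change φ N = N' at hN
  change ∀ i, i < N → φ i < φ (i + 1) at hlt
  change ∀ i ≤ N, LR (letr P b pos m T ν col i) (letr P' b' pos' m T ν' col' (φ i)) at hr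
  change ∀ i, 1 ≤ i → i ≤ N → ∀ l, φ (i - 1) < l → l ≤ φ i →
    (cutE P pos i).card ≤ (cutE P' pos' l).card at hc
  -- `φ` is monotone
  have hmono : ∀ j, ∀ i, i + j ≤ N → φ i ≤ φ (i + j) := by
    intro j
    induction j with
    | zero => intro i _; exact le_rfl
    | succ j ih =>
      intro i hij
      have h1 := ih i (by omega)
      have h2 := hlt (i + j) (by omega)
      have h3 : i + (j + 1) = i + j + 1 := rfl
      rw [h3]
      omega
  have hle : ∀ i ≤ N, φ i ≤ N' := by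
    intro i hi
    have h1 := hmono (N - i) i (by omega)
    rw [show i + (N - i) = N by omega, hN] at h1
    exact h1
  have hlab : ∀ {Q : (CG Ω)} {Y : Finset ℕ}, LabT Q.G Q.X T → Y ⊆ Q.X → LabT Q.G Y T :=
    fun hl hY x hx => hl x (hY hx)
  have hP : ∀ i, ∃ η Φ ι, i ≤ N → TImm P.G (blP P pos i) P'.G (blP P' pos' (φ i))
      (tyW P pos m T ν col i) (tyW P' pos' m T ν' col' (φ i)) η Φ ι := by
    intro i
    by_cases hi : i ≤ N
    · obtain ⟨η, Φ, ι, ht⟩ := detach (hlab h.lin.lab (Finset.filter_subset _ _))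
        (hlab h'.lin.lab (Finset.filter_subset _ _)) (fun e _ => gw_ty_le P pos m T ν col i e)
        (fun e _ => gw_ty_le P' pos' m T ν' col' (φ i) e) (hr i hi).p1
      exact ⟨η, Φ, ι, fun _ => ht⟩
    · exact ⟨fun _ => 0, fun _ => ∅, fun _ => 0, fun hh => absurd hh hi⟩
  have hD : ∀ i, ∃ η Φ ι, i ≤ N → TImm P.G (blk P pos i) P'.G (blk P' pos' (φ i))
      (tyW P pos m T ν col i) (tyW P' pos' m T ν' col' (φ i)) η Φ ι := by
    intro i
    by_cases hi : i ≤ N
    · obtain ⟨η, Φ, ι, ht⟩ := detach (hlab h.lin.lab (Finset.filter_subset _ _))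
        (hlab h'.lin.lab (Finset.filter_subset _ _)) (fun e _ => gw_ty_le P pos m T ν col i e)
        (fun e _ => gw_ty_le P' pos' m T ν' col' (φ i) e) (hr i hi).p2
      exact ⟨η, Φ, ι, fun _ => ht⟩
    · exact ⟨fun _ => 0, fun _ => ∅, fun _ => 0, fun hh => absurd hh hi⟩
  have hM : ∀ i, ∃ η Φ ι, i ≤ N → TImm P.G (blM P pos (i + 1)) P'.G (blM P' pos' (φ i + 1))
      (tyW P pos m T ν col (i + 1)) (tyW P' pos' m T ν' col' (φ i + 1)) η Φ ι := by
    intro i
    by_cases hi : i ≤ N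
    · obtain ⟨η, Φ, ι, ht⟩ := detach (hlab h.lin.lab (Finset.filter_subset _ _))
        (hlab h'.lin.lab (Finset.filter_subset _ _))
        (fun e _ => gw_ty_le P pos m T ν col (i + 1) e)
        (fun e _ => gw_ty_le P' pos' m T ν' col' (φ i + 1) e) (hr i hi).p3
      exact ⟨η, Φ, ι, fun _ => ht⟩
    · exact ⟨fun _ => 0, fun _ => ∅, fun _ => 0, fun hh => absurd hh hi⟩
  choose ηP ΦP ιP hP using hP
  choose ηD ΦD ιD hD using hD
  choose ηM ΦM ιM hM using hM
  -- images of the cut edges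
  have cM : ∀ i, i < N → φ i + 1 < φ (i + 1) → ∀ u ∈ cutE P pos (i + 1),
      ιM i u ∈ cutE P' pos' (φ i + 1) ∧ col' (φ i + 1) (ιM i u) = col (i + 1) u := by
    intro i hi hg u hu
    have h1 := (hM i hi.le).cr_ty u (gw_cut_bd h.lin hu).1
    rw [gw_ty_cut h.lin ν col (by omega) hu] at h1
    have h2 := hle (i + 1) (by omega)
    exact gw_cut_of_ty h'.ν_lt (by omega) h1
  have cP : ∀ i, i < N → φ i + 1 < φ (i + 1) → ∀ u ∈ cutE P pos (i + 1),
      ιP (i + 1) u ∈ cutE P' pos' (φ (i + 1)) ∧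
        col' (φ (i + 1)) (ιP (i + 1) u) = col (i + 1) u := by
    intro i hi hg u hu
    have h1 := (hP (i + 1) (by omega)).cr_ty u (gw_cut_bd h.lin hu).2
    rw [gw_ty_cut h.lin ν col (by omega) hu] at h1
    have h2 := hle (i + 1) (by omega)
    exact gw_cut_of_ty h'.ν_lt h2 h1
  have hG : ∀ i, ∃ Γ : ℕ → Set ℕ, i < N → φ i + 1 < φ (i + 1) →
      (∀ u ∈ cutE P pos (i + 1), ιM i u ∈ Γ u ∧ ιP (i + 1) u ∈ Γ u) ∧
      (∀ u ∈ cutE P pos (i + 1), ∀ f ∈ Γ u, f ∈ P'.G.E ∧ (f = ιM i u ∨ f = ιP (i + 1) u ∨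
        (4 * (φ i + 1) + 2 ≤ pos' (P'.G.a f) ∧ pos' (P'.G.a f) ≤ 4 * φ (i + 1) ∧
          4 * (φ i + 1) + 2 ≤ pos' (P'.G.b f) ∧ pos' (P'.G.b f) ≤ 4 * φ (i + 1)))) ∧
      (∀ u ∈ cutE P pos (i + 1), ∀ z z', P'.G.Inc (ιM i u) z → P'.G.Inc (ιP (i + 1) u) z' →
        P'.G.Conn (Γ u) z z') ∧
      ∀ u ∈ cutE P pos (i + 1), ∀ v ∈ cutE P pos (i + 1), u ≠ v → Disjoint (Γ u) (Γ v) := by
    intro i
    by_cases hi : i < N
    swap
    · exact ⟨fun _ => ∅, fun hh => absurd hh hi⟩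
    by_cases hg : φ i + 1 < φ (i + 1)
    swap
    · exact ⟨fun _ => ∅, fun _ hh => absurd hh hg⟩
    have hy : φ (i + 1) ≤ N' := hle (i + 1) (by omega)
    have hGD : GD N' m (cutE P' pos') D' τ' col' (φ i + 1) (φ (i + 1)) (cutE P pos (i + 1))
        (ιM i) (ιP (i + 1)) := by
      refine ⟨h'.ls, by omega, hy, fun u hu => (cM i hi hg u hu).1, ?_,
        fun u hu => (cP i hi hg u hu).1, ?_, ?_, ?_, ?_, ?_, ?_⟩
      · intro u hu v hv huv
        by_contra hne
        have hu' := (gw_cut_bd h.lin hu).1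
        have hv' := (gw_cut_bd h.lin hv).1
        have hd := (hM i hi.le).disj u (P.G.mem_bd.1 hu').1 v (P.G.mem_bd.1 hv').1
          (P.G.mem_bd.1 hu').2.touch (P.G.mem_bd.1 hv').2.touch hne
        have h1 := (hM i hi.le).cr_mem u hu'
        have h2 := (hM i hi.le).cr_mem v hv'
        rw [← huv] at h2
        exact Set.disjoint_left.1 hd h1 h2
      · intro u hu v hv huv
        by_contra hne
        have hu' := (gw_cut_bd h.lin hu).2
        have hv' := (gw_cut_bd h.lin hv).2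
        have hd := (hP (i + 1) (by omega)).disj u (P.G.mem_bd.1 hu').1 v (P.G.mem_bd.1 hv').1
          (P.G.mem_bd.1 hu').2.touch (P.G.mem_bd.1 hv').2.touch hne
        have h1 := (hP (i + 1) (by omega)).cr_mem u hu'
        have h2 := (hP (i + 1) (by omega)).cr_mem v hv'
        rw [← huv] at h2
        exact Set.disjoint_left.1 hd h1 h2
      · intro z hxz hzy
        exact hc (i + 1) (by omega) (by omega) z (by
          rw [show i + 1 - 1 = i by omega]; omega) hzy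
      · exact hΘ.trans (h.lin.cut (i + 1) (by omega) (by omega))
      · intro u hu
        rw [(cM i hi hg u hu).2, (cP i hi hg u hu).2]
      · intro f hf hf0
        have hk : cols P pos col (i + 1) = cols P' pos' col' (φ i + 1) := (hr i hi.le).k2
        have hm : col' (φ i + 1) f ∈ cols P pos col (i + 1) := by
          rw [hk]; exact Finset.mem_image_of_mem _ hf
        obtain ⟨u, hu, huc⟩ := Finset.mem_image.1 hm
        refine ⟨u, hu, ?_⟩
        have h1 := cM i hi hg u hu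
        exact (h'.ls.colinj (φ i + 1) (by omega) (by omega) f hf (ιM i u) h1.1 hf0
          (by rw [h1.2, huc])).symm
      · intro f hf hf0
        have hk : cols P pos col (i + 1) = cols P' pos' col' (φ (i + 1)) :=
          (hr (i + 1) (by omega)).k1
        have hm : col' (φ (i + 1)) f ∈ cols P pos col (i + 1) := by
          rw [hk]; exact Finset.mem_image_of_mem _ hf
        obtain ⟨u, hu, huc⟩ := Finset.mem_image.1 hm
        refine ⟨u, hu, ?_⟩
        have h1 := cP i hi hg u hu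
        exact (h'.ls.colinj (φ (i + 1)) (by omega) hy f hf (ιP (i + 1) u) h1.1 hf0
          (by rw [h1.2, huc])).symm
    obtain ⟨Γ, g1, g2, g3, g4⟩ := gap_conn h' hg hGD
    exact ⟨Γ, fun _ _ => ⟨g1, g2, g3, g4⟩⟩
  choose Γ hG using hG
  refine ⟨φ, ηP, ιP, ηD, ιD, ηM, ιM, ΦP, ΦD, ΦM, Γ, h0, hN, hlt, fun i hi => (hr i hi).q,
    fun i hi => hP i hi, fun i _ hi => hD i hi, fun i hi => hM i hi, ?_, ?_, ?_, ?_, ?_, ?_⟩
  · intro i hi hg; exact (hG i hi hg).1
  · intro i hi hg; exact (hG i hi hg).2.1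
  · intro i hi hg u hu; exact (cM i hi hg u hu).1
  · intro i hi hg u hu; exact (cP i hi hg u hu).1
  · intro i hi hg; exact (hG i hi hg).2.2.1
  · intro i hi hg; exact (hG i hi hg).2.2.2

end Pool.Agent.W2411ls
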