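import Mathlib
import Pool.Agent.W_2411ls_h59.GWDef
import Pool.Agent.W_2411ls_h59.GlueS

/-! Gluing along an embedding of words. -/

set_option autoImplicit false
set_option linter.unusedSectionVars false

namespace Pool.Agent.W2411ls

open Pool.Agent.W2411c4

variable {Ω : Type} [Preorder Ω] [Inhabited Ω]

/-- the positions of the ends of the edge `e` are `p` and `q` -/
def Ps (P : (CG Ω)) (pos : ℕ → ℕ) (e p q : ℕ) : Prop :=
  (pos (P.G.a e) = p ∧ pos (P.G.b e) = q) ∨ (pos (P.G.b e) = p ∧ pos (P.G.a e) = q)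

/-- the facts about positions -/
structure PL (P : (CG Ω)) (N : ℕ) (b pos : ℕ → ℕ) : Prop where
  cls : Cls P
  hub : ∀ i ≤ N, b i ∈ P.X
  posb : ∀ i ≤ N, pos (b i) = 4 * i + 3
  pose : ∀ x ∈ P.X, (∃ i ≤ N, x = b i) ∨ (pos x % 2 = 0 ∧ 2 ≤ pos x ∧ pos x ≤ 4 * N + 4)
  edge : ∀ e ∈ P.G.E, pos (P.G.a e) ≤ pos (P.G.b e) + 2 ∧ pos (P.G.b e) ≤ pos (P.G.a e) + 2

theorem PL.of_lin {W : Set (Pc (Lb Ω))} {M : ℕ} {k : ℕ∞} {m Θ T : ℕ} {P : (CG Ω)} {N : ℕ} {b pos pt : ℕ → ℕ}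
    {up : ℕ → Finset ℕ} {rk : ℕ → ℕ} (h : IsLin W M k m Θ T P N b pos pt up rk) :
    PL P N b pos where
  cls := h.cls
  hub := fun i hi => h.parts.sub (mem_hs.2 ⟨i, hi, rfl⟩)
  posb := h.posb
  pose := by
    intro x hx
    by_cases hH : x ∈ hs N b
    · obtain ⟨i, hi, rfl⟩ := mem_hs.1 hH
      exact Or.inl ⟨i, hi, rfl⟩
    · exact Or.inr (h.pose x hx hH)
  edge := h.edge

section PLsec

variable {P : (CG Ω)} {N : ℕ} {b pos : ℕ → ℕ}

theorem PL.posX (h : PL P N b pos) {x : ℕ} (hx : x ∈ P.X) :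
    (pos x % 4 = 3 ∧ pos x ≤ 4 * N + 3) ∨ (pos x % 2 = 0 ∧ 2 ≤ pos x ∧ pos x ≤ 4 * N + 4) := by
  rcases h.pose x hx with ⟨i, hi, rfl⟩ | h1
  · left
    have := h.posb i hi
    omega
  · exact Or.inr h1

theorem PL.is_hub (h : PL P N b pos) {x i : ℕ} (hx : x ∈ P.X) (hp : pos x = 4 * i + 3) :
    i ≤ N ∧ x = b i := by
  rcases h.pose x hx with ⟨j, hj, rfl⟩ | h1
  · have := h.posb j hj
    have hij : j = i := by omega
    subst hij
    exact ⟨hj, rfl⟩
  · omega

theorem PL.num (h : PL P N b pos) {e : ℕ} (he : e ∈ P.G.E) :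
    ((pos (P.G.a e) % 4 = 3 ∧ pos (P.G.a e) ≤ 4 * N + 3) ∨
      (pos (P.G.a e) % 2 = 0 ∧ 2 ≤ pos (P.G.a e) ∧ pos (P.G.a e) ≤ 4 * N + 4)) ∧
    ((pos (P.G.b e) % 4 = 3 ∧ pos (P.G.b e) ≤ 4 * N + 3) ∨
      (pos (P.G.b e) % 2 = 0 ∧ 2 ≤ pos (P.G.b e) ∧ pos (P.G.b e) ≤ 4 * N + 4)) ∧
    pos (P.G.a e) ≤ pos (P.G.b e) + 2 ∧ pos (P.G.b e) ≤ pos (P.G.a e) + 2 ∧
    ¬ (pos (P.G.a e) = pos (P.G.b e) ∧ pos (P.G.a e) % 4 = 3) := by
  obtain ⟨ha, hb⟩ := h.cls e he
  refine ⟨h.posX ha, h.posX hb, (h.edge e he).1, (h.edge e he).2, ?_⟩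
  rintro ⟨h1, h2⟩
  have ha' := h.is_hub (i := pos (P.G.a e) / 4) ha (by omega)
  have hb' := h.is_hub (i := pos (P.G.a e) / 4) hb (by omega)
  exact P.G.ne e he (ha'.2.trans hb'.2.symm)

theorem num5 {p q N : ℕ} (hp : (p % 4 = 3 ∧ p ≤ 4 * N + 3) ∨ (p % 2 = 0 ∧ 2 ≤ p ∧ p ≤ 4 * N + 4))
    (hq : (q % 4 = 3 ∧ q ≤ 4 * N + 3) ∨ (q % 2 = 0 ∧ 2 ≤ q ∧ q ≤ 4 * N + 4)) (h1 : p ≤ q)
    (h2 : q ≤ p + 2) (h3 : ¬ (p = q ∧ p % 4 = 3)) :
    ∃ i, (p = 2 * i ∧ q = 2 * i ∧ 1 ≤ i ∧ i ≤ 2 * N + 2) ∨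
      (p = 4 * i ∧ q = 4 * i + 2 ∧ 1 ≤ i ∧ i ≤ N) ∨
      (p = 4 * i + 2 ∧ q = 4 * i + 3 ∧ i ≤ N) ∨ (p = 4 * i + 3 ∧ q = 4 * i + 4 ∧ i ≤ N) ∨
      (p = 4 * i + 2 ∧ q = 4 * i + 4 ∧ i ≤ N) := by
  by_cases h4 : p = q
  · exact ⟨p / 2, Or.inl (by omega)⟩
  · refine ⟨p / 4, Or.inr ?_⟩
    have h5 : p % 4 = 0 ∨ p % 4 = 2 ∨ p % 4 = 3 := by omega
    rcases h5 with h5 | h5 | h5
    · left; omega
    · right
      have h6 : q = p + 1 ∨ q = p + 2 := by omega
      rcases h6 with h6 | h6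
      · left; omega
      · right; right; omega
    · right; right; left; omega

/-- the possible positions of the ends of an edge -/
theorem PL.cl5 (h : PL P N b pos) {e : ℕ} (he : e ∈ P.G.E) :
    ∃ i, (pos (P.G.a e) = 2 * i ∧ pos (P.G.b e) = 2 * i ∧ 1 ≤ i ∧ i ≤ 2 * N + 2) ∨
      (Ps P pos e (4 * i) (4 * i + 2) ∧ 1 ≤ i ∧ i ≤ N) ∨
      (Ps P pos e (4 * i + 2) (4 * i + 3) ∧ i ≤ N) ∨
      (Ps P pos e (4 * i + 3) (4 * i + 4) ∧ i ≤ N) ∨
      (Ps P pos e (4 * i + 2) (4 * i + 4) ∧ i ≤ N) := by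
  obtain ⟨h1, h2, h3, h4, h5⟩ := h.num he
  rcases le_total (pos (P.G.a e)) (pos (P.G.b e)) with hab | hab
  · obtain ⟨i, hi⟩ := num5 h1 h2 hab h4 h5
    refine ⟨i, ?_⟩
    rcases hi with hi | hi | hi | hi | hi
    · exact Or.inl hi
    · exact Or.inr (Or.inl ⟨Or.inl ⟨hi.1, hi.2.1⟩, hi.2.2⟩)
    · exact Or.inr (Or.inr (Or.inl ⟨Or.inl ⟨hi.1, hi.2.1⟩, hi.2.2⟩))
    · exact Or.inr (Or.inr (Or.inr (Or.inl ⟨Or.inl ⟨hi.1, hi.2.1⟩, hi.2.2⟩)))
    · exact Or.inr (Or.inr (Or.inr (Or.inr ⟨Or.inl ⟨hi.1, hi.2.1⟩, hi.2.2⟩)))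
  · obtain ⟨i, hi⟩ := num5 h2 h1 hab h3 (by omega)
    refine ⟨i, ?_⟩
    rcases hi with hi | hi | hi | hi | hi
    · exact Or.inl ⟨hi.2.1, hi.1, hi.2.2⟩
    · exact Or.inr (Or.inl ⟨Or.inr ⟨hi.1, hi.2.1⟩, hi.2.2⟩)
    · exact Or.inr (Or.inr (Or.inl ⟨Or.inr ⟨hi.1, hi.2.1⟩, hi.2.2⟩))
    · exact Or.inr (Or.inr (Or.inr (Or.inl ⟨Or.inr ⟨hi.1, hi.2.1⟩, hi.2.2⟩)))
    · exact Or.inr (Or.inr (Or.inr (Or.inr ⟨Or.inr ⟨hi.1, hi.2.1⟩, hi.2.2⟩)))

theorem PL.mem_cut (h : PL P N b pos) {i e : ℕ} :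
    e ∈ cutE P pos i ↔ e ∈ P.G.E ∧ Ps P pos e (4 * i) (4 * i + 2) := by
  unfold cutE
  rw [P.G.mem_bd]
  constructor
  · rintro ⟨he, hc⟩
    obtain ⟨ha, hb⟩ := h.cls e he
    obtain ⟨j, hj⟩ := h.cl5 he
    refine ⟨he, ?_⟩
    unfold Gr.Cross at hc
    simp only [Finset.mem_filter, ha, hb, true_and] at hc
    unfold Ps at hj ⊢
    rcases hj with hj | hj | hj | hj | hj <;> omega
  · rintro ⟨he, hc⟩
    obtain ⟨ha, hb⟩ := h.cls e he
    refine ⟨he, ?_⟩
    unfold Gr.Cross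
    simp only [Finset.mem_filter, ha, hb, true_and]
    unfold Ps at hc
    omega

theorem mem_str {i e : ℕ} :
    e ∈ strE P pos i ↔ e ∈ P.G.E ∧ Ps P pos e (4 * i + 2) (4 * i + 4) := by
  unfold strE Ps
  rw [Finset.mem_filter]

/-- a piece by positions -/
def pcs (P : (CG Ω)) (pos : ℕ → ℕ) (A B : Bool) (i : ℕ) : Finset ℕ :=
  P.X.filter fun x => (A = true ∧ pos x = 4 * i) ∨ (B = true ∧ pos x = 4 * i + 2)

theorem mem_pcs {A B : Bool} {i x : ℕ} : x ∈ pcs P pos A B i ↔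
    x ∈ P.X ∧ ((A = true ∧ pos x = 4 * i) ∨ (B = true ∧ pos x = 4 * i + 2)) := by
  unfold pcs
  rw [Finset.mem_filter]

theorem pcs_P (i : ℕ) : pcs P pos false true i = blP P pos i := by
  ext x; simp [pcs, blP]

theorem pcs_D (i : ℕ) : pcs P pos true true i = blk P pos i := by
  ext x; simp [pcs, blk]

theorem pcs_M (i : ℕ) : pcs P pos true false i = blM P pos i := by
  ext x; simp [pcs, blM]

/-- the kinds of boundary edges and their types -/
theorem PL.kind (h : PL P N b pos) {m T : ℕ} {ν col : ℕ → ℕ → ℕ}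
    (hν : ∀ i ≤ N, ∀ e ∈ strE P pos i, ν i e < m) {A B : Bool} {i e : ℕ}
    (he : e ∈ P.G.bd (pcs P pos A B i)) :
    (1 ≤ i ∧ A = true ∧ Ps P pos e (4 * i - 2) (4 * i) ∧ e ∈ strE P pos (i - 1) ∧
      ν (i - 1) e < m ∧ tyW P pos m T ν col i e = T + 2 + ν (i - 1) e) ∨
    (B = true ∧ Ps P pos e (4 * i + 2) (4 * i + 4) ∧ e ∈ strE P pos i ∧
      ν i e < m ∧ tyW P pos m T ν col i e = T + 2 + m + ν i e) ∨
    (B = true ∧ Ps P pos e (4 * i + 2) (4 * i + 3) ∧ tyW P pos m T ν col i e = T + 1) ∨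
    (Ps P pos e (4 * i) (4 * i + 2) ∧ T + 2 + 2 * m ≤ tyW P pos m T ν col i e) ∨
    (1 ≤ i ∧ A = true ∧ Ps P pos e (4 * i - 1) (4 * i) ∧ tyW P pos m T ν col i e = T) := by
  obtain ⟨heE, hc⟩ := P.G.mem_bd.1 he
  obtain ⟨ha, hb⟩ := h.cls e heE
  obtain ⟨q, hq⟩ := h.cl5 heE
  unfold Gr.Cross at hc
  simp only [mem_pcs, ha, hb, true_and] at hc
  by_cases h1 : 1 ≤ i ∧ e ∈ strE P pos (i - 1)
  · left
    have h2 := mem_str.1 h1.2
    have h3 : i - 1 ≤ N := by
      obtain ⟨_, h2⟩ := h2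
      unfold Ps at h2 hq
      omega
    refine ⟨h1.1, ?_, ?_, h1.2, hν _ h3 e h1.2, ?_⟩
    · obtain ⟨_, h2⟩ := h2
      obtain ⟨h1, _⟩ := h1
      unfold Ps at h2
      cases A
      · simp only [Bool.false_eq_true, false_and, false_or] at hc
        omega
      · rfl
    · obtain ⟨_, h2⟩ := h2
      obtain ⟨h1, _⟩ := h1
      unfold Ps at h2 ⊢
      omega
    · unfold tyW
      rw [if_pos h1]
  right
  by_cases h2 : e ∈ strE P pos i
  · left
    have h2' := mem_str.1 h2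
    have h3 : i ≤ N := by
      obtain ⟨_, h2⟩ := h2'
      unfold Ps at h2 hq
      omega
    refine ⟨?_, h2'.2, h2, hν _ h3 e h2, ?_⟩
    · obtain ⟨_, h2⟩ := h2'
      unfold Ps at h2
      cases B
      · simp only [Bool.false_eq_true, false_and, or_false] at hc
        omega
      · rfl
    · unfold tyW
      rw [if_neg h1, if_pos h2]
  right
  by_cases h3 : pos (P.G.a e) = 4 * i + 3 ∨ pos (P.G.b e) = 4 * i + 3
  · left
    refine ⟨?_, ?_, ?_⟩
    · unfold Ps at hq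
      cases B
      · simp only [Bool.false_eq_true, false_and, or_false] at hc
        rcases hq with hq | hq | hq | hq | hq <;> omega
      · rfl
    · unfold Ps at hq ⊢
      rcases hq with hq | hq | hq | hq | hq <;> omega
    · unfold tyW
      rw [if_neg h1, if_neg h2, if_pos h3]
  right
  by_cases h4 : e ∈ cutE P pos i
  · left
    refine ⟨(h.mem_cut.1 h4).2, ?_⟩
    unfold tyW
    rw [if_neg h1, if_neg h2, if_neg h3, if_pos h4]
    omega
  right
  have h1' : ¬ (1 ≤ i ∧ Ps P pos e (4 * (i - 1) + 2) (4 * (i - 1) + 4)) := fun hh =>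
    h1 ⟨hh.1, mem_str.2 ⟨heE, hh.2⟩⟩
  have h2' : ¬ Ps P pos e (4 * i + 2) (4 * i + 4) := fun hh => h2 (mem_str.2 ⟨heE, hh⟩)
  have h4' : ¬ Ps P pos e (4 * i) (4 * i + 2) := fun hh => h4 (h.mem_cut.2 ⟨heE, hh⟩)
  unfold Ps at h1' h2' h4' hq ⊢
  have key : 1 ≤ i ∧ A = true ∧ (pos (P.G.a e) = 4 * i - 1 ∧ pos (P.G.b e) = 4 * i ∨
      pos (P.G.b e) = 4 * i - 1 ∧ pos (P.G.a e) = 4 * i) := by
    cases A <;> cases B <;> simp only [Bool.false_eq_true, false_and, false_or, or_false,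
      true_and, not_false_eq_true, and_false, and_true] at hc ⊢ <;>
      rcases hq with hq | hq | hq | hq | hq <;> omega
  refine ⟨key.1, key.2.1, key.2.2, ?_⟩
  unfold tyW
  rw [if_neg h1, if_neg h2, if_neg h3, if_neg h4]

end PLsec

/-- the index set of the pieces -/
inductive Ix (N : ℕ) (φ : ℕ → ℕ) : Type
  | P (i : ℕ) (h : i ≤ N) (g : i = 0 ∨ φ (i - 1) + 1 < φ i)
  | D (i : ℕ) (h : i + 1 ≤ N) (g : φ (i + 1) = φ i + 1)
  | M (i : ℕ) (h : i ≤ N) (g : i = N ∨ φ i + 1 < φ (i + 1))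

namespace Ix

variable {N : ℕ} {φ : ℕ → ℕ}

/-- the index of the block -/
def ix : Ix N φ → ℕ
  | P i _ _ => i
  | D i _ _ => i + 1
  | M i _ _ => i + 1

/-- the index of the target block -/
def ix' : Ix N φ → ℕ
  | P i _ _ => φ i
  | D i _ _ => φ (i + 1)
  | M i _ _ => φ i + 1

/-- has the part before the cut -/
def A : Ix N φ → Bool
  | P _ _ _ => false
  | D _ _ _ => true
  | M _ _ _ => true

/-- has the part after the cut -/
def B : Ix N φ → Bool
  | P _ _ _ => true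
  | D _ _ _ => true
  | M _ _ _ => false

/-- choice of data -/
def sel {α : Type} (fP fD fM : ℕ → α) : Ix N φ → α
  | P i _ _ => fP i
  | D i _ _ => fD (i + 1)
  | M i _ _ => fM i

theorem factA (k : Ix N φ) (h : k.A = true) :
    ∃ j ≤ N, k.ix = j + 1 ∧ k.ix' = φ j + 1 := by
  cases k with
  | P i h1 g => simp [A] at h
  | D i h1 g => exact ⟨i, by omega, rfl, g⟩
  | M i h1 g => exact ⟨i, h1, rfl, rfl⟩

theorem factB (k : Ix N φ) (h : k.B = true) : k.ix ≤ N ∧ k.ix' = φ k.ix := by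
  cases k with
  | P i h1 g => exact ⟨h1, rfl⟩
  | D i h1 g => exact ⟨h1, rfl⟩
  | M i h1 g => simp [B] at h

theorem uniqA (k l : Ix N φ) (h : k.A = true) (h' : l.A = true) (hi : k.ix = l.ix) : k = l := by
  cases k with
  | P i h1 g => simp [A] at h
  | D i h1 g =>
    cases l with
    | P j h2 g' => simp [A] at h'
    | D j h2 g' =>
      have hij : i = j := by simpa [ix] using hi
      subst hij; rfl
    | M j h2 g' =>
      have hij : i = j := by simpa [ix] using hi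
      subst hij; omega
  | M i h1 g =>
    cases l with
    | P j h2 g' => simp [A] at h'
    | D j h2 g' =>
      have hij : i = j := by simpa [ix] using hi
      subst hij; omega
    | M j h2 g' =>
      have hij : i = j := by simpa [ix] using hi
      subst hij; rfl

theorem uniqB (k l : Ix N φ) (h : k.B = true) (h' : l.B = true) (hi : k.ix = l.ix) : k = l := by
  cases k with
  | M i h1 g => simp [B] at h
  | D i h1 g =>
    cases l with
    | M j h2 g' => simp [B] at h'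
    | D j h2 g' =>
      have hij : i = j := by simpa [ix] using hi
      subst hij; rfl
    | P j h2 g' =>
      have hij : i + 1 = j := by simpa [ix] using hi
      subst hij
      simp only [Nat.add_sub_cancel] at g'
      omega
  | P i h1 g =>
    cases l with
    | M j h2 g' => simp [B] at h'
    | D j h2 g' =>
      have hij : i = j + 1 := by simpa [ix] using hi
      subst hij
      simp only [Nat.add_sub_cancel] at g
      omega
    | P j h2 g' =>
      have hij : i = j := by simpa [ix] using hi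
      subst hij; rfl

theorem exA (lt : ∀ i, i < N → φ i < φ (i + 1)) (j : ℕ) (hj : j ≤ N) :
    ∃ k : Ix N φ, k.A = true ∧ k.ix = j + 1 := by
  by_cases h : j = N
  · exact ⟨M j hj (Or.inl h), rfl, rfl⟩
  · have := lt j (by omega)
    by_cases h1 : φ j + 1 < φ (j + 1)
    · exact ⟨M j hj (Or.inr h1), rfl, rfl⟩
    · exact ⟨D j (by omega) (by omega), rfl, rfl⟩

theorem exB (lt : ∀ i, i < N → φ i < φ (i + 1)) (j : ℕ) (hj : j ≤ N) :
    ∃ k : Ix N φ, k.B = true ∧ k.ix = j := by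
  rcases j with _ | j
  · exact ⟨P 0 hj (Or.inl rfl), rfl, rfl⟩
  · have := lt j (by omega)
    by_cases h1 : φ j + 1 < φ (j + 1)
    · exact ⟨P (j + 1) hj (Or.inr (by simpa using h1)), rfl, rfl⟩
    · exact ⟨D j (by omega) (by omega), rfl, rfl⟩

theorem gapk (k : Ix N φ) {j : ℕ} (hj : j < N) (g : φ j + 1 < φ (j + 1)) (h : k.ix = j + 1) :
    (k = M j (by omega) (Or.inr g)) ∨ (k = P (j + 1) hj (Or.inr (by simpa using g))) := by
  cases k with
  | P i h1 g' =>
    right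
    have hij : i = j + 1 := h
    subst hij; rfl
  | D i h1 g' =>
    have hij : i = j := by simpa [ix] using h
    subst hij; omega
  | M i h1 g' =>
    left
    have hij : i = j := by simpa [ix] using h
    subst hij; rfl

end Ix

theorem kd {P P' : (CG Ω)} {N N' : ℕ} {b b' pos pos' : ℕ → ℕ} (hL : PL P N b pos)
    (hL' : PL P' N' b' pos') {m T : ℕ} {ν col ν' col' : ℕ → ℕ → ℕ} {φ : ℕ → ℕ}
    (hν : ∀ i ≤ N, ∀ e ∈ strE P pos i, ν i e < m)
    (hν' : ∀ i ≤ N', ∀ e ∈ strE P' pos' i, ν' i e < m) {k : Ix N φ} {e e' : ℕ}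
    (he : e ∈ P.G.bd (pcs P pos k.A k.B k.ix)) (he' : e' ∈ P'.G.bd (pcs P' pos' k.A k.B k.ix'))
    (hty : tyW P' pos' m T ν' col' k.ix' e' = tyW P pos m T ν col k.ix e) :
    (∃ j ≤ N, ((k.A = true ∧ k.ix = j + 1) ∨ (k.B = true ∧ k.ix = j)) ∧ e ∈ strE P pos j ∧
      e' ∈ strE P' pos' (φ j) ∧ ν' (φ j) e' = ν j e) ∨
    (∃ j ≤ N, k.B = true ∧ k.ix = j ∧ Ps P pos e (4 * j + 2) (4 * j + 3) ∧
      Ps P' pos' e' (4 * φ j + 2) (4 * φ j + 3)) ∨
    (Ps P pos e (4 * k.ix) (4 * k.ix + 2)) ∨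
    (∃ j ≤ N, k.A = true ∧ k.ix = j + 1 ∧ Ps P pos e (4 * j + 3) (4 * j + 4) ∧
      Ps P' pos' e' (4 * φ j + 3) (4 * φ j + 4)) := by
  have k1 := hL.kind (T := T) (col := col) hν he
  have k2 := hL'.kind (T := T) (col := col') hν' he'
  rcases k1 with k1 | k1 | k1 | k1 | k1
  · left
    obtain ⟨h1, hA, h2, h3, h4, h5⟩ := k1
    obtain ⟨j, hj, h6, h7⟩ := k.factA hA
    rcases k2 with k2 | k2 | k2 | k2 | k2
    · obtain ⟨g1, _, g2, g3, g4, g5⟩ := k2
      rw [h6, Nat.add_sub_cancel] at h3 h4 h5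
      rw [h7, Nat.add_sub_cancel] at g3 g4 g5
      refine ⟨j, hj, Or.inl ⟨hA, h6⟩, h3, g3, ?_⟩
      rw [h6, h7, h5, g5] at hty
      omega
    all_goals omega
  · left
    obtain ⟨hB, h2, h3, h4, h5⟩ := k1
    obtain ⟨h6, h7⟩ := k.factB hB
    rcases k2 with k2 | k2 | k2 | k2 | k2
    · omega
    · obtain ⟨_, g2, g3, g4, g5⟩ := k2
      rw [h7] at g3 g4 g5
      refine ⟨k.ix, h6, Or.inr ⟨hB, rfl⟩, h3, g3, ?_⟩
      rw [h7, h5, g5] at hty
      omega
    all_goals omega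
  · right; left
    obtain ⟨hB, h2, h5⟩ := k1
    obtain ⟨h6, h7⟩ := k.factB hB
    rcases k2 with k2 | k2 | k2 | k2 | k2
    · omega
    · omega
    · obtain ⟨_, g2, g5⟩ := k2
      rw [h7] at g2
      exact ⟨k.ix, h6, hB, rfl, h2, g2⟩
    all_goals omega
  · right; right; left
    exact k1.1
  · right; right; right
    obtain ⟨h1, hA, h2, h5⟩ := k1
    obtain ⟨j, hj, h6, h7⟩ := k.factA hA
    rcases k2 with k2 | k2 | k2 | k2 | k2
    · omega
    · omega
    · omega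
    · omega
    · obtain ⟨_, _, g2, g5⟩ := k2
      refine ⟨j, hj, hA, h6, ?_, ?_⟩
      · rw [h6] at h2
        exact h2
      · rw [h7] at g2
        exact g2

/-- Gluing words. Proof: apply `glueS` with `κ := ℕ × Bool`, `H := hs N b`,
`θ (b i) := b' (φ i)`, and the pieces (`gap i` means `φ (i - 1) + 1 < φ i`, for `1 ≤ i ≤ N`):
`Pi (0, true) = blP 0 → blP' 0`; `Pi (N+1, false) = blM (N+1) → blM' (N'+1)` (data `ηM N, ...`);
for `1 ≤ i ≤ N` without gap: `Pi (i, false) = blk i → blk' (φ i)`, `Pi (i, true) = ∅`; with gap: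
`Pi (i, false) = blM i → blM' (φ (i-1) + 1)` (data `ηM (i-1), ...`),
`Pi (i, true) = blP i → blP' (φ i)`; all other pieces are empty (with `Pi' = ∅` and arbitrary data,
`TImm` is trivial for empty sets). For `0` and `N + 1`: position `0` and positions `> 4 N + 4` do not
occur. Every vertex of `P.X` is a hub (position `4 i + 3`) or has position `4 i` (`1 ≤ i ≤ N + 1`) or
`4 i + 2` (`0 ≤ i ≤ N`), so this is a partition; the `Pi'` are disjoint since the blocks
`φ (i-1) + 1`, `φ i` are different in a gap and `φ` is strictly increasing, and contain no hubs.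
Outer edges `e` of `P` (by the positions of the ends, which differ by at most `2`; hubs are at odd
positions, all other positions are even, so an edge joins: equal even positions (inner), `4i, 4i+2`
(`e ∈ cutE i`, `1 ≤ i ≤ N`, outer iff there is a gap at `i`), `4i+2, 4i+3` (left of hub `i`),
`4i+3, 4i+4` (right of hub `i`), `4i+2, 4i+4` (`e ∈ strE i`)):
(1) `e` left of hub `i`: it is in `bd` of the piece `k` containing its other end (`blP i` or `blk i`,
mapped to `blP' (φ i)` or `blk' (φ i)`); type `T + 1`; `e' := ι_k e ∈ bd (Pi' k)` has type `T + 1` in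
`tyW P' (φ i)`, so `e'` is incident with `b' (φ i)` (all other types are `≠ T + 1`), `Γ e := {e'}`.
(2) `e` right of hub `i`: piece `k` containing its other end: `blk (i+1)` without gap at `i + 1`,
mapped to `blk' (φ (i+1))` with `φ (i+1) = φ i + 1`, or `blM (i+1)`, mapped to `blM' (φ i + 1)`; the
type of `e` in `tyW (i+1)` is `T`, `e' := ι_k e` has type `T`, so by exclusion of all other cases (a
boundary edge of `blk' j` or `blM' j` which is not in `strE' (j-1)`, `strE' j`, not incident with hub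
`j`, not in `cutE' j`, joins position `4j` with `4j - 1`, i.e. it is incident with
`b' (j - 1) = b' (φ i)`); `Γ e := {e'}`.
(3) `e ∈ strE i`: it is in `bd` of the piece `k` with the end at `4i+2` (index `i`, type
`T + 2 + m + ν i e`) and of the piece `l` with the end at `4i+4` (index `i + 1`, type
`T + 2 + ν i e`). `ι_k e` has in `tyW' (φ i)` the type `T + 2 + m + ν i e`, so (as
`ν' < m`) it is in `strE' (φ i)` with `ν' (φ i) = ν i e`, or it would be in `strE' (φ i - 1)` (types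
`< T + 2 + m`) or in the cut (types `≥ T + 2 + 2 m`): excluded as `ν i e < m`. `ι_l e` has in
`tyW' (φ i + 1)` the type `T + 2 + ν i e < T + 2 + m`, so it is in `strE' (φ i)` with the same
number; so `ι_k e = ι_l e` by `ν_inj`; `Γ e :=` this single edge.
(4) `e ∈ cutE i` with a gap at `i = j + 1`: `Γ e := Γ j e`.
The conditions of `glueS` follow from `WDt` and by comparing positions: e.g. the edges of the
connector `Γ j e` have positions in `[4 (φ j + 1), 4 φ (j+1) + 2]`, they meet the position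
`4 (φ j + 1)` only in `ιM j e` and `4 φ (j+1) + 2` only in `ιP (j+1) e`, no other piece `Pi'` and no
hub `b' (φ l)` has a position in between. `Γdisj`: two single edges `ι_k e = ι_l f` with `e ≠ f`: if
both belong to a common piece use `TImm.disj` and `cr_mem`; in general the position of the edge
tells the kind (1)-(4) and `i`, and then `e`, `f` are in `bd` of a common piece (same kind, same `i`).
It is recommended to define `Γ` by cases on `e`, and to prove first a lemma on the possible positions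
of an edge of a linear graph and lemmas on the types. -/
theorem glue_words {W : Set (Pc (Lb Ω))} {M : ℕ} {k : ℕ∞} {m Θ T : ℕ}
    {P : (CG Ω)} {N : ℕ} {b pos pt : ℕ → ℕ} {up : ℕ → Finset ℕ} {rk : ℕ → ℕ} {ν col : ℕ → ℕ → ℕ}
    {D : ℕ → Finset ℕ} {τ : ℕ → ℕ → ℕ} {J J' : ℕ → ℕ → Set ℕ}
    (h : Dr W M k m Θ T P N b pos pt up rk ν col D τ J J')
    {P' : (CG Ω)} {N' : ℕ} {b' pos' pt' : ℕ → ℕ} {up' : ℕ → Finset ℕ} {rk' : ℕ → ℕ}
    {ν' col' : ℕ → ℕ → ℕ} {D' : ℕ → Finset ℕ} {τ' : ℕ → ℕ → ℕ} {K K' : ℕ → ℕ → Set ℕ}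
    (h' : Dr W M k m Θ T P' N' b' pos' pt' up' rk' ν' col' D' τ' K K')
    {φ : ℕ → ℕ} {ηP ιP ηD ιD ηM ιM : ℕ → ℕ → ℕ} {ΦP ΦD ΦM Γ : ℕ → ℕ → Set ℕ}
    (hw : WDt P P' N N' b b' pos pos' m T ν col ν' col' φ ηP ιP ηD ιD ηM ιM ΦP ΦD ΦM Γ) :
    CR P P' := by
  have hL : PL P N b pos := PL.of_lin h.lin
  have hL' : PL P' N' b' pos' := PL.of_lin h'.lin
  have lt := hw.lt
  have hmono : ∀ j, ∀ i, i < j → j ≤ N → φ i < φ j := by
    intro j
    induction j with
    | zero => intro i hi; omega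
    | succ j ih =>
      intro i hi hj
      have h1 := lt j (by omega)
      rcases Nat.lt_succ_iff_lt_or_eq.1 hi with h2 | h2
      · have := ih i h2 (by omega); omega
      · subst h2; exact h1
  have hinj : ∀ i j, i ≤ N → j ≤ N → φ i = φ j → i = j := by
    intro i j hi hj hij
    rcases lt_trichotomy i j with h1 | h1 | h1
    · have := hmono j i h1 hj; omega
    · exact h1
    · have := hmono i j h1 hi; omega
  have hleN : ∀ i ≤ N, φ i ≤ N' := by
    intro i hi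
    rcases Nat.lt_or_ge i N with h1 | h1
    · have := hmono N i h1 le_rfl
      rw [hw.last] at this; omega
    · have h2 : i = N := by omega
      subst h2; exact hw.last.le
  have hsep : ∀ j l, j < N → l ≤ N → φ l ≤ φ j ∨ φ (j + 1) ≤ φ l := by
    intro j l hj hl
    rcases lt_trichotomy l j with h1 | h1 | h1
    · exact Or.inl (hmono j l h1 (by omega)).le
    · subst h1; exact Or.inl le_rfl
    · rcases Nat.lt_or_ge (j + 1) l with h4 | h4
      · exact Or.inr (hmono l (j + 1) h4 hl).le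
      · have h5 : l = j + 1 := by omega
        subst h5; exact Or.inr le_rfl
  -- the data
  obtain ⟨ι, hι⟩ : ∃ ι : Ix N φ → ℕ → ℕ, ι = fun k => k.sel ιP ιD ιM := ⟨_, rfl⟩
  obtain ⟨Φ, hΦ⟩ : ∃ Φ : Ix N φ → ℕ → Set ℕ, Φ = fun k => k.sel ΦP ΦD ΦM := ⟨_, rfl⟩
  obtain ⟨η, hη⟩ : ∃ η : Ix N φ → ℕ → ℕ, η = fun k => k.sel ηP ηD ηM := ⟨_, rfl⟩
  obtain ⟨Pi, hPi⟩ : ∃ Pi : Ix N φ → Finset ℕ, Pi = fun k => pcs P pos k.A k.B k.ix := ⟨_, rfl⟩
  obtain ⟨Pi', hPi'⟩ : ∃ Pi' : Ix N φ → Finset ℕ, Pi' = fun k => pcs P' pos' k.A k.B k.ix' :=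
    ⟨_, rfl⟩
  have im : ∀ k, TImm P.G (Pi k) P'.G (Pi' k) (tyW P pos m T ν col k.ix)
      (tyW P' pos' m T ν' col' k.ix') (η k) (Φ k) (ι k) := by
    intro k
    rw [hPi, hPi', hη, hΦ, hι]
    cases k with
    | P i h1 g =>
      have h2 := hw.imP i h1
      rw [← pcs_P, ← pcs_P] at h2
      exact h2
    | D i h1 g =>
      have h2 := hw.imD (i + 1) (by omega) h1
      rw [← pcs_D, ← pcs_D] at h2
      exact h2
    | M i h1 g =>
      have h2 := hw.imM i h1
      rw [← pcs_M, ← pcs_M] at h2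
      exact h2
  have memPi : ∀ k x, x ∈ Pi k ↔ x ∈ P.X ∧ ((k.A = true ∧ pos x = 4 * k.ix) ∨
      (k.B = true ∧ pos x = 4 * k.ix + 2)) := by
    intro k x; rw [hPi]; exact mem_pcs
  have memPi' : ∀ k x, x ∈ Pi' k ↔ x ∈ P'.X ∧ ((k.A = true ∧ pos' x = 4 * k.ix') ∨
      (k.B = true ∧ pos' x = 4 * k.ix' + 2)) := by
    intro k x; rw [hPi']; exact mem_pcs
  have hkd : ∀ k, ∀ e ∈ P.G.bd (Pi k),
      (∃ j ≤ N, ((k.A = true ∧ k.ix = j + 1) ∨ (k.B = true ∧ k.ix = j)) ∧ e ∈ strE P pos j ∧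
        ι k e ∈ strE P' pos' (φ j) ∧ ν' (φ j) (ι k e) = ν j e) ∨
      (∃ j ≤ N, k.B = true ∧ k.ix = j ∧ Ps P pos e (4 * j + 2) (4 * j + 3) ∧
        Ps P' pos' (ι k e) (4 * φ j + 2) (4 * φ j + 3)) ∨
      (Ps P pos e (4 * k.ix) (4 * k.ix + 2)) ∨
      (∃ j ≤ N, k.A = true ∧ k.ix = j + 1 ∧ Ps P pos e (4 * j + 3) (4 * j + 4) ∧
        Ps P' pos' (ι k e) (4 * φ j + 3) (4 * φ j + 4)) := by
    intro k e he
    have h1 := (im k).cr_bd e he
    have h2 := (im k).cr_ty e he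
    rw [hPi'] at h1
    rw [hPi] at he
    exact kd hL hL' h.ν_lt h'.ν_lt he h1 h2
  have uA : ∀ k l : Ix N φ, k.A = true → l.A = true → k.ix' = l.ix' → k = l := by
    intro k l hk hl hkl
    obtain ⟨j, hj, h1, h2⟩ := k.factA hk
    obtain ⟨j', hj', h3, h4⟩ := l.factA hl
    have h5 := hinj j j' hj hj' (by omega)
    exact k.uniqA l hk hl (by omega)
  have uB : ∀ k l : Ix N φ, k.B = true → l.B = true → k.ix' = l.ix' → k = l := by
    intro k l hk hl hkl
    obtain ⟨h1, h2⟩ := k.factB hk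
    obtain ⟨h3, h4⟩ := l.factB hl
    have h5 := hinj k.ix l.ix h1 h3 (by omega)
    exact k.uniqB l hk hl h5
  have outbd : ∀ e k, Out P Pi e → P.G.Touch (Pi k) e → e ∈ P.G.bd (Pi k) := by
    intro e k he ht
    rw [P.G.mem_bd]
    refine ⟨he.1, ?_⟩
    rcases Gr.touch_iff.1 ht with h1 | h1
    · exact absurd h1 (he.2 k)
    · exact h1
  have tchA : ∀ e k, e ∈ P.G.E → k.A = true →
      (pos (P.G.a e) = 4 * k.ix ∨ pos (P.G.b e) = 4 * k.ix) → P.G.Touch (Pi k) e := by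
    intro e k he hA hp
    obtain ⟨ha, hb⟩ := hL.cls e he
    rcases hp with hp | hp
    · exact Or.inl ((memPi k _).2 ⟨ha, Or.inl ⟨hA, hp⟩⟩)
    · exact Or.inr ((memPi k _).2 ⟨hb, Or.inl ⟨hA, hp⟩⟩)
  have tchB : ∀ e k, e ∈ P.G.E → k.B = true →
      (pos (P.G.a e) = 4 * k.ix + 2 ∨ pos (P.G.b e) = 4 * k.ix + 2) → P.G.Touch (Pi k) e := by
    intro e k he hA hp
    obtain ⟨ha, hb⟩ := hL.cls e he
    rcases hp with hp | hp
    · exact Or.inl ((memPi k _).2 ⟨ha, Or.inr ⟨hA, hp⟩⟩)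
    · exact Or.inr ((memPi k _).2 ⟨hb, Or.inr ⟨hA, hp⟩⟩)
  have tch' : ∀ f k, P'.G.Touch (Pi' k) f →
      (k.A = true ∧ (pos' (P'.G.a f) = 4 * k.ix' ∨ pos' (P'.G.b f) = 4 * k.ix')) ∨
      (k.B = true ∧ (pos' (P'.G.a f) = 4 * k.ix' + 2 ∨ pos' (P'.G.b f) = 4 * k.ix' + 2)) := by
    intro f k ht
    rcases ht with ht | ht
    · rcases ((memPi' k _).1 ht).2 with h1 | h1
      · exact Or.inl ⟨h1.1, Or.inl h1.2⟩
      · exact Or.inr ⟨h1.1, Or.inl h1.2⟩
    · rcases ((memPi' k _).1 ht).2 with h1 | h1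
      · exact Or.inl ⟨h1.1, Or.inr h1.2⟩
      · exact Or.inr ⟨h1.1, Or.inr h1.2⟩
  -- the connectors
  obtain ⟨Γ', hΓ'⟩ : ∃ Γ' : ℕ → Set ℕ, Γ' = fun e => {f | (∃ k, e ∈ P.G.bd (Pi k) ∧ f = ι k e) ∨
      ∃ j, j < N ∧ φ j + 1 < φ (j + 1) ∧ e ∈ cutE P pos (j + 1) ∧ f ∈ Γ j e} := ⟨_, rfl⟩
  have memΓ : ∀ e f, f ∈ Γ' e ↔ (∃ k, e ∈ P.G.bd (Pi k) ∧ f = ι k e) ∨
      ∃ j, j < N ∧ φ j + 1 < φ (j + 1) ∧ e ∈ cutE P pos (j + 1) ∧ f ∈ Γ j e := by
    intro e f; rw [hΓ']; rfl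
  -- an outer edge of a cut is in a gap
  have outcut : ∀ e i, Out P Pi e → Ps P pos e (4 * i) (4 * i + 2) →
      ∃ j, i = j + 1 ∧ j < N ∧ φ j + 1 < φ (j + 1) := by
    intro e i he hp
    obtain ⟨ha, hb⟩ := hL.cls e he.1
    have h1 : 1 ≤ i ∧ i ≤ N := by
      have h2 := hL.posX ha
      have h3 := hL.posX hb
      unfold Ps at hp
      omega
    refine ⟨i - 1, by omega, by omega, ?_⟩
    have h2 := lt (i - 1) (by omega)
    have h3 : i - 1 + 1 = i := by omega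
    rw [h3] at h2 ⊢
    by_contra h4
    have h5 : φ (i - 1 + 1) = φ (i - 1) + 1 := by rw [h3]; omega
    apply he.2 (Ix.D (i - 1) (by omega) h5)
    have h6 : ∀ x ∈ P.X, (pos x = 4 * i ∨ pos x = 4 * i + 2) →
        x ∈ Pi (Ix.D (i - 1) (by omega) h5) := by
      intro x hx hp
      refine (memPi _ _).2 ⟨hx, ?_⟩
      simp only [Ix.A, Ix.B, Ix.ix, true_and, h3]
      exact hp
    unfold Ps at hp
    exact ⟨h6 _ ha (by omega), h6 _ hb (by omega)⟩
  -- description of the connectors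
  have gam : ∀ e, Out P Pi e → ∀ f ∈ Γ' e,
      (∃ j ≤ N, ((Ps P pos e (4 * j + 2) (4 * j + 3) ∧ Ps P' pos' f (4 * φ j + 2) (4 * φ j + 3)) ∨
        (Ps P pos e (4 * j + 3) (4 * j + 4) ∧ Ps P' pos' f (4 * φ j + 3) (4 * φ j + 4)) ∨
        (Ps P pos e (4 * j + 2) (4 * j + 4) ∧ Ps P' pos' f (4 * φ j + 2) (4 * φ j + 4))) ∧
        f ∈ P'.G.E ∧ ∀ k, e ∈ P.G.bd (Pi k) → f = ι k e) ∨
      (∃ j, j < N ∧ φ j + 1 < φ (j + 1) ∧ e ∈ cutE P pos (j + 1) ∧ f ∈ Γ j e) := by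
    intro e he f hf
    rcases (memΓ e f).1 hf with ⟨k, hk, rfl⟩ | h1
    swap
    · exact Or.inr h1
    have hE' : ι k e ∈ P'.G.E := (P'.G.mem_bd.1 ((im k).cr_bd e hk)).1
    rcases hkd k e hk with h1 | h1 | h1 | h1
    · left
      obtain ⟨j, hj, h2, h3, h4, h5⟩ := h1
      refine ⟨j, hj, Or.inr (Or.inr ⟨(mem_str.1 h3).2, (mem_str.1 h4).2⟩), hE', ?_⟩
      intro l hl
      have h3' := (mem_str.1 h3).2
      rcases hkd l e hl with g1 | g1 | g1 | g1
      · obtain ⟨j', hj', g2, g3, g4, g5⟩ := g1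
        have g3' := (mem_str.1 g3).2
        have hjj : j' = j := by unfold Ps at h3' g3'; omega
        subst hjj
        exact h'.ν_inj (φ j') (hleN j' hj') _ h4 _ g4 (h5.trans g5.symm)
      · obtain ⟨j', hj', g2, g3, g4, g5⟩ := g1
        unfold Ps at h3' g4; omega
      · unfold Ps at h3' g1; omega
      · obtain ⟨j', hj', g2, g3, g4, g5⟩ := g1
        unfold Ps at h3' g4; omega
    · left
      obtain ⟨j, hj, h2, h3, h4, h5⟩ := h1
      refine ⟨j, hj, Or.inl ⟨h4, h5⟩, hE', ?_⟩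
      intro l hl
      rcases hkd l e hl with g1 | g1 | g1 | g1
      · obtain ⟨j', hj', g2, g3, g4, g5⟩ := g1
        have g3' := (mem_str.1 g3).2
        unfold Ps at h4 g3'; omega
      · obtain ⟨j', hj', g2, g3, g4, g5⟩ := g1
        have hjj : j' = j := by unfold Ps at h4 g4; omega
        rw [k.uniqB l h2 g2 (by omega)]
      · unfold Ps at h4 g1; omega
      · obtain ⟨j', hj', g2, g3, g4, g5⟩ := g1
        unfold Ps at h4 g4; omega
    · right
      obtain ⟨j, h2, h3, h4⟩ := outcut e k.ix he h1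
      have h5 : e ∈ cutE P pos (j + 1) := by
        rw [hL.mem_cut, ← h2]
        exact ⟨he.1, h1⟩
      refine ⟨j, h3, h4, h5, ?_⟩
      have h6 := hw.mem j h3 h4 e h5
      rcases k.gapk h3 h4 h2 with h7 | h7
      · rw [h7, hι]
        exact h6.1
      · rw [h7, hι]
        exact h6.2
    · left
      obtain ⟨j, hj, h2, h3, h4, h5⟩ := h1
      refine ⟨j, hj, Or.inr (Or.inl ⟨h4, h5⟩), hE', ?_⟩
      intro l hl
      rcases hkd l e hl with g1 | g1 | g1 | g1
      · obtain ⟨j', hj', g2, g3, g4, g5⟩ := g1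
        have g3' := (mem_str.1 g3).2
        unfold Ps at h4 g3'; omega
      · obtain ⟨j', hj', g2, g3, g4, g5⟩ := g1
        unfold Ps at h4 g4; omega
      · unfold Ps at h4 g1; omega
      · obtain ⟨j', hj', g2, g3, g4, g5⟩ := g1
        have hjj : j' = j := by unfold Ps at h4 g4; omega
        rw [k.uniqA l h2 g2 (by omega)]
  -- the edges of a connector in a gap
  have gap : ∀ e j f, j < N → φ j + 1 < φ (j + 1) → e ∈ cutE P pos (j + 1) → f ∈ Γ j e →
      f ∈ P'.G.E ∧ ((f = ιM j e ∧ Ps P' pos' f (4 * (φ j + 1)) (4 * (φ j + 1) + 2)) ∨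
        (f = ιP (j + 1) e ∧ Ps P' pos' f (4 * φ (j + 1)) (4 * φ (j + 1) + 2)) ∨
        (4 * (φ j + 1) + 2 ≤ pos' (P'.G.a f) ∧ pos' (P'.G.a f) ≤ 4 * φ (j + 1) ∧
        4 * (φ j + 1) + 2 ≤ pos' (P'.G.b f) ∧ pos' (P'.G.b f) ≤ 4 * φ (j + 1))) := by
    intro e j f hj g he hf
    obtain ⟨h1, h2⟩ := hw.sub j hj g e he f hf
    refine ⟨h1, ?_⟩
    rcases h2 with h2 | h2 | h2
    · left
      refine ⟨h2, ?_⟩
      rw [h2]
      exact (hL'.mem_cut.1 (hw.cutM j hj g e he)).2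
    · right; left
      refine ⟨h2, ?_⟩
      rw [h2]
      exact (hL'.mem_cut.1 (hw.cutP j hj g e he)).2
    · right; right; exact h2
  have rng : ∀ e j f, j < N → φ j + 1 < φ (j + 1) → e ∈ cutE P pos (j + 1) → f ∈ Γ j e →
      4 * (φ j + 1) ≤ pos' (P'.G.a f) ∧ pos' (P'.G.a f) ≤ 4 * φ (j + 1) + 2 ∧
        4 * (φ j + 1) ≤ pos' (P'.G.b f) ∧ pos' (P'.G.b f) ≤ 4 * φ (j + 1) + 2 := by
    intro e j f hj g he hf
    obtain ⟨_, h1⟩ := gap e j f hj g he hf
    unfold Ps at h1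
    omega
  have hubP : ∀ x ∈ hs N b, ∃ i ≤ N, x = b i ∧ pos x = 4 * i + 3 := by
    intro x hx
    obtain ⟨i, hi, rfl⟩ := mem_hs.1 hx
    exact ⟨i, hi, rfl, hL.posb i hi⟩
  obtain ⟨θ, hθ⟩ : ∃ θ : ℕ → ℕ, θ = fun x => b' (φ ((pos x - 3) / 4)) := ⟨_, rfl⟩
  have θb : ∀ i ≤ N, θ (b i) = b' (φ i) := by
    intro i hi
    rw [hθ]
    show b' (φ ((pos (b i) - 3) / 4)) = b' (φ i)
    rw [hL.posb i hi, show (4 * i + 3 - 3) / 4 = i by omega]
  have θp : ∀ i ≤ N, pos' (θ (b i)) = 4 * φ i + 3 := by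
    intro i hi
    rw [θb i hi, hL'.posb _ (hleN i hi)]
  have incpos : ∀ e i, i ≤ N → P.G.Inc e (b i) →
      pos (P.G.a e) = 4 * i + 3 ∨ pos (P.G.b e) = 4 * i + 3 := by
    intro e i hi he
    have h1 := hL.posb i hi
    rcases he with h2 | h2
    · rw [h2] at h1; exact Or.inl h1
    · rw [h2] at h1; exact Or.inr h1
  have incpos' : ∀ f i, i ≤ N → P'.G.Inc f (θ (b i)) →
      pos' (P'.G.a f) = 4 * φ i + 3 ∨ pos' (P'.G.b f) = 4 * φ i + 3 := by
    intro f i hi hf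
    have h1 := θp i hi
    rcases hf with h2 | h2
    · rw [h2] at h1; exact Or.inl h1
    · rw [h2] at h1; exact Or.inr h1
  have posinc : ∀ e i, e ∈ P.G.E →
      (pos (P.G.a e) = 4 * i + 3 ∨ pos (P.G.b e) = 4 * i + 3) → P.G.Inc e (b i) := by
    intro e i he hp
    obtain ⟨ha, hb⟩ := hL.cls e he
    rcases hp with hp | hp
    · exact Or.inl (hL.is_hub ha hp).2.symm
    · exact Or.inr (hL.is_hub hb hp).2.symm
  have posinc' : ∀ f i, i ≤ N → f ∈ P'.G.E →
      (pos' (P'.G.a f) = 4 * φ i + 3 ∨ pos' (P'.G.b f) = 4 * φ i + 3) →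
      P'.G.Inc f (θ (b i)) := by
    intro f i hi hf hp
    obtain ⟨ha, hb⟩ := hL'.cls f hf
    rw [θb i hi]
    rcases hp with hp | hp
    · exact Or.inl (hL'.is_hub ha hp).2.symm
    · exact Or.inr (hL'.is_hub hb hp).2.symm
  refine glueS hL.cls Pi Pi' (hs N b) θ ?part ?dj ?djH ?sub' ?dj' ?hθ ?θinj ?θlab ?θPi
    (fun k => tyW P pos m T ν col k.ix) (fun k => tyW P' pos' m T ν' col' k.ix') η ι Φ im Γ'
    ?Γsub ?Γmem ?Γloc ?Γhub ?c1 ?c2 ?c3 ?Γdisj
  case part =>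
    intro x
    constructor
    · intro hx
      rcases hL.pose x hx with ⟨i, hi, rfl⟩ | h1
      · exact Or.inl (mem_hs.2 ⟨i, hi, rfl⟩)
      · right
        by_cases h2 : pos x % 4 = 0
        · obtain ⟨k, hk, hk'⟩ := Ix.exA lt (pos x / 4 - 1) (by omega)
          exact ⟨k, (memPi k x).2 ⟨hx, Or.inl ⟨hk, by omega⟩⟩⟩
        · obtain ⟨k, hk, hk'⟩ := Ix.exB lt (pos x / 4) (by omega)
          exact ⟨k, (memPi k x).2 ⟨hx, Or.inr ⟨hk, by omega⟩⟩⟩
    · rintro (hx | ⟨k, hk⟩)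
      · obtain ⟨i, hi, rfl⟩ := mem_hs.1 hx
        exact hL.hub i hi
      · exact ((memPi k x).1 hk).1
  case dj =>
    intro k l hkl
    rw [Finset.disjoint_left]
    intro x hx hx'
    apply hkl
    rcases ((memPi k x).1 hx).2 with h1 | h1 <;> rcases ((memPi l x).1 hx').2 with h2 | h2
    · exact k.uniqA l h1.1 h2.1 (by omega)
    · omega
    · omega
    · exact k.uniqB l h1.1 h2.1 (by omega)
  case djH =>
    intro k
    rw [Finset.disjoint_left]
    intro x hx hx'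
    obtain ⟨i, hi, _, h1⟩ := hubP x hx
    rcases ((memPi k x).1 hx').2 with h2 | h2 <;> omega
  case sub' =>
    intro k x hx
    exact ((memPi' k x).1 hx).1
  case dj' =>
    intro k l hkl
    rw [Finset.disjoint_left]
    intro x hx hx'
    apply hkl
    rcases ((memPi' k x).1 hx).2 with h1 | h1 <;> rcases ((memPi' l x).1 hx').2 with h2 | h2
    · exact uA k l h1.1 h2.1 (by omega)
    · omega
    · omega
    · exact uB k l h1.1 h2.1 (by omega)
  case hθ =>
    intro x hx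
    obtain ⟨i, hi, rfl, _⟩ := hubP x hx
    rw [θb i hi]
    exact hL'.hub _ (hleN i hi)
  case θinj =>
    intro x hx y hy hxy
    obtain ⟨i, hi, rfl, _⟩ := hubP x hx
    obtain ⟨j, hj, rfl, _⟩ := hubP y hy
    have h1 := θp i hi
    have h2 := θp j hj
    rw [hxy] at h1
    rw [hinj i j hi hj (by omega)]
  case θlab =>
    intro x hx
    obtain ⟨i, hi, rfl, _⟩ := hubP x hx
    rw [θb i hi]
    exact hw.lab i hi
  case θPi =>
    intro x hx k hk
    obtain ⟨i, hi, rfl, _⟩ := hubP x hx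
    have h1 := θp i hi
    rcases ((memPi' k _).1 hk).2 with h2 | h2 <;> omega
  case Γsub =>
    intro e he f hf
    rcases gam e he f hf with ⟨j, hj, _, h2, _⟩ | ⟨j, hj, g, hc, hf'⟩
    · exact h2
    · exact (gap e j f hj g hc hf').1
  case Γmem =>
    intro e he k hk
    exact (memΓ e _).2 (Or.inl ⟨k, hk, rfl⟩)
  case Γloc =>
    intro e he k f hf ht
    have ht' := tch' f k ht
    rcases gam e he f hf with ⟨j, hj, h1, h2, h3⟩ | ⟨j, hj, g, hc, hf'⟩
    · have h4 : e ∈ P.G.bd (Pi k) := by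
        apply outbd e k he
        rcases ht' with ⟨hA, ht'⟩ | ⟨hB, ht'⟩
        · obtain ⟨q, hq, h5, h6⟩ := k.factA hA
          have h7 : q = j := by
            apply hinj q j hq hj
            unfold Ps at h1
            omega
          subst h7
          apply tchA e k he.1 hA
          unfold Ps at h1
          omega
        · obtain ⟨h5, h6⟩ := k.factB hB
          have h7 : k.ix = j := by
            apply hinj k.ix j h5 hj
            unfold Ps at h1
            omega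
          apply tchB e k he.1 hB
          rw [h6, h7] at ht'
          rw [h7]
          unfold Ps at h1
          omega
      exact ⟨h4, h3 k h4⟩
    · obtain ⟨_, h1⟩ := gap e j f hj g hc hf'
      have hc' := (hL.mem_cut.1 hc).2
      rcases ht' with ⟨hA, ht'⟩ | ⟨hB, ht'⟩
      · obtain ⟨q, hq, h5, h6⟩ := k.factA hA
        have h7 := hsep j q hj hq
        have h8 : f = ιM j e ∧ φ q = φ j := by
          rcases h1 with h1 | h1 | h1
          · refine ⟨h1.1, ?_⟩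
            unfold Ps at h1; omega
          · unfold Ps at h1; omega
          · omega
        have h9 : q = j := hinj q j hq hj.le h8.2
        subst h9
        have h10 : e ∈ P.G.bd (Pi k) := by
          apply outbd e k he
          apply tchA e k he.1 hA
          unfold Ps at hc'
          omega
        refine ⟨h10, ?_⟩
        rcases k.gapk hj g h5 with h11 | h11
        · rw [h11, hι]; exact h8.1
        · rw [h11] at hA; simp [Ix.A] at hA
      · obtain ⟨h5, h6⟩ := k.factB hB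
        have h7 := hsep j k.ix hj h5
        have h8 : f = ιP (j + 1) e ∧ φ k.ix = φ (j + 1) := by
          rcases h1 with h1 | h1 | h1
          · unfold Ps at h1; omega
          · refine ⟨h1.1, ?_⟩
            unfold Ps at h1; omega
          · omega
        have h9 : k.ix = j + 1 := hinj _ _ h5 hj h8.2
        have h10 : e ∈ P.G.bd (Pi k) := by
          apply outbd e k he
          apply tchB e k he.1 hB
          unfold Ps at hc'
          omega
        refine ⟨h10, ?_⟩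
        rcases k.gapk hj g h9 with h11 | h11
        · rw [h11] at hB; simp [Ix.B] at hB
        · rw [h11, hι]; exact h8.1
  case Γhub =>
    intro e he x hx hex f hf hfx
    obtain ⟨i, hi, rfl, _⟩ := hubP x hx
    have h0 := incpos' f i hi hfx
    rcases gam e he f hf with ⟨j, hj, h1, h2, h3⟩ | ⟨j, hj, g, hc, hf'⟩
    · have h4 : i = j := by
        apply hinj i j hi hj
        unfold Ps at h1
        omega
      subst h4
      apply hex
      apply posinc e i he.1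
      unfold Ps at h1
      omega
    · obtain ⟨_, h1⟩ := gap e j f hj g hc hf'
      have h7 := hsep j i hj hi
      rcases h1 with h1 | h1 | h1
      · unfold Ps at h1; omega
      · unfold Ps at h1; omega
      · omega
  case c1 =>
    intro e he x hx hex k hk z hz
    obtain ⟨i, hi, rfl, _⟩ := hubP x hx
    have h0 := incpos e i hi hex
    have h1 := (memΓ e (ι k e)).2 (Or.inl ⟨k, hk, rfl⟩)
    have h2 : P'.G.Inc (ι k e) (θ (b i)) := by
      rcases gam e he _ h1 with ⟨j, hj, h1, h2, h3⟩ | ⟨j, hj, g, hc, hf'⟩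
      · have h4 : i = j := by
          unfold Ps at h1
          omega
        subst h4
        apply posinc' _ i hi h2
        unfold Ps at h1
        omega
      · have h4 := (hL.mem_cut.1 hc).2
        unfold Ps at h4
        omega
    exact Gr.conn_edge h1 hz h2
  case c2 =>
    intro e he k l hk hl z z' hz hz'
    have h1 := (memΓ e (ι k e)).2 (Or.inl ⟨k, hk, rfl⟩)
    rcases gam e he _ h1 with ⟨j, hj, _, h2, h3⟩ | ⟨j, hj, g, hc, hf'⟩
    · rw [← h3 l hl] at hz'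
      exact Gr.conn_edge h1 hz hz'
    · have hc' := (hL.mem_cut.1 hc).2
      have hix : ∀ k, e ∈ P.G.bd (Pi k) → k.ix = j + 1 := by
        intro k hk
        rcases hkd k e hk with g1 | g1 | g1 | g1
        · obtain ⟨j', hj', g2, g3, g4, g5⟩ := g1
          have g3' := (mem_str.1 g3).2
          unfold Ps at hc' g3'; omega
        · obtain ⟨j', hj', g2, g3, g4, g5⟩ := g1
          unfold Ps at hc' g4; omega
        · unfold Ps at hc' g1; omega
        · obtain ⟨j', hj', g2, g3, g4, g5⟩ := g1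
          unfold Ps at hc' g4; omega
      have hsub : Γ j e ⊆ Γ' e := fun f hf => (memΓ e f).2 (Or.inr ⟨j, hj, g, hc, hf⟩)
      have hcon := hw.conn j hj g e hc
      rcases k.gapk hj g (hix k hk) with h11 | h11 <;>
        rcases l.gapk hj g (hix l hl) with h12 | h12
      · rw [h11] at hz h1
        rw [h12] at hz'
        exact Gr.conn_edge h1 hz hz'
      · rw [h11, hι] at hz
        rw [h12, hι] at hz'
        exact (hcon z z' hz hz').mono hsub
      · rw [h11, hι] at hz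
        rw [h12, hι] at hz'
        exact (hcon z' z hz' hz).symm.mono hsub
      · rw [h11] at hz h1
        rw [h12] at hz'
        exact Gr.conn_edge h1 hz hz'
  case c3 =>
    intro e he x hx y hy hex hey
    obtain ⟨i, hi, rfl, _⟩ := hubP x hx
    obtain ⟨j, hj, rfl, _⟩ := hubP y hy
    have h1 := incpos e i hi hex
    have h2 := incpos e j hj hey
    have h3 := hL.edge e he.1
    have h4 : i = j := by omega
    subst h4
    exact Gr.Conn.refl
  case Γdisj =>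
    intro e e₂ he he₂ hne
    rw [Set.disjoint_left]
    intro f hf hf₂
    rcases gam e he f hf with ⟨j, hj, h1, h2, h3⟩ | ⟨j, hj, g, hc, hf'⟩ <;>
      rcases gam e₂ he₂ f hf₂ with ⟨j₂, hj₂, h1₂, h2₂, h3₂⟩ | ⟨j₂, hj₂, g₂, hc₂, hf₂'⟩
    · have h4 : j = j₂ := by
        apply hinj j j₂ hj hj₂
        unfold Ps at h1 h1₂
        omega
      subst h4
      -- a common piece
      have h5 : ∃ k, e ∈ P.G.bd (Pi k) ∧ e₂ ∈ P.G.bd (Pi k) := by
        by_cases h6 : pos (P.G.a e) = 4 * j + 2 ∨ pos (P.G.b e) = 4 * j + 2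
        · obtain ⟨k, hk, hk'⟩ := Ix.exB lt j hj
          refine ⟨k, outbd e k he (tchB e k he.1 hk ?_), outbd e₂ k he₂ (tchB e₂ k he₂.1 hk ?_)⟩
          · rw [hk']; exact h6
          · rw [hk']
            unfold Ps at h1 h1₂
            omega
        · obtain ⟨k, hk, hk'⟩ := Ix.exA lt j hj
          refine ⟨k, outbd e k he (tchA e k he.1 hk ?_), outbd e₂ k he₂ (tchA e₂ k he₂.1 hk ?_)⟩
          · rw [hk']
            unfold Ps at h1 h1₂
            omega
          · rw [hk']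
            unfold Ps at h1 h1₂
            omega
      obtain ⟨k, hk, hk₂⟩ := h5
      have h7 := (im k).disj e he.1 e₂ he₂.1 (P.G.mem_bd.1 hk).2.touch
        (P.G.mem_bd.1 hk₂).2.touch hne
      have h8 := (im k).cr_mem e hk
      have h9 := (im k).cr_mem e₂ hk₂
      rw [← h3 k hk] at h8
      rw [← h3₂ k hk₂] at h9
      exact Set.disjoint_left.1 h7 h8 h9
    · have h5 := rng e₂ j₂ f hj₂ g₂ hc₂ hf₂'
      have h6 := hsep j₂ j hj₂ hj
      unfold Ps at h1
      omega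
    · have h5 := rng e j f hj g hc hf'
      have h6 := hsep j j₂ hj hj₂
      unfold Ps at h1₂
      omega
    · have h5 := rng e j f hj g hc hf'
      have h6 := rng e₂ j₂ f hj₂ g₂ hc₂ hf₂'
      have h7 : j = j₂ := by
        rcases lt_trichotomy j j₂ with h8 | h8 | h8
        · have h9 := hsep j j₂ hj hj₂.le
          have h10 := hmono j₂ j h8 hj₂.le
          omega
        · exact h8
        · have h9 := hsep j₂ j hj₂ hj.le
          have h10 := hmono j j₂ h8 hj.le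
          omega
      subst h7
      exact Set.disjoint_left.1 (hw.disj j hj g e hc e₂ hc₂ hne) hf' hf₂'

end Pool.Agent.W2411ls
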