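import Mathlib
import Pool.Agent.W_2411ls_h59.Defs

/-! Saturation, single vertices, monotonicity. -/

set_option autoImplicit false
set_option linter.unusedSectionVars false

open Set

namespace Pool.Agent.W2411ls

open Pool.Agent.W2411c4

variable {Ω : Type} [Preorder Ω] [Inhabited Ω]

/-- the saturation of a set of pieces -/
def satur (W : Set (Pc (Lb Ω))) : Set (Pc (Lb Ω)) := {P | ∃ P' ∈ W, Rp P P' ∧ Rp P' P}

theorem subset_satur (W : Set (Pc (Lb Ω))) : W ⊆ satur W := fun P hP => ⟨P, hP, Rp.refl P, Rp.refl P⟩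

theorem satur_sat (W : Set (Pc (Lb Ω))) : Sat (satur W) := by
  rintro P P' ⟨P₀, h₀, h1, h2⟩ h3 h4
  exact ⟨P₀, h₀, h4.trans h1, h2.trans h3⟩

/-- PROOF. `partiallyWellOrderedOn_iff_exists_lt`: for a sequence in `satur W` choose
equivalent members of `W`. -/
theorem satur_pwo {W : Set (Pc (Lb Ω))} (hW : W.PartiallyWellOrderedOn Rp) :
    (satur W).PartiallyWellOrderedOn Rp := by
  rw [Set.partiallyWellOrderedOn_iff_exists_lt] at hW ⊢
  intro f hf
  choose g hg h1 h2 using hf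
  obtain ⟨i, j, hij, hr⟩ := hW g hg
  exact ⟨i, j, hij, (h1 i).trans (hr.trans (h2 j))⟩

theorem SatA_touch {G : Gr (Lb Ω)} {v e : ℕ} (h : G.Touch {v} e) : G.Inc e v := by
  rcases h with h | h
  · exact Or.inl (Finset.mem_singleton.1 h).symm
  · exact Or.inr (Finset.mem_singleton.1 h).symm

theorem SatA_sing {P P' : Pc (Lb Ω)} {v v' : ℕ} (hv : P.X = {v}) (hv' : P'.X = {v'})
    (hn : P.n = P'.n) (hl : P.G.lab v ≤ P'.G.lab v') : Rp P P' := by
  refine ⟨fun _ => v', fun e => {g | ∃ i < P.n, P.o i = e ∧ P'.o i = g}, hn, ?_, ?_, ?_, ?_, ?_,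
    ?_, ?_, ?_, ?_, ?_⟩
  · intro x _
    rw [hv']
    exact Finset.mem_singleton_self v'
  · intro x hx y hy _
    rw [hv, Finset.mem_singleton] at hx hy
    rw [hx, hy]
  · intro x hx
    rw [hv, Finset.mem_singleton] at hx
    rw [hx]
    exact hl
  · intro e he hi
    exfalso
    rw [hv] at hi
    exact P.G.ne e he ((Finset.mem_singleton.1 hi.1).trans (Finset.mem_singleton.1 hi.2).symm)
  · rintro i hi g ⟨k, hk, hk1, hk2⟩
    left
    rw [← hk2, P.o_inj hk hi hk1]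
  · intro i hi
    exact ⟨i, hi, rfl, rfl⟩
  · intro e he hi
    exfalso
    rw [hv] at hi
    exact P.G.ne e he ((Finset.mem_singleton.1 hi.1).trans (Finset.mem_singleton.1 hi.2).symm)
  · intro i hi x _ _ z hz
    refine Gr.conn_edge (e := P'.o i) ⟨i, hi, rfl, rfl⟩ hz ?_
    have hc := (P'.o_cross (hn ▸ hi : i < P'.n)).touch
    rw [hv'] at hc
    exact SatA_touch hc
  · intro e _ g _ _ _ hne
    rw [Set.disjoint_left]
    rintro q ⟨k, hk, hk1, hk2⟩ ⟨l, hl', hl1, hl2⟩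
    have hkl : k = l := P'.o_inj (hn ▸ hk : k < P'.n) (hn ▸ hl' : l < P'.n) (hk2.trans hl2.symm)
    apply hne
    rw [← hk1, ← hl1, hkl]
  · intro e _ ht y hy hi
    exfalso
    rw [hv] at ht hy
    rw [Finset.mem_singleton] at hy
    subst hy
    exact hi (SatA_touch ht)

/-- labels with a bounded first component -/
theorem lab_pwo [WellQuasiOrderedLE Ω] (T : ℕ) :
    {q : Lb Ω | q.v < T}.PartiallyWellOrderedOn (· ≤ ·) := by
  rw [Set.partiallyWellOrderedOn_iff_exists_lt]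
  intro f hf
  have h1 : {n : ℕ | n < T}.PartiallyWellOrderedOn Eq :=
    (Set.finite_lt_nat T).partiallyWellOrderedOn
  have h2 : (Set.univ : Set Ω).PartiallyWellOrderedOn (· ≤ ·) :=
    Set.isPWO_of_wellQuasiOrderedLE (Set.univ : Set Ω)
  obtain ⟨i, j, hij, h3, h4⟩ := (h1.prod h2).exists_lt (f := fun n => ((f n).v, (f n).w))
    (fun n => ⟨hf n, Set.mem_univ _⟩)
  exact ⟨i, j, hij, h3, h4⟩

/-- single vertices: the degree is in a finite set, the labels are pwo -/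
theorem sing_pwo [WellQuasiOrderedLE Ω] (M T : ℕ) :
    (Sing M T : Set (Pc (Lb Ω))).PartiallyWellOrderedOn Rp := by
  rw [Set.partiallyWellOrderedOn_iff_exists_lt]
  intro f hf
  choose v hv hn hl using hf
  have h1 : {n : ℕ | n < M}.PartiallyWellOrderedOn Eq :=
    (Set.finite_lt_nat M).partiallyWellOrderedOn
  obtain ⟨i, j, hij, h3, h4⟩ := (h1.prod (lab_pwo (Ω := Ω) T)).exists_lt
    (f := fun n => ((f n).n, (f n).G.lab (v n))) (fun n => ⟨hn n, hl n⟩)
  exact ⟨i, j, hij, SatA_sing (hv i) (hv j) h3 h4⟩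

theorem Atom.mono {W W' : Set (Pc (Lb Ω))} {M M' : ℕ} {G : Gr (Lb Ω)} {Y : Finset ℕ}
    (h : Atom W M G Y) (hW : W ⊆ W') (hM : M ≤ M') : Atom W' M' G Y := by
  obtain ⟨en, he⟩ := h.mem
  exact ⟨⟨en, hW he⟩, h.solid, h.conn, lt_of_lt_of_le h.ord hM⟩

theorem Elim.mono {Q : Type} {G : Gr Q} {X : Finset ℕ} {k k' : ℕ∞} {pt : ℕ → ℕ}
    {up : ℕ → Finset ℕ} {rk : ℕ → ℕ} (h : Elim G X k pt up rk) (hk : k ≤ k') :
    Elim G X k' pt up rk :=
  ⟨fun p => (h.card p).trans hk, h.rk, h.chord, h.edge⟩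

theorem Parts.mono {W W' : Set (Pc (Lb Ω))} {M M' : ℕ} {k k' : ℕ∞} {G : Gr (Lb Ω)} {X H : Finset ℕ}
    {pt : ℕ → ℕ} {up : ℕ → Finset ℕ} {rk : ℕ → ℕ} (h : Parts W M k G X H pt up rk)
    (hW : W ⊆ W') (hM : M ≤ M') (hk : k ≤ k') : Parts W' M' k' G X H pt up rk :=
  ⟨h.elim.mono hk, h.sub, h.hub, fun x hx hH => (h.atom x hx hH).mono hW hM⟩

end Pool.Agent.W2411ls
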