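import Mathlib
import Pool.Agent.W_2411ls_h59.Defs
import Pool.Agent.W_2411tw_h80.ThinPwo

/-! Theorem I: thin closed graphs are well-quasi-ordered. -/

set_option autoImplicit false
set_option linter.unusedSectionVars false

open Set

namespace Pool.Agent.W2411ls

open Pool.Agent.W2411c4

variable {Ω : Type} [Preorder Ω] [Inhabited Ω]

theorem cls_closed {P : (CG Ω)} (h : Cls P) : Closed P.G P.X := by
  intro e he
  have := h e he
  tauto

theorem cls_d {P : (CG Ω)} (h : Cls P) : P.G.d P.X = 0 := d_closed (cls_closed h)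

theorem cr_of_rp0 {P P' : (CG Ω)} (h : Cls P) {en : En P.G P.X} {en' : En P'.G P'.X}
    (hr : Rp (⟨P.G, P.X, en⟩ : Pc (Lb Ω)) ⟨P'.G, P'.X, en'⟩) : CR P P' := by
  obtain ⟨η, Φ, hI⟩ := hr
  refine ⟨η, Φ, hI.maps, hI.inj, hI.lab, ?_, ?_, ?_, ?_⟩
  · intro e he f hf
    exact (hI.sub_in e he (h e he) f hf).1
  · intro e he
    exact hI.conn_in e he (h e he)
  · intro e he f hf hef
    exact hI.disj e he f hf (Gr.Inner.touch (h e he)) (Gr.Inner.touch (h f hf)) hef
  · intro e he y hy hey f hf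
    exact hI.strong e he (Gr.Inner.touch (h e he)) y hy hey f hf

/-- the set of the parts -/
noncomputable def parts (X : Finset ℕ) (pt : ℕ → ℕ) : Finset (Finset ℕ) :=
  X.image fun x => fib X pt (pt x)

theorem mem_parts {X : Finset ℕ} {pt : ℕ → ℕ} {A : Finset ℕ} :
    A ∈ parts X pt ↔ ∃ x ∈ X, fib X pt (pt x) = A := by
  simp only [parts, Finset.mem_image]

theorem parts_part (X : Finset ℕ) (pt : ℕ → ℕ) : Part X (parts X pt) where
  cov := by
    intro x
    constructor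
    · intro hx
      exact ⟨_, mem_parts.2 ⟨x, hx, rfl⟩, mem_fib.2 ⟨hx, rfl⟩⟩
    · rintro ⟨A, hA, hxA⟩
      obtain ⟨y, _, rfl⟩ := mem_parts.1 hA
      exact (mem_fib.1 hxA).1
  ne := by
    intro A hA
    obtain ⟨y, hy, rfl⟩ := mem_parts.1 hA
    exact ⟨y, mem_fib.2 ⟨hy, rfl⟩⟩
  uniq := by
    intro A hA B hB x hxA hxB
    obtain ⟨y, hy, rfl⟩ := mem_parts.1 hA
    obtain ⟨z, hz, rfl⟩ := mem_parts.1 hB
    rw [← (mem_fib.1 hxA).2, ← (mem_fib.1 hxB).2]

/-- **Theorem I.** -/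
theorem thin_pwo {W : Set (Pc (Lb Ω))} (hW : W.PartiallyWellOrderedOn Rp) (M k : ℕ) :
    (ThinC W M (k : ℕ∞)).PartiallyWellOrderedOn CR := by
  have h0 := W2411c4.thin_pwo (Q := (Lb Ω)) k M 0 hW
  rw [partiallyWellOrderedOn_iff_exists_lt] at h0 ⊢
  intro f hf
  obtain ⟨m, n, hmn, hr⟩ := h0 (fun i => ⟨(f i).G, (f i).X, mkEn (f i).G (f i).X⟩) (by
    intro i
    obtain ⟨hcls, pt, up, rk, hP⟩ := hf i
    have hpart := parts_part (f i).X pt
    refine ⟨?_, parts (f i).X pt, fun v => (reps (parts (f i).X pt)).filter fun w => pt w ∈ up (pt v),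
      fun v => rk (pt v), ⟨hpart, ?_, ?_, ?_⟩, ⟨?_, ?_, ?_, ?_, ?_⟩⟩
    · show (mkEn (f i).G (f i).X).n ≤ 0
      rw [En.n_eq, cls_d hcls]
    · intro A hA
      obtain ⟨x, hx, rfl⟩ := mem_parts.1 hA
      exact (hP.atom x hx (Finset.notMem_empty _)).mem
    · intro A hA
      obtain ⟨x, hx, rfl⟩ := mem_parts.1 hA
      exact (hP.atom x hx (Finset.notMem_empty _)).ord.le
    · intro A hA
      obtain ⟨x, hx, rfl⟩ := mem_parts.1 hA
      exact (hP.atom x hx (Finset.notMem_empty _)).solid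
    · exact fun p _ => Finset.filter_subset _ _
    · intro p _
      refine (Finset.card_le_card_of_injOn pt (fun w hw => (Finset.mem_filter.1 hw).2) ?_).trans
        (Nat.cast_le.1 (hP.elim.card (pt p)))
      intro w hw w' hw' hww
      obtain ⟨A, hA, rfl⟩ := mem_reps.1 (Finset.mem_filter.1 hw).1
      obtain ⟨B, hB, rfl⟩ := mem_reps.1 (Finset.mem_filter.1 hw').1
      have h1 := hpart.rp_in hA
      have h2 := hpart.rp_in hB
      have h3 : rp A ∈ fib (f i).X pt (pt (rp B)) := mem_fib.2 ⟨hpart.rp_inX hA, hww⟩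
      have h4 : rp B ∈ fib (f i).X pt (pt (rp B)) := mem_fib.2 ⟨hpart.rp_inX hB, rfl⟩
      have h5 : fib (f i).X pt (pt (rp B)) ∈ parts (f i).X pt :=
        mem_parts.2 ⟨_, hpart.rp_inX hB, rfl⟩
      rw [(hpart.uniq A hA _ h5 _ h1 h3).trans (hpart.uniq B hB _ h5 _ h2 h4).symm]
    · intro p _ q hq
      exact hP.elim.rk _ _ (Finset.mem_filter.1 hq).2
    · intro p _ q hq q' hq'
      obtain ⟨h1, h2⟩ := Finset.mem_filter.1 hq
      obtain ⟨h3, h4⟩ := Finset.mem_filter.1 hq'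
      rcases hP.elim.chord _ _ h2 _ h4 with h5 | h5 | h5
      · left
        obtain ⟨A, hA, rfl⟩ := mem_reps.1 h1
        obtain ⟨B, hB, rfl⟩ := mem_reps.1 h3
        have h6 : fib (f i).X pt (pt (rp B)) ∈ parts (f i).X pt :=
          mem_parts.2 ⟨_, hpart.rp_inX hB, rfl⟩
        have h7 : A = fib (f i).X pt (pt (rp B)) :=
          hpart.uniq A hA _ h6 _ (hpart.rp_in hA) (mem_fib.2 ⟨hpart.rp_inX hA, h5⟩)
        have h8 : B = fib (f i).X pt (pt (rp B)) :=
          hpart.uniq B hB _ h6 _ (hpart.rp_in hB) (mem_fib.2 ⟨hpart.rp_inX hB, rfl⟩)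
        rw [h7, ← h8]
      · exact Or.inr (Or.inl (Finset.mem_filter.2 ⟨h3, h5⟩))
      · exact Or.inr (Or.inr (Finset.mem_filter.2 ⟨h1, h5⟩))
    · intro e he ha hb
      obtain ⟨heE, hne⟩ := mem_quoE.1 he
      have ha' : (f i).G.a e ∈ (f i).X := hpart.rho_mem_reps.1 ha
      have hb' : (f i).G.b e ∈ (f i).X := hpart.rho_mem_reps.1 hb
      have key : ∀ x ∈ (f i).X, rho (parts (f i).X pt) x = rp (fib (f i).X pt (pt x)) := by
        intro x hx
        exact hpart.rho_eq (mem_parts.2 ⟨x, hx, rfl⟩) (mem_fib.2 ⟨hx, rfl⟩)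
      have key2 : ∀ x ∈ (f i).X, pt (rho (parts (f i).X pt) x) = pt x := by
        intro x hx
        rw [key x hx]
        exact (mem_fib.1 (hpart.rp_in (mem_parts.2 ⟨x, hx, rfl⟩))).2
      have hea : (quo (f i).G (parts (f i).X pt)).a e = rho (parts (f i).X pt) ((f i).G.a e) := rfl
      have heb : (quo (f i).G (parts (f i).X pt)).b e = rho (parts (f i).X pt) ((f i).G.b e) := rfl
      rw [hea] at ha ⊢
      rw [heb] at hb ⊢
      rcases hP.elim.edge e heE ha' hb' with h1 | h1 | h1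
      · exfalso
        apply hne
        rw [key _ ha', key _ hb', h1]
      · left
        refine Finset.mem_filter.2 ⟨hb, ?_⟩
        rw [key2 _ ha', key2 _ hb']
        exact h1
      · right
        refine Finset.mem_filter.2 ⟨ha, ?_⟩
        rw [key2 _ ha', key2 _ hb']
        exact h1)
  exact ⟨m, n, hmn, cr_of_rp0 (hf m).1 hr⟩

/-- thin closed graphs of width `k + j` are wqo, for all `j` -/
def ThinOK (Ω : Type) [Preorder Ω] [Inhabited Ω] (k : ℕ∞) : Prop := ∀ (j : ℕ) (W : Set (Pc (Lb Ω))), W.PartiallyWellOrderedOn Rp →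
  ∀ M : ℕ, (ThinC W M (k + j)).PartiallyWellOrderedOn CR

theorem ThinOK.add {k : ℕ∞} (h : ThinOK Ω k) (i : ℕ) : ThinOK Ω (k + i) := by
  intro j W hW M
  rw [add_assoc, ← Nat.cast_add]
  exact h (i + j) W hW M

theorem thinOK_nat (k : ℕ) : ThinOK Ω (k : ℕ∞) := by
  intro j W hW M
  rw [← Nat.cast_add]
  exact thin_pwo hW M (k + j)

end Pool.Agent.W2411ls
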