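import Mathlib
import Pool.Agent.W_2411ls_h59.Words
import Pool.Agent.W_2411c4_h26.Words

/-! Rooted words with gap labels. -/

set_option autoImplicit false

open Set Set.PartiallyWellOrderedOn

namespace Pool.Agent.W2411ls

/-- PROOF. This is `words11` of W_2411c4_h26/Words.lean (or `words_pwo` of
W_2411tw_h80/Words.lean) after a change of notation: the label called `c i` there is `c (i + 1)`
here. -/
theorem words_wqo {α : Type} (r : α → α → Prop) [IsPreorder α r] (S : Set α)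
    (hS : S.PartiallyWellOrderedOn r) :
    {w : Wd α | ∀ i ≤ w.N, w.x i ∈ S}.PartiallyWellOrderedOn (WE r) := by
  rw [partiallyWellOrderedOn_iff_exists_lt]
  intro f hf
  obtain ⟨i, j, hij, φ, h1, h2, h3, h4, h5, h6⟩ := (W2411si.words11 (R := r) hS).exists_lt
    (f := fun n => (⟨(f n).N, (f n).x, fun i => (f n).c (i + 1)⟩ : W2411si.Wd α))
    (fun n i hi => hf n i hi)
  refine ⟨i, j, hij, φ, h3 trivial, h4 trivial, h1, h5, ?_⟩
  intro k hk1 hk2 l hl1 hl2
  obtain ⟨k', rfl⟩ : ∃ k', k = k' + 1 := ⟨k - 1, by omega⟩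
  obtain ⟨l', rfl⟩ : ∃ l', l = l' + 1 := ⟨l - 1, by omega⟩
  rw [Nat.add_sub_cancel] at hl1
  exact h6 k' (Nat.lt_of_succ_le hk2) l' (Nat.lt_succ_iff.1 hl1) (Nat.lt_of_succ_le hl2)

end Pool.Agent.W2411ls
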