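import Mathlib
import Pool.Agent.W_2411ls_h59.Words2
import Pool.Agent.W_2411ls_h59.Dress
import Pool.Agent.W_2411ls_h59.GW1
import Pool.Agent.W_2411ls_h59.GW2
import Pool.Agent.W_2411ls_h59.SatA
import Pool.Agent.W_2411ls_h59.ClParts
import Pool.Agent.W_2411ls_h59.ThinPwo

/-! Linear closed graphs are well-quasi-ordered. -/

set_option autoImplicit false
set_option linter.unusedSectionVars false

open Set

namespace Pool.Agent.W2411ls

open Pool.Agent.W2411c4

variable {Ω : Type} [Preorder Ω] [Inhabited Ω] [WellQuasiOrderedLE Ω]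

/-- the letters over a class of closed graphs -/
def LetS (C : Set (CG Ω)) (T m : ℕ) : Set (Let Ω) :=
  {x | x.q.v < T ∧ x.p1 ∈ C ∧ x.p2 ∈ C ∧ x.p3 ∈ C ∧ x.k1 ⊆ Finset.range (2 * m + 1) ∧
    x.k2 ⊆ Finset.range (2 * m + 1)}

/-- PROOF. A product of pwo sets: labels below `T` and subsets of `range (2m+1)` form finite
sets with equality, `C` is pwo. E.g. by `partiallyWellOrderedOn_iff_exists_monotone_subseq` five
times, or by the product lemma `Set.PartiallyWellOrderedOn.prod`-style and `comap`. -/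
theorem letS_pwo {C : Set (CG Ω)} (hC : C.PartiallyWellOrderedOn CR) (T m : ℕ) :
    (LetS C T m).PartiallyWellOrderedOn LR := by
  classical
  rw [partiallyWellOrderedOn_iff_exists_lt]
  intro f hf
  have hk : {k : Finset ℕ | k ⊆ Finset.range (2 * m + 1)}.Finite := by
    refine (Finset.finite_toSet (Finset.range (2 * m + 1)).powerset).subset ?_
    intro k hk
    have hk' : k ⊆ Finset.range (2 * m + 1) := hk
    exact Finset.mem_coe.2 (Finset.mem_powerset.2 hk')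
  have h1 : ({k : Finset ℕ | k ⊆ Finset.range (2 * m + 1)} ×ˢ
      {k : Finset ℕ | k ⊆ Finset.range (2 * m + 1)}).PartiallyWellOrderedOn Eq :=
    (hk.prod hk).partiallyWellOrderedOn
  obtain ⟨i, j, hij, hd, hq, hp1, hp2, hp3⟩ :=
    (h1.prod ((lab_pwo (Ω := Ω) T).prod (hC.prod (hC.prod hC)))).exists_lt
    (f := fun n => (((f n).k1, (f n).k2), (f n).q, (f n).p1, (f n).p2, (f n).p3))
    (fun n => ⟨⟨(hf n).2.2.2.2.1, (hf n).2.2.2.2.2⟩, (hf n).1, (hf n).2.1, (hf n).2.2.1,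
      (hf n).2.2.2.1⟩)
  refine ⟨i, j, hij, ?_⟩
  simp only [Prod.mk.injEq] at hd
  exact ⟨hq, hp1, hp2, hp3, hd.1, hd.2⟩

private theorem lp_piece {W W' : Set (Pc (Lb Ω))} {M M' : ℕ} {k k' : ℕ∞} {m Θ T T' : ℕ} (hW : Sat W')
    (hWW : W ⊆ W') (hS : Sing M' T' ⊆ W') (hM : M ≤ M') (hM2 : 2 ≤ M')
    (hk : k ≤ k') (hk1 : 1 ≤ k') {P : (CG Ω)} {N : ℕ} {b pos pt : ℕ → ℕ} {up : ℕ → Finset ℕ}
    {rk : ℕ → ℕ} (h : IsLin W M k m Θ T P N b pos pt up rk) {X₀ : Finset ℕ} (hX : X₀ ⊆ P.X)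
    (hpos : ∀ x ∈ X₀, ∀ y ∈ P.X, pos x = pos y → y ∈ X₀) (hev : ∀ x ∈ X₀, pos x % 2 = 0)
    {ty : ℕ → ℕ} (hty : ∀ e ∈ P.G.bd X₀, ty e < T') :
    cl P.G X₀ ty ∈ ThinC W' M' k' := by
  classical
  refine ⟨cl_cls _ _ _, ?_⟩
  obtain ⟨pt', up', rk', hp⟩ := cl_parts h.parts hW hWW hS hM hM2 hk hk1 hX
    (fun x hx y hy hxy => hpos x hx y hy (h.post x (hX hx) y hy hxy)) hty
  have he : hs N b ∩ X₀ = ∅ := by
    rw [Finset.eq_empty_iff_forall_notMem]
    intro x hx
    rw [Finset.mem_inter] at hx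
    obtain ⟨i, hi, rfl⟩ := mem_hs.1 hx.1
    have h1 := h.posb i hi
    have h2 := hev _ hx.2
    omega
  rw [he, Finset.image_empty] at hp
  exact ⟨pt', up', rk', hp⟩

private theorem lp_pos {W : Set (Pc (Lb Ω))} {M : ℕ} {k : ℕ∞} {m Θ T : ℕ} {P : (CG Ω)} {N : ℕ} {b pos pt : ℕ → ℕ}
    {up : ℕ → Finset ℕ} {rk : ℕ → ℕ} (h : IsLin W M k m Θ T P N b pos pt up rk) {x : ℕ}
    (hx : x ∈ P.X) : pos x ≤ 4 * N + 4 := by
  by_cases hb : x ∈ hs N b
  · obtain ⟨i, hi, rfl⟩ := mem_hs.1 hb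
    have := h.posb i hi
    omega
  · exact (h.pose x hx hb).2.2

private theorem lp_ty {W : Set (Pc (Lb Ω))} {M : ℕ} {k : ℕ∞} {m Θ T : ℕ} {P : (CG Ω)} {N : ℕ} {b pos pt : ℕ → ℕ}
    {up : ℕ → Finset ℕ} {rk : ℕ → ℕ} {ν col : ℕ → ℕ → ℕ} {D : ℕ → Finset ℕ} {τ : ℕ → ℕ → ℕ}
    {J J' : ℕ → ℕ → Set ℕ} (h : Dr W M k m Θ T P N b pos pt up rk ν col D τ J J') {i : ℕ}
    (hi : i ≤ N + 1) (e : ℕ) : tyW P pos m T ν col i e < T + 4 * m + 3 := by
  unfold tyW
  split_ifs with h1 h2 h3 h4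
  · have := h.ν_lt (i - 1) (by omega) e h1.2
    omega
  · rcases Nat.lt_or_ge N i with hN | hN
    · exfalso
      have hm : e ∈ P.G.E ∧ ((pos (P.G.a e) = 4 * i + 2 ∧ pos (P.G.b e) = 4 * i + 4) ∨
          (pos (P.G.b e) = 4 * i + 2 ∧ pos (P.G.a e) = 4 * i + 4)) := by
        simpa [strE] using h2
      obtain ⟨hE, hm⟩ := hm
      have ha := lp_pos h.lin (h.lin.cls e hE).1
      have hb := lp_pos h.lin (h.lin.cls e hE).2
      omega
    · have := h.ν_lt i hN e h2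
      omega
  · omega
  · have := h.ls.colb i e
    omega
  · omega

/-- The letters of a dressed linear graph are letters over a thin class. PROOF. `cl_parts`
with `X := P.X`, `X₀ := blP P pos i`, `blk P pos i`, `blM P pos (i+1)` (unions of parts by `post`,
disjoint from the hubs as hubs have odd positions, so the hub set of the closed piece is empty),
`cl_cls`; types: `tyW ... < T + 4 m + 3` on boundary edges (`ν < m` on `strE`, where for `i > N` the
set `strE P pos i` is empty as positions `> 4 N + 4` do not occur; `col ≤ 2 m`). Label of the hub: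
`lab`. `cols ⊆ range (2 m + 1)`: `colb`. -/
theorem letr_mem {W W' : Set (Pc (Lb Ω))} {M M' : ℕ} {k k' : ℕ∞} {m Θ T : ℕ} (hW : Sat W') (hWW : W ⊆ W')
    (hS : Sing M' (T + 4 * m + 3) ⊆ W') (hM : M ≤ M') (hM2 : 2 ≤ M') (hk : k ≤ k') (hk1 : 1 ≤ k')
    {P : (CG Ω)} {N : ℕ} {b pos pt : ℕ → ℕ} {up : ℕ → Finset ℕ} {rk : ℕ → ℕ} {ν col : ℕ → ℕ → ℕ}
    {D : ℕ → Finset ℕ} {τ : ℕ → ℕ → ℕ} {J J' : ℕ → ℕ → Set ℕ}
    (h : Dr W M k m Θ T P N b pos pt up rk ν col D τ J J') (i : ℕ) (hi : i ≤ N) :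
    letr P b pos m T ν col i ∈ LetS (ThinC W' M' k') T m := by
  have hcol : ∀ j, cols P pos col j ⊆ Finset.range (2 * m + 1) := by
    intro j c hc
    unfold cols at hc
    rw [Finset.mem_image] at hc
    obtain ⟨e, _, rfl⟩ := hc
    have := h.ls.colb j e
    rw [Finset.mem_range]
    omega
  refine ⟨?_, ?_, ?_, ?_, hcol i, hcol (i + 1)⟩
  · exact h.lin.lab _ (h.lin.parts.sub (mem_hs.2 ⟨i, hi, rfl⟩))
  · refine lp_piece hW hWW hS hM hM2 hk hk1 h.lin (Finset.filter_subset _ _) ?_ ?_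
      (fun e _ => lp_ty h (by omega) e)
    · intro x hx y hy hxy
      have h1 := (Finset.mem_filter.1 hx).2
      exact Finset.mem_filter.2 ⟨hy, by omega⟩
    · intro x hx
      have h1 := (Finset.mem_filter.1 hx).2
      omega
  · refine lp_piece hW hWW hS hM hM2 hk hk1 h.lin (Finset.filter_subset _ _) ?_ ?_
      (fun e _ => lp_ty h (by omega) e)
    · intro x hx y hy hxy
      have h1 := (Finset.mem_filter.1 hx).2
      exact Finset.mem_filter.2 ⟨hy, by omega⟩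
    · intro x hx
      have h1 := (Finset.mem_filter.1 hx).2
      omega
  · refine lp_piece hW hWW hS hM hM2 hk hk1 h.lin (Finset.filter_subset _ _) ?_ ?_
      (fun e _ => lp_ty h (by omega) e)
    · intro x hx y hy hxy
      have h1 := (Finset.mem_filter.1 hx).2
      exact Finset.mem_filter.2 ⟨hy, by omega⟩
    · intro x hx
      have h1 := (Finset.mem_filter.1 hx).2
      omega

/-- Linear graphs are wqo. PROOF. `W' := satur (W ∪ Sing (M+2) (T+4m+3))` is pwo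
(`satur_pwo`, `PartiallyWellOrderedOn.union`, `sing_pwo`) and saturated. `thin_pwo`, `letS_pwo`,
`words_wqo` give that the words with letters in `LetS (ThinC W' (M+2) (k+1)) T m` are pwo for `WE LR`.
For a sequence `f` in `LinC` choose the data and a dressing (`exists_dr`), apply this to the words
`wrd`, and for `i < j` with `WE` use `exists_wdt` and `glue_words`. -/
theorem lin_pwo {W : Set (Pc (Lb Ω))} (hW : W.PartiallyWellOrderedOn Rp) (M : ℕ) (k : ℕ∞)
    (hkT : ThinOK Ω k) (m Θ T : ℕ) (hΘ : 5 * m ≤ Θ) : (LinC W M k m Θ T).PartiallyWellOrderedOn CR := by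
  have hW' : (satur (W ∪ Sing (M + 2) (T + 4 * m + 3))).PartiallyWellOrderedOn Rp :=
    satur_pwo (hW.union (sing_pwo _ _))
  have hL := letS_pwo (hkT 1 _ hW' (M + 2)) T m
  have hwd := words_wqo LR _ hL
  rw [partiallyWellOrderedOn_iff_exists_lt]
  intro f hf
  have hf' : ∀ n, ∃ N b pos pt up rk, IsLin W M k m Θ T (f n) N b pos pt up rk := hf
  choose N b pos pt up rk hlin using hf'
  have hdr := fun n => exists_dr (hlin n)
  choose ν col D τ J J' hdr using hdr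
  obtain ⟨i, j, hij, hw⟩ := hwd.exists_lt
    (f := fun n => wrd (f n) (N n) (b n) (pos n) m T (ν n) (col n)) (by
      intro n l hl
      exact letr_mem (satur_sat _) (Set.subset_union_left.trans (subset_satur _))
        (Set.subset_union_right.trans (subset_satur _)) (by omega) (by omega) le_self_add
        (by rw [Nat.cast_one]; exact le_add_self) (hdr n) l hl)
  refine ⟨i, j, hij, ?_⟩
  obtain ⟨φ, ηP, ιP, ηD, ιD, ηM, ιM, ΦP, ΦD, ΦM, Γ, hd⟩ := exists_wdt hΘ (hdr i) (hdr j) hw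
  exact glue_words (hdr i) (hdr j) hd

end Pool.Agent.W2411ls
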