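import Mathlib
import Pool.Agent.W_2411ls_h59.Defs

/-! Calculus of bisets: `eb G U T` = number of edges from `U` to the outside of `U ∪ T`. -/

set_option autoImplicit false

namespace Pool.Agent.W2411ls

open Pool.Agent.W2411c4

variable {Q : Type}

private theorem eb_eq_sum (G : Gr Q) (U T : Finset ℕ) :
    eb G U T = ∑ e ∈ G.E, if ((G.a e ∈ U ∧ G.b e ∉ U ∧ G.b e ∉ T) ∨
      (G.b e ∈ U ∧ G.a e ∉ U ∧ G.a e ∉ T)) then 1 else 0 := by
  unfold eb
  rw [Finset.card_filter]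

private theorem ee_eq_sum (G : Gr Q) (U W : Finset ℕ) :
    ee G U W = ∑ e ∈ G.E, if ((G.a e ∈ U ∧ G.b e ∈ W) ∨ (G.b e ∈ U ∧ G.a e ∈ W))
      then 1 else 0 := by
  unfold ee
  rw [Finset.card_filter]

private theorem three {U T : Finset ℕ} (h : Disjoint U T) (x : ℕ) :
    (x ∈ U ∧ x ∉ T) ∨ (x ∉ U ∧ x ∈ T) ∨ (x ∉ U ∧ x ∉ T) := by
  have h' : x ∈ U → x ∉ T := fun hx hT => Finset.disjoint_left.1 h hx hT
  tauto

/-- PROOF. Unfold; `Cross U e` iff exactly one end in `U`. -/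
theorem eb_empty (G : Gr Q) (U : Finset ℕ) : eb G U ∅ = G.d U := by
  unfold eb Gr.d Gr.bd
  congr 1
  apply Finset.filter_congr
  intro e _
  unfold Gr.Cross
  simp only [Finset.notMem_empty, not_false_eq_true, and_true]
  tauto

/-- (submodularity of bisets) PROOF. Write both sides as sums over `e ∈ G.E` of indicators
(as in `d_eq_sum`, `d_sub` of W_2411c4_h59/Cut.lean) and compare edge by edge. With
`O = (U ∪ T)ᶜ`, `O' = (U' ∪ T')ᶜ`: an edge is counted for `(U; T)` iff one end is in `U` and the other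
in `O`. Outside of the intersection biset: `O ∪ O'`; outside of the union biset: `O ∩ O'`. An edge
`pq` counted for the intersection has `p ∈ U ∩ U'`, `q ∈ O ∪ O'`; counted for the union:
`p ∈ U ∪ U'`, `q ∈ O ∩ O'`. Finite case check (membership of both ends in `U, T, U', T'`). -/
theorem eb_sub (G : Gr Q) {U T U' T' : Finset ℕ} (h : Disjoint U T) (h' : Disjoint U' T') :
    eb G (U ∩ U') (((U ∪ T) ∩ (U' ∪ T')) \ (U ∩ U')) + eb G (U ∪ U') ((T ∪ T') \ (U ∪ U')) ≤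
      eb G U T + eb G U' T' := by
  simp only [eb_eq_sum, ← Finset.sum_add_distrib]
  apply Finset.sum_le_sum
  intro e _
  simp only [Finset.mem_inter, Finset.mem_union, Finset.mem_sdiff]
  rcases three h (G.a e) with ⟨h1, h2⟩ | ⟨h1, h2⟩ | ⟨h1, h2⟩ <;>
  rcases three h' (G.a e) with ⟨h3, h4⟩ | ⟨h3, h4⟩ | ⟨h3, h4⟩ <;>
  rcases three h (G.b e) with ⟨h5, h6⟩ | ⟨h5, h6⟩ | ⟨h5, h6⟩ <;>
  rcases three h' (G.b e) with ⟨h7, h8⟩ | ⟨h7, h8⟩ | ⟨h7, h8⟩ <;>
  simp [h1, h2, h3, h4, h5, h6, h7, h8]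

/-- Submodularity for one deleted set. PROOF. Edge by edge (or from `eb_sub`). -/
theorem eb_sub' (G : Gr Q) {U U' T : Finset ℕ} (h : Disjoint U T) (h' : Disjoint U' T) :
    eb G (U ∩ U') T + eb G (U ∪ U') T ≤ eb G U T + eb G U' T := by
  simp only [eb_eq_sum, ← Finset.sum_add_distrib]
  apply Finset.sum_le_sum
  intro e _
  simp only [Finset.mem_inter, Finset.mem_union]
  have k1 : G.a e ∈ U → G.a e ∉ T := fun hx hT => Finset.disjoint_left.1 h hx hT
  have k2 : G.b e ∈ U → G.b e ∉ T := fun hx hT => Finset.disjoint_left.1 h hx hT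
  have k3 : G.a e ∈ U' → G.a e ∉ T := fun hx hT => Finset.disjoint_left.1 h' hx hT
  have k4 : G.b e ∈ U' → G.b e ∉ T := fun hx hT => Finset.disjoint_left.1 h' hx hT
  by_cases h1 : G.a e ∈ U <;> by_cases h2 : G.a e ∈ U' <;> by_cases h3 : G.a e ∈ T <;>
  by_cases h4 : G.b e ∈ U <;> by_cases h5 : G.b e ∈ U' <;> by_cases h6 : G.b e ∈ T <;>
  first
  | exact absurd h3 (k1 h1)
  | exact absurd h3 (k3 h2)
  | exact absurd h6 (k2 h4)
  | exact absurd h6 (k4 h5)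
  | simp [h1, h2, h3, h4, h5, h6]

/-- Posimodularity for one deleted set. PROOF. Edge by edge. -/
theorem eb_pos (G : Gr Q) {U U' T : Finset ℕ} (h : Disjoint U T) (h' : Disjoint U' T) :
    eb G (U \ U') T + eb G (U' \ U) T ≤ eb G U T + eb G U' T := by
  simp only [eb_eq_sum, ← Finset.sum_add_distrib]
  apply Finset.sum_le_sum
  intro e _
  simp only [Finset.mem_sdiff]
  have k1 : G.a e ∈ U → G.a e ∉ T := fun hx hT => Finset.disjoint_left.1 h hx hT
  have k2 : G.b e ∈ U → G.b e ∉ T := fun hx hT => Finset.disjoint_left.1 h hx hT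
  have k3 : G.a e ∈ U' → G.a e ∉ T := fun hx hT => Finset.disjoint_left.1 h' hx hT
  have k4 : G.b e ∈ U' → G.b e ∉ T := fun hx hT => Finset.disjoint_left.1 h' hx hT
  by_cases h1 : G.a e ∈ U <;> by_cases h2 : G.a e ∈ U' <;> by_cases h3 : G.a e ∈ T <;>
  by_cases h4 : G.b e ∈ U <;> by_cases h5 : G.b e ∈ U' <;> by_cases h6 : G.b e ∈ T <;>
  first
  | exact absurd h3 (k1 h1)
  | exact absurd h3 (k3 h2)
  | exact absurd h6 (k2 h4)
  | exact absurd h6 (k4 h5)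
  | simp [h1, h2, h3, h4, h5, h6]

/-- PROOF. An edge crossing `Z` has its other end in `T` or outside `Z ∪ T`. -/
theorem d_eq_eb (G : Gr Q) {Z T : Finset ℕ} (h : Disjoint Z T) :
    G.d Z = eb G Z T + ee G Z T := by
  simp only [d_eq_sum, eb_eq_sum, ee_eq_sum, ← Finset.sum_add_distrib]
  apply Finset.sum_congr rfl
  intro e _
  unfold Gr.Cross
  rcases three h (G.a e) with ⟨h1, h2⟩ | ⟨h1, h2⟩ | ⟨h1, h2⟩ <;>
  rcases three h (G.b e) with ⟨h3, h4⟩ | ⟨h3, h4⟩ | ⟨h3, h4⟩ <;>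
  simp [h1, h2, h3, h4]

/-- PROOF. `Finset.card_le_card`, filter implication. -/
theorem ee_mono (G : Gr Q) {U U' W W' : Finset ℕ} (h : U ⊆ U') (h' : W ⊆ W') :
    ee G U W ≤ ee G U' W' := by
  unfold ee
  apply Finset.card_le_card
  intro e he
  rw [Finset.mem_filter] at he ⊢
  refine ⟨he.1, ?_⟩
  rcases he.2 with ⟨h1, h2⟩ | ⟨h1, h2⟩
  · exact Or.inl ⟨h h1, h' h2⟩
  · exact Or.inr ⟨h h1, h' h2⟩

/-- Deleting more vertices. PROOF. Filter implication. -/
theorem eb_anti (G : Gr Q) {U T T' : Finset ℕ} (h : T ⊆ T') : eb G U T' ≤ eb G U T := by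
  unfold eb
  apply Finset.card_le_card
  intro e he
  rw [Finset.mem_filter] at he ⊢
  refine ⟨he.1, ?_⟩
  rcases he.2 with ⟨h1, h2, h3⟩ | ⟨h1, h2, h3⟩
  · exact Or.inl ⟨h1, h2, fun h4 => h3 (h h4)⟩
  · exact Or.inr ⟨h1, h2, fun h4 => h3 (h h4)⟩

/-- Filter implication: an edge from `U ∪ U'` to the outside of `U ∪ U' ∪ T` comes
from `U` or from `U'`. -/
theorem eb_union_le (G : Gr Q) {U U' T : Finset ℕ} :
    eb G (U ∪ U') T ≤ eb G U T + eb G U' T := by
  simp only [eb_eq_sum, ← Finset.sum_add_distrib]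
  apply Finset.sum_le_sum
  intro e _
  simp only [Finset.mem_union]
  by_cases h1 : G.a e ∈ U <;> by_cases h2 : G.a e ∈ U' <;> by_cases h3 : G.a e ∈ T <;>
  by_cases h4 : G.b e ∈ U <;> by_cases h5 : G.b e ∈ U' <;> by_cases h6 : G.b e ∈ T <;>
  simp [h1, h2, h3, h4, h5, h6]

end Pool.Agent.W2411ls
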