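import Mathlib
import Pool.Agent.W_2411ls_h59.EbA

/-! Cuts that respect the parts. -/

set_option autoImplicit false
set_option linter.unusedSectionVars false

namespace Pool.Agent.W2411ls

open Pool.Agent.W2411c4

variable {Ω : Type} [Preorder Ω] [Inhabited Ω]

/-- `U` is a union of parts of `X` -/
def Resp (X : Finset ℕ) (pt : ℕ → ℕ) (U : Finset ℕ) : Prop :=
  ∀ x ∈ X, ∀ y ∈ X, pt x = pt y → x ∈ U → y ∈ U

/-- Uncrossing one solid set. PROOF. Let `x ∈ Y` be the vertex of solidity. For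
`Z ⊆ Y` with `x ∈ Z`: `eb Y T ≤ eb Z T`, since `eb Z T = d Z - ee Z T`, `eb Y T = d Y - ee Y T`
(`d_eq_eb`), `d Y ≤ d Z` and `ee Z T ≤ ee Y T` (`ee_mono`). If `x ∈ U`: `Z := U ∩ Y`, `eb_sub'` gives
`eb (U ∪ Y) T ≤ eb U T`. If `x ∉ U`: `Z := Y \ U`, `eb_pos` gives `eb (U \ Y) T ≤ eb U T`. -/
theorem solid_step {Q : Type} {G : Gr Q} {U Y T : Finset ℕ} (hs : Solid G Y) (hU : Disjoint U T)
    (hY : Disjoint Y T) : eb G (U ∪ Y) T ≤ eb G U T ∨ eb G (U \ Y) T ≤ eb G U T := by
  obtain ⟨x, hx, hs⟩ := hs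
  have key : ∀ Z ⊆ Y, x ∈ Z → eb G Y T ≤ eb G Z T := by
    intro Z hZ hxZ
    have h1 := hs Z hZ hxZ
    have hZT : Disjoint Z T := Finset.disjoint_of_subset_left hZ hY
    have h2 := d_eq_eb G hY
    have h3 := d_eq_eb G hZT
    have h4 : ee G Z T ≤ ee G Y T := ee_mono G hZ (Finset.Subset.refl T)
    omega
  by_cases hxU : x ∈ U
  · left
    have h1 := key (U ∩ Y) Finset.inter_subset_right (Finset.mem_inter.2 ⟨hxU, hx⟩)
    have h2 := eb_sub' G hU hY
    omega
  · right
    have h1 := key (Y \ U) Finset.sdiff_subset (Finset.mem_sdiff.2 ⟨hx, hxU⟩)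
    have h2 := eb_pos G hU hY
    omega

/-- the parts crossed by `U` -/
private def solidA_cr (X : Finset ℕ) (pt : ℕ → ℕ) (U : Finset ℕ) : Finset ℕ :=
  (X.image pt).filter fun p => ∃ x ∈ X, ∃ y ∈ X, pt x = p ∧ pt y = p ∧ x ∈ U ∧ y ∉ U

private theorem solidA_cr_lt {X : Finset ℕ} {pt : ℕ → ℕ} {U U' : Finset ℕ} {x y : ℕ}
    (hx : x ∈ X) (hy : y ∈ X) (hxy : pt x = pt y) (hxU : x ∈ U) (hyU : y ∉ U)
    (hout : ∀ z ∈ X, pt z ≠ pt x → (z ∈ U' ↔ z ∈ U))
    (hin : (∀ z ∈ X, pt z = pt x → z ∈ U') ∨ (∀ z ∈ X, pt z = pt x → z ∉ U')) :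
    (solidA_cr X pt U').card < (solidA_cr X pt U).card := by
  apply Finset.card_lt_card
  refine ⟨?_, ?_⟩
  · intro p hp
    unfold solidA_cr at hp ⊢
    rw [Finset.mem_filter] at hp ⊢
    obtain ⟨hp1, z, hz, w, hw, hzp, hwp, hzU, hwU⟩ := hp
    by_cases h : p = pt x
    · exfalso
      rcases hin with hin | hin
      · exact hwU (hin w hw (hwp.trans h))
      · exact hin z hz (hzp.trans h) hzU
    · refine ⟨hp1, z, hz, w, hw, hzp, hwp, ?_, ?_⟩
      · exact (hout z hz (fun h' => h (hzp.symm.trans h'))).1 hzU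
      · exact fun h' => hwU ((hout w hw (fun h'' => h (hwp.symm.trans h''))).2 h')
  · intro hsub
    have h1 : pt x ∈ solidA_cr X pt U := by
      unfold solidA_cr
      rw [Finset.mem_filter]
      exact ⟨Finset.mem_image_of_mem _ hx, x, hx, y, hy, rfl, hxy.symm, hxU, hyU⟩
    have h2 := hsub h1
    unfold solidA_cr at h2
    rw [Finset.mem_filter] at h2
    obtain ⟨_, z, hz, w, hw, hzp, hwp, hzU, hwU⟩ := h2
    rcases hin with hin | hin
    · exact hwU (hin w hw hwp)
    · exact hin z hz hzp hzU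

/-- Cuts can be made to respect the parts. PROOF. Induction on the number of parts
`p ∈ X.image pt` crossed by `U` (`fib X pt p` meets `U` and is not contained in `U`). Let `x ∈ U`,
`y ∈ X \ U`, `pt x = pt y =: p`; `Y := fib X pt p`. `x ∉ H` (else `y = x` by `hub`), so `Y` is an
atom, in particular solid, and contains no hub (`hub`). It is disjoint from `T`: if `z ∈ Y ∩ T` then
`x ∈ T` by `hT`, but `U`, `T` are disjoint. By `solid_step` one of `U' = U ∪ Y`, `U \ Y` has
`eb U' T ≤ eb U T`; it crosses fewer parts (it crosses the same parts except `p`), is a subset of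
`X`, disjoint from `T`, contains the same hubs, and contains `L` resp. is contained in `Z` if these
respect the parts. -/
theorem exists_resp' {W : Set (Pc (Lb Ω))} {M : ℕ} {k : ℕ∞} {G : Gr (Lb Ω)} {X H : Finset ℕ} {pt : ℕ → ℕ}
    {up : ℕ → Finset ℕ} {rk : ℕ → ℕ} (h : Parts W M k G X H pt up rk) {U T L Z : Finset ℕ}
    (hU : U ⊆ X) (hT : Resp X pt T) (hUT : Disjoint U T) (hL : Resp X pt L) (hLU : L ⊆ U)
    (hZ : Resp X pt Z) (hUZ : U ⊆ Z) :
    ∃ U' ⊆ X, Disjoint U' T ∧ Resp X pt U' ∧ (∀ x ∈ H, x ∈ U' ↔ x ∈ U) ∧ L ⊆ U' ∧ U' ⊆ Z ∧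
      eb G U' T ≤ eb G U T := by
  obtain ⟨n, hn⟩ : ∃ n, (solidA_cr X pt U).card = n := ⟨_, rfl⟩
  induction n using Nat.strong_induction_on generalizing U with
  | _ n ih =>
  by_cases hR : Resp X pt U
  · exact ⟨U, hU, hUT, hR, fun x _ => Iff.rfl, hLU, hUZ, le_rfl⟩
  · unfold Resp at hR
    push Not at hR
    obtain ⟨x, hx, y, hy, hxy, hxU, hyU⟩ := hR
    have hne : y ≠ x := fun h' => hyU (h' ▸ hxU)
    have hxH : x ∉ H := fun hxH => hne (h.hub x hxH y hy hxy.symm)
    have hat := h.atom x hx hxH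
    have hYX : fib X pt (pt x) ⊆ X := Finset.filter_subset _ _
    have hYH : ∀ z ∈ fib X pt (pt x), z ∉ H := by
      intro z hz hzH
      rw [mem_fib] at hz
      have := h.hub z hzH x hx hz.2.symm
      exact hxH (this ▸ hzH)
    have hYT : Disjoint (fib X pt (pt x)) T := by
      rw [Finset.disjoint_left]
      intro z hz hzT
      rw [mem_fib] at hz
      exact Finset.disjoint_left.1 hUT hxU (hT z hz.1 x hx hz.2 hzT)
    rcases solid_step (U := U) hat.solid hUT hYT with hle | hle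
    · have hU' : U ∪ fib X pt (pt x) ⊆ X := Finset.union_subset hU hYX
      have hlt : (solidA_cr X pt (U ∪ fib X pt (pt x))).card < n := by
        rw [← hn]
        refine solidA_cr_lt hx hy hxy hxU hyU ?_ (Or.inl ?_)
        · intro z hz hzx
          rw [Finset.mem_union, mem_fib]
          constructor
          · rintro (h1 | h1)
            · exact h1
            · exact absurd h1.2 hzx
          · exact Or.inl
        · intro z hz hzx
          exact Finset.mem_union_right _ (mem_fib.2 ⟨hz, hzx⟩)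
      obtain ⟨V, h1, h2, h3, h4, h5, h6, h7⟩ := ih _ hlt hU'
        (Finset.disjoint_union_left.2 ⟨hUT, hYT⟩)
        (hLU.trans Finset.subset_union_left)
        (Finset.union_subset hUZ (fun z hz => by
          rw [mem_fib] at hz
          exact hZ x hx z hz.1 hz.2.symm (hUZ hxU))) rfl
      refine ⟨V, h1, h2, h3, ?_, h5, h6, h7.trans hle⟩
      intro z hz
      rw [h4 z hz, Finset.mem_union]
      constructor
      · rintro (h8 | h8)
        · exact h8
        · exact absurd hz (hYH z h8)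
      · exact Or.inl
    · have hU' : U \ fib X pt (pt x) ⊆ X := Finset.sdiff_subset.trans hU
      have hlt : (solidA_cr X pt (U \ fib X pt (pt x))).card < n := by
        rw [← hn]
        refine solidA_cr_lt hx hy hxy hxU hyU ?_ (Or.inr ?_)
        · intro z hz hzx
          rw [Finset.mem_sdiff, mem_fib]
          constructor
          · exact fun h1 => h1.1
          · exact fun h1 => ⟨h1, fun h2 => hzx h2.2⟩
        · intro z hz hzx hzU
          exact (Finset.mem_sdiff.1 hzU).2 (mem_fib.2 ⟨hz, hzx⟩)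
      obtain ⟨V, h1, h2, h3, h4, h5, h6, h7⟩ := ih _ hlt hU'
        (Finset.disjoint_of_subset_left Finset.sdiff_subset hUT)
        (fun z hz => by
          rw [Finset.mem_sdiff]
          refine ⟨hLU hz, fun hzY => ?_⟩
          rw [mem_fib] at hzY
          exact hyU (hLU (hL z hzY.1 y hy (hzY.2.trans hxy) hz)))
        (Finset.sdiff_subset.trans hUZ) rfl
      refine ⟨V, h1, h2, h3, ?_, h5, h6, h7.trans hle⟩
      intro z hz
      rw [h4 z hz, Finset.mem_sdiff]
      constructor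
      · exact fun h8 => h8.1
      · exact fun h8 => ⟨h8, fun h9 => hYH z h9 hz⟩

/-- PROOF. `exists_resp'` with `L := ∅`, `Z := X`; a set of hubs respects the parts
(`hub`). -/
theorem exists_resp {W : Set (Pc (Lb Ω))} {M : ℕ} {k : ℕ∞} {G : Gr (Lb Ω)} {X H : Finset ℕ} {pt : ℕ → ℕ}
    {up : ℕ → Finset ℕ} {rk : ℕ → ℕ} (h : Parts W M k G X H pt up rk) {U T : Finset ℕ}
    (hU : U ⊆ X) (hT : T ⊆ H) (hUT : Disjoint U T) :
    ∃ U' ⊆ X, Disjoint U' T ∧ Resp X pt U' ∧ (∀ x ∈ H, x ∈ U' ↔ x ∈ U) ∧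
      eb G U' T ≤ eb G U T := by
  have hTr : Resp X pt T := by
    intro x hx y hy hxy hxT
    have := h.hub x (hT hxT) y hy hxy.symm
    rw [this]
    exact hxT
  obtain ⟨V, h1, h2, h3, h4, _, _, h7⟩ := exists_resp' h (L := ∅) (Z := X) hU hTr hUT
    (fun x _ y _ _ hx => absurd hx (Finset.notMem_empty x)) (Finset.empty_subset _)
    (fun x _ y hy _ _ => hy) hU
  exact ⟨V, h1, h2, h3, h4, h7⟩

end Pool.Agent.W2411ls
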