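import Mathlib
import Pool.Agent.W_2411ls_h59.SolidA

/-! The cuts of a segment. -/

set_option autoImplicit false
set_option linter.unusedSectionVars false

namespace Pool.Agent.W2411ls

open Pool.Agent.W2411c4

variable {Ω : Type} [Preorder Ω] [Inhabited Ω]

private theorem segcuts_min {C : Finset ℕ → Prop} (f : Finset ℕ → ℕ) (h : ∃ U, C U) :
    ∃ U, C U ∧ ∀ U', C U' → f U ≤ f U' ∧ (f U' ≤ f U → U.card ≤ U'.card) := by
  classical
  have h1 : ∃ n, ∃ U, C U ∧ f U = n := by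
    obtain ⟨U, hU⟩ := h
    exact ⟨_, U, hU, rfl⟩
  obtain ⟨U1, hU1, hn1⟩ := Nat.find_spec h1
  have h2 : ∃ n, ∃ U, C U ∧ f U = Nat.find h1 ∧ U.card = n := ⟨_, U1, hU1, hn1, rfl⟩
  obtain ⟨U2, hU2, hn2, hc2⟩ := Nat.find_spec h2
  refine ⟨U2, hU2, fun U' hU' => ?_⟩
  have h3 : Nat.find h1 ≤ f U' := Nat.find_min' h1 ⟨U', hU', rfl⟩
  refine ⟨by omega, fun h4 => ?_⟩
  rw [hc2]
  exact Nat.find_min' h2 ⟨U', hU', by omega, rfl⟩

private theorem segcuts_resp_inter {X : Finset ℕ} {pt : ℕ → ℕ} {U V : Finset ℕ}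
    (hU : Resp X pt U) (hV : Resp X pt V) : Resp X pt (U ∩ V) := by
  intro x hx y hy hxy h
  rw [Finset.mem_inter] at h ⊢
  exact ⟨hU x hx y hy hxy h.1, hV x hx y hy hxy h.2⟩

private theorem segcuts_resp_union {X : Finset ℕ} {pt : ℕ → ℕ} {U V : Finset ℕ}
    (hU : Resp X pt U) (hV : Resp X pt V) : Resp X pt (U ∪ V) := by
  intro x hx y hy hxy h
  rw [Finset.mem_union] at h ⊢
  exact h.imp (hU x hx y hy hxy) (hV x hx y hy hxy)

/-- **The cuts of a segment.** PROOF. For `i ≤ N` let `V i` be a respecting set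
(`V i ⊆ P.X`, `Resp`, `Fst N b i`) for which `eb G (V i) {b i}` is minimal and among these
`|V i|` is minimal (exists: the set of candidates is a nonempty finite set: `bis` and `exists_resp`
with `T := {b i}`; candidates are disjoint from `{b i}` by `Fst`). Then `eb ≤ m`. For `1 ≤ i ≤ N` let
`L i` be a respecting set with `Fst N b i` with `d (L i)` minimal and then `|L i|` minimal
(candidates: e.g. apply `exists_resp` with `T := ∅` to the set `{b j | j < i}`); by `exists_resp`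
(`T = ∅`, `eb_empty`) `d (L i) ≤ d U` for all `U ⊆ P.X` with `Fst N b i U`.
`V i ⊆ L i` for `1 ≤ i ≤ N`... precisely: (a) `L (i+1) ⊇ V i ∪ {b i}` for `i < N`: `b i ∈ L (i+1)` by
`Fst`. Apply `eb_sub` to the bisets `(V i; {b i})`, `(L (i+1); ∅)`: the intersection biset is
`(V i ∩ L (i+1); {b i})` as `b i ∈ L (i+1)`, the union biset is `(V i ∪ L (i+1); ∅)`. `V i ∩ L (i+1)`
is respecting with `Fst N b i`, so `eb (V i ∩ L (i+1)) {b i} ≥ eb (V i) {b i}`;
`V i ∪ L (i+1)` is respecting with `Fst N b (i+1)`, so `d (V i ∪ L (i+1)) ≥ d (L (i+1))`. So both are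
equalities, and `|V i ∩ L (i+1)| ≥ |V i|` gives `V i ⊆ L (i+1)`.
(b) `L i ⊆ V i` for `1 ≤ i ≤ N`: bisets `(V i; {b i})`, `(L i; ∅)`, `b i ∉ L i`: intersection biset
`(V i ∩ L i; ∅)`, union biset `(V i ∪ L i; {b i})`. `V i ∩ L i` is respecting with `Fst N b i`, so
`d (V i ∩ L i) ≥ d (L i)`; `V i ∪ L i` respecting with `Fst N b i`, so
`eb (V i ∪ L i) {b i} ≥ eb (V i) {b i}`. So equalities and `|V i ∩ L i| ≥ |L i|` gives `L i ⊆ V i`. -/
theorem seg_cuts {W : Set (Pc (Lb Ω))} {M : ℕ} {k : ℕ∞} {m Θ T : ℕ} {P : (CG Ω)} {N : ℕ} {b pt : ℕ → ℕ}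
    {up : ℕ → Finset ℕ} {rk : ℕ → ℕ} (h : IsSeg W M k m Θ T P N b pt up rk) :
    ∃ V L : ℕ → Finset ℕ,
      (∀ i ≤ N, V i ⊆ P.X ∧ Resp P.X pt (V i) ∧ Fst N b i (V i) ∧ eb P.G (V i) {b i} ≤ m) ∧
      (∀ i, 1 ≤ i → i ≤ N → L i ⊆ P.X ∧ Resp P.X pt (L i) ∧ Fst N b i (L i) ∧
        ∀ U ⊆ P.X, Fst N b i U → P.G.d (L i) ≤ P.G.d U) ∧
      (∀ i, i < N → V i ⊆ L (i + 1) ∧ b i ∈ L (i + 1)) ∧ ∀ i, 1 ≤ i → i ≤ N → L i ⊆ V i := by
  classical
  let C : ℕ → Finset ℕ → Prop := fun i U => U ⊆ P.X ∧ Resp P.X pt U ∧ Fst N b i U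
  have hC : ∀ i ≤ N, ∃ U, C i U ∧ eb P.G U {b i} ≤ m := by
    intro i hi
    obtain ⟨V, hV, hF, hm⟩ := h.bis i hi
    have hT : ({b i} : Finset ℕ) ⊆ hs N b := by
      intro x hx
      rw [Finset.mem_singleton] at hx
      exact mem_hs.2 ⟨i, hi, hx.symm⟩
    have hd : Disjoint V {b i} := by
      rw [Finset.disjoint_singleton_right]
      intro hb
      exact absurd ((hF i hi).1 hb) (lt_irrefl _)
    obtain ⟨U', h1, _, h3, h4, h5⟩ := exists_resp h.parts hV hT hd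
    refine ⟨U', ⟨h1, h3, fun j hj => ?_⟩, h5.trans hm⟩
    rw [h4 (b j) (mem_hs.2 ⟨j, hj, rfl⟩)]
    exact hF j hj
  have hVex : ∀ i, ∃ V, i ≤ N → (C i V ∧ ∀ U', C i U' → eb P.G V {b i} ≤ eb P.G U' {b i} ∧
      (eb P.G U' {b i} ≤ eb P.G V {b i} → V.card ≤ U'.card)) := by
    intro i
    by_cases hi : i ≤ N
    · obtain ⟨U, hU, _⟩ := hC i hi
      obtain ⟨V, hV⟩ := segcuts_min (C := C i) (fun U => eb P.G U {b i}) ⟨U, hU⟩
      exact ⟨V, fun _ => hV⟩
    · exact ⟨∅, fun h => absurd h hi⟩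
  have hLex : ∀ i, ∃ L, i ≤ N → (C i L ∧ ∀ U', C i U' → P.G.d L ≤ P.G.d U' ∧
      (P.G.d U' ≤ P.G.d L → L.card ≤ U'.card)) := by
    intro i
    by_cases hi : i ≤ N
    · obtain ⟨U, hU, _⟩ := hC i hi
      obtain ⟨L, hL⟩ := segcuts_min (C := C i) (fun U => P.G.d U) ⟨U, hU⟩
      exact ⟨L, fun _ => hL⟩
    · exact ⟨∅, fun h => absurd h hi⟩
  choose V hV using hVex
  choose L hL using hLex
  have hVb : ∀ i ≤ N, b i ∉ V i := fun i hi hb =>
    absurd (((hV i hi).1.2.2 i hi).1 hb) (lt_irrefl _)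
  have hVd : ∀ i ≤ N, Disjoint (V i) {b i} := fun i hi => by
    rw [Finset.disjoint_singleton_right]
    exact hVb i hi
  refine ⟨V, L, ?_, ?_, ?_, ?_⟩
  · intro i hi
    obtain ⟨U, hU, hm⟩ := hC i hi
    obtain ⟨h1, h2⟩ := hV i hi
    exact ⟨h1.1, h1.2.1, h1.2.2, (h2 U hU).1.trans hm⟩
  · intro i _ hi
    obtain ⟨h1, h2⟩ := hL i hi
    refine ⟨h1.1, h1.2.1, h1.2.2, ?_⟩
    intro U hUX hUF
    obtain ⟨U', k1, _, k3, k4, k5⟩ := exists_resp h.parts hUX (Finset.empty_subset _)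
      (Finset.disjoint_empty_right U)
    rw [eb_empty, eb_empty] at k5
    refine ((h2 U' ⟨k1, k3, fun j hj => ?_⟩).1).trans k5
    rw [k4 (b j) (mem_hs.2 ⟨j, hj, rfl⟩)]
    exact hUF j hj
  · intro i hi
    obtain ⟨v1, v2⟩ := hV i (by omega)
    obtain ⟨l1, l2⟩ := hL (i + 1) (by omega)
    have hb : b i ∈ L (i + 1) := (l1.2.2 i (by omega)).2 (by omega)
    refine ⟨?_, hb⟩
    have hs := eb_sub P.G (hVd i (by omega)) (Finset.disjoint_empty_right (L (i + 1)))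
    have e1 : ((V i ∪ {b i}) ∩ (L (i + 1) ∪ ∅)) \ (V i ∩ L (i + 1)) = {b i} := by
      ext x
      simp only [Finset.mem_sdiff, Finset.mem_inter, Finset.mem_union, Finset.mem_singleton,
        Finset.notMem_empty, or_false]
      constructor
      · tauto
      · rintro rfl
        exact ⟨⟨Or.inr rfl, hb⟩, fun h => hVb i (by omega) h.1⟩
    have e2 : ({b i} ∪ ∅) \ (V i ∪ L (i + 1)) = (∅ : Finset ℕ) := by
      rw [Finset.sdiff_eq_empty_iff_subset]
      intro x hx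
      simp only [Finset.mem_union, Finset.mem_singleton, Finset.notMem_empty, or_false] at hx ⊢
      rw [hx]
      exact Or.inr hb
    rw [e1, e2, eb_empty, eb_empty] at hs
    have c1 : C i (V i ∩ L (i + 1)) := by
      refine ⟨Finset.inter_subset_left.trans v1.1, segcuts_resp_inter v1.2.1 l1.2.1, ?_⟩
      intro j hj
      rw [Finset.mem_inter, v1.2.2 j hj, l1.2.2 j hj]
      omega
    have c2 : C (i + 1) (V i ∪ L (i + 1)) := by
      refine ⟨Finset.union_subset v1.1 l1.1, segcuts_resp_union v1.2.1 l1.2.1, ?_⟩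
      intro j hj
      rw [Finset.mem_union, v1.2.2 j hj, l1.2.2 j hj]
      omega
    have k1 := v2 _ c1
    have k2 := l2 _ c2
    have k3 := k1.2 (by omega)
    have k4 : V i ∩ L (i + 1) = V i :=
      Finset.eq_of_subset_of_card_le Finset.inter_subset_left k3
    rw [← k4]
    exact Finset.inter_subset_right
  · intro i _ hi
    obtain ⟨v1, v2⟩ := hV i hi
    obtain ⟨l1, l2⟩ := hL i hi
    have hb : b i ∉ L i := fun hb => absurd ((l1.2.2 i hi).1 hb) (lt_irrefl _)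
    have hs := eb_sub P.G (hVd i hi) (Finset.disjoint_empty_right (L i))
    have e1 : ((V i ∪ {b i}) ∩ (L i ∪ ∅)) \ (V i ∩ L i) = ∅ := by
      rw [Finset.sdiff_eq_empty_iff_subset]
      intro x hx
      simp only [Finset.mem_inter, Finset.mem_union, Finset.mem_singleton,
        Finset.notMem_empty, or_false] at hx ⊢
      refine ⟨?_, hx.2⟩
      rcases hx.1 with h1 | h1
      · exact h1
      · exact absurd (h1 ▸ hx.2) hb
    have e2 : ({b i} ∪ ∅) \ (V i ∪ L i) = {b i} := by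
      ext x
      simp only [Finset.mem_sdiff, Finset.mem_union, Finset.mem_singleton, Finset.notMem_empty,
        or_false]
      constructor
      · tauto
      · rintro rfl
        exact ⟨rfl, fun h => h.elim (hVb i hi) hb⟩
    rw [e1, e2, eb_empty, eb_empty] at hs
    have c1 : C i (V i ∩ L i) := by
      refine ⟨Finset.inter_subset_left.trans v1.1, segcuts_resp_inter v1.2.1 l1.2.1, ?_⟩
      intro j hj
      rw [Finset.mem_inter, v1.2.2 j hj, l1.2.2 j hj]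
      omega
    have c2 : C i (V i ∪ L i) := by
      refine ⟨Finset.union_subset v1.1 l1.1, segcuts_resp_union v1.2.1 l1.2.1, ?_⟩
      intro j hj
      rw [Finset.mem_union, v1.2.2 j hj, l1.2.2 j hj]
      omega
    have k1 := l2 _ c1
    have k2 := v2 _ c2
    have k3 := k1.2 (by omega)
    have k4 : V i ∩ L i = L i :=
      Finset.eq_of_subset_of_card_le Finset.inter_subset_right k3
    rw [← k4]
    exact Finset.inter_subset_left

end Pool.Agent.W2411ls
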