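import Mathlib
import Pool.Agent.W_2411ls_h59.SegCuts
import Pool.Agent.W_2411ls_h59.LocDef

/-! Positions in a segment. -/

set_option autoImplicit false
set_option linter.unusedSectionVars false

namespace Pool.Agent.W2411ls

open Pool.Agent.W2411c4

variable {Ω : Type} [Preorder Ω] [Inhabited Ω]

/-- positions of the vertices of a segment (edges may be long) -/
structure IsPos (W : Set (Pc (Lb Ω))) (M : ℕ) (k : ℕ∞) (m Θ T : ℕ) (P : (CG Ω)) (N : ℕ) (b pos : ℕ → ℕ) (pt : ℕ → ℕ)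
    (up : ℕ → Finset ℕ) (rk : ℕ → ℕ) : Prop where
  cls : Cls P
  parts : Parts W M k P.G P.X (hs N b) pt up rk
  lab : LabT P.G P.X T
  posb : ∀ i ≤ N, pos (b i) = 4 * i + 3
  pose : ∀ x ∈ P.X, x ∉ hs N b → pos x % 2 = 0 ∧ 2 ≤ pos x ∧ pos x ≤ 4 * N + 4
  post : ∀ x ∈ P.X, ∀ y ∈ P.X, pt x = pt y → pos x = pos y
  str : ∀ i ≤ N, eb P.G (P.X.filter fun x => pos x ≤ 4 * i + 2) {b i} ≤ m
  cut : ∀ i, 1 ≤ i → i ≤ N → Θ ≤ P.G.d (lvl P pos i)
  min : ∀ i, 1 ≤ i → i ≤ N → ∀ U ⊆ P.X, Fst N b i U → P.G.d (lvl P pos i) ≤ P.G.d U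

/-- **Positions.** PROOF. Take `V`, `L` from `seg_cuts`; they form a chain
`V 0 ⊆ L 1 ⊆ V 1 ⊆ L 2 ⊆ ... ⊆ L N ⊆ V N`. For a hub `x = b i` put `pos x := 4 i + 3` (choice of the
index, unique by `binj`), for other `x` put
`pos x := 2 + 2 * (|{i ∈ range (N+1) | x ∉ V i}| + |{i ∈ Icc 1 N | x ∉ L i}|)`. For a non-hub
`x ∈ P.X`: `x ∈ V i ↔ pos x ≤ 4 i + 2` (`i ≤ N`): if `x ∈ V i` then `x ∈ V j` for `j ≥ i` and
`x ∈ L j` for `j > i`, so the counted sets have indices `< i` resp. `≤ i`: at most `i + i` sets; if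
`x ∉ V i` then `x ∉ V j` for `j ≤ i`, `x ∉ L j` for `1 ≤ j ≤ i`: at least `i + 1 + i` sets.
Similarly `x ∈ L i ↔ pos x ≤ 4 i` (`1 ≤ i ≤ N`): `x ∈ L i`: at most `i + (i - 1)` sets; `x ∉ L i`: at
least `i + i` sets. For hubs `b j`: `b j ∈ V i ↔ j < i ↔ 4 j + 3 ≤ 4 i + 2`, `b j ∈ L i ↔ j < i ↔
4 j + 3 ≤ 4 i`. So `{x ∈ P.X | pos x ≤ 4 i + 2} = V i` and `lvl P pos i = L i`. `post`: parts are
respected by all `V i`, `L i`, a hub is alone in its part. `cut`: `IsSeg.cut`. -/
theorem exists_pos {W : Set (Pc (Lb Ω))} {M : ℕ} {k : ℕ∞} {m Θ T : ℕ} {P : (CG Ω)} {N : ℕ} {b pt : ℕ → ℕ}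
    {up : ℕ → Finset ℕ} {rk : ℕ → ℕ} (h : IsSeg W M k m Θ T P N b pt up rk) :
    ∃ pos, IsPos W M k m Θ T P N b pos pt up rk := by
  classical
  obtain ⟨V, L, hV, hL, hVL, hLV⟩ := seg_cuts h
  have c1 : ∀ i j, i ≤ j → j ≤ N → V i ⊆ V j := by
    intro i j hij
    induction j, hij using Nat.le_induction with
    | base => intro _; exact Finset.Subset.refl _
    | succ j hij ih =>
      intro hj
      exact (ih (by omega)).trans ((hVL j (by omega)).1.trans (hLV (j + 1) (by omega) hj))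
  have c2 : ∀ i j, i < j → j ≤ N → V i ⊆ L j := by
    intro i j hij hj
    obtain ⟨j', rfl⟩ : ∃ j', j = j' + 1 := ⟨j - 1, by omega⟩
    exact (c1 i j' (by omega) (by omega)).trans (hVL j' (by omega)).1
  have c3 : ∀ i j, 1 ≤ i → i ≤ j → j ≤ N → L i ⊆ V j := by
    intro i j hi hij hj
    exact (hLV i hi (by omega)).trans (c1 i j hij hj)
  have c4 : ∀ i j, 1 ≤ i → i ≤ j → j ≤ N → L i ⊆ L j := by
    intro i j hi hij hj
    rcases Nat.eq_or_lt_of_le hij with rfl | hlt
    · exact Finset.Subset.refl _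
    · exact (hLV i hi (by omega)).trans (c2 i j hlt hj)
  obtain ⟨A, hA⟩ : ∃ A : ℕ → Finset ℕ, ∀ x i, i ∈ A x ↔ i < N + 1 ∧ x ∉ V i :=
    ⟨fun x => (Finset.range (N + 1)).filter fun i => x ∉ V i, fun x i => by
      simp [Finset.mem_filter]⟩
  obtain ⟨B, hB⟩ : ∃ B : ℕ → Finset ℕ, ∀ x i, i ∈ B x ↔ (1 ≤ i ∧ i ≤ N) ∧ x ∉ L i :=
    ⟨fun x => (Finset.Icc 1 N).filter fun i => x ∉ L i, fun x i => by
      simp [Finset.mem_filter]⟩
  obtain ⟨ix, hix⟩ : ∃ ix : ℕ → ℕ, ∀ i ≤ N, ix (b i) = i := by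
    refine ⟨fun x => if hx : ∃ i ≤ N, b i = x then hx.choose else 0, ?_⟩
    intro i hi
    have hx : ∃ j ≤ N, b j = b i := ⟨i, hi, rfl⟩
    simp only [dif_pos hx]
    exact h.binj _ hx.choose_spec.1 _ hi hx.choose_spec.2
  obtain ⟨q, hq⟩ : ∃ q : ℕ → ℕ, ∀ x, q x = 2 + 2 * ((A x).card + (B x).card) :=
    ⟨_, fun _ => rfl⟩
  obtain ⟨pos, hpos⟩ : ∃ pos : ℕ → ℕ, ∀ x, pos x = if x ∈ hs N b then 4 * ix x + 3 else q x :=
    ⟨_, fun _ => rfl⟩
  have q1 : ∀ x, ∀ i ≤ N, x ∈ V i → q x ≤ 4 * i + 2 := by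
    intro x i hi hx
    have k1 : (A x).card ≤ i := by
      have : A x ⊆ Finset.range i := by
        intro j hj
        rw [hA] at hj
        rw [Finset.mem_range]
        by_contra hc
        exact hj.2 (c1 i j (by omega) (by omega) hx)
      simpa using Finset.card_le_card this
    have k2 : (B x).card ≤ i := by
      have : B x ⊆ Finset.Icc 1 i := by
        intro j hj
        rw [hB] at hj
        rw [Finset.mem_Icc]
        refine ⟨hj.1.1, ?_⟩
        by_contra hc
        exact hj.2 (c2 i j (by omega) (by omega) hx)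
      simpa using Finset.card_le_card this
    rw [hq]; omega
  have q2 : ∀ x, ∀ i ≤ N, x ∉ V i → 4 * i + 4 ≤ q x := by
    intro x i hi hx
    have k1 : i + 1 ≤ (A x).card := by
      have : Finset.range (i + 1) ⊆ A x := by
        intro j hj
        rw [Finset.mem_range] at hj
        rw [hA]
        exact ⟨by omega, fun hc => hx (c1 j i (by omega) hi hc)⟩
      simpa using Finset.card_le_card this
    have k2 : i ≤ (B x).card := by
      have : Finset.Icc 1 i ⊆ B x := by
        intro j hj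
        rw [Finset.mem_Icc] at hj
        rw [hB]
        exact ⟨⟨hj.1, by omega⟩, fun hc => hx (c3 j i hj.1 hj.2 hi hc)⟩
      simpa using Finset.card_le_card this
    rw [hq]; omega
  have q3 : ∀ x, ∀ i, 1 ≤ i → i ≤ N → x ∈ L i → q x ≤ 4 * i := by
    intro x i hi1 hi hx
    have k1 : (A x).card ≤ i := by
      have : A x ⊆ Finset.range i := by
        intro j hj
        rw [hA] at hj
        rw [Finset.mem_range]
        by_contra hc
        exact hj.2 (c3 i j hi1 (by omega) (by omega) hx)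
      simpa using Finset.card_le_card this
    have k2 : (B x).card ≤ i - 1 := by
      have : B x ⊆ Finset.Icc 1 (i - 1) := by
        intro j hj
        rw [hB] at hj
        rw [Finset.mem_Icc]
        refine ⟨hj.1.1, ?_⟩
        by_contra hc
        exact hj.2 (c4 i j hi1 (by omega) (by omega) hx)
      simpa using Finset.card_le_card this
    rw [hq]; omega
  have q4 : ∀ x, ∀ i, 1 ≤ i → i ≤ N → x ∉ L i → 4 * i + 2 ≤ q x := by
    intro x i hi1 hi hx
    have k1 : i ≤ (A x).card := by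
      have : Finset.range i ⊆ A x := by
        intro j hj
        rw [Finset.mem_range] at hj
        rw [hA]
        exact ⟨by omega, fun hc => hx (c2 j i (by omega) hi hc)⟩
      simpa using Finset.card_le_card this
    have k2 : i ≤ (B x).card := by
      have : Finset.Icc 1 i ⊆ B x := by
        intro j hj
        rw [Finset.mem_Icc] at hj
        rw [hB]
        exact ⟨⟨hj.1, by omega⟩, fun hc => hx (c4 j i hj.1 hj.2 hi hc)⟩
      simpa using Finset.card_le_card this
    rw [hq]; omega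
  have q5 : ∀ x, q x ≤ 4 * N + 4 := by
    intro x
    have k1 : (A x).card ≤ N + 1 := by
      have : A x ⊆ Finset.range (N + 1) := by
        intro j hj
        rw [hA] at hj
        rw [Finset.mem_range]
        exact hj.1
      simpa using Finset.card_le_card this
    have k2 : (B x).card ≤ N := by
      have : B x ⊆ Finset.Icc 1 N := by
        intro j hj
        rw [hB] at hj
        rw [Finset.mem_Icc]
        exact hj.1
      simpa using Finset.card_le_card this
    rw [hq]; omega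
  have hb : ∀ i ≤ N, pos (b i) = 4 * i + 3 := by
    intro i hi
    rw [hpos, if_pos (mem_hs.2 ⟨i, hi, rfl⟩), hix i hi]
  have f1 : ∀ i ≤ N, (P.X.filter fun x => pos x ≤ 4 * i + 2) = V i := by
    intro i hi
    ext x
    rw [Finset.mem_filter]
    by_cases hx : x ∈ hs N b
    · obtain ⟨j, hj, rfl⟩ := mem_hs.1 hx
      rw [hb j hj, (hV i hi).2.2.1 j hj]
      constructor
      · rintro ⟨_, h2⟩; omega
      · intro h2
        exact ⟨h.parts.sub hx, by omega⟩
    · rw [hpos, if_neg hx]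
      constructor
      · rintro ⟨h1, h2⟩
        by_contra hc
        have := q2 x i hi hc
        omega
      · intro h2
        exact ⟨(hV i hi).1 h2, q1 x i hi h2⟩
  have f2 : ∀ i, 1 ≤ i → i ≤ N → lvl P pos i = L i := by
    intro i hi1 hi
    unfold lvl
    ext x
    rw [Finset.mem_filter]
    by_cases hx : x ∈ hs N b
    · obtain ⟨j, hj, rfl⟩ := mem_hs.1 hx
      rw [hb j hj, (hL i hi1 hi).2.2.1 j hj]
      constructor
      · rintro ⟨_, h2⟩; omega
      · intro h2
        exact ⟨h.parts.sub hx, by omega⟩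
    · rw [hpos, if_neg hx]
      constructor
      · rintro ⟨h1, h2⟩
        by_contra hc
        have := q4 x i hi1 hi hc
        omega
      · intro h2
        exact ⟨(hL i hi1 hi).1 h2, q3 x i hi1 hi h2⟩
  refine ⟨pos, h.cls, h.parts, h.lab, hb, ?_, ?_, ?_, ?_, ?_⟩
  · intro x _ hx
    rw [hpos, if_neg hx]
    refine ⟨?_, ?_, q5 x⟩
    · rw [hq]; omega
    · rw [hq]; omega
  · intro x hx y hy hxy
    by_cases hxh : x ∈ hs N b
    · rw [h.parts.hub x hxh y hy hxy.symm]
    · by_cases hyh : y ∈ hs N b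
      · rw [h.parts.hub y hyh x hx hxy]
      · rw [hpos, hpos, if_neg hxh, if_neg hyh, hq, hq]
        have e1 : A x = A y := by
          ext i
          rw [hA, hA]
          constructor
          · rintro ⟨h1, h2⟩
            exact ⟨h1, fun hc => h2 ((hV i (by omega)).2.1 y hy x hx hxy.symm hc)⟩
          · rintro ⟨h1, h2⟩
            exact ⟨h1, fun hc => h2 ((hV i (by omega)).2.1 x hx y hy hxy hc)⟩
        have e2 : B x = B y := by
          ext i
          rw [hB, hB]
          constructor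
          · rintro ⟨h1, h2⟩
            exact ⟨h1, fun hc => h2 ((hL i h1.1 h1.2).2.1 y hy x hx hxy.symm hc)⟩
          · rintro ⟨h1, h2⟩
            exact ⟨h1, fun hc => h2 ((hL i h1.1 h1.2).2.1 x hx y hy hxy hc)⟩
        rw [e1, e2]
  · intro i hi
    rw [f1 i hi]
    exact (hV i hi).2.2.2
  · intro i hi1 hi
    rw [f2 i hi1 hi]
    exact h.cut i hi1 hi (L i) (hL i hi1 hi).1 (hL i hi1 hi).2.2.1
  · intro i hi1 hi U hU hF
    rw [f2 i hi1 hi]
    exact (hL i hi1 hi).2.2.2 U hU hF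

end Pool.Agent.W2411ls
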