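import Mathlib
import Pool.Agent.W_2411ls_h59.PosA

/-! The refinement: long edges are subdivided at all even positions between their ends. -/

set_option autoImplicit false
set_option linter.unusedSectionVars false

namespace Pool.Agent.W2411ls

open Pool.Agent.W2411c4

variable {Ω : Type} [Preorder Ω] [Inhabited Ω]

/-- the lower position of an edge -/
def lo (P : (CG Ω)) (pos : ℕ → ℕ) (e : ℕ) : ℕ := min (pos (P.G.a e)) (pos (P.G.b e))

/-- the upper position of an edge -/
def hi (P : (CG Ω)) (pos : ℕ → ℕ) (e : ℕ) : ℕ := max (pos (P.G.a e)) (pos (P.G.b e))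

/-- the lower end -/
def lv (P : (CG Ω)) (pos : ℕ → ℕ) (e : ℕ) : ℕ :=
  if pos (P.G.a e) ≤ pos (P.G.b e) then P.G.a e else P.G.b e

/-- the upper end -/
def hv (P : (CG Ω)) (pos : ℕ → ℕ) (e : ℕ) : ℕ :=
  if pos (P.G.a e) ≤ pos (P.G.b e) then P.G.b e else P.G.a e

/-- the segments of `e`, given by their lower positions -/
def segs (P : (CG Ω)) (pos : ℕ → ℕ) (e : ℕ) : Finset ℕ :=
  (Finset.range (hi P pos e + 1)).filter fun h =>
    h = lo P pos e ∨ (lo P pos e < h ∧ h < hi P pos e ∧ h % 2 = 0)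

/-- the next even position -/
def nx (h : ℕ) : ℕ := 2 * (h / 2) + 2

theorem lo_le_hi (P : (CG Ω)) (pos : ℕ → ℕ) (e : ℕ) : lo P pos e ≤ hi P pos e := by
  unfold lo hi; omega

theorem mem_segs {P : (CG Ω)} {pos : ℕ → ℕ} {e h : ℕ} : h ∈ segs P pos e ↔
    h = lo P pos e ∨ (lo P pos e < h ∧ h < hi P pos e ∧ h % 2 = 0) := by
  have := lo_le_hi P pos e
  simp only [segs, Finset.mem_filter, Finset.mem_range]
  constructor
  · exact fun h => h.2
  · intro h
    exact ⟨by omega, h⟩

theorem pos_lv (P : (CG Ω)) (pos : ℕ → ℕ) (e : ℕ) : pos (lv P pos e) = lo P pos e := by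
  unfold lv lo; split_ifs with h <;> omega

theorem pos_hv (P : (CG Ω)) (pos : ℕ → ℕ) (e : ℕ) : pos (hv P pos e) = hi P pos e := by
  unfold hv hi; split_ifs with h <;> omega

theorem lv_ne_hv {P : (CG Ω)} {pos : ℕ → ℕ} {e : ℕ} (he : e ∈ P.G.E) : lv P pos e ≠ hv P pos e := by
  have := P.G.ne e he
  unfold lv hv; split_ifs with h
  · exact this
  · exact fun h' => this h'.symm

/-- The refined graph. The vertex `x` is called `2 * x`, the subdivision vertex of `e` at the even
position `h` is called `2 * Nat.pair e h + 1` and has label `T`, the segment of `e` starting at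
position `h` is called `Nat.pair e h` and goes up from its end `a` to its end `b`. -/
def refi (P : (CG Ω)) (pos : ℕ → ℕ) (T : ℕ) : (CG Ω) where
  G := {
    E := P.G.E.biUnion fun e => (segs P pos e).image fun h => Nat.pair e h
    a := fun n => if n.unpair.2 = lo P pos n.unpair.1 then 2 * lv P pos n.unpair.1 else 2 * n + 1
    b := fun n => if nx n.unpair.2 < hi P pos n.unpair.1 then
      2 * Nat.pair n.unpair.1 (nx n.unpair.2) + 1 else 2 * hv P pos n.unpair.1
    ne := by
      intro n hn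
      simp only [Finset.mem_biUnion, Finset.mem_image] at hn
      obtain ⟨e, he, h, hh, rfl⟩ := hn
      simp only [Nat.unpair_pair]
      have h1 := lv_ne_hv (pos := pos) he
      have h2 : Nat.pair e h ≠ Nat.pair e (nx h) := by
        intro h3
        have := (Nat.pair_eq_pair.1 h3).2
        unfold nx at this
        omega
      split_ifs <;> omega
    lab := fun n => if n % 2 = 0 then P.G.lab (n / 2) else ⟨T, default⟩ }
  X := P.X.image (fun x => 2 * x) ∪ P.G.E.biUnion fun e =>
    ((segs P pos e).filter fun h => h ≠ lo P pos e).image fun h => 2 * Nat.pair e h + 1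

/-- positions in the refined graph -/
def posr (pos : ℕ → ℕ) (n : ℕ) : ℕ := if n % 2 = 0 then pos (n / 2) else (n / 2).unpair.2

theorem mem_refiE {P : (CG Ω)} {pos : ℕ → ℕ} {T n : ℕ} : n ∈ (refi P pos T).G.E ↔
    ∃ e ∈ P.G.E, ∃ h ∈ segs P pos e, Nat.pair e h = n := by
  simp only [refi, Finset.mem_biUnion, Finset.mem_image]

theorem mem_refiX {P : (CG Ω)} {pos : ℕ → ℕ} {T n : ℕ} : n ∈ (refi P pos T).X ↔
    (∃ x ∈ P.X, 2 * x = n) ∨ ∃ e ∈ P.G.E, ∃ h, lo P pos e < h ∧ h < hi P pos e ∧ h % 2 = 0 ∧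
      2 * Nat.pair e h + 1 = n := by
  simp only [refi, Finset.mem_union, Finset.mem_biUnion, Finset.mem_image, Finset.mem_filter,
    mem_segs]
  constructor
  · rintro (h | ⟨e, he, h, ⟨h1, h2⟩, h3⟩)
    · exact Or.inl h
    · exact Or.inr ⟨e, he, h, by omega, by omega, by omega, h3⟩
  · rintro (h | ⟨e, he, h, h1, h2, h3, h4⟩)
    · exact Or.inl h
    · exact Or.inr ⟨e, he, h, ⟨Or.inr ⟨h1, h2, h3⟩, by omega⟩, h4⟩

theorem rdef_a (P : (CG Ω)) (pos : ℕ → ℕ) (T e h : ℕ) : (refi P pos T).G.a (Nat.pair e h) =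
    if h = lo P pos e then 2 * lv P pos e else 2 * Nat.pair e h + 1 := by
  simp only [refi, Nat.unpair_pair]

theorem rdef_b (P : (CG Ω)) (pos : ℕ → ℕ) (T e h : ℕ) : (refi P pos T).G.b (Nat.pair e h) =
    if nx h < hi P pos e then 2 * Nat.pair e (nx h) + 1 else 2 * hv P pos e := by
  simp only [refi, Nat.unpair_pair]

theorem rdef_nx_even (h : ℕ) : nx h % 2 = 0 := by unfold nx; omega

theorem rdef_lt_nx (h : ℕ) : h < nx h := by unfold nx; omega

theorem rdef_lv_mem {P : (CG Ω)} (hP : Cls P) (pos : ℕ → ℕ) {e : ℕ} (he : e ∈ P.G.E) :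
    lv P pos e ∈ P.X := by
  unfold lv; split_ifs
  · exact (hP e he).1
  · exact (hP e he).2

theorem rdef_hv_mem {P : (CG Ω)} (hP : Cls P) (pos : ℕ → ℕ) {e : ℕ} (he : e ∈ P.G.E) :
    hv P pos e ∈ P.X := by
  unfold hv; split_ifs
  · exact (hP e he).2
  · exact (hP e he).1

theorem rdef_lo_le {P : (CG Ω)} {pos : ℕ → ℕ} {e h : ℕ} (hh : h ∈ segs P pos e) :
    lo P pos e ≤ h := by
  rw [mem_segs] at hh; omega

/-- PROOF. Cases as in the definition; `nx h` is even and `lo < nx h`. -/
theorem refi_cls {P : (CG Ω)} (hP : Cls P) (pos : ℕ → ℕ) (T : ℕ) : Cls (refi P pos T) := by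
  intro n hn
  obtain ⟨e, he, h, hh, rfl⟩ := mem_refiE.1 hn
  rw [rdef_a, rdef_b]
  constructor
  · rw [mem_refiX]
    split_ifs with h1
    · exact Or.inl ⟨_, rdef_lv_mem hP pos he, rfl⟩
    · have h2 := mem_segs.1 hh
      exact Or.inr ⟨e, he, h, by omega, by omega, by omega, rfl⟩
  · rw [mem_refiX]
    split_ifs with h1
    · have h2 := rdef_lo_le hh
      have h3 := rdef_lt_nx h
      exact Or.inr ⟨e, he, nx h, by omega, h1, rdef_nx_even h, rfl⟩
    · exact Or.inl ⟨_, rdef_hv_mem hP pos he, rfl⟩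

/-- Positions of the two ends of the segment `h` of `e`: `h` and `min (nx h) (hi e)`. PROOF.
Cases as in the definition, `pos_lv`, `pos_hv`. -/
theorem posr_seg {P : (CG Ω)} {pos : ℕ → ℕ} {T e h : ℕ} (he : e ∈ P.G.E) (hh : h ∈ segs P pos e) :
    posr pos ((refi P pos T).G.a (Nat.pair e h)) = h ∧
      posr pos ((refi P pos T).G.b (Nat.pair e h)) = min (nx h) (hi P pos e) := by
  have hev : ∀ x : ℕ, posr pos (2 * x) = pos x := by
    intro x
    have h1 : 2 * x % 2 = 0 := by omega
    have h2 : 2 * x / 2 = x := by omega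
    simp only [posr, h1, if_true, h2]
  have hod : ∀ x : ℕ, posr pos (2 * x + 1) = x.unpair.2 := by
    intro x
    have h1 : ¬ (2 * x + 1) % 2 = 0 := by omega
    have h2 : (2 * x + 1) / 2 = x := by omega
    simp only [posr, h1, if_false, h2]
  rw [rdef_a, rdef_b]
  constructor
  · split_ifs with h1
    · rw [hev, pos_lv P pos e, h1]
    · rw [hod, Nat.unpair_pair]
  · split_ifs with h1
    · rw [hod, Nat.unpair_pair]
      exact (min_eq_left h1.le).symm
    · rw [hev, pos_hv P pos e]
      exact (min_eq_right (not_lt.1 h1)).symm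

/-- The segments of `e` connect its ends. PROOF. For every position
`h ∈ segs P pos e` the lower end of the segment `h` is connected with `2 * lv e`: strong induction on
`h`: if `h ≠ lo` let `h' := h - 2` if `lo < h - 2` and `h' := lo` otherwise; then `h' ∈ segs`,
`nx h' = h < hi` and the upper end of the segment `h'` is `2 * pair e h + 1`, the lower end of the
segment `h`. The last segment (`h` the maximum of `segs`) has upper end `2 * hv e`, as
`nx h < hi` would give `nx h ∈ segs`. -/
theorem refi_conn {P : (CG Ω)} {pos : ℕ → ℕ} {T e : ℕ} (he : e ∈ P.G.E) :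
    (refi P pos T).G.Conn {n | ∃ h ∈ segs P pos e, Nat.pair e h = n} (2 * lv P pos e)
      (2 * hv P pos e) := by
  have key : ∀ h, h ∈ segs P pos e →
      (refi P pos T).G.Conn {n | ∃ h ∈ segs P pos e, Nat.pair e h = n} (2 * lv P pos e)
        ((refi P pos T).G.a (Nat.pair e h)) := by
    intro h
    induction h using Nat.strong_induction_on with
    | _ h ih =>
      intro hh
      by_cases h1 : h = lo P pos e
      · rw [rdef_a, if_pos h1]
        exact Gr.Conn.refl
      · have h2 := mem_segs.1 hh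
        obtain ⟨h', hlt, hs, hnx⟩ : ∃ h' < h, h' ∈ segs P pos e ∧ nx h' = h := by
          by_cases h3 : lo P pos e < h - 2
          · refine ⟨h - 2, by omega, ?_, ?_⟩
            · rw [mem_segs]; omega
            · unfold nx; omega
          · refine ⟨lo P pos e, by omega, ?_, ?_⟩
            · rw [mem_segs]; exact Or.inl rfl
            · unfold nx; omega
        refine (ih h' hlt hs).trans (Gr.conn_edge (e := Nat.pair e h') ⟨h', hs, rfl⟩ (Or.inl rfl)
          (Or.inr ?_))
        rw [rdef_a, rdef_b, if_neg h1, hnx, if_pos (by omega)]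
  have hne : (segs P pos e).Nonempty := ⟨lo P pos e, mem_segs.2 (Or.inl rfl)⟩
  have hm := (segs P pos e).max'_mem hne
  refine (key _ hm).trans (Gr.conn_edge (e := Nat.pair e ((segs P pos e).max' hne))
    ⟨_, hm, rfl⟩ (Or.inl rfl) (Or.inr ?_))
  rw [rdef_b, if_neg]
  intro h1
  have h2 := rdef_lo_le hm
  have h3 := rdef_lt_nx ((segs P pos e).max' hne)
  have h4 : nx ((segs P pos e).max' hne) ∈ segs P pos e :=
    mem_segs.2 (Or.inr ⟨by omega, h1, rdef_nx_even _⟩)
  have h5 := (segs P pos e).le_max' _ h4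
  omega

end Pool.Agent.W2411ls
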