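import Mathlib
import Pool.Agent.W_2411ls_h59.RefiDef

/-! Cuts of the refinement. -/

set_option autoImplicit false
set_option linter.unusedSectionVars false

namespace Pool.Agent.W2411ls

open Pool.Agent.W2411c4

variable {Ω : Type} [Preorder Ω] [Inhabited Ω]

/-- PROOF. Let `U₀ := P.X.filter (2 x ∈ U)`. For `e ∈ bd U₀` exactly one of `2 lv e`,
`2 hv e` is in `U` (both ends of `e` are in `P.X`), so by `refi_conn` and `conn_cross`
(W_2411c4_h59/Cut.lean) some segment `pair e h` of `e` crosses `U` (apply it to the side which is in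
`U`; `Gr.Conn.symm`). Choose one for every `e`; this is an injection `bd U₀ → bd U`
(`Nat.pair_eq_pair`). -/
theorem refi_d_le {P : (CG Ω)} (hP : Cls P) (pos : ℕ → ℕ) (T : ℕ) (U : Finset ℕ) :
    P.G.d (P.X.filter fun x => 2 * x ∈ U) ≤ (refi P pos T).G.d U := by
  classical
  have key : ∀ e, ∃ f, e ∈ P.G.bd (P.X.filter fun x => 2 * x ∈ U) →
      (∃ h ∈ segs P pos e, Nat.pair e h = f) ∧ (refi P pos T).G.Cross U f := by
    intro e
    by_cases he : e ∈ P.G.bd (P.X.filter fun x => 2 * x ∈ U)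
    · obtain ⟨heE, hc⟩ := P.G.mem_bd.1 he
      obtain ⟨haX, hbX⟩ := hP e heE
      have hconn := refi_conn (pos := pos) (T := T) heE
      have h1 : (2 * lv P pos e ∈ U ∧ 2 * hv P pos e ∉ U) ∨
          (2 * lv P pos e ∉ U ∧ 2 * hv P pos e ∈ U) := by
        unfold Gr.Cross at hc
        simp only [Finset.mem_filter, haX, hbX, true_and] at hc
        unfold lv hv
        split_ifs
        · exact hc
        · tauto
      rcases h1 with h1 | h1
      · obtain ⟨f, hf, hfc⟩ := conn_cross hconn h1.1 h1.2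
        exact ⟨f, fun _ => ⟨hf, hfc⟩⟩
      · obtain ⟨f, hf, hfc⟩ := conn_cross hconn.symm h1.2 h1.1
        exact ⟨f, fun _ => ⟨hf, hfc⟩⟩
    · exact ⟨0, fun h => absurd h he⟩
  choose f hf using key
  unfold Gr.d
  refine Finset.card_le_card_of_injOn f ?_ ?_
  · intro e he
    have he' := Finset.mem_coe.1 he
    obtain ⟨⟨h, hh, h1⟩, h2⟩ := hf e he'
    rw [Finset.mem_coe, Gr.mem_bd]
    exact ⟨mem_refiE.2 ⟨e, (P.G.mem_bd.1 he').1, h, hh, h1⟩, h2⟩
  · intro e he e' he' hee
    obtain ⟨⟨h, _, h1⟩, _⟩ := hf e (Finset.mem_coe.1 he)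
    obtain ⟨⟨h', _, h1'⟩, _⟩ := hf e' (Finset.mem_coe.1 he')
    rw [← h1, ← h1'] at hee
    exact (Nat.pair_eq_pair.1 hee).1

theorem reficut_cross {P : (CG Ω)} (hP : Cls P) (pos : ℕ → ℕ) (T i : ℕ) {e h : ℕ} (he : e ∈ P.G.E)
    (hh : h ∈ segs P pos e) :
    (refi P pos T).G.Cross ((refi P pos T).X.filter fun x => posr pos x ≤ 4 * i)
      (Nat.pair e h) ↔ h ≤ 4 * i ∧ 4 * i < nx h ∧ 4 * i < hi P pos e := by
  obtain ⟨haX, hbX⟩ := refi_cls hP pos T (Nat.pair e h) (mem_refiE.2 ⟨e, he, h, hh, rfl⟩)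
  obtain ⟨h1, h2⟩ := posr_seg (T := T) he hh
  unfold Gr.Cross
  simp only [Finset.mem_filter, haX, hbX, true_and, h1, h2]
  have h3 := lo_le_hi P pos e
  have h4 := mem_segs.1 hh
  have h5 : h < nx h := by unfold nx; omega
  rw [min_le_iff]
  constructor
  · rintro (⟨h6, h7⟩ | ⟨h6, h7⟩)
    · push Not at h7
      omega
    · rcases h7 with h7 | h7 <;> omega
  · intro h6
    left
    omega

/-- PROOF. `≥` (not needed separately) and `≤`: bijection between the edges `e ∈ P.G.E`
with `lo e ≤ 4 i < hi e` (these are the edges of `bd (lvl P pos i)`, as the ends are in `P.X`) and the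
segments crossing `posr ≤ 4 i`: the segment `h` of `e` has end positions `h` and `min (nx h) (hi e)`
(`posr_seg`, its ends are in `X` by `refi_cls`), it crosses iff `h ≤ 4 i < min (nx h) (hi e)`; for
given `e` there is exactly one such `h` if `lo e ≤ 4 i < hi e` (`h = 4 i` if `lo e < 4 i`, else
`h = lo e = 4 i` or ... in general: the greatest element of `segs e` that is `≤ 4 i`) and none
otherwise. (Two segments `h < h'` of `e` with `h' ≤ 4 i` contradict `4 i < nx h`, as `h'` is even and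
`> h`, so `nx h ≤ h'`.) -/
theorem refi_cut {P : (CG Ω)} (hP : Cls P) (pos : ℕ → ℕ) (T i : ℕ) :
    (cutE (refi P pos T) (posr pos) i).card = P.G.d (lvl P pos i) := by
  classical
  have memL : ∀ e, e ∈ P.G.bd (lvl P pos i) ↔ e ∈ P.G.E ∧ lo P pos e ≤ 4 * i ∧
      4 * i < hi P pos e := by
    intro e
    rw [Gr.mem_bd]
    constructor
    · rintro ⟨heE, hc⟩
      obtain ⟨haX, hbX⟩ := hP e heE
      refine ⟨heE, ?_⟩
      unfold Gr.Cross lvl at hc
      simp only [Finset.mem_filter, haX, hbX, true_and] at hc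
      unfold lo hi
      omega
    · rintro ⟨heE, hc⟩
      obtain ⟨haX, hbX⟩ := hP e heE
      refine ⟨heE, ?_⟩
      unfold Gr.Cross lvl
      simp only [Finset.mem_filter, haX, hbX, true_and]
      unfold lo hi at hc
      omega
  have memC : ∀ n, n ∈ cutE (refi P pos T) (posr pos) i ↔ ∃ e ∈ P.G.E, ∃ h ∈ segs P pos e,
      Nat.pair e h = n ∧ h ≤ 4 * i ∧ 4 * i < nx h ∧ 4 * i < hi P pos e := by
    intro n
    unfold cutE
    rw [Gr.mem_bd, mem_refiE]
    constructor
    · rintro ⟨⟨e, he, h, hh, rfl⟩, hc⟩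
      exact ⟨e, he, h, hh, rfl, (reficut_cross hP pos T i he hh).1 hc⟩
    · rintro ⟨e, he, h, hh, rfl, hc⟩
      exact ⟨⟨e, he, h, hh, rfl⟩, (reficut_cross hP pos T i he hh).2 hc⟩
  have himg : (cutE (refi P pos T) (posr pos) i).image (fun n => n.unpair.1) =
      P.G.bd (lvl P pos i) := by
    ext e
    rw [Finset.mem_image, memL]
    constructor
    · rintro ⟨n, hn, rfl⟩
      obtain ⟨e, he, h, hh, rfl, h1, h2, h3⟩ := (memC n).1 hn
      simp only [Nat.unpair_pair]
      have h4 := mem_segs.1 hh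
      exact ⟨he, by omega, h3⟩
    · rintro ⟨heE, h1, h2⟩
      refine ⟨Nat.pair e (4 * i), (memC _).2 ⟨e, heE, 4 * i, ?_, rfl, le_rfl, ?_, h2⟩, ?_⟩
      · rw [mem_segs]
        omega
      · unfold nx
        omega
      · rw [Nat.unpair_pair]
  unfold Gr.d
  rw [← himg, Finset.card_image_of_injOn]
  intro n hn n' hn' hnn
  obtain ⟨e, he, h, hh, rfl, h1, h2, h3⟩ := (memC n).1 (Finset.mem_coe.1 hn)
  obtain ⟨e', he', h', hh', rfl, h1', h2', h3'⟩ := (memC n').1 (Finset.mem_coe.1 hn')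
  simp only [Nat.unpair_pair] at hnn
  subst hnn
  have h4 := mem_segs.1 hh
  have h4' := mem_segs.1 hh'
  have h5 : h = h' := by
    unfold nx at h2 h2'
    omega
  rw [h5]

/-- PROOF. A segment `pair e h` with end positions `4 i + 2` and `4 i + 4` has
`h = 4 i + 2` (as `b`-end has the greater or equal position), so `lo e ≤ 4 i + 2` and
`4 i + 4 ≤ hi e`. So `e` has one end with `pos ≤ 4 i + 2` and the other with `pos ≥ 4 i + 4`, not
`b i` (`pos (b i) = 4 i + 3`): `e` is counted by `eb`. The map `pair e h ↦ e` is injective here. -/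
theorem refi_str {P : (CG Ω)} (hP : Cls P) (pos : ℕ → ℕ) (T i : ℕ) {x : ℕ}
    (hx : pos x = 4 * i + 3) : (strE (refi P pos T) (posr pos) i).card ≤
      eb P.G (P.X.filter fun x => pos x ≤ 4 * i + 2) {x} := by
  classical
  have memS : ∀ n, n ∈ strE (refi P pos T) (posr pos) i → ∃ e ∈ P.G.E,
      Nat.pair e (4 * i + 2) = n ∧ lo P pos e ≤ 4 * i + 2 ∧ 4 * i + 4 ≤ hi P pos e := by
    intro n hn
    unfold strE at hn
    obtain ⟨hnE, hc⟩ := Finset.mem_filter.1 hn
    obtain ⟨e, he, h, hh, rfl⟩ := mem_refiE.1 hnE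
    obtain ⟨h1, h2⟩ := posr_seg (T := T) he hh
    rw [h1, h2] at hc
    have h3 := lo_le_hi P pos e
    have h4 := mem_segs.1 hh
    have h5 : h < nx h := by unfold nx; omega
    have h6 : h = 4 * i + 2 ∧ min (nx h) (hi P pos e) = 4 * i + 4 := by
      rcases hc with hc | hc
      · exact hc
      · exfalso
        omega
    obtain ⟨h7, h8⟩ := h6
    refine ⟨e, he, by rw [h7], by omega, by omega⟩
  unfold eb
  refine Finset.card_le_card_of_injOn (fun n => n.unpair.1) ?_ ?_
  · intro n hn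
    obtain ⟨e, he, rfl, h1, h2⟩ := memS n (Finset.mem_coe.1 hn)
    obtain ⟨haX, hbX⟩ := hP e he
    rw [Finset.mem_coe, Finset.mem_filter]
    simp only [Nat.unpair_pair, Finset.mem_filter, Finset.mem_singleton, haX, hbX, true_and]
    refine ⟨he, ?_⟩
    unfold lo at h1
    unfold hi at h2
    by_cases h3 : pos (P.G.a e) ≤ pos (P.G.b e)
    · left
      refine ⟨by omega, by omega, ?_⟩
      intro h4
      rw [h4] at h2
      omega
    · right
      refine ⟨by omega, by omega, ?_⟩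
      intro h4
      rw [h4] at h2
      omega
  · intro n hn n' hn' hnn
    obtain ⟨e, he, rfl, h1, h2⟩ := memS n (Finset.mem_coe.1 hn)
    obtain ⟨e', he', rfl, h1', h2'⟩ := memS n' (Finset.mem_coe.1 hn')
    simp only [Nat.unpair_pair] at hnn
    rw [hnn]

end Pool.Agent.W2411ls
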