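import Mathlib
import Pool.Agent.W_2411ls_h59.RefiDef
import Pool.Agent.W_2411ls_h59.IsoA
import Pool.Agent.W_2411ls_h59.SatA

/-! Parts of the refinement. -/

set_option autoImplicit false
set_option linter.unusedSectionVars false

namespace Pool.Agent.W2411ls

open Pool.Agent.W2411c4

variable {Ω : Type} [Preorder Ω] [Inhabited Ω]

theorem inc_lh {P : (CG Ω)} {pos : ℕ → ℕ} {e y : ℕ} :
    P.G.Inc e y ↔ y = lv P pos e ∨ y = hv P pos e := by
  unfold Gr.Inc lv hv
  split_ifs
  · exact Iff.rfl
  · exact or_comm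

theorem touch_lh {P : (CG Ω)} {pos : ℕ → ℕ} {e : ℕ} {Y : Finset ℕ} :
    P.G.Touch Y e ↔ lv P pos e ∈ Y ∨ hv P pos e ∈ Y := by
  unfold Gr.Touch lv hv
  split_ifs
  · exact Iff.rfl
  · exact or_comm

theorem refi_a {P : (CG Ω)} {pos : ℕ → ℕ} {T e h : ℕ} : (refi P pos T).G.a (Nat.pair e h) =
    if h = lo P pos e then 2 * lv P pos e else 2 * Nat.pair e h + 1 := by
  simp [refi]

theorem refi_b {P : (CG Ω)} {pos : ℕ → ℕ} {T e h : ℕ} : (refi P pos T).G.b (Nat.pair e h) =
    if nx h < hi P pos e then 2 * Nat.pair e (nx h) + 1 else 2 * hv P pos e := by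
  simp [refi]

theorem refi_lab {P : (CG Ω)} {pos : ℕ → ℕ} {T n : ℕ} : (refi P pos T).G.lab n =
    if n % 2 = 0 then P.G.lab (n / 2) else ⟨T, default⟩ := rfl

/-- the last segment -/
def lst (P : (CG Ω)) (pos : ℕ → ℕ) (e : ℕ) : ℕ :=
  if hi P pos e ≤ nx (lo P pos e) then lo P pos e else 2 * ((hi P pos e - 1) / 2)

theorem lst_mem (P : (CG Ω)) (pos : ℕ → ℕ) (e : ℕ) : lst P pos e ∈ segs P pos e := by
  rw [mem_segs]
  have := lo_le_hi P pos e
  unfold lst nx
  split_ifs with h
  · exact Or.inl rfl
  · right
    omega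

theorem lst_nx (P : (CG Ω)) (pos : ℕ → ℕ) (e : ℕ) : hi P pos e ≤ nx (lst P pos e) := by
  have := lo_le_hi P pos e
  unfold lst
  split_ifs with h
  · exact h
  · unfold nx at *
    omega

theorem lst_unique {P : (CG Ω)} {pos : ℕ → ℕ} {e h : ℕ} (hh : h ∈ segs P pos e)
    (hn : hi P pos e ≤ nx h) : h = lst P pos e := by
  rw [mem_segs] at hh
  have := lo_le_hi P pos e
  unfold lst
  split_ifs with h1
  · unfold nx at *
    omega
  · unfold nx at *
    rcases hh with hh | hh
    · subst hh
      omega
    · omega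

theorem lo_mem (P : (CG Ω)) (pos : ℕ → ℕ) (e : ℕ) : lo P pos e ∈ segs P pos e :=
  mem_segs.2 (Or.inl rfl)

/-- A set `Y` of vertices of constant position is isomorphic to its copy in the
refinement. PROOF. `fv x = 2 x`, `fe e :=` the segment of `e` at its end in `Y`:
`Nat.pair e (lo e)` if `lv e ∈ Y`, and `Nat.pair e (lst e)` otherwise, where
`lst e := if hi e ≤ nx (lo e) then lo e else 2 * ((hi e - 1) / 2)` is the greatest element of
`segs e`, characterised by `hi e ≤ nx (lst e)`. If both ends are in `Y` then `lo e = hi e` and the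
only segment is `lo e`, with ends `2 lv e`, `2 hv e`. `inj`, `einj` clear (`Nat.pair_eq_pair`).
`edges`: the segment `h` of `e` has an end in the copy of `Y` (an even number) iff (`h = lo e` and
`lv e ∈ Y`) or (`nx h ≥ hi e` and `hv e ∈ Y`), and then `e` touches `Y` and the segment is `fe e`
(if `h = lo e`, `lv e ∈ Y` clear; if `nx h ≥ hi e`, `hv e ∈ Y`, then `h = lst e`, and if also
`lv e ∈ Y` then `lo e = hi e`, `lst e = lo e`). `inc`: the even ends of `fe e` are as described; an
end `y ∈ Y` of `e`; conversely if `2 y` is an end of `fe e` then `y ∈ {lv e, hv e}`. `lab` clear. -/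
theorem refi_piso {P : (CG Ω)} {pos : ℕ → ℕ} (T : ℕ) {Y : Finset ℕ}
    (hY : ∀ x ∈ Y, ∀ y ∈ Y, pos x = pos y) :
    ∃ fe, PIso P.G Y (refi P pos T).G (fun x => 2 * x) fe := by
  classical
  have hlh : ∀ e, lv P pos e ∈ Y → hv P pos e ∈ Y → lo P pos e = hi P pos e := by
    intro e h1 h2
    have := hY _ h1 _ h2
    rwa [pos_lv P pos e, pos_hv P pos e] at this
  have himg : ∀ y, 2 * y ∈ Y.image (fun x => 2 * x) ↔ y ∈ Y := by
    intro y
    simp only [Finset.mem_image]
    constructor
    · rintro ⟨x, hx, hxy⟩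
      have : x = y := by omega
      rwa [← this]
    · intro hy
      exact ⟨y, hy, rfl⟩
  have hodd : ∀ y, 2 * y + 1 ∉ Y.image (fun x => 2 * x) := by
    intro y
    simp only [Finset.mem_image]
    rintro ⟨x, hx, hxy⟩
    omega
  refine ⟨fun e => Nat.pair e (if lv P pos e ∈ Y then lo P pos e else lst P pos e),
    ?_, ?_, ?_, ?_, ?_⟩
  · intro x _ y _ h
    have h : 2 * x = 2 * y := h
    omega
  · intro e _ f _ _ _ h
    exact (Nat.pair_eq_pair.1 h).1
  · intro g
    constructor
    · rintro ⟨hg, ht⟩
      obtain ⟨e, he, h, hh, rfl⟩ := mem_refiE.1 hg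
      unfold Gr.Touch at ht
      rw [refi_a, refi_b] at ht
      by_cases hl : lv P pos e ∈ Y
      · refine ⟨e, he, touch_lh.2 (Or.inl hl), ?_⟩
        simp only [hl, if_true]
        rcases ht with ht | ht
        · split_ifs at ht with h1
          · rw [h1]
          · exact absurd ht (hodd _)
        · split_ifs at ht with h1
          · exact absurd ht (hodd _)
          · have h2 := hlh e hl ((himg _).1 ht)
            rw [mem_segs] at hh
            have h3 : h = lo P pos e := by omega
            rw [h3]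
      · rcases ht with ht | ht
        · split_ifs at ht with h1
          · exact absurd ((himg _).1 ht) hl
          · exact absurd ht (hodd _)
        · split_ifs at ht with h1
          · exact absurd ht (hodd _)
          · refine ⟨e, he, touch_lh.2 (Or.inr ((himg _).1 ht)), ?_⟩
            simp only [hl, if_false]
            rw [← lst_unique hh (by omega)]
    · rintro ⟨e, he, ht, rfl⟩
      by_cases hl : lv P pos e ∈ Y
      · simp only [hl, if_true]
        refine ⟨mem_refiE.2 ⟨e, he, _, lo_mem P pos e, rfl⟩, Or.inl ?_⟩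
        rw [refi_a, if_pos rfl]
        exact (himg _).2 hl
      · simp only [hl, if_false]
        refine ⟨mem_refiE.2 ⟨e, he, _, lst_mem P pos e, rfl⟩, Or.inr ?_⟩
        have h1 := lst_nx P pos e
        rw [refi_b, if_neg (by omega)]
        exact (himg _).2 ((touch_lh.1 ht).resolve_left hl)
  · intro e he ht y hy
    rw [inc_lh (pos := pos)]
    by_cases hl : lv P pos e ∈ Y
    · simp only [hl, if_true]
      unfold Gr.Inc
      rw [refi_a, refi_b, if_pos rfl]
      constructor
      · rintro (h1 | h1)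
        · left
          rw [h1]
        · right
          have h2 := hlh e hl (h1 ▸ hy)
          have h3 : ¬ nx (lo P pos e) < hi P pos e := by
            unfold nx
            omega
          rw [if_neg h3, h1]
      · rintro (h1 | h1)
        · left
          omega
        · right
          split_ifs at h1 with h2
          · omega
          · omega
    · simp only [hl, if_false]
      unfold Gr.Inc
      have h1 := lst_nx P pos e
      rw [refi_a, refi_b, if_neg (not_lt.2 h1)]
      constructor
      · rintro (h2 | h2)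
        · exact absurd (h2 ▸ hy) hl
        · right
          rw [h2]
      · rintro (h2 | h2)
        · split_ifs at h2 with h3
          · left
            omega
          · omega
        · right
          omega
  · intro y _
    rw [refi_lab]
    have h1 : 2 * y % 2 = 0 := by omega
    have h2 : 2 * y / 2 = y := by omega
    rw [if_pos h1, h2]

/-- Only the segments before and after a subdivision vertex are incident with it. PROOF. Let
`n = 2 * Nat.pair e h + 1`. A segment `Nat.pair e' h'` has `n` as its end `a` iff `e' = e`, `h' = h`,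
and as its end `b` iff `e' = e`, `nx h' = h`, `h < hi e`. Two elements `h' < h''` of `segs e` with
`nx h' = nx h''`: impossible as `h''` is even and `> h'`, so `nx h' ≤ h'' < nx h''`. -/
theorem refi_mid_d {P : (CG Ω)} {pos : ℕ → ℕ} {T : ℕ} (n : ℕ) (hn : n % 2 = 1) :
    (refi P pos T).G.d {n} ≤ 2 := by
  classical
  obtain ⟨e₀, h₀, hm⟩ : ∃ e₀ h₀, n = 2 * Nat.pair e₀ h₀ + 1 := by
    refine ⟨(n / 2).unpair.1, (n / 2).unpair.2, ?_⟩
    rw [Nat.pair_unpair]
    omega
  have hsub : (refi P pos T).G.bd {n} ⊆
      {Nat.pair e₀ h₀, Nat.pair e₀ (if lo P pos e₀ = h₀ - 1 then h₀ - 1 else h₀ - 2)} := by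
    intro s hs
    obtain ⟨hs, hc⟩ := Gr.mem_bd _ |>.1 hs
    obtain ⟨e, he, h, hh, rfl⟩ := mem_refiE.1 hs
    rw [mem_segs] at hh
    have hc' : (refi P pos T).G.a (Nat.pair e h) = n ∨ (refi P pos T).G.b (Nat.pair e h) = n := by
      unfold Gr.Cross at hc
      simp only [Finset.mem_singleton] at hc
      tauto
    rw [refi_a, refi_b] at hc'
    rw [Finset.mem_insert, Finset.mem_singleton]
    rcases hc' with hc' | hc'
    · split_ifs at hc' with h1
      · omega
      · left
        omega
    · right
      split_ifs at hc' with h1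
      · have h2 : Nat.pair e (nx h) = Nat.pair e₀ h₀ := by omega
        obtain ⟨rfl, h3⟩ := Nat.pair_eq_pair.1 h2
        unfold nx at h3
        congr 1
        split_ifs with h4
        · omega
        · omega
      · omega
  exact (Finset.card_le_card hsub).trans Finset.card_le_two

/-- (parts of the refinement). PROOF. `pt' n := if n % 2 = 0 then 2 * pt (n / 2) else n`.
`up' p := if p % 2 = 0 then (up (p / 2)).image (2 * ·) else if p = 2 * pair e h + 1 is a vertex of the
refinement then {2 * pt (lv e), (if nx h < hi e then 2 * pair e (nx h) + 1 else 2 * pt (hv e))}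
else ∅`.
`rk' p := if p % 2 = 0 then rk (p / 2) + (4 N + 6) else (p / 2).unpair.2` (i.e. `h`; `h < 4 N + 4` for
subdivision vertices since positions are at most `4 N + 4`). `card`: at most `max k 2 ≤ k'`. `rk`:
`h < nx h`, `h < 4 N + 6`. `chord`: even `p`: from `elim.chord`. Subdivision vertex with next
subdivision vertex `q`: `2 * pt (lv e) ∈ up' q` (same `e`). Last subdivision vertex: the elements
`2 * pt (lv e)`, `2 * pt (hv e)` are equal or related by `elim.edge` for `e` (both ends in `P.X`;
whichever of `a e`, `b e` is the lower one). `edge`: segment `pair e h`: if `h = lo` and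
`nx h ≥ hi`: `elim.edge`; if `h = lo`, `nx h < hi`: `2 lv e` and the vertex `2 * pair e (nx h) + 1`,
and `2 * pt (lv e) ∈ up'`; if `h > lo`: the vertex `2 * pair e h + 1` and its second element of
`up'`. `sub`, `hub` clear (even numbers). `atom`: `x' = 2 x`, `x` no hub: the part of `x'` is
`(fib P.X pt (pt x)).image (2 * ·)`, constant position by `hpos`, `refi_piso`, `PIso.atom`,
`Atom.mono`. `x' = n` a subdivision vertex: the part is `{n}`, in `Sing M' (T+1)` (`mkEn`, `n_eq`,
`refi_mid_d`, `3 ≤ M'`, label `⟨T⟩`), solid, connected, order `≤ 2 < M'`. Last claim: for even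
`x', y'` by `hpos`; an odd vertex is alone in its part. -/
theorem refi_parts {W W' : Set (Pc (Lb Ω))} {M M' : ℕ} {k k' : ℕ∞} {T N : ℕ} {P : (CG Ω)} {b pos pt : ℕ → ℕ}
    {up : ℕ → Finset ℕ} {rk : ℕ → ℕ} (hW : Sat W') (hWW : W ⊆ W') (hS : Sing M' (T + 1) ⊆ W')
    (hM : M ≤ M') (hM3 : 3 ≤ M') (hk : k ≤ k') (hk2 : 2 ≤ k') (hc : Cls P)
    (h : Parts W M k P.G P.X (hs N b) pt up rk)
    (hpos : ∀ x ∈ P.X, ∀ y ∈ P.X, pt x = pt y → pos x = pos y)
    (hb : ∀ x ∈ P.X, pos x ≤ 4 * N + 4) :
    ∃ pt' up' rk', Parts W' M' k' (refi P pos T).G (refi P pos T).X (hs N fun i => 2 * b i)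
      pt' up' rk' ∧ ∀ x ∈ (refi P pos T).X, ∀ y ∈ (refi P pos T).X, pt' x = pt' y →
        posr pos x = posr pos y := by
  classical
  set P' := refi P pos T with hP'
  -- the ends of edges
  have hlv : ∀ e ∈ P.G.E, lv P pos e ∈ P.X := by
    intro e he
    unfold lv
    split_ifs
    · exact (hc e he).1
    · exact (hc e he).2
  have hhv : ∀ e ∈ P.G.E, hv P pos e ∈ P.X := by
    intro e he
    unfold hv
    split_ifs
    · exact (hc e he).2
    · exact (hc e he).1
  have hlh : ∀ e ∈ P.G.E, pt (lv P pos e) = pt (hv P pos e) ∨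
      pt (hv P pos e) ∈ up (pt (lv P pos e)) ∨ pt (lv P pos e) ∈ up (pt (hv P pos e)) := by
    intro e he
    have := h.elim.edge e he (hc e he).1 (hc e he).2
    unfold lv hv
    split_ifs
    · exact this
    · rcases this with h1 | h1 | h1
      · exact Or.inl h1.symm
      · exact Or.inr (Or.inr h1)
      · exact Or.inr (Or.inl h1)
  have hhi : ∀ e ∈ P.G.E, hi P pos e ≤ 4 * N + 4 := by
    intro e he
    rw [← pos_hv P pos e]
    exact hb _ (hhv e he)
  let pt' : ℕ → ℕ := fun n => if n % 2 = 0 then 2 * pt (n / 2) else n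
  let sec : ℕ → ℕ → ℕ := fun e h =>
    if nx h < hi P pos e then 2 * Nat.pair e (nx h) + 1 else 2 * pt (hv P pos e)
  let up' : ℕ → Finset ℕ := fun p =>
    if p % 2 = 0 then (up (p / 2)).image (fun x => 2 * x) else
      if p ∈ P'.X then {2 * pt (lv P pos (p / 2).unpair.1),
        sec (p / 2).unpair.1 (p / 2).unpair.2} else ∅
  let rk' : ℕ → ℕ := fun p => if p % 2 = 0 then rk (p / 2) + (4 * N + 6) else (p / 2).unpair.2
  have pt'_even : ∀ x, pt' (2 * x) = 2 * pt x := by
    intro x
    have h1 : 2 * x % 2 = 0 := by omega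
    have h2 : 2 * x / 2 = x := by omega
    simp only [pt', h1, h2, if_true]
  have pt'_odd : ∀ x, pt' (2 * x + 1) = 2 * x + 1 := by
    intro x
    have h1 : ¬ (2 * x + 1) % 2 = 0 := by omega
    simp only [pt', h1, if_false]
  have up'_even : ∀ x, up' (2 * x) = (up x).image (fun x => 2 * x) := by
    intro x
    have h1 : 2 * x % 2 = 0 := by omega
    have h2 : 2 * x / 2 = x := by omega
    simp only [up', h1, h2, if_true]
  have up'_mid : ∀ e h, 2 * Nat.pair e h + 1 ∈ P'.X →
      up' (2 * Nat.pair e h + 1) = {2 * pt (lv P pos e), sec e h} := by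
    intro e h hm
    have h1 : ¬ (2 * Nat.pair e h + 1) % 2 = 0 := by omega
    have h2 : (2 * Nat.pair e h + 1) / 2 = Nat.pair e h := by omega
    simp only [up', h1, h2, hm, if_true, if_false, Nat.unpair_pair]
  have up'_out : ∀ x, 2 * x + 1 ∉ P'.X → up' (2 * x + 1) = ∅ := by
    intro x hm
    have h1 : ¬ (2 * x + 1) % 2 = 0 := by omega
    simp only [up', h1, hm, if_false]
  have rk'_even : ∀ x, rk' (2 * x) = rk x + (4 * N + 6) := by
    intro x
    have h1 : 2 * x % 2 = 0 := by omega
    have h2 : 2 * x / 2 = x := by omega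
    simp only [rk', h1, h2, if_true]
  have rk'_odd : ∀ e h, rk' (2 * Nat.pair e h + 1) = h := by
    intro e h
    have h1 : ¬ (2 * Nat.pair e h + 1) % 2 = 0 := by omega
    have h2 : (2 * Nat.pair e h + 1) / 2 = Nat.pair e h := by omega
    simp only [rk', h1, h2, if_false, Nat.unpair_pair]
  have hmid : ∀ e ∈ P.G.E, ∀ h, lo P pos e < h → h < hi P pos e → h % 2 = 0 →
      2 * Nat.pair e h + 1 ∈ P'.X := fun e he h h1 h2 h3 =>
    mem_refiX.2 (Or.inr ⟨e, he, h, h1, h2, h3, rfl⟩)
  have hnx : ∀ e ∈ P.G.E, ∀ h ∈ segs P pos e, nx h < hi P pos e →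
      2 * Nat.pair e (nx h) + 1 ∈ P'.X := by
    intro e he h hh h1
    rw [mem_segs] at hh
    refine hmid e he _ ?_ h1 ?_
    · unfold nx
      omega
    · unfold nx
      omega
  have heven : ∀ x, 2 * x ∈ P'.X ↔ x ∈ P.X := by
    intro x
    rw [mem_refiX]
    constructor
    · rintro (⟨y, hy, h1⟩ | ⟨e, he, h, h1, h2, h3, h4⟩)
      · have : y = x := by omega
        rwa [← this]
      · omega
    · intro hx
      exact Or.inl ⟨x, hx, rfl⟩
  have hodd : ∀ x, 2 * x + 1 ∈ P'.X → ∃ e ∈ P.G.E, ∃ h, lo P pos e < h ∧ h < hi P pos e ∧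
      h % 2 = 0 ∧ x = Nat.pair e h := by
    intro x hx
    rcases mem_refiX.1 hx with ⟨y, hy, h1⟩ | ⟨e, he, h, h1, h2, h3, h4⟩
    · omega
    · exact ⟨e, he, h, h1, h2, h3, by omega⟩
  have hpar : ∀ n : ℕ, (∃ x, n = 2 * x) ∨ ∃ x, n = 2 * x + 1 := by
    intro n
    rcases Nat.even_or_odd n with ⟨x, hx⟩ | ⟨x, hx⟩
    · exact Or.inl ⟨x, by omega⟩
    · exact Or.inr ⟨x, hx⟩
  have hlast : ∀ x ∈ P'.X, ∀ y ∈ P'.X, pt' x = pt' y → posr pos x = posr pos y := by
    intro x hx y hy hxy
    rcases hpar x with ⟨x, rfl⟩ | ⟨x, rfl⟩ <;> rcases hpar y with ⟨y, rfl⟩ | ⟨y, rfl⟩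
    · rw [pt'_even, pt'_even] at hxy
      have := hpos x ((heven x).1 hx) y ((heven y).1 hy) (by omega)
      have h1 : 2 * x % 2 = 0 := by omega
      have h2 : 2 * x / 2 = x := by omega
      have h3 : 2 * y % 2 = 0 := by omega
      have h4 : 2 * y / 2 = y := by omega
      simp only [posr, h1, h2, h3, h4, if_true, this]
    · rw [pt'_even, pt'_odd] at hxy
      omega
    · rw [pt'_even, pt'_odd] at hxy
      omega
    · rw [pt'_odd, pt'_odd] at hxy
      rw [hxy]
  refine ⟨pt', up', rk', ⟨⟨?_, ?_, ?_, ?_⟩, ?_, ?_, ?_⟩, hlast⟩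
  · -- card
    intro p
    rcases hpar p with ⟨x, rfl⟩ | ⟨x, rfl⟩
    · rw [up'_even]
      exact (Nat.cast_le.2 Finset.card_image_le).trans ((h.elim.card x).trans hk)
    · by_cases hx : 2 * x + 1 ∈ P'.X
      · obtain ⟨e, he, h, h1, h2, h3, rfl⟩ := hodd x hx
        rw [up'_mid e h hx]
        exact (Nat.cast_le.2 Finset.card_le_two).trans hk2
      · rw [up'_out x hx]
        simp
  · -- rk
    intro p q hq
    rcases hpar p with ⟨x, rfl⟩ | ⟨x, rfl⟩
    · rw [up'_even, Finset.mem_image] at hq
      obtain ⟨y, hy, rfl⟩ := hq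
      rw [rk'_even, rk'_even]
      have := h.elim.rk x y hy
      omega
    · by_cases hx : 2 * x + 1 ∈ P'.X
      · obtain ⟨e, he, h, h1, h2, h3, rfl⟩ := hodd x hx
        rw [up'_mid e h hx, Finset.mem_insert, Finset.mem_singleton] at hq
        have h4 := hhi e he
        rw [rk'_odd]
        rcases hq with rfl | rfl
        · rw [rk'_even]
          omega
        · simp only [sec]
          split_ifs with h5
          · rw [rk'_odd]
            unfold nx
            omega
          · rw [rk'_even]
            omega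
      · rw [up'_out x hx] at hq
        simp at hq
  · -- chord
    have key : ∀ e ∈ P.G.E, ∀ h ∈ segs P pos e, 2 * pt (lv P pos e) = sec e h ∨
        sec e h ∈ up' (2 * pt (lv P pos e)) ∨ 2 * pt (lv P pos e) ∈ up' (sec e h) := by
      intro e he h hh
      by_cases h1 : nx h < hi P pos e
      · right
        right
        simp only [sec, h1, if_true]
        rw [up'_mid _ _ (hnx e he h hh h1)]
        simp
      · simp only [sec, h1, if_false]
        rw [up'_even, up'_even]
        rcases hlh e he with h2 | h2 | h2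
        · left
          rw [h2]
        · right
          left
          exact Finset.mem_image_of_mem _ h2
        · right
          right
          exact Finset.mem_image_of_mem _ h2
    intro p q hq r hr
    rcases hpar p with ⟨x, rfl⟩ | ⟨x, rfl⟩
    · rw [up'_even, Finset.mem_image] at hq hr
      obtain ⟨q, hq, rfl⟩ := hq
      obtain ⟨r, hr, rfl⟩ := hr
      show 2 * q = 2 * r ∨ 2 * r ∈ up' (2 * q) ∨ 2 * q ∈ up' (2 * r)
      rw [up'_even, up'_even]
      rcases h.elim.chord x q hq r hr with h1 | h1 | h1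
      · left
        rw [h1]
      · right
        left
        exact Finset.mem_image_of_mem _ h1
      · right
        right
        exact Finset.mem_image_of_mem _ h1
    · by_cases hx : 2 * x + 1 ∈ P'.X
      · obtain ⟨e, he, h, h1, h2, h3, rfl⟩ := hodd x hx
        rw [up'_mid e h hx, Finset.mem_insert, Finset.mem_singleton] at hq hr
        have hk := key e he h (mem_segs.2 (Or.inr ⟨h1, h2, h3⟩))
        rcases hq with rfl | rfl <;> rcases hr with rfl | rfl
        · exact Or.inl rfl
        · exact hk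
        · rcases hk with hk | hk | hk
          · exact Or.inl hk.symm
          · exact Or.inr (Or.inr hk)
          · exact Or.inr (Or.inl hk)
        · exact Or.inl rfl
      · rw [up'_out x hx] at hq
        simp at hq
  · -- edge
    intro s hs _ _
    obtain ⟨e, he, h, hh, rfl⟩ := mem_refiE.1 hs
    rw [hP', refi_a, refi_b]
    have hb' : pt' (if nx h < hi P pos e then 2 * Nat.pair e (nx h) + 1 else 2 * hv P pos e) =
        sec e h := by
      simp only [sec]
      split_ifs
      · rw [pt'_odd]
      · rw [pt'_even]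
    rw [hb']
    by_cases h1 : h = lo P pos e
    · rw [if_pos h1, pt'_even]
      by_cases h2 : nx h < hi P pos e
      · right
        right
        simp only [sec, h2, if_true]
        rw [up'_mid _ _ (hnx e he h hh h2)]
        simp
      · simp only [sec, h2, if_false]
        rw [up'_even, up'_even]
        rcases hlh e he with h3 | h3 | h3
        · left
          rw [h3]
        · right
          left
          exact Finset.mem_image_of_mem _ h3
        · right
          right
          exact Finset.mem_image_of_mem _ h3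
    · rw [if_neg h1, pt'_odd]
      right
      left
      have h2 := (mem_segs.1 hh).resolve_left h1
      rw [up'_mid e h (hmid e he h h2.1 h2.2.1 h2.2.2)]
      simp
  · -- sub
    intro x hx
    obtain ⟨i, hi, rfl⟩ := mem_hs.1 hx
    exact (heven _).2 (h.sub (mem_hs.2 ⟨i, hi, rfl⟩))
  · -- hub
    intro x hx y hy hxy
    obtain ⟨i, hi, rfl⟩ := mem_hs.1 hx
    rcases hpar y with ⟨y, rfl⟩ | ⟨y, rfl⟩
    · rw [pt'_even, pt'_even] at hxy
      rw [h.hub (b i) (mem_hs.2 ⟨i, hi, rfl⟩) y ((heven y).1 hy) (by omega)]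
    · rw [pt'_even, pt'_odd] at hxy
      omega
  · -- atoms
    intro x hx hxh
    rcases hpar x with ⟨x, rfl⟩ | ⟨x, rfl⟩
    · have hxX := (heven x).1 hx
      have hxh' : x ∉ hs N b := by
        intro h1
        obtain ⟨i, hi, rfl⟩ := mem_hs.1 h1
        exact hxh (mem_hs.2 ⟨i, hi, rfl⟩)
      have hfib : fib P'.X pt' (pt' (2 * x)) = (fib P.X pt (pt x)).image (fun x => 2 * x) := by
        ext y
        rw [mem_fib, Finset.mem_image, pt'_even]
        rcases hpar y with ⟨y, rfl⟩ | ⟨y, rfl⟩
        · rw [pt'_even, heven]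
          constructor
          · rintro ⟨h1, h2⟩
            exact ⟨y, mem_fib.2 ⟨h1, by omega⟩, rfl⟩
          · rintro ⟨z, hz, hzy⟩
            have : z = y := by
              have : 2 * z = 2 * y := hzy
              omega
            subst this
            exact ⟨(mem_fib.1 hz).1, by rw [(mem_fib.1 hz).2]⟩
        · rw [pt'_odd]
          constructor
          · rintro ⟨h1, h2⟩
            omega
          · rintro ⟨z, hz, hzy⟩
            have : 2 * z = 2 * y + 1 := hzy
            omega
      rw [hfib]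
      obtain ⟨fe, hfe⟩ := refi_piso (P := P) (pos := pos) T (Y := fib P.X pt (pt x)) (by
        intro y hy z hz
        exact hpos y (mem_fib.1 hy).1 z (mem_fib.1 hz).1
          ((mem_fib.1 hy).2.trans (mem_fib.1 hz).2.symm))
      exact PIso.atom hW hfe ((h.atom x hxX hxh').mono hWW hM)
    · have hfib : fib P'.X pt' (pt' (2 * x + 1)) = {2 * x + 1} := by
        ext y
        rw [mem_fib, Finset.mem_singleton, pt'_odd]
        constructor
        · rintro ⟨h1, h2⟩
          rcases hpar y with ⟨y, rfl⟩ | ⟨y, rfl⟩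
          · rw [pt'_even] at h2
            omega
          · rw [pt'_odd] at h2
            exact h2
        · rintro rfl
          exact ⟨hx, pt'_odd x⟩
      rw [hfib]
      have hd : P'.G.d {2 * x + 1} ≤ 2 := refi_mid_d _ (by omega)
      refine ⟨⟨mkEn P'.G {2 * x + 1}, hS ⟨2 * x + 1, rfl, ?_, ?_⟩⟩, ?_, ?_, ?_⟩
      · have h1 := (mkEn P'.G {2 * x + 1}).n_eq
        show (mkEn P'.G {2 * x + 1}).n < M'
        omega
      · show (P'.G.lab (2 * x + 1)).v < T + 1
        rw [hP', refi_lab, if_neg (by omega)]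
        exact Nat.lt_succ_self T
      · refine ⟨2 * x + 1, Finset.mem_singleton_self _, ?_⟩
        intro Z hZ hxZ
        have : Z = {2 * x + 1} := Finset.Subset.antisymm hZ (Finset.singleton_subset_iff.2 hxZ)
        rw [this]
      · intro u hu v hv
        rw [Finset.mem_singleton.1 hu, Finset.mem_singleton.1 hv]
        exact Gr.Conn.refl
      · omega

end Pool.Agent.W2411ls
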