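import Mathlib
import Pool.Agent.W_2411ls_h59.RefiDef

/-! From an immersion of the refinements to an immersion. -/

set_option autoImplicit false
set_option linter.unusedSectionVars false

namespace Pool.Agent.W2411ls

open Pool.Agent.W2411c4

variable {Ω : Type} [Preorder Ω] [Inhabited Ω]

/-- the two ends of an edge -/
theorem lv_cases (P : (CG Ω)) (pos : ℕ → ℕ) (e : ℕ) :
    (lv P pos e = P.G.a e ∧ hv P pos e = P.G.b e) ∨
      (lv P pos e = P.G.b e ∧ hv P pos e = P.G.a e) := by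
  unfold lv hv
  split_ifs
  · exact Or.inl ⟨rfl, rfl⟩
  · exact Or.inr ⟨rfl, rfl⟩

theorem lo_mem_segs (P : (CG Ω)) (pos : ℕ → ℕ) (e : ℕ) : lo P pos e ∈ segs P pos e :=
  mem_segs.2 (Or.inl rfl)

/-- the last segment -/
theorem exists_last (P : (CG Ω)) (pos : ℕ → ℕ) (e : ℕ) :
    ∃ h ∈ segs P pos e, ¬ nx h < hi P pos e := by
  have hne : (segs P pos e).Nonempty := ⟨_, lo_mem_segs P pos e⟩
  refine ⟨(segs P pos e).max' hne, Finset.max'_mem _ _, ?_⟩
  intro hlt
  have h1 := mem_segs.1 (Finset.max'_mem _ hne)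
  have h2 : nx ((segs P pos e).max' hne) ∈ segs P pos e := by
    rw [mem_segs]
    unfold nx at hlt ⊢
    have h3 := Finset.le_max' _ _ (lo_mem_segs P pos e)
    right
    omega
  have h3 := Finset.le_max' _ _ h2
  unfold nx at h3
  omega

theorem refi_a1 (P : (CG Ω)) (pos : ℕ → ℕ) (T e h : ℕ) : (refi P pos T).G.a (Nat.pair e h) =
    if h = lo P pos e then 2 * lv P pos e else 2 * Nat.pair e h + 1 := by
  simp [refi]

theorem refi_b1 (P : (CG Ω)) (pos : ℕ → ℕ) (T e h : ℕ) : (refi P pos T).G.b (Nat.pair e h) =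
    if nx h < hi P pos e then 2 * Nat.pair e (nx h) + 1 else 2 * hv P pos e := by
  simp [refi]

theorem refi_lab_even (P : (CG Ω)) (pos : ℕ → ℕ) (T x : ℕ) :
    (refi P pos T).G.lab (2 * x) = P.G.lab x := by
  simp [refi]

theorem refi_lab_odd (P : (CG Ω)) (pos : ℕ → ℕ) (T x : ℕ) :
    (refi P pos T).G.lab (2 * x + 1) = ⟨T, default⟩ := by
  have : (2 * x + 1) % 2 = 1 := by omega
  simp [refi, this]

theorem refi_not_inc {P : (CG Ω)} {pos : ℕ → ℕ} {T e h y : ℕ} (hy : ¬ P.G.Inc e y) :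
    ¬ (refi P pos T).G.Inc (Nat.pair e h) (2 * y) := by
  intro hi
  apply hy
  unfold Gr.Inc at hi ⊢
  rw [refi_a1, refi_b1] at hi
  have h2 := lv_cases P pos e
  split_ifs at hi with h3 h4 h4
  all_goals omega

/-- Unrefining. PROOF. Let `η₀, Φ₀` be the immersion. For `x ∈ P.X` the label of `η₀ (2 x)`
is the label of `2 x`, i.e. that of `x`, with value `< T`; subdivision vertices have label `⟨T⟩`; so
`η₀ (2 x) = 2 x'` with `x' ∈ P'.X` (`mem_refiX`); `η x := η₀ (2 x) / 2`. For `e ∈ P.G.E` let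
`S e := {n | ∃ s ∈ segs P pos e, n ∈ Φ₀ (Nat.pair e s)}` and
`Φ e := {e' | e' ∈ P'.G.E ∧ ∀ h ∈ segs P' pos' e', Nat.pair e' h ∈ S e}`.
`maps`, `inj`, `lab`, `sub` clear. `disj`: `segs P' pos' e'` is not empty (contains `lo`), and the
sets `Φ₀ (pair e s)` are disjoint. `strong`: `y ∈ P.X` not an end of `e`, `e' ∈ Φ e`, suppose that
`η y` is an end of `e'`, i.e. `lv e'` or `hv e'`. The first (last) segment of `e'` has the end
`2 η(y) = η₀ (2 y)` and is in `Φ₀ (pair e s)` for some `s`; `pair e s` is not incident with `2 y` (its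
ends are `2 lv e`, `2 hv e` or odd numbers, and `y ≠ lv e, hv e`), contradiction to `strong` of `Φ₀`.
`conn`: by `refi_conn` for `P` and `conn_map`-style composition, `S e` connects `η₀ (2 lv e)` and
`η₀ (2 hv e)` in the refinement of `P'`. Now let `ρ n := n / 2` for even `n`, and for
`n = 2 * pair e' h + 1`: if `e' ∈ Φ e` then `ρ n := lv e'`; otherwise choose a missing segment
`h₀ e' ∈ segs P' pos' e'`, `pair e' h₀ ∉ S e`, and `ρ n := lv e'` if `h ≤ h₀`, `hv e'` otherwise.
For every `g = pair e' h ∈ S e` (it is in `E` of the refinement): if `e' ∈ Φ e` then both ends go to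
`lv e'` or `hv e'`, connected by `Φ e`. Otherwise `h ≠ h₀`: for `h < h₀` both ends go to `lv e'`
(`h₀` is even and `> h`, so `nx h ≤ h₀ < hi`), for `h > h₀ ≥ lo` both go to `hv e'`. So `conn_map`
with `θ := ρ` gives that `Φ e` connects `η (lv e)` and `η (hv e)`, and `{lv e, hv e}` are the two
ends of `e`. (`ends in P'.X` are not needed; if `e' ∉ P'.G.E` the value of `ρ` does not matter.) -/
theorem unrefine {P P' : (CG Ω)} (hP : Cls P) (hP' : Cls P') {T : ℕ} (hT : LabT P.G P.X T)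
    (hT' : LabT P'.G P'.X T) {pos pos' : ℕ → ℕ} (h : CR (refi P pos T) (refi P' pos' T)) :
    CR P P' := by
  classical
  obtain ⟨η₀, Φ₀, h⟩ := h
  have hx2 : ∀ x ∈ P.X, 2 * x ∈ (refi P pos T).X := fun x hx =>
    mem_refiX.2 (Or.inl ⟨x, hx, rfl⟩)
  have key : ∀ x ∈ P.X, ∃ x' ∈ P'.X, 2 * x' = η₀ (2 * x) := by
    intro x hx
    rcases mem_refiX.1 (h.maps _ (hx2 x hx)) with h1 | ⟨e, _, s, _, _, _, h1⟩
    · exact h1
    · exfalso
      have h2 := h.lab _ (hx2 x hx)
      rw [← h1, refi_lab_even, refi_lab_odd] at h2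
      have h3 := hT x hx
      rw [h2.1] at h3
      exact lt_irrefl _ h3
  have hη : ∀ x ∈ P.X, 2 * (η₀ (2 * x) / 2) = η₀ (2 * x) := by
    intro x hx
    obtain ⟨x', _, h2⟩ := key x hx
    omega
  have hpE : ∀ e ∈ P.G.E, ∀ s ∈ segs P pos e, Nat.pair e s ∈ (refi P pos T).G.E :=
    fun e he s hs => mem_refiE.2 ⟨e, he, s, hs, rfl⟩
  set S : ℕ → Set ℕ := fun e => {n | ∃ s ∈ segs P pos e, n ∈ Φ₀ (Nat.pair e s)} with hS
  set Φ : ℕ → Set ℕ := fun e =>
    {e' | e' ∈ P'.G.E ∧ ∀ s ∈ segs P' pos' e', Nat.pair e' s ∈ S e} with hΦ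
  refine ⟨fun x => η₀ (2 * x) / 2, Φ, ?_, ?_, ?_, ?_, ?_, ?_, ?_⟩
  · intro x hx
    obtain ⟨x', h1, h2⟩ := key x hx
    have : η₀ (2 * x) / 2 = x' := by omega
    simp only [this]
    exact h1
  · intro x hx y hy hxy
    have h1 := hη x hx
    have h2 := hη y hy
    have h3 := h.inj _ (hx2 x hx) _ (hx2 y hy) (by
      rw [← h1, ← h2]
      exact congrArg (fun z => 2 * z) hxy)
    omega
  · intro x hx
    have h1 := h.lab _ (hx2 x hx)
    rw [← hη x hx, refi_lab_even, refi_lab_even] at h1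
    exact h1
  · intro e _ f hf
    exact hf.1
  · intro e he
    have hc1 : (refi P' pos' T).G.Conn (S e) (η₀ (2 * lv P pos e)) (η₀ (2 * hv P pos e)) := by
      refine conn_map (G := (refi P pos T).G) η₀ ?_ (refi_conn (T := T) he)
      rintro f ⟨s, hs, rfl⟩
      refine Gr.Conn.mono ?_ (h.conn _ (hpE e he s hs))
      intro n hn
      exact ⟨s, hs, hn⟩
    have hch : ∀ e', ∃ s, e' ∈ P'.G.E → e' ∉ Φ e → s ∈ segs P' pos' e' ∧ Nat.pair e' s ∉ S e := by
      intro e'
      by_cases h1 : e' ∈ P'.G.E ∧ e' ∉ Φ e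
      · obtain ⟨h1, h2⟩ := h1
        have h3 : ¬ ∀ s ∈ segs P' pos' e', Nat.pair e' s ∈ S e := fun h4 => h2 ⟨h1, h4⟩
        push Not at h3
        obtain ⟨s, h3, h4⟩ := h3
        exact ⟨s, fun _ _ => ⟨h3, h4⟩⟩
      · exact ⟨0, fun h2 h3 => absurd ⟨h2, h3⟩ h1⟩
    choose c hc using hch
    set val : ℕ → ℕ → ℕ := fun e' s =>
      if e' ∈ Φ e then lv P' pos' e' else if s ≤ c e' then lv P' pos' e' else hv P' pos' e' with hval
    set ρ : ℕ → ℕ := fun n =>
      if n % 2 = 0 then n / 2 else val (n / 2).unpair.1 (n / 2).unpair.2 with hρ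
    have hρe : ∀ x, ρ (2 * x) = x := by
      intro x
      simp [hρ]
    have hρo : ∀ e' s, ρ (2 * Nat.pair e' s + 1) = val e' s := by
      intro e' s
      have h1 : (2 * Nat.pair e' s + 1) % 2 = 1 := by omega
      have h2 : (2 * Nat.pair e' s + 1) / 2 = Nat.pair e' s := by omega
      simp only [hρ, h1, h2, Nat.unpair_pair]
      simp
    have hc2 : P'.G.Conn (Φ e) (ρ (η₀ (2 * lv P pos e))) (ρ (η₀ (2 * hv P pos e))) := by
      refine conn_map (G := (refi P' pos' T).G) ρ ?_ hc1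
      intro g hg
      obtain ⟨s, hs, hg'⟩ := hg
      obtain ⟨e', he', t, ht, rfl⟩ := mem_refiE.1 (h.sub _ (hpE e he s hs) g hg')
      have hgS : Nat.pair e' t ∈ S e := ⟨s, hs, hg'⟩
      rw [refi_a1, refi_b1]
      have hA : ρ (if t = lo P' pos' e' then 2 * lv P' pos' e' else 2 * Nat.pair e' t + 1) =
          if t = lo P' pos' e' then lv P' pos' e' else val e' t := by
        split_ifs
        · exact hρe _
        · exact hρo _ _
      have hB : ρ (if nx t < hi P' pos' e' then 2 * Nat.pair e' (nx t) + 1 else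
          2 * hv P' pos' e') = if nx t < hi P' pos' e' then val e' (nx t) else hv P' pos' e' := by
        split_ifs
        · exact hρo _ _
        · exact hρe _
      rw [hA, hB]
      by_cases hin : e' ∈ Φ e
      · have h1 : P'.G.Conn (Φ e) (lv P' pos' e') (hv P' pos' e') := by
          rcases lv_cases P' pos' e' with ⟨h1, h2⟩ | ⟨h1, h2⟩
          · rw [h1, h2]
            exact Gr.conn_edge hin (Or.inl rfl) (Or.inr rfl)
          · rw [h1, h2]
            exact Gr.conn_edge hin (Or.inr rfl) (Or.inl rfl)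
        have h2 : ∀ s, val e' s = lv P' pos' e' := by
          intro s
          simp [hval, hin]
        rw [h2, h2, ite_self]
        split_ifs
        · exact Gr.Conn.refl
        · exact h1
      · obtain ⟨h1, h2⟩ := hc e' he' hin
        have hne : t ≠ c e' := by
          rintro h3
          rw [← h3] at h2
          exact h2 hgS
        have h3 : ∀ s, val e' s = if s ≤ c e' then lv P' pos' e' else hv P' pos' e' := by
          intro s
          simp [hval, hin]
        rw [h3, h3]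
        rw [mem_segs] at h1 ht
        rcases lt_or_gt_of_ne hne with h4 | h4
        · have h5 : nx t ≤ c e' := by unfold nx; omega
          have h6 : nx t < hi P' pos' e' := by omega
          rw [if_pos h4.le, if_pos h6, if_pos h5, ite_self]
          exact Gr.Conn.refl
        · have h5 : ¬ nx t ≤ c e' := by unfold nx; omega
          have h6 : ¬ t = lo P' pos' e' := by omega
          rw [if_neg h6, if_neg (by omega : ¬ t ≤ c e'), if_neg h5, ite_self]
          exact Gr.Conn.refl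
    have hρη : ∀ x ∈ P.X, ρ (η₀ (2 * x)) = η₀ (2 * x) / 2 := by
      intro x hx
      conv_lhs => rw [← hη x hx]
      exact hρe _
    obtain ⟨ha, hb⟩ := hP e he
    rcases lv_cases P pos e with ⟨h1, h2⟩ | ⟨h1, h2⟩
    · rw [h1, h2, hρη _ ha, hρη _ hb] at hc2
      exact hc2
    · rw [h1, h2, hρη _ hb, hρη _ ha] at hc2
      exact hc2.symm
  · intro e he f hf hef
    rw [Set.disjoint_left]
    rintro g ⟨_, h2⟩ ⟨_, h3⟩
    obtain ⟨s, hs, h4⟩ := h2 _ (lo_mem_segs P' pos' g)
    obtain ⟨t, ht, h5⟩ := h3 _ (lo_mem_segs P' pos' g)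
    refine Set.disjoint_left.1 (h.disj _ (hpE e he s hs) _ (hpE f hf t ht) ?_) h4 h5
    intro h6
    exact hef (Nat.pair_eq_pair.1 h6).1
  · intro e he y hy hey f hf hinc
    have h0 : lv P' pos' f = η₀ (2 * y) / 2 ∨ hv P' pos' f = η₀ (2 * y) / 2 := by
      have h1 := lv_cases P' pos' f
      unfold Gr.Inc at hinc
      omega
    have hη' := hη y hy
    rcases h0 with h0 | h0
    · obtain ⟨s, hs, h2⟩ := hf.2 _ (lo_mem_segs P' pos' f)
      refine h.strong _ (hpE e he s hs) (2 * y) (hx2 y hy) (refi_not_inc hey) _ h2 ?_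
      left
      rw [refi_a1, if_pos rfl]
      omega
    · obtain ⟨m, hm, hm'⟩ := exists_last P' pos' f
      obtain ⟨s, hs, h2⟩ := hf.2 _ hm
      refine h.strong _ (hpE e he s hs) (2 * y) (hx2 y hy) (refi_not_inc hey) _ h2 ?_
      right
      rw [refi_b1, if_neg hm']
      omega

end Pool.Agent.W2411ls
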