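import Mathlib
import Pool.Agent.W_2411ls_h59.Unref
import Pool.Agent.W_2411ls_h59.RefiCut
import Pool.Agent.W_2411ls_h59.RefiPt
import Pool.Agent.W_2411ls_h59.LinPwo

/-! Segments are well-quasi-ordered. -/

set_option autoImplicit false
set_option linter.unusedSectionVars false

open Set

namespace Pool.Agent.W2411ls

open Pool.Agent.W2411c4

variable {Ω : Type} [Preorder Ω] [Inhabited Ω] [WellQuasiOrderedLE Ω]

/-- The refinement of a segment is linear. PROOF. `pt', up', rk'` from `refi_parts` (positions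
of hubs `4 i + 3 ≤ 4 N + 3`, others `≤ 4 N + 4`). `cls`: `refi_cls`. `lab`: even vertices `< T`, odd
ones have `T`. `posb`: `posr pos (2 * b i) = pos (b i)`. `pose`: a vertex `2 x`, `x` no hub, as in
`P`; a subdivision vertex has the position `h`, even, `lo < h < hi` with `lo ≥ 2`,
`hi ≤ 4 N + 4`. `edge`: `posr_seg`: `h` and `min (nx h) hi`, `nx h ≤ h + 2`. `str`: `refi_str` and
`IsPos.str`. `cut`: `refi_cut`. `loc`: let `1 ≤ i < N` and `U` be given, `U₀ := P.X.filter (2 x ∈ U)`;
`d U₀ ≤ d U` (`refi_d_le`). For `j ≤ N`: if `j < i` then `b j ∈ U₀` (position `4 j + 3 ≤ 4 i`), if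
`j > i` then `b j ∉ U₀` (position `> 4 i + 4`). If `2 * b i ∈ U` then `Fst N b (i+1) U₀`, so
`d (lvl P pos (i+1)) ≤ d U₀` by `min`; else `Fst N b i U₀`, `d (lvl P pos i) ≤ d U₀`. Use
`refi_cut` for the cards. -/
theorem seg_refi_lin {W W' : Set (Pc (Lb Ω))} {M M' : ℕ} {k k' : ℕ∞} {m Θ T N : ℕ} {P : (CG Ω)} {b pos pt : ℕ → ℕ}
    {up : ℕ → Finset ℕ} {rk : ℕ → ℕ} (hW : Sat W') (hWW : W ⊆ W') (hS : Sing M' (T + 1) ⊆ W')
    (hM : M ≤ M') (hM3 : 3 ≤ M') (hk : k ≤ k') (hk2 : 2 ≤ k')
    (h : IsPos W M k m Θ T P N b pos pt up rk) :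
    refi P pos T ∈ LinC W' M' k' m Θ (T + 1) := by
  have hub : ∀ i ≤ N, b i ∈ P.X := fun i hi => h.parts.sub (mem_hs.2 ⟨i, hi, rfl⟩)
  have hlow : ∀ x ∈ P.X, 2 ≤ pos x := by
    intro x hx
    by_cases h1 : x ∈ hs N b
    · obtain ⟨i, hi, rfl⟩ := mem_hs.1 h1
      rw [h.posb i hi]
      omega
    · exact (h.pose x hx h1).2.1
  have hupp : ∀ x ∈ P.X, pos x ≤ 4 * N + 4 := by
    intro x hx
    by_cases h1 : x ∈ hs N b
    · obtain ⟨i, hi, rfl⟩ := mem_hs.1 h1
      rw [h.posb i hi]
      omega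
    · exact (h.pose x hx h1).2.2
  have hposr : ∀ x, posr pos (2 * x) = pos x := by
    intro x
    unfold posr
    have e1 : 2 * x % 2 = 0 := by omega
    have e2 : 2 * x / 2 = x := by omega
    rw [if_pos e1, e2]
  have hposo : ∀ e g, posr pos (2 * Nat.pair e g + 1) = g := by
    intro e g
    unfold posr
    have e1 : ¬ (2 * Nat.pair e g + 1) % 2 = 0 := by omega
    have e2 : (2 * Nat.pair e g + 1) / 2 = Nat.pair e g := by omega
    rw [if_neg e1, e2, Nat.unpair_pair]
  obtain ⟨pt', up', rk', hparts, hpost⟩ :=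
    refi_parts hW hWW hS hM hM3 hk hk2 h.cls h.parts h.post hupp
  refine ⟨N, fun i => 2 * b i, posr pos, pt', up', rk', ?_⟩
  refine ⟨refi_cls h.cls pos T, hparts, ?_, ?_, ?_, hpost, ?_, ?_, ?_, ?_⟩
  · intro x hx
    rcases mem_refiX.1 hx with ⟨y, hy, rfl⟩ | ⟨e, _, g, _, _, _, rfl⟩
    · have h1 := h.lab y hy
      have e1 : 2 * y % 2 = 0 := by omega
      have e2 : 2 * y / 2 = y := by omega
      have h2 : (refi P pos T).G.lab (2 * y) = P.G.lab y := by
        change (if 2 * y % 2 = 0 then P.G.lab (2 * y / 2) else ⟨T, default⟩) = P.G.lab y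
        rw [if_pos e1, e2]
      rw [h2]
      omega
    · have e1 : ¬ (2 * Nat.pair e g + 1) % 2 = 0 := by omega
      have h2 : (refi P pos T).G.lab (2 * Nat.pair e g + 1) = ⟨T, default⟩ := by
        change (if (2 * Nat.pair e g + 1) % 2 = 0 then
          P.G.lab ((2 * Nat.pair e g + 1) / 2) else ⟨T, default⟩) = ⟨T, default⟩
        rw [if_neg e1]
      rw [h2]
      exact Nat.lt_succ_self T
  · intro i hi
    rw [hposr]
    exact h.posb i hi
  · intro x hx hxn
    rcases mem_refiX.1 hx with ⟨y, hy, rfl⟩ | ⟨e, he, g, h1, h2, h3, rfl⟩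
    · rw [hposr]
      apply h.pose y hy
      intro hyh
      obtain ⟨i, hi, rfl⟩ := mem_hs.1 hyh
      exact hxn (mem_hs.2 ⟨i, hi, rfl⟩)
    · rw [hposo]
      have ha := h.cls e he
      have h4 := hlow _ ha.1
      have h5 := hlow _ ha.2
      have h6 := hupp _ ha.1
      have h7 := hupp _ ha.2
      unfold lo at h1
      unfold hi at h2
      omega
  · intro n hn
    obtain ⟨e, he, g, hg, rfl⟩ := mem_refiE.1 hn
    obtain ⟨h1, h2⟩ := posr_seg (T := T) he hg
    rw [h1, h2]
    have h3 := mem_segs.1 hg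
    have h4 := lo_le_hi P pos e
    unfold nx
    omega
  · intro i hi
    exact (refi_str h.cls pos T i (h.posb i hi)).trans (h.str i hi)
  · intro i h1 h2
    rw [refi_cut h.cls]
    exact h.cut i h1 h2
  · intro i h1 h2 U hU hU1 hU2
    have hd := refi_d_le h.cls pos T U
    have hb1 : ∀ j ≤ N, j < i → b j ∈ P.X.filter fun x => 2 * x ∈ U := by
      intro j hj hji
      rw [Finset.mem_filter]
      refine ⟨hub j hj, hU1 _ (mem_refiX.2 (Or.inl ⟨b j, hub j hj, rfl⟩)) ?_⟩
      rw [hposr, h.posb j hj]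
      omega
    have hb2 : ∀ j ≤ N, i < j → b j ∉ P.X.filter fun x => 2 * x ∈ U := by
      intro j hj hji hc
      rw [Finset.mem_filter] at hc
      have h3 := hU2 _ hc.2
      rw [hposr, h.posb j hj] at h3
      omega
    constructor
    · intro hbi
      rw [refi_cut h.cls]
      refine (h.min (i + 1) (by omega) (by omega) (P.X.filter fun x => 2 * x ∈ U)
        (Finset.filter_subset _ _) ?_).trans hd
      intro j hj
      constructor
      · intro hjU
        by_contra hc
        exact hb2 j hj (by omega) hjU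
      · intro hji
        by_cases hji' : j = i
        · subst hji'
          rw [Finset.mem_filter]
          exact ⟨hub j hj, hbi⟩
        · exact hb1 j hj (by omega)
    · intro hbi
      rw [refi_cut h.cls]
      refine (h.min i h1 (by omega) (P.X.filter fun x => 2 * x ∈ U)
        (Finset.filter_subset _ _) ?_).trans hd
      intro j hj
      constructor
      · intro hjU
        by_contra hc
        by_cases hji' : j = i
        · subst hji'
          rw [Finset.mem_filter] at hjU
          exact hbi hjU.2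
        · exact hb2 j hj (by omega) hjU
      · exact hb1 j hj

/-- Segments are wqo. PROOF. `W' := satur (W ∪ Sing (M+3) (T+1))` is pwo and saturated.
`lin_pwo` for `W', M + 3, k + 2, m, Θ, T + 1`. For a sequence in `SegC` choose positions
(`exists_pos`), apply it to the refinements (`seg_refi_lin`) and use `unrefine`. -/
theorem seg_pwo {W : Set (Pc (Lb Ω))} (hW : W.PartiallyWellOrderedOn Rp) (M : ℕ) (k : ℕ∞)
    (hkT : ThinOK Ω k) (m Θ T : ℕ) (hΘ : 5 * m ≤ Θ) : (SegC W M k m Θ T).PartiallyWellOrderedOn CR := by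
  have hW' : (satur (W ∪ Sing (M + 3) (T + 1))).PartiallyWellOrderedOn Rp :=
    satur_pwo (hW.union (sing_pwo _ _))
  have hl := lin_pwo hW' (M + 3) (k + (2 : ℕ)) (hkT.add 2) m Θ (T + 1) hΘ
  rw [Set.partiallyWellOrderedOn_iff_exists_lt] at hl ⊢
  intro f hf
  choose N b pt up rk h using hf
  choose pos hp using fun n => exists_pos (h n)
  obtain ⟨i, j, hij, hR⟩ := hl (fun n => refi (f n) (pos n) T) (fun n =>
    seg_refi_lin (satur_sat _) (Set.subset_union_left.trans (subset_satur _))
      (Set.subset_union_right.trans (subset_satur _)) (by omega) (by omega) le_self_add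
      le_add_self (hp n))
  exact ⟨i, j, hij, unrefine (hp i).cls (hp j).cls (hp i).lab (hp j).lab hR⟩

end Pool.Agent.W2411ls
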