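import Mathlib
import Pool.Agent.W_2411ls_h59.StrDef
import Pool.Agent.W_2411tw_h30.SolidQuo
import Pool.Agent.W_2411c4_h26.StarPaths

/-! The quotient of a node by its parts: no fat star, the hubs are highly edge-connected. -/

set_option autoImplicit false
set_option linter.unusedSectionVars false

namespace Pool.Agent.W2411ls

open Pool.Agent.W2411c4

variable {Ω : Type} [Preorder Ω] [Inhabited Ω]

private theorem strquo_idx {t j l j' l' : ℕ} (hl : l < t) (hl' : l' < t)
    (h : t * j + l = t * j' + l') : j = j' ∧ l = l' := by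
  have h1 : (t * j + l) / t = j := by
    rw [Nat.mul_add_div (by omega), Nat.div_eq_of_lt hl, Nat.add_zero]
  have h2 : (t * j' + l') / t = j' := by
    rw [Nat.mul_add_div (by omega), Nat.div_eq_of_lt hl', Nat.add_zero]
  have h3 : j = j' := by rw [← h1, ← h2, h]
  subst h3
  exact ⟨rfl, by omega⟩

private theorem strquo_lt {t j l : ℕ} (hj : j < t) (hl : l < t) : t * j + l < t * t := by
  have h1 : t * (j + 1) ≤ t * t := Nat.mul_le_mul_left t hj
  rw [Nat.mul_add, Nat.mul_one] at h1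
  omega

/-- a fat star gives `K(t)` -/
theorem star_hasK {Q : Type} {G : Gr Q} {t z : ℕ} {S : Finset ℕ}
    (h : W2411si.Star G (t * t) z S) : HasK t G := by
  classical
  obtain ⟨P, hP1, hP2, hP3⟩ := W2411si.star_paths h
  obtain ⟨-, hcard, -⟩ := h
  have hg : ∃ g : ℕ → ℕ, (∀ j < t * t, g j ∈ S) ∧
      ∀ j < t * t, ∀ k < t * t, g j = g k → j = k := by
    refine ⟨fun j => if h : j < t * t then S.orderEmbOfFin hcard ⟨j, h⟩ else 0, ?_, ?_⟩
    · intro j hj
      simp only [hj, dif_pos]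
      exact Finset.orderEmbOfFin_mem S hcard ⟨j, hj⟩
    · intro j hj k hk hjk
      simp only [hj, hk, dif_pos] at hjk
      exact Fin.mk.inj_iff.1 ((S.orderEmbOfFin hcard).injective hjk)
  obtain ⟨g, hg1, hg2⟩ := hg
  have htt : ∀ {i : ℕ}, i < t → i < t * t := fun {i} hi =>
    hi.trans_le (Nat.le_mul_of_pos_left t (by omega))
  have hs : ∀ i < t, g i ∈ S := fun i hi => hg1 i (htt hi)
  have hsi : ∀ i < t, ∀ j < t, g i = g j → i = j := fun i hi j hj h =>
    hg2 i (htt hi) j (htt hj) h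
  have key : ∀ i < t, ∀ j < t, ∀ l < t, ∀ i' < t, ∀ j' < t, ∀ l' < t,
      ¬ (i = i' ∧ j = j' ∧ l = l') → Disjoint (P (g i) (t * j + l)) (P (g i') (t * j' + l')) := by
    intro i hi j hj l hl i' hi' j' hj' l' hl' hne
    refine hP3 _ (hs i hi) _ (strquo_lt hj hl) _ (hs i' hi') _ (strquo_lt hj' hl') ?_
    intro heq
    have h1 := hsi i hi i' hi' (Prod.ext_iff.1 heq).1
    have h2 := strquo_idx hl hl' (Prod.ext_iff.1 heq).2
    exact hne ⟨h1, h2⟩
  refine ⟨g, fun i j l => P (g i) (t * j + l) ∪ P (g j) (t * i + l), hsi, ?_, ?_⟩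
  · intro i j l hij hj hl
    have hi : i < t := by omega
    refine ⟨?_, ?_, ?_⟩
    · rintro f (hf | hf)
      · exact (hP1 _ (hs i hi) _ (strquo_lt hj hl) f hf).1
      · exact (hP1 _ (hs j hj) _ (strquo_lt hi hl) f hf).1
    · exact Gr.Conn.trans
        ((hP2 _ (hs i hi) _ (strquo_lt hj hl)).symm.mono Set.subset_union_left)
        ((hP2 _ (hs j hj) _ (strquo_lt hi hl)).mono Set.subset_union_right)
    · rintro q hq hqi hqj f (hf | hf) hinc
      · exact hqi (hsi q hq i hi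
          ((hP1 _ (hs i hi) _ (strquo_lt hj hl) f hf).2 _ (hs q hq) hinc))
      · exact hqj (hsi q hq j hj
          ((hP1 _ (hs j hj) _ (strquo_lt hi hl) f hf).2 _ (hs q hq) hinc))
  · intro i j l i' j' l' hij hj hl hij' hj' hl' hne
    have hi : i < t := by omega
    have hi' : i' < t := by omega
    rw [Set.disjoint_union_left, Set.disjoint_union_right, Set.disjoint_union_right]
    refine ⟨⟨key i hi j hj l hl i' hi' j' hj' l' hl' hne,
      key i hi j hj l hl j' hj' i' hi' l' hl' (by omega)⟩,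
      key j hj i hi l hl i' hi' j' hj' l' hl' (by omega),
      key j hj i hi l hl j' hj' i' hi' l' hl' (by omega)⟩

/-- the parts of a node -/
def nAt (P : (CG Ω)) (pt : ℕ → ℕ) : Finset (Finset ℕ) := P.X.image fun x => fib P.X pt (pt x)

theorem mem_nAt {P : (CG Ω)} {pt : ℕ → ℕ} {A : Finset ℕ} :
    A ∈ nAt P pt ↔ ∃ x ∈ P.X, fib P.X pt (pt x) = A := by
  simp [nAt]

section

variable {W : Set (Pc (Lb Ω))} {M M1 : ℕ} {k : ℕ∞} {t T : ℕ} {P : (CG Ω)} {B : Finset ℕ} {pt : ℕ → ℕ}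
  {up : ℕ → Finset ℕ} {rk : ℕ → ℕ}

theorem nAt_part (P : (CG Ω)) (pt : ℕ → ℕ) : Part P.X (nAt P pt) := by
  refine ⟨?_, ?_, ?_⟩
  · intro x
    constructor
    · intro hx
      exact ⟨_, mem_nAt.2 ⟨x, hx, rfl⟩, mem_fib.2 ⟨hx, rfl⟩⟩
    · rintro ⟨A, hA, hxA⟩
      obtain ⟨y, _, rfl⟩ := mem_nAt.1 hA
      exact (mem_fib.1 hxA).1
  · intro A hA
    obtain ⟨y, hy, rfl⟩ := mem_nAt.1 hA
    exact ⟨y, mem_fib.2 ⟨hy, rfl⟩⟩
  · intro A hA A' hA' x hx hx'
    obtain ⟨y, _, rfl⟩ := mem_nAt.1 hA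
    obtain ⟨y', _, rfl⟩ := mem_nAt.1 hA'
    rw [← (mem_fib.1 hx).2, ← (mem_fib.1 hx').2]

theorem node_part (_h : IsNode W M M1 k t T P B pt up rk) : Part P.X (nAt P pt) := nAt_part P pt

theorem node_fib_hub (h : IsNode W M M1 k t T P B pt up rk) {b : ℕ} (hb : b ∈ B) :
    fib P.X pt (pt b) = {b} := by
  ext y
  rw [mem_fib, Finset.mem_singleton]
  constructor
  · rintro ⟨h1, h2⟩
    exact h.parts.hub b hb y h1 h2
  · rintro rfl
    exact ⟨h.parts.sub hb, rfl⟩

theorem node_single (h : IsNode W M M1 k t T P B pt up rk) {b : ℕ} (hb : b ∈ B) :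
    {b} ∈ nAt P pt := mem_nAt.2 ⟨b, h.parts.sub hb, node_fib_hub h hb⟩

theorem node_solid (h : IsNode W M M1 k t T P B pt up rk) :
    ∀ A ∈ nAt P pt, Pool.Agent.W2411c4.Solid P.G A := by
  intro A hA
  obtain ⟨x, hx, rfl⟩ := mem_nAt.1 hA
  by_cases hxB : x ∈ B
  · rw [node_fib_hub h hxB]
    refine ⟨x, Finset.mem_singleton_self _, fun Y hY hxY => le_of_eq ?_⟩
    congr 1
    exact Finset.Subset.antisymm (Finset.singleton_subset_iff.2 hxY) hY
  · exact (h.parts.atom x hx hxB).solid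

theorem node_t (h : IsNode W M M1 k t T P B pt up rk) : 2 ≤ t := by
  by_contra hcon
  apply h.free
  refine ⟨id, fun _ _ _ => ∅, fun _ _ _ _ h => h, ?_, ?_⟩
  · intro i j l hij hj _
    omega
  · intro i j l i' j' l' hij hj
    omega

theorem node_SF0 (h : IsNode W M M1 k t T P B pt up rk) : W2411si.SF P.G B (t * t) :=
  fun _ _ _ _ hstar => h.free (star_hasK hstar)

/-- no fat star in the quotient of a node -/
theorem node_SF (h : IsNode W M M1 k t T P B pt up rk) :
    W2411si.SF (quo P.G (nAt P pt)) B (t * t) :=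
  W2411si.SF.quo (node_part h) (node_solid h) (fun _ hb => Or.inl (node_single h hb)) (node_SF0 h)

theorem node_Bk0 (h : IsNode W M M1 k t T P B pt up rk) : W2411si.Bk P.G B M1 := by
  intro x hx y hy _ U hxU hyU
  have h1 := h.con x hx y hy (U ∩ P.X) Finset.inter_subset_right
    (Finset.mem_inter.2 ⟨hxU, h.parts.sub hx⟩) (fun h' => hyU (Finset.mem_inter.1 h').1)
  have h2 : P.G.bd (U ∩ P.X) = P.G.bd U := by
    ext e
    rw [Gr.mem_bd, Gr.mem_bd]
    constructor
    · rintro ⟨he, hc⟩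
      have h3 := h.cls e he
      refine ⟨he, ?_⟩
      unfold Gr.Cross at hc ⊢
      simp only [Finset.mem_inter] at hc
      tauto
    · rintro ⟨he, hc⟩
      have h3 := h.cls e he
      refine ⟨he, ?_⟩
      unfold Gr.Cross at hc ⊢
      simp only [Finset.mem_inter]
      tauto
  unfold Gr.d at h1 ⊢
  rwa [h2] at h1

/-- the hubs of a node are highly edge-connected in the quotient -/
theorem node_Bk (h : IsNode W M M1 k t T P B pt up rk) :
    W2411si.Bk (quo P.G (nAt P pt)) B M1 :=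
  W2411si.Bk.quo (node_part h) (fun _ hb => Or.inl (node_single h hb)) (node_Bk0 h)

end

end Pool.Agent.W2411ls
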