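import Mathlib
import Pool.Agent.W_2411ls_h59.StrQuo
import Pool.Agent.W_2411ls_h59.SolidA
import Pool.Agent.W_2411c4_h26.Struct
import Pool.Agent.W_2411c4_h26.SgOut

/-! The structure theorem for nodes. -/

set_option autoImplicit false
set_option linter.unusedSectionVars false

namespace Pool.Agent.W2411ls

open Pool.Agent.W2411c4

variable {Ω : Type} [Preorder Ω] [Inhabited Ω]

private theorem str_pick {D : Type} [Inhabited D] {r : ℕ} (d : Fin r → D) (p : D → Prop) :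
    ∃ r' ≤ r, ∃ g : ℕ → D, (∀ j < r', ∃ i, g j = d i ∧ p (d i)) ∧
      (∀ i, p (d i) → ∃ j < r', g j = d i) ∧
      ∀ j < r', ∀ j' < r', j ≠ j' → ∃ i i', i ≠ i' ∧ g j = d i ∧ g j' = d i' := by
  classical
  obtain ⟨I, hI⟩ : ∃ I : Finset (Fin r), ∀ i, i ∈ I ↔ p (d i) :=
    ⟨Finset.univ.filter fun i => p (d i), fun i => by simp⟩
  refine ⟨I.card, ?_, fun j => if h : j < I.card then d (I.orderEmbOfFin rfl ⟨j, h⟩) else default,
    ?_, ?_, ?_⟩
  · have := Finset.card_le_univ I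
    rwa [Fintype.card_fin] at this
  · intro j hj
    refine ⟨I.orderEmbOfFin rfl ⟨j, hj⟩, dif_pos hj, ?_⟩
    exact (hI _).1 (Finset.orderEmbOfFin_mem I rfl ⟨j, hj⟩)
  · intro i hi
    have h2 : i ∈ Set.range (I.orderEmbOfFin rfl) := by
      rw [Finset.range_orderEmbOfFin]
      exact (hI i).2 hi
    obtain ⟨⟨j, hj⟩, rfl⟩ := h2
    exact ⟨j, hj, dif_pos hj⟩
  · intro j hj j' hj' hne
    refine ⟨_, _, ?_, dif_pos hj, dif_pos hj'⟩
    intro h
    have := (I.orderEmbOfFin rfl).injective h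
    exact hne (congrArg Fin.val this)

/-- the vertices whose representative is in `M` -/
private noncomputable def pull (P : (CG Ω)) (pt : ℕ → ℕ) (M : Finset ℕ) : Finset ℕ :=
  P.X.filter fun x => rho (nAt P pt) x ∈ M

private theorem mem_pull {P : (CG Ω)} {pt : ℕ → ℕ} {M : Finset ℕ} {x : ℕ} :
    x ∈ pull P pt M ↔ x ∈ P.X ∧ rho (nAt P pt) x ∈ M := by
  simp [pull]

private theorem rho_pt {P : (CG Ω)} {pt : ℕ → ℕ} {x y : ℕ} (hx : x ∈ P.X) (hy : y ∈ P.X) :
    rho (nAt P pt) x = rho (nAt P pt) y ↔ pt x = pt y := by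
  have hP := nAt_part P pt
  have hxA : fib P.X pt (pt x) ∈ nAt P pt := mem_nAt.2 ⟨x, hx, rfl⟩
  have hyA : fib P.X pt (pt y) ∈ nAt P pt := mem_nAt.2 ⟨y, hy, rfl⟩
  rw [hP.rho_eq hxA (mem_fib.2 ⟨hx, rfl⟩), hP.rho_eq hyA (mem_fib.2 ⟨hy, rfl⟩)]
  constructor
  · intro h
    have h1 := hP.rp_inj hxA hyA h
    have h2 : x ∈ fib P.X pt (pt y) := h1 ▸ mem_fib.2 ⟨hx, rfl⟩
    exact (mem_fib.1 h2).2
  · intro h
    rw [h]

/-- counting in the quotient, first form -/
private theorem pull_eb {P : (CG Ω)} {pt : ℕ → ℕ} (hc : Cls P) {M T T' : Finset ℕ}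
    (hT : ∀ x ∈ P.X, rho (nAt P pt) x ∈ T' → x ∈ T) :
    eb P.G (pull P pt M) T ≤ W2411si.ed (quo P.G (nAt P pt)) M T' := by
  unfold eb W2411si.ed
  apply Finset.card_le_card
  intro e he
  rw [Finset.mem_filter] at he
  obtain ⟨heE, he⟩ := he
  obtain ⟨ha, hb⟩ := hc e heE
  rw [W2411si.mem_ebd, mem_quoE]
  unfold W2411si.Lv
  have h1 : (quo P.G (nAt P pt)).a e = rho (nAt P pt) (P.G.a e) := rfl
  have h2 : (quo P.G (nAt P pt)).b e = rho (nAt P pt) (P.G.b e) := rfl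
  rw [h1, h2]
  simp only [mem_pull, ha, hb, true_and] at he
  have k1 := hT _ ha
  have k2 := hT _ hb
  rcases he with ⟨h3, h4, h5⟩ | ⟨h3, h4, h5⟩
  · exact ⟨⟨heE, fun h => h4 (h ▸ h3)⟩, Or.inl ⟨h3, h4, fun h => h5 (k2 h)⟩⟩
  · exact ⟨⟨heE, fun h => h4 (h ▸ h3)⟩, Or.inr ⟨h3, h4, fun h => h5 (k1 h)⟩⟩

/-- counting in the quotient, second form -/
private theorem pull_ee {P : (CG Ω)} {pt : ℕ → ℕ} {R V : Finset ℕ} {c : ℕ}
    (hcs : ∀ x ∈ P.X, rho (nAt P pt) x = c → x = c) :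
    ee P.G (pull P pt V) ((pull P pt R \ pull P pt V) \ {c}) ≤
      W2411si.eb (quo P.G (nAt P pt)) R V {c} := by
  unfold ee W2411si.eb
  apply Finset.card_le_card
  intro e he
  rw [Finset.mem_filter] at he ⊢
  obtain ⟨heE, he⟩ := he
  rw [mem_quoE]
  have h1 : (quo P.G (nAt P pt)).a e = rho (nAt P pt) (P.G.a e) := rfl
  have h2 : (quo P.G (nAt P pt)).b e = rho (nAt P pt) (P.G.b e) := rfl
  rw [h1, h2]
  have key : ∀ u v, u ∈ pull P pt V → v ∈ (pull P pt R \ pull P pt V) \ {c} →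
      rho (nAt P pt) u ∈ V ∧ rho (nAt P pt) v ∈ R \ V ∧ rho (nAt P pt) v ∉ ({c} : Finset ℕ) := by
    intro u v hu hv
    rw [Finset.mem_sdiff, Finset.mem_sdiff, Finset.mem_singleton] at hv
    obtain ⟨⟨hv1, hv2⟩, hv3⟩ := hv
    rw [mem_pull] at hu hv1 hv2
    refine ⟨hu.2, Finset.mem_sdiff.2 ⟨hv1.2, fun h => hv2 ⟨hv1.1, h⟩⟩, ?_⟩
    rw [Finset.mem_singleton]
    exact fun h => hv3 (hcs v hv1.1 h)
  rcases he with ⟨h3, h4⟩ | ⟨h3, h4⟩
  · obtain ⟨k1, k2, k3⟩ := key _ _ h3 h4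
    exact ⟨⟨heE, fun h => (Finset.mem_sdiff.1 k2).2 (h ▸ k1)⟩, Or.inl ⟨k1, k2, k3⟩⟩
  · obtain ⟨k1, k2, k3⟩ := key _ _ h3 h4
    exact ⟨⟨heE, fun h => (Finset.mem_sdiff.1 k2).2 (h ▸ k1)⟩, Or.inr ⟨k1, k2, k3⟩⟩

/-- counting in the quotient, third form -/
private theorem push_ee {P : (CG Ω)} {pt : ℕ → ℕ} (hc : Cls P) {R L : Finset ℕ}
    (hL : L ⊆ P.X) (hr : Resp P.X pt L) :
    W2411si.eb (quo P.G (nAt P pt)) R (L.image (rho (nAt P pt))) ∅ ≤
      ee P.G L (pull P pt R \ L) := by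
  unfold ee W2411si.eb
  apply Finset.card_le_card
  intro e he
  rw [Finset.mem_filter] at he ⊢
  obtain ⟨heE, he⟩ := he
  rw [mem_quoE] at heE
  have h1 : (quo P.G (nAt P pt)).a e = rho (nAt P pt) (P.G.a e) := rfl
  have h2 : (quo P.G (nAt P pt)).b e = rho (nAt P pt) (P.G.b e) := rfl
  rw [h1, h2] at he
  obtain ⟨ha, hb⟩ := hc e heE.1
  have key : ∀ u ∈ P.X, (rho (nAt P pt) u ∈ L.image (rho (nAt P pt)) ↔ u ∈ L) := by
    intro u hu
    constructor
    · intro h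
      obtain ⟨y, hy, hyu⟩ := Finset.mem_image.1 h
      exact hr y (hL hy) u hu ((rho_pt (hL hy) hu).1 hyu) hy
    · intro h
      exact Finset.mem_image_of_mem _ h
  refine ⟨heE.1, ?_⟩
  rw [Finset.mem_sdiff, Finset.mem_sdiff, key _ ha, key _ hb] at he
  rw [Finset.mem_sdiff, Finset.mem_sdiff, mem_pull, mem_pull]
  tauto

theorem str_exists (t : ℕ) : ∃ M1 a r0 m κ : ℕ, ∀ (W : Set (Pc (Lb Ω))) (M : ℕ) (k : ℕ∞) (T : ℕ) (P : (CG Ω))
    (B : Finset ℕ) (pt : ℕ → ℕ) (up : ℕ → Finset ℕ) (rk : ℕ → ℕ),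
    IsNode W M M1 k t T P B pt up rk →
      ∃ A r R Ns bs, r ≤ r0 ∧ IsStr P B pt a m (5 * m) κ A r R Ns bs := by
  classical
  by_cases ht : 2 ≤ t
  swap
  · exact ⟨0, 0, 0, 0, 0, fun W M k T P B pt up rk h => absurd (node_t h) ht⟩
  obtain ⟨m, M1, hst⟩ := W2411si.structure_thm (Q := (Lb Ω)) (t * t) (by nlinarith) (fun m => 7 * m)
  obtain ⟨a, r0, hst⟩ := hst 0
  refine ⟨M1, a, r0, m, 2 * m, ?_⟩
  intro W M k T P B pt up rk h
  obtain ⟨A, hAB, hAc, s, hsd, -, hcov⟩ := hst (quo P.G (nAt P pt)) B (node_SF h) (node_Bk h) ∅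
    (by simp)
  have : Inhabited (W2411si.Sg (quo P.G (nAt P pt)) B A m (7 * m)) :=
    ⟨W2411si.Sg.triv _ _ _ _ _⟩
  obtain ⟨r, hr, g, hg1, hg2, hg3⟩ := str_pick s (fun x => 1 ≤ x.n)
  have hPt := nAt_part P pt
  have hBX : ∀ b ∈ B, b ∈ P.X := fun b hb => h.parts.sub hb
  have hrB : ∀ b ∈ B, rho (nAt P pt) b = b := fun b hb =>
    W2411si.rho_single hPt (Or.inl (node_single h hb))
  have hrB' : ∀ b ∈ B, ∀ x, rho (nAt P pt) x = b → x = b := by
    intro b hb x hx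
    have := (W2411si.rho_mem_single hPt (T := {b}) (fun c hc => by
      rw [Finset.mem_singleton] at hc
      rw [hc]
      exact Or.inl (node_single h hb)) x).1 (Finset.mem_singleton.2 hx)
    exact Finset.mem_singleton.1 this
  have hn : ∀ j < r, 1 ≤ (g j).n := by
    intro j hj
    obtain ⟨i, hi, hi'⟩ := hg1 j hj
    rw [hi]
    exact hi'
  have hbB : ∀ j < r, ∀ i ≤ (g j).n - 1, (g j).b (i + 1) ∈ B := by
    intro j hj i hi
    have := hn j hj
    exact (g j).b_B (by omega) (by omega)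
  have hRdis : ∀ j < r, ∀ j' < r, j ≠ j' → Disjoint (g j).R (g j').R := by
    intro j hj j' hj' hne
    obtain ⟨i, i', hii, h1, h2⟩ := hg3 j hj j' hj' hne
    rw [h1, h2]
    exact hsd i i' hii
  have hhub : ∀ j < r, ∀ x, x ∈ hs ((g j).n - 1) (fun i => (g j).b (i + 1)) ↔
      x ∈ B ∧ x ∈ (g j).R := by
    intro j hj x
    have h1 := hn j hj
    have h2 : x ∈ B ∩ (g j).R ↔ x ∈ (Finset.Icc 1 (g j).n).image (g j).b := by
      rw [← (g j).hubs]
      exact Iff.rfl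
    rw [← Finset.mem_inter, h2, mem_hs, Finset.mem_image]
    constructor
    · rintro ⟨i, hi, rfl⟩
      exact ⟨i + 1, Finset.mem_Icc.2 ⟨by omega, by omega⟩, rfl⟩
    · rintro ⟨i, hi, rfl⟩
      obtain ⟨hi1, hi2⟩ := Finset.mem_Icc.1 hi
      refine ⟨i - 1, by omega, ?_⟩
      have : i - 1 + 1 = i := by omega
      simp only [this]
  refine ⟨A, r, fun j => pull P pt (g j).R, fun j => (g j).n - 1, fun j i => (g j).b (i + 1), hr, ?_⟩
  refine
    { AB := hAB
      cardA := hAc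
      sub := fun j _ => Finset.filter_subset _ _
      dA := ?_
      disj := ?_
      resp := ?_
      cover := ?_
      ord := ?_
      binj := ?_
      hubs := ?_
      bis := ?_
      cut := ?_ }
  · intro j _
    rw [Finset.disjoint_left]
    intro x hx hxA
    have h1 := (mem_pull.1 hx).2
    rw [hrB x (hAB hxA)] at h1
    exact Finset.disjoint_left.1 (g j).R_disjA h1 hxA
  · intro j hj j' hj' hne
    rw [Finset.disjoint_left]
    intro x hx hx'
    exact Finset.disjoint_left.1 (hRdis j hj j' hj' hne) (mem_pull.1 hx).2 (mem_pull.1 hx').2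
  · intro j _ x hx y hy hxy hxR
    rw [mem_pull] at hxR ⊢
    refine ⟨hy, ?_⟩
    rw [← (rho_pt hx hy).2 hxy]
    exact hxR.2
  · intro x hx hxA
    obtain ⟨i, hi⟩ := hcov x (Finset.mem_sdiff.2 ⟨hx, hxA⟩)
    have h1 : 1 ≤ (s i).n := by
      by_contra hcon
      have h2 : x ∈ B ∩ ((s i).X ((s i).n + 1) \ (s i).X 0) := Finset.mem_inter.2 ⟨hx, hi⟩
      rw [(s i).hubs, Finset.mem_image] at h2
      obtain ⟨j, hj, -⟩ := h2
      have := Finset.mem_Icc.1 hj
      omega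
    obtain ⟨j, hj, hji⟩ := hg2 i h1
    refine ⟨j, hj, mem_pull.2 ⟨hBX x hx, ?_⟩⟩
    rw [hrB x hx, hji]
    exact hi
  · intro j _
    refine (pull_eb h.cls (T' := A) ?_).trans (g j).ed_R
    intro x _ hx
    rw [← hrB' _ (hAB hx) x rfl] at hx
    exact hx
  · intro j hj i hi i' hi' hii
    have h1 := hn j hj
    have hi2 : i ≤ (g j).n - 1 := hi
    have hi3 : i' ≤ (g j).n - 1 := hi'
    have := (g j).b_inj (i := i + 1) (j := i' + 1) (by omega) (by omega) (by omega) (by omega) hii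
    omega
  · intro j hj x
    rw [hhub j hj x]
    constructor
    · rintro ⟨h1, h2⟩
      refine ⟨h1, mem_pull.2 ⟨hBX x h1, ?_⟩⟩
      rw [hrB x h1]
      exact h2
    · rintro ⟨h1, h2⟩
      have h3 := (mem_pull.1 h2).2
      rw [hrB x h1] at h3
      exact ⟨h1, h3⟩
  · intro j hj i hi
    have h1 := hn j hj
    have hi2 : i ≤ (g j).n - 1 := hi
    refine ⟨pull P pt ((g j).X (i + 1) \ (g j).X 0), ?_, ?_, ?_⟩
    · intro x hx
      rw [mem_pull, Finset.mem_sdiff] at hx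
      refine mem_pull.2 ⟨hx.1, Finset.mem_sdiff.2 ⟨?_, hx.2.2⟩⟩
      exact (g j).X_mono (by omega) le_rfl hx.2.1
    · intro l hl
      have hl2 : l ≤ (g j).n - 1 := hl
      have hlB := hbB j hj l hl
      rw [mem_pull, hrB _ hlB, Finset.mem_sdiff,
        (g j).mem_X_iff (i := i + 1) (j := l + 1) (by omega) (by omega) (by omega) (by omega)]
      constructor
      · rintro ⟨-, h2, -⟩
        omega
      · intro h2
        refine ⟨hBX _ hlB, by omega, fun h3 => ?_⟩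
        exact (g j).b_out (l + 1) (by omega) (by omega) ((g j).X_mono (by omega) (by omega) h3)
    · have hib := hbB j hj i hi
      refine (pull_ee ?_).trans ((g j).eb_le (i := i + 1) (by omega) (by omega))
      intro x _ hx
      exact hrB' _ hib x hx
  · intro j hj i h1i hi L hL hF
    have h1 := hn j hj
    have hi2 : i ≤ (g j).n - 1 := hi
    have hR : Resp P.X pt (pull P pt (g j).R) := by
      intro x hx y hy hxy hxR
      rw [mem_pull] at hxR ⊢
      refine ⟨hy, ?_⟩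
      rw [← (rho_pt hx hy).2 hxy]
      exact hxR.2
    have hRX : pull P pt (g j).R ⊆ P.X := Finset.filter_subset _ _
    have hT : Resp P.X pt (P.X \ pull P pt (g j).R) := by
      intro x hx y hy hxy hxR
      rw [Finset.mem_sdiff] at hxR ⊢
      exact ⟨hy, fun h2 => hxR.2 (hR y hy x hx hxy.symm h2)⟩
    have hLT : Disjoint L (P.X \ pull P pt (g j).R) := by
      rw [Finset.disjoint_left]
      intro x hx hx'
      exact (Finset.mem_sdiff.1 hx').2 (hL hx)
    obtain ⟨L', hL'X, hL'T, hL'r, hL'B, -, hL'R, hle⟩ := exists_resp' h.parts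
      (hL.trans hRX) hT hLT (L := ∅) (Z := pull P pt (g j).R)
      (fun x _ y _ _ hx => absurd hx (Finset.notMem_empty x)) (Finset.empty_subset _) hR hL
    have hee : ∀ S : Finset ℕ, S ⊆ pull P pt (g j).R →
        eb P.G S (P.X \ pull P pt (g j).R) = ee P.G S (pull P pt (g j).R \ S) := by
      intro S hS
      unfold eb ee
      congr 1
      apply Finset.filter_congr
      intro e he
      obtain ⟨ha, hb⟩ := h.cls e he
      simp only [Finset.mem_sdiff, ha, hb, true_and]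
      tauto
    rw [hee L hL, hee L' hL'R] at hle
    have h2 := push_ee h.cls (R := (g j).R) hL'X hL'r
    have h3 := (g j).eb_ge hAB (i := i) (by omega) (by omega)
      (L := L'.image (rho (nAt P pt))) (by
        intro y hy
        obtain ⟨x, hx, rfl⟩ := Finset.mem_image.1 hy
        exact (mem_pull.1 (hL'R hx)).2) (by
        intro l hl1 hl2
        have hl3 : (g j).b l ∈ B := (g j).b_B hl1 hl2
        have h4 : (g j).b l ∈ L'.image (rho (nAt P pt)) ↔ (g j).b l ∈ L' := by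
          constructor
          · intro h5
            obtain ⟨x, hx, hxb⟩ := Finset.mem_image.1 h5
            rwa [hrB' _ hl3 x hxb] at hx
          · intro h5
            exact Finset.mem_image.2 ⟨_, h5, hrB _ hl3⟩
        have h5 := hF (l - 1) (by show l - 1 ≤ (g j).n - 1; omega)
        have h6 : l - 1 + 1 = l := by omega
        simp only [h6] at h5
        rw [h4, hL'B _ hl3, h5]
        omega)
    omega

end Pool.Agent.W2411ls
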