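import Mathlib
import Pool.Agent.W_2411ls_h59.NdGlue
import Pool.Agent.W_2411ls_h59.NdEx
import Pool.Agent.W_2411ls_h59.RegSeg
import Pool.Agent.W_2411ls_h59.StrThm
import Pool.Agent.W_2411ls_h59.SegPwo

/-! Nodes are well-quasi-ordered. -/

set_option autoImplicit false
set_option linter.unusedSectionVars false

open Set

namespace Pool.Agent.W2411ls

open Pool.Agent.W2411c4

variable {Ω : Type} [Preorder Ω] [Inhabited Ω] [WellQuasiOrderedLE Ω]

/-- Finitely many coordinates. PROOF. Induction on `n`: pass to a monotone subsequence for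
one coordinate after the other (`Set.PartiallyWellOrderedOn.exists_monotone_subseq`), conclusion in
the form: there is a strictly increasing `g : ℕ → ℕ` with `r i (f i (g p)) (f i (g q))` for all
`p ≤ q` and `i < n`. -/
theorem multi_pwo {α : ℕ → Type} (r : ∀ i, α i → α i → Prop) [∀ i, IsPreorder (α i) (r i)]
    (n : ℕ) (S : ∀ i, Set (α i)) (hS : ∀ i < n, (S i).PartiallyWellOrderedOn (r i))
    (f : ∀ i, ℕ → α i) (hf : ∀ i < n, ∀ p, f i p ∈ S i) :
    ∃ p q, p < q ∧ ∀ i < n, r i (f i p) (f i q) := by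
  have h := (PartiallyWellOrderedOn.pi (ι := Fin n) (α := fun i => α i.1) (r := fun i => r i.1)
    (s := fun i => S i.1) (fun i => hS i.1 i.2)).exists_lt (f := fun p i => f i.1 p)
    (fun p i _ => hf i.1 i.2 p)
  obtain ⟨p, q, hpq, hr⟩ := h
  exact ⟨p, q, hpq, fun i hi => hr ⟨i, hi⟩⟩

/-- Nodes are wqo. PROOF. Constants `M1, a, r0, m, κ` from `str_exists t`. Put
`T' := T + a + r0 * κ`, `W' := satur (W ∪ Sing (M + 2) T')` (pwo, saturated). Let `f` be a sequence in
`NodeC W M M1 k t T`; choose the node data, `IsStr`, `ND` (`exists_nd`) for every `f n`. The numbers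
`s ≤ a`, `r ≤ r0` and the labels of the apices (values `< T`) take finitely many values: pass to a
subsequence where they are constant (or treat them as coordinates with equality in `multi_pwo`).
Coordinates: for `i < r`: `cl (R i) ty ∈ SegC W' (M+2) (k+1) m (5 m) T'` (`reg_seg`; types `< T'` by
`tyA`, `tyN`), pwo by `seg_pwo`; for `i = r`: `cl (Pi r) ty ∈ ThinC W' (M+2) (k+1)` by `cl_parts`
(hub set `(B ∩ Pi r).image _ = ∅`) and `cl_cls`, pwo by `thin_pwo`; for `l, l' < s`: the numbers
`(EH P.G (α l) (α l')).card` with `≤` on `ℕ`. `multi_pwo` (one index for all coordinates, e.g. with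
types `α i := CG` and `ℕ` in two steps: first pass to a subsequence for the graphs, then for the
numbers; or use one type `CG ⊕ ℕ`) gives `p < q` with all coordinates related and `nd_glue` gives
`CR (f p) (f q)`. -/
theorem node_pwo (t : ℕ) : ∃ M1, ∀ (W : Set (Pc (Lb Ω))), W.PartiallyWellOrderedOn Rp →
    ∀ M k T, ThinOK Ω k → (NodeC W M M1 k t T).PartiallyWellOrderedOn CR := by
  obtain ⟨M1, a, r0, m, κ, hstr⟩ := str_exists (Ω := Ω) t
  refine ⟨M1, fun W hW M k T hkT => ?_⟩
  set T' : ℕ := T + a + r0 * κ with hT'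
  set W' : Set (Pc (Lb Ω)) := satur (W ∪ Sing (M + 2) T') with hW'
  have hWp : W'.PartiallyWellOrderedOn Rp := satur_pwo (hW.union (sing_pwo (M + 2) T'))
  have hWs : Sat W' := satur_sat _
  have hWW : W ⊆ W' := fun P hP => subset_satur _ (Or.inl hP)
  have hS : Sing (M + 2) T' ⊆ W' := fun P hP => subset_satur _ (Or.inr hP)
  rw [partiallyWellOrderedOn_iff_exists_lt]
  intro f hf
  have hf' : ∀ n, ∃ B pt up rk, IsNode W M M1 k t T (f n) B pt up rk := hf
  choose B pt up rk hN using hf'
  have h1 := fun n => hstr W M k T (f n) (B n) (pt n) (up n) (rk n) (hN n)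
  choose A r R Ns bs hr hs using h1
  have h2 := fun n => exists_nd (hN n) (hr n) (hs n)
  choose s α Pi ty hnd hPR hBd hresp using h2
  -- the types
  have hty : ∀ n, ∀ i ≤ r n, ∀ e ∈ (f n).G.bd (Pi n i), ty n e < T' := by
    intro n i hi e he
    by_cases hj : ∃ j < s n, (f n).G.Inc e (α n j)
    · obtain ⟨j, hj, hinc⟩ := hj
      rw [(hnd n).tyA i hi e he j hj hinc]
      have := (hnd n).sa
      omega
    · push Not at hj
      have := ((hnd n).tyN i hi e he hj).2
      omega
  -- the class of all coordinates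
  have hk1 : (1 : ℕ∞) ≤ k + (1 : ℕ) := by
    rw [Nat.cast_one]
    exact le_add_self
  set C : Set (CG Ω) := SegC W' (M + 2) (k + (1 : ℕ)) m (5 * m) T' ∪ ThinC W' (M + 2) (k + (1 : ℕ))
    with hC
  have hCp : C.PartiallyWellOrderedOn CR :=
    (seg_pwo hWp (M + 2) (k + (1 : ℕ)) (hkT.add 1) m (5 * m) T' le_rfl).union
      (hkT 1 _ hWp (M + 2))
  have hmem : ∀ n, ∀ i ≤ r n, cl (f n).G (Pi n i) (ty n) ∈ C := by
    intro n i hi
    rcases lt_or_eq_of_le hi with hlt | heq
    · left
      have h3 := hty n i hi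
      rw [hPR n i hlt] at h3 ⊢
      exact reg_seg hWs hWW hS (by omega) (by omega) le_self_add hk1 (by omega) (hN n) (hs n)
        hlt h3
    · right
      subst heq
      refine ⟨cl_cls _ _ _, ?_⟩
      obtain ⟨pt', up', rk', hp⟩ := cl_parts (hN n).parts hWs hWW hS (by omega : M ≤ M + 2)
        (by omega) (le_self_add : k ≤ k + (1 : ℕ)) hk1 ((hnd n).sub _ hi) (hresp n) (hty n _ hi)
      refine ⟨pt', up', rk', ?_⟩
      have h4 : B n ∩ Pi n (r n) = ∅ := Finset.disjoint_iff_inter_eq_empty.1 (hBd n)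
      rw [h4, Finset.image_empty] at hp
      exact hp
  -- the coordinates
  have hd : (Set.univ : Set (Fin (a + 1) × Fin (r0 + 1))).PartiallyWellOrderedOn
      Eq := Set.finite_univ.partiallyWellOrderedOn
  have hL : (Set.univ.pi fun _ : Fin a => {q : Lb Ω | q.v < T + 1}).PartiallyWellOrderedOn
      (fun x y => ∀ i, x i ≤ y i) := PartiallyWellOrderedOn.pi (fun _ => lab_pwo (T + 1))
  have hg : (Set.univ.pi fun _ : Fin (r0 + 1) => C).PartiallyWellOrderedOn
      (fun x y => ∀ i, CR (x i) (y i)) := PartiallyWellOrderedOn.pi (fun _ => hCp)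
  have hu : (Set.univ : Set ℕ).PartiallyWellOrderedOn (· ≤ ·) :=
    isPWO_of_wellQuasiOrderedLE (Set.univ : Set ℕ)
  have hn : (Set.univ.pi fun _ : Fin a × Fin a => (Set.univ : Set ℕ)).PartiallyWellOrderedOn
      (fun x y => ∀ i, x i ≤ y i) := PartiallyWellOrderedOn.pi (fun _ => hu)
  have : IsPreorder (Fin (r0 + 1) → (CG Ω)) (fun x y => ∀ i, CR (x i) (y i)) :=
    { refl := fun x i => CR.refl _
      trans := fun x y z h h' i => (h i).trans (h' i) }
  have : IsPreorder (Fin a × Fin a → ℕ) (fun x y => ∀ i, x i ≤ y i) :=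
    { refl := fun x i => le_rfl
      trans := fun x y z h h' i => (h i).trans (h' i) }
  have : IsPreorder (Fin a → Lb Ω) (fun x y => ∀ i, x i ≤ y i) :=
    { refl := fun x i => le_rfl
      trans := fun x y z h h' i => le_trans (h i) (h' i) }
  obtain ⟨p, q, hpq, hdd, hll, hgg, hnn⟩ := (hd.prod (hL.prod (hg.prod hn))).exists_lt
    (f := fun n => (((⟨s n, Nat.lt_succ_of_le (hnd n).sa⟩ : Fin (a + 1)),
      (⟨r n, Nat.lt_succ_of_le (hr n)⟩ : Fin (r0 + 1))),
      (fun j : Fin a => if ((f n).G.lab (α n j.1)).v < T then (f n).G.lab (α n j.1)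
        else (⟨0, default⟩ : Lb Ω)),
      (fun i : Fin (r0 + 1) => cl (f n).G (Pi n (min i.1 (r n))) (ty n)),
      fun i : Fin a × Fin a => (EH (f n).G (α n i.1.1) (α n i.2.1)).card))
    (fun n => ⟨Set.mem_univ _, fun j _ => by
        show (if ((f n).G.lab (α n j.1)).v < T then (f n).G.lab (α n j.1)
          else (⟨0, default⟩ : Lb Ω)).v < T + 1
        split_ifs with h
        · omega
        · exact Nat.succ_pos T,
      fun i _ => hmem n _ (min_le_right _ _), fun i _ => Set.mem_univ _⟩)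
  refine ⟨p, q, hpq, ?_⟩
  simp only [Prod.mk.injEq, Fin.mk.injEq] at hdd
  obtain ⟨hss, hrr⟩ := hdd
  have hq := hnd q
  rw [← hss, ← hrr] at hq
  refine nd_glue (hnd p) hq ?_ ?_ ?_
  · intro j hj
    have hja : j < a := lt_of_lt_of_le hj (hnd p).sa
    have h5 := hll ⟨j, hja⟩
    have h6 := (hnd p).lab _ ((hnd p).αX j hj)
    have h7 := hq.lab _ (hq.αX j hj)
    simp only [if_pos h6, if_pos h7] at h5
    exact h5
  · intro i hi
    have hi0 : i < r0 + 1 := by have := hr p; omega
    have h5 := hgg ⟨i, hi0⟩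
    simp only at h5
    rw [min_eq_left hi, ← hrr, min_eq_left hi] at h5
    exact h5
  · intro l hl l' hl'
    have hsa := (hnd p).sa
    exact hnn (⟨l, by omega⟩, ⟨l', by omega⟩)

end Pool.Agent.W2411ls
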