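import Mathlib
import Pool.Agent.W_2411ls_h59.OutDef
import Pool.Agent.W_2411ls_h59.ThinPwo
import Pool.Agent.W_2411tw_h80.GH

/-! Existence of the outer family. -/

set_option autoImplicit false
set_option linter.unusedSectionVars false

namespace Pool.Agent.W2411ls

open Pool.Agent.W2411c4

variable {Ω : Type} [Preorder Ω] [Inhabited Ω]

/-- The outer family: the Gomory-Hu family of the cuts of order less than `M`. -/
theorem exists_of {t : ℕ} {k : ℕ∞} {T M : ℕ} (hM : 1 ≤ M) {P : (CG Ω)} (hP : P ∈ OutC t k T) :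
    ∃ F, OF P M F := by
  obtain ⟨hcls, hne, hconn, _⟩ := hP
  have hc := cls_closed hcls
  obtain ⟨F, hF⟩ := exists_gh hc hne (M := M) (by omega)
  refine ⟨F, hF.top, hF.ne, hF.sub, hF.lam, hF.ord, hF.linked hc, fun L hL _ => hF.solid hc hL,
    fun L hL => hF.conn hconn hc hL, ?_⟩
  intro L hL u hu v hv hN U hU huU hvU
  have huv : u ≠ v := fun h => hvU (h ▸ huU)
  by_contra hcon
  obtain ⟨N, hNF, hNm⟩ := hF.sep u (hF.sub L hL hu) v (hF.sub L hL hv) huv
    ⟨U, hU, Or.inl ⟨huU, hvU⟩, not_le.1 hcon⟩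
  have key : ∀ a b, a ∈ L → b ∈ L → a ∈ N → b ∉ N → N ⊂ L := by
    intro a b ha hb haN hbN
    rcases lam_sub hF.lam hNF hL haN ha with h | h
    · refine Finset.ssubset_iff_subset_ne.2 ⟨h, ?_⟩
      intro h'
      rw [h'] at hbN
      exact hbN hb
    · exact absurd (h hb) hbN
  rcases hNm.2.1 with ⟨h1, h2⟩ | ⟨h1, h2⟩
  · exact h2 ((hN N hNF (key u v hu hv h1 h2)).1 h1)
  · exact h2 ((hN N hNF (key v u hv hu h1 h2)).2 h1)

end Pool.Agent.W2411ls
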