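import Mathlib
import Pool.Agent.W_2411ls_h59.OutDef
import Pool.Agent.W_2411ls_h59.ClParts
import Pool.Agent.W_2411ls_h59.EbA
import Pool.Agent.W_2411c4_h59.Exch

/-! The closed graph of an outer node is a node. -/

set_option autoImplicit false
set_option linter.unusedSectionVars false

namespace Pool.Agent.W2411ls

open Pool.Agent.W2411c4

variable {Ω : Type} [Preorder Ω] [Inhabited Ω]

private theorem conn_first {Q : Type} {G : Gr Q} {F : Set ℕ} {u v : ℕ} (h : G.Conn F u v)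
    (hne : u ≠ v) : ∃ f ∈ F, G.Inc f u := by
  rcases Relation.ReflTransGen.cases_head h with h | ⟨c, hc, _⟩
  · exact absurd h hne
  · obtain ⟨f, hf, ⟨h1, _⟩ | ⟨_, h1⟩⟩ := hc
    · exact ⟨f, hf, Or.inl h1.symm⟩
    · exact ⟨f, hf, Or.inr h1.symm⟩

private theorem inc_cl_even {G : Gr (Lb Ω)} {X : Finset ℕ} {ty : ℕ → ℕ} {e v : ℕ} :
    (cl G X ty).G.Inc e (2 * v) ↔ G.Inc e v ∧ v ∈ X := by
  have ha : (cl G X ty).G.a e = if G.a e ∈ X then 2 * G.a e else 2 * e + 1 := rfl
  have hb : (cl G X ty).G.b e = if G.b e ∈ X then 2 * G.b e else 2 * e + 1 := rfl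
  unfold Gr.Inc
  rw [ha, hb]
  constructor
  · rintro (h | h)
    · by_cases h1 : G.a e ∈ X
      · rw [if_pos h1] at h
        have h2 : v = G.a e := by omega
        exact ⟨Or.inl h2, h2 ▸ h1⟩
      · rw [if_neg h1] at h
        omega
    · by_cases h1 : G.b e ∈ X
      · rw [if_pos h1] at h
        have h2 : v = G.b e := by omega
        exact ⟨Or.inr h2, h2 ▸ h1⟩
      · rw [if_neg h1] at h
        omega
  · rintro ⟨rfl | rfl, h⟩
    · exact Or.inl (by rw [if_pos h])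
    · exact Or.inr (by rw [if_pos h])

private theorem inc_cl_odd {G : Gr (Lb Ω)} {X : Finset ℕ} {ty : ℕ → ℕ} {e v : ℕ}
    (h : (cl G X ty).G.Inc e (2 * v + 1)) : e = v := by
  have ha : (cl G X ty).G.a e = if G.a e ∈ X then 2 * G.a e else 2 * e + 1 := rfl
  have hb : (cl G X ty).G.b e = if G.b e ∈ X then 2 * G.b e else 2 * e + 1 := rfl
  unfold Gr.Inc at h
  rw [ha, hb] at h
  rcases h with h | h
  · by_cases h1 : G.a e ∈ X
    · rw [if_pos h1] at h
      omega
    · rw [if_neg h1] at h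
      omega
  · by_cases h1 : G.b e ∈ X
    · rw [if_pos h1] at h
      omega
    · rw [if_neg h1] at h
      omega

/-- **STUB (no new `K(t)` in a closed piece).** PROOF. If `t ≤ 1` then `HasK t G` holds trivially (no
`i < j < t`; `s` is injective on `{0}`). Let `t ≥ 2` and `s, Ψ` be given in the closed graph. Every
`s i` (`i < t`) is incident with edges from two disjoint sets `Ψ i j 0, Ψ i j 1` (or `Ψ j i 0, 1`)
with `j ≠ i`: they connect `s i` with `s j ≠ s i`, so they contain an edge at `s i`. A leaf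
`2 e + 1` is incident with only one edge (`e`), and an odd vertex that is no leaf or an even vertex
outside with none. So `s i = 2 v_i` with `v_i ∈ X` (an edge at an even vertex `2 v` of the closed
graph: `v ∈ X`). Take `s' i := v_i` and `Ψ' := Ψ`. Connectivity: `conn_map` with `ρ (2 v) := v`,
`ρ (2 e + 1) :=` the end of `e` in `X`: for an edge `f` of the closed graph with both ends in `X` the
ends go to the ends; a boundary edge has both ends mapped to its end in `X`. Edges of the closed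
graph are edges of `G`; if `f` is incident with `v_q ∈ X` in `G` then with `2 v_q` in the closed
graph. -/
theorem hasK_cl {G : Gr (Lb Ω)} {X : Finset ℕ} {ty : ℕ → ℕ} {t : ℕ}
    (h : HasK t (cl G X ty).G) : HasK t G := by
  classical
  by_cases ht : t ≤ 1
  · refine ⟨id, fun _ _ _ => ∅, fun i _ j _ hij => hij, ?_, ?_⟩
    · intro i j l h1 h2 _
      omega
    · intro i j l i' j' l' h1 h2
      omega
  obtain ⟨s, Ψ, hinj, hΨ, hdis⟩ := h
  have hev : ∀ q < t, s q = 2 * (s q / 2) ∧ s q / 2 ∈ X := by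
    intro q hq
    have key : ∀ i j, i < j → j < t → (q = i ∨ q = j) → s q = 2 * (s q / 2) ∧ s q / 2 ∈ X := by
      intro i j hij hj hqij
      have hne : s i ≠ s j := fun h => by
        have := hinj i (by omega) j hj h
        omega
      have hf : ∀ l < t, ∃ f ∈ Ψ i j l, (cl G X ty).G.Inc f (s q) := by
        intro l hl
        obtain ⟨_, hc, _⟩ := hΨ i j l hij hj hl
        rcases hqij with rfl | rfl
        · exact conn_first hc hne
        · exact conn_first hc.symm hne.symm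
      obtain ⟨f0, hf0, hi0⟩ := hf 0 (by omega)
      obtain ⟨f1, hf1, hi1⟩ := hf 1 (by omega)
      have hff : f0 ≠ f1 := by
        rintro rfl
        exact Set.disjoint_left.1 (hdis i j 0 i j 1 hij hj (by omega) hij hj (by omega)
          (by omega)) hf0 hf1
      rcases Nat.even_or_odd' (s q) with ⟨v, hv | hv⟩
      · rw [hv] at hi0 ⊢
        have h1 := (inc_cl_even.1 hi0).2
        have h2 : 2 * v / 2 = v := by omega
        rw [h2]
        exact ⟨rfl, h1⟩
      · exfalso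
        rw [hv] at hi0 hi1
        exact hff ((inc_cl_odd hi0).trans (inc_cl_odd hi1).symm)
    by_cases h0 : q = 0
    · exact key 0 1 (by omega) (by omega) (Or.inl h0)
    · exact key 0 q (by omega) hq (Or.inr rfl)
  refine ⟨fun q => s q / 2, Ψ, ?_, ?_, hdis⟩
  · intro i hi j hj hij
    refine hinj i hi j hj ?_
    have h1 := (hev i hi).1
    have h2 := (hev j hj).1
    simp only at hij
    omega
  · intro i j l hij hj hl
    obtain ⟨hE, hc, hav⟩ := hΨ i j l hij hj hl
    refine ⟨fun f hf => (Finset.mem_filter.1 (hE f hf)).1, ?_, ?_⟩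
    · let ρ : ℕ → ℕ := fun n => if n % 2 = 0 then n / 2 else
        (if G.a (n / 2) ∈ X then G.a (n / 2) else G.b (n / 2))
      have hρe : ∀ v, ρ (2 * v) = v := by
        intro v
        have h1 : 2 * v % 2 = 0 := by omega
        have h2 : 2 * v / 2 = v := by omega
        simp only [ρ, h1, h2, if_true]
      have hρo : ∀ e, ρ (2 * e + 1) = if G.a e ∈ X then G.a e else G.b e := by
        intro e
        have h1 : ¬ ((2 * e + 1) % 2 = 0) := by omega
        have h2 : (2 * e + 1) / 2 = e := by omega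
        simp only [ρ, h1, h2, if_false]
      have h3 : G.Conn (Ψ i j l) (ρ (s i)) (ρ (s j)) := by
        refine conn_map (G := (cl G X ty).G) ρ ?_ hc
        intro f hf
        have hT : G.Touch X f := (Finset.mem_filter.1 (hE f hf)).2
        have ha : (cl G X ty).G.a f = if G.a f ∈ X then 2 * G.a f else 2 * f + 1 := rfl
        have hb : (cl G X ty).G.b f = if G.b f ∈ X then 2 * G.b f else 2 * f + 1 := rfl
        rw [ha, hb]
        by_cases h1 : G.a f ∈ X <;> by_cases h2 : G.b f ∈ X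
        · rw [if_pos h1, if_pos h2, hρe, hρe]
          exact Gr.conn_edge hf (Or.inl rfl) (Or.inr rfl)
        · rw [if_pos h1, if_neg h2, hρe, hρo, if_pos h1]
          exact Gr.Conn.refl
        · rw [if_neg h1, if_pos h2, hρe, hρo, if_neg h1]
          exact Gr.Conn.refl
        · rcases hT with h | h
          · exact absurd h h1
          · exact absurd h h2
      have h4 : ρ (s i) = s i / 2 := by
        conv_lhs => rw [(hev i (by omega)).1]
        rw [hρe]
      have h5 : ρ (s j) = s j / 2 := by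
        conv_lhs => rw [(hev j hj).1]
        rw [hρe]
      rw [h4, h5] at h3
      exact h3
    · intro q hq hqi hqj f hf hinc
      refine hav q hq hqi hqj f hf ?_
      rw [(hev q hq).1]
      exact inc_cl_even.2 ⟨hinc, (hev q hq).2⟩

/-- PROOF. `d U = ee U (L \ U) + ee U (outside L)`,
`d (L \ U) = ee U (L \ U) + ee (L \ U) (outside L)`, `d L` is the sum of the two last terms. Write
everything as sums over the edges and compare edge by edge: for every edge
`[cross U] + [cross (L \ U)] = 2 [between U and L \ U] + [cross L]`. -/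
theorem two_ee {Q : Type} (G : Gr Q) {U L : Finset ℕ} (hU : U ⊆ L) :
    G.d U + G.d (L \ U) = 2 * ee G U (L \ U) + G.d L := by
  classical
  unfold ee
  rw [Finset.card_filter, d_eq_sum, d_eq_sum, d_eq_sum, Finset.mul_sum, ← Finset.sum_add_distrib,
    ← Finset.sum_add_distrib]
  apply Finset.sum_congr rfl
  intro e _
  unfold Gr.Cross
  simp only [Finset.mem_sdiff]
  have ha : G.a e ∈ U → G.a e ∈ L := fun h => hU h
  have hb : G.b e ∈ U → G.b e ∈ L := fun h => hU h
  by_cases h1 : G.a e ∈ U <;> by_cases h2 : G.b e ∈ U <;> by_cases h3 : G.a e ∈ L <;>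
    by_cases h4 : G.b e ∈ L <;> simp_all

/-- Parts of an outer node. PROOF. `pt v := v` if `v` is in the bag of `x.L`, and
`pt v :=` the least element (`Finset.min'`) of the kid containing `v` otherwise; kids are disjoint
(`kid_eq` in W_2411c4_h59/Exch.lean) and disjoint from the bag, every vertex of `x.L` not in the bag
is in a kid (`exists_kid` in W_2411c4_h59/Node.lean). So the parts are the kids and the single
vertices of the bag; all are connected (`OF.conn`; single vertices trivially), `TWI` gives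
`up, rk`. Kids are atoms: `hW`, `OF.solid` (a kid is a proper subset of `x.L ⊆ P.X`), `OF.conn`,
`OF.ord`. -/
theorem outer_parts {t : ℕ} {k : ℕ∞} {T M : ℕ} (x : ON Ω t k T M) {W : Set (Pc (Lb Ω))}
    (hW : ∀ Y, IsKid x.F x.L Y → ∃ eY : En x.P.G Y, (⟨x.P.G, Y, eY⟩ : Pc (Lb Ω)) ∈ W) :
    ∃ pt up rk, Parts W M k x.P.G x.L (Bag x.F x.L) pt up rk := by
  classical
  have hF := x.hF
  have hkid : ∀ v ∈ x.L, v ∉ Bag x.F x.L → ∃ Y, IsKid x.F x.L Y ∧ v ∈ Y := by
    intro v hv hb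
    rw [mem_bag] at hb
    push Not at hb
    obtain ⟨N, hN, hNL, hvN⟩ := hb hv
    obtain ⟨Y, hY, hNY⟩ := exists_kid hN hNL
    exact ⟨Y, hY, hNY hvN⟩
  let kd : ℕ → Finset ℕ := fun v =>
    if h : ∃ Y, IsKid x.F x.L Y ∧ v ∈ Y then h.choose else {v}
  have kdY : ∀ Y, IsKid x.F x.L Y → ∀ v ∈ Y, kd v = Y := by
    intro Y hY v hv
    have h : ∃ Y, IsKid x.F x.L Y ∧ v ∈ Y := ⟨Y, hY, hv⟩
    simp only [kd, dif_pos h]
    exact kid_eq hF.lam h.choose_spec.1 hY h.choose_spec.2 hv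
  have kdB : ∀ v ∈ Bag x.F x.L, kd v = {v} := by
    intro v hv
    have h : ¬ ∃ Y, IsKid x.F x.L Y ∧ v ∈ Y := by
      rintro ⟨Y, hY, hvY⟩
      exact kid_not_bag hY hvY hv
    simp only [kd, dif_neg h]
  let pt : ℕ → ℕ := fun v => sInf ((kd v : Finset ℕ) : Set ℕ)
  have ptB : ∀ v ∈ Bag x.F x.L, pt v = v := by
    intro v hv
    simp only [pt, kdB v hv, Finset.coe_singleton, csInf_singleton]
  have ptY : ∀ Y, IsKid x.F x.L Y → ∀ v ∈ Y, pt v ∈ Y := by
    intro Y hY v hv
    have h1 : sInf ((Y : Finset ℕ) : Set ℕ) ∈ ((Y : Finset ℕ) : Set ℕ) := Nat.sInf_mem ⟨v, hv⟩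
    simp only [pt, kdY Y hY v hv]
    exact h1
  have ptYY : ∀ Y, IsKid x.F x.L Y → ∀ v ∈ Y, ∀ w ∈ Y, pt v = pt w := by
    intro Y hY v hv w hw
    simp only [pt, kdY Y hY v hv, kdY Y hY w hw]
  have fibY : ∀ Y, IsKid x.F x.L Y → ∀ v ∈ Y, fib x.L pt (pt v) = Y := by
    intro Y hY v hv
    ext w
    rw [mem_fib]
    constructor
    · rintro ⟨hw, hp⟩
      by_cases hb : w ∈ Bag x.F x.L
      · have h1 := ptY Y hY v hv
        rw [← hp, ptB w hb] at h1
        exact h1
      · obtain ⟨Y', hY', hwY'⟩ := hkid w hw hb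
        have h1 := ptY Y hY v hv
        have h2 := ptY Y' hY' w hwY'
        rw [hp] at h2
        rw [kid_eq hF.lam hY hY' h1 h2]
        exact hwY'
    · intro hw
      exact ⟨hY.2.1.1 hw, ptYY Y hY w hw v hv⟩
  have fibB : ∀ v ∈ Bag x.F x.L, fib x.L pt (pt v) = {v} := by
    intro v hv
    ext w
    rw [mem_fib, Finset.mem_singleton]
    constructor
    · rintro ⟨hw, hp⟩
      rw [ptB v hv] at hp
      by_cases hb : w ∈ Bag x.F x.L
      · rw [ptB w hb] at hp
        exact hp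
      · obtain ⟨Y', hY', hwY'⟩ := hkid w hw hb
        have h2 := ptY Y' hY' w hwY'
        rw [hp] at h2
        exact absurd hv (kid_not_bag hY' h2)
    · rintro rfl
      exact ⟨(mem_bag.1 hv).1, rfl⟩
  have hconn : ∀ v ∈ x.L, ConnOn x.P.G (fib x.L pt (pt v)) := by
    intro v hv
    by_cases hb : v ∈ Bag x.F x.L
    · rw [fibB v hb]
      intro y hy z hz
      rw [Finset.mem_singleton] at hy hz
      rw [hy, hz]
      exact Gr.Conn.refl
    · obtain ⟨Y, hY, hvY⟩ := hkid v hv hb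
      rw [fibY Y hY v hvY]
      exact hF.conn Y hY.1
  obtain ⟨up, rk, hel⟩ := x.hP.2.2.2.2.2 x.L (hF.sub x.L x.hL) pt hconn
  refine ⟨pt, up, rk, hel, fun v hv => (mem_bag.1 hv).1, ?_, ?_⟩
  · intro v hv y hy hp
    have h1 : y ∈ fib x.L pt (pt v) := mem_fib.2 ⟨hy, hp⟩
    rw [fibB v hv] at h1
    exact Finset.mem_singleton.1 h1
  · intro v hv hb
    obtain ⟨Y, hY, hvY⟩ := hkid v hv hb
    rw [fibY Y hY v hvY]
    refine ⟨hW Y hY, hF.solid Y hY.1 ?_, hF.conn Y hY.1, hF.ord Y hY.1⟩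
    rintro rfl
    exact hY.2.1.2 (hF.sub x.L x.hL)

/-- Outer nodes give nodes. PROOF. `parts`: `outer_parts` and `cl_parts` with
`X = X₀ = x.L`, `H` the bag (a subset of `x.L`). `cls`, `lab`: `cl_cls`, `cl_lab` (`x.L ⊆ x.P.X`).
`free`: `hasK_cl` and `x.hP`. `con`: hubs `2 u, 2 v`, `u, v` in the bag, `U ⊆ X` of the closed graph
with `2 u ∈ U`, `2 v ∉ U`; `U₀ := {y ∈ x.L | 2 y ∈ U}`. Edges between `U₀` and `x.L \ U₀` cross `U`
in the closed graph, so `ee G U₀ (x.L \ U₀) ≤ d U`. By `OF.sep` (elements of the bag are in no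
smaller member) `M ≤ d U₀` and `M ≤ d (x.L \ U₀)` (it contains `v`, not `u`), `d x.L < M`, so
`two_ee` gives `2 * M1 ≤ M ≤ 2 * ee`. -/
theorem outer_node {t : ℕ} {k : ℕ∞} {T M M1 M' : ℕ} {k' : ℕ∞} {T' : ℕ} (hM1 : 2 * M1 ≤ M) (x : ON Ω t k T M)
    {W W' : Set (Pc (Lb Ω))}
    (hW : ∀ Y, IsKid x.F x.L Y → ∃ eY : En x.P.G Y, (⟨x.P.G, Y, eY⟩ : Pc (Lb Ω)) ∈ W)
    (hS : Sat W') (hWW : W ⊆ W') (hS' : Sing M' T' ⊆ W') (hM : M ≤ M') (hM2 : 2 ≤ M')
    (hk : k ≤ k') (hk1 : 1 ≤ k') (hT : T ≤ T') {ty : ℕ → ℕ}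
    (hty : ∀ e ∈ x.P.G.bd x.L, ty e < T') :
    cl x.P.G x.L ty ∈ NodeC W' M' M1 k' t T' := by
  classical
  have hF := x.hF
  obtain ⟨pt, up, rk, hp⟩ := outer_parts x hW
  obtain ⟨pt', up', rk', hp'⟩ := cl_parts (X₀ := x.L) hp hS hWW hS' hM hM2 hk hk1
    (Finset.Subset.refl _) (fun _ _ y hy _ => hy) hty
  refine ⟨_, pt', up', rk', cl_cls _ _ _, hp', ?_, ?_, ?_⟩
  · exact cl_lab (fun y hy => x.hP.2.2.2.1 y (hF.sub x.L x.hL hy)) hT hty
  · intro u' hu' v' hv' U hU huU hvU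
    obtain ⟨u, hu, rfl⟩ := Finset.mem_image.1 hu'
    obtain ⟨v, hv, rfl⟩ := Finset.mem_image.1 hv'
    obtain ⟨hub, huL⟩ := Finset.mem_inter.1 hu
    obtain ⟨hvb, hvL⟩ := Finset.mem_inter.1 hv
    let U₀ : Finset ℕ := x.L.filter fun y => 2 * y ∈ U
    have memU : ∀ y, y ∈ U₀ ↔ y ∈ x.L ∧ 2 * y ∈ U := fun y => Finset.mem_filter
    have hUL : U₀ ⊆ x.L := Finset.filter_subset _ _
    have hLX : x.L ⊆ x.P.X := hF.sub x.L x.hL
    have hu0 : u ∈ U₀ := (memU u).2 ⟨huL, huU⟩
    have hv0 : v ∉ U₀ := fun h => hvU ((memU v).1 h).2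
    have hN : ∀ N ∈ x.F, N ⊂ x.L → u ∉ N ∧ v ∉ N := fun N hN hNL =>
      ⟨(mem_bag.1 hub).2 N hN hNL, (mem_bag.1 hvb).2 N hN hNL⟩
    have h1 : M ≤ x.P.G.d U₀ := by
      refine hF.sep x.L x.hL u huL v hvL ?_ U₀ (hUL.trans hLX) hu0 hv0
      intro N hN' hNL
      have := hN N hN' hNL
      tauto
    have h2 : M ≤ x.P.G.d (x.L \ U₀) := by
      refine hF.sep x.L x.hL v hvL u huL ?_ (x.L \ U₀) (Finset.sdiff_subset.trans hLX)
        (Finset.mem_sdiff.2 ⟨hvL, hv0⟩) (fun h => (Finset.mem_sdiff.1 h).2 hu0)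
      intro N hN' hNL
      have := hN N hN' hNL
      tauto
    have h3 : x.P.G.d x.L < M := hF.ord x.L x.hL
    have h4 := two_ee x.P.G hUL
    have h5 : ee x.P.G U₀ (x.L \ U₀) ≤ (cl x.P.G x.L ty).G.d U := by
      refine Finset.card_le_card ?_
      intro e he
      obtain ⟨heE, hc⟩ := Finset.mem_filter.1 he
      have ha : (cl x.P.G x.L ty).G.a e =
        if x.P.G.a e ∈ x.L then 2 * x.P.G.a e else 2 * e + 1 := rfl
      have hb : (cl x.P.G x.L ty).G.b e =
        if x.P.G.b e ∈ x.L then 2 * x.P.G.b e else 2 * e + 1 := rfl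
      rw [Gr.mem_bd]
      unfold Gr.Cross
      rw [ha, hb]
      rcases hc with ⟨hc1, hc2⟩ | ⟨hc1, hc2⟩
      · obtain ⟨hc3, hc4⟩ := (memU _).1 hc1
        obtain ⟨hc5, hc6⟩ := Finset.mem_sdiff.1 hc2
        refine ⟨Finset.mem_filter.2 ⟨heE, Or.inl hc3⟩, Or.inl ?_⟩
        rw [if_pos hc3, if_pos hc5]
        exact ⟨hc4, fun h => hc6 ((memU _).2 ⟨hc5, h⟩)⟩
      · obtain ⟨hc3, hc4⟩ := (memU _).1 hc1
        obtain ⟨hc5, hc6⟩ := Finset.mem_sdiff.1 hc2
        refine ⟨Finset.mem_filter.2 ⟨heE, Or.inr hc3⟩, Or.inr ?_⟩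
        rw [if_pos hc3, if_pos hc5]
        exact ⟨fun h => hc6 ((memU _).2 ⟨hc5, h⟩), hc4⟩
    omega
  · intro h
    exact x.hP.2.2.2.2.1 (hasK_cl h)

end Pool.Agent.W2411ls
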