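import Mathlib
import Pool.Agent.W_2411ls_h59.Detach

/-! From closed pieces back to enumerated pieces. -/

set_option autoImplicit false
set_option linter.unusedSectionVars false

namespace Pool.Agent.W2411ls

open Pool.Agent.W2411c4

variable {Ω : Type} [Preorder Ω] [Inhabited Ω]

/-- closed pieces with types that number the boundary edges -/
theorem rp_of_cr {P P' : Pc (Lb Ω)} {T : ℕ} (hX : LabT P.G P.X T) (hX' : LabT P'.G P'.X T)
    (hn : P.n = P'.n) {ty ty' : ℕ → ℕ} (hty : ∀ i < P.n, ty (P.o i) = T + i)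
    (hty' : ∀ i < P'.n, ty' (P'.o i) = T + i) (h : CR (cl P.G P.X ty) (cl P'.G P'.X ty')) :
    Rp P P' := by
  have hT1 : ∀ e ∈ P.G.bd P.X, T ≤ ty e := by
    intro e he
    obtain ⟨i, hi, rfl⟩ := (P.en.mem e).2 he
    rw [show P.en.o i = P.o i from rfl, hty i hi]
    omega
  have hT2 : ∀ e ∈ P'.G.bd P'.X, T ≤ ty' e := by
    intro e he
    obtain ⟨i, hi, rfl⟩ := (P'.en.mem e).2 he
    rw [show P'.en.o i = P'.o i from rfl, hty' i hi]
    omega
  obtain ⟨η, Φ, ι, hI⟩ := detach hX hX' hT1 hT2 h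
  have hι : ∀ i < P.n, ι (P.o i) = P'.o i := by
    intro i hi
    have h1 := hI.cr_bd (P.o i) (P.o_mem hi)
    obtain ⟨j, hj, hj2⟩ := (P'.en.mem _).2 h1
    have h2 := hI.cr_ty (P.o i) (P.o_mem hi)
    rw [← hj2, show P'.en.o j = P'.o j from rfl, hty' j hj, hty i hi] at h2
    have h3 : j = i := by omega
    rw [← hj2, h3]
  refine ⟨η, Φ, ⟨hn, hI.maps, hI.inj, hI.lab, hI.sub_in, ?_, ?_,
    hI.conn_in, ?_, hI.disj, hI.strong⟩⟩
  · intro i hi f hf
    have h1 := hI.sub_cr _ (P.o_mem hi) f hf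
    rwa [hι i hi] at h1
  · intro i hi
    have h1 := hI.cr_mem _ (P.o_mem hi)
    rwa [hι i hi] at h1
  · intro i hi x hx hxX z hz
    refine hI.conn_cr _ (P.o_mem hi) x hxX hx z ?_
    rw [hι i hi]
    exact hz

/-- types that number the boundary edges -/
theorem exists_ty (P : Pc (Lb Ω)) (T : ℕ) : ∃ ty : ℕ → ℕ, (∀ i < P.n, ty (P.o i) = T + i) ∧
    ∀ e ∈ P.G.bd P.X, ty e < T + P.n := by
  classical
  have h : ∀ e, ∃ i, (∃ j < P.n, P.o j = e) → i < P.n ∧ P.o i = e := by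
    intro e
    by_cases h : ∃ j < P.n, P.o j = e
    · obtain ⟨j, hj⟩ := h
      exact ⟨j, fun _ => hj⟩
    · exact ⟨0, fun h' => absurd h' h⟩
  choose ix hix using h
  refine ⟨fun e => T + ix e, ?_, ?_⟩
  · intro i hi
    obtain ⟨h1, h2⟩ := hix (P.o i) ⟨i, hi, rfl⟩
    show T + ix (P.o i) = T + i
    rw [P.o_inj h1 hi h2]
  · intro e he
    obtain ⟨j, hj, hj2⟩ := (P.en.mem e).2 he
    have h1 := (hix e ⟨j, hj, hj2⟩).1
    show T + ix e < T + P.n
    omega

end Pool.Agent.W2411ls
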