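import Mathlib
import Pool.Agent.W_2411ls_h59.OutFam
import Pool.Agent.W_2411ls_h59.OutNode
import Pool.Agent.W_2411ls_h59.RpOf
import Pool.Agent.W_2411ls_h59.NodePwo
import Pool.Agent.W_2411c4_h59.Gap
import Pool.Agent.W_2411c4_h59.Link

/-! The outer induction. -/

set_option autoImplicit false
set_option linter.unusedSectionVars false

open Set

namespace Pool.Agent.W2411ls

open Pool.Agent.W2411c4

variable {Ω : Type} [Preorder Ω] [Inhabited Ω] [WellQuasiOrderedLE Ω]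

theorem chainO_mem {t : ℕ} {k : ℕ∞} {T M m : ℕ} {x z : ON Ω t k T M}
    (h : Ch (fun x : ON Ω t k T M => x.P.G.d x.L) kidsO m x z) :
    ∃ (Y : Finset ℕ) (hY : Y ∈ x.F), z = x.sub Y hY ∧ Y ⊂ x.L ∧
      ∀ N ∈ x.F, Y ⊆ N → N ⊆ x.L → N = Y ∨ N = x.L ∨ m ≤ x.P.G.d N := by
  induction h with
  | one hz =>
    obtain ⟨Y, hY, rfl⟩ := hz
    refine ⟨Y, hY.1, rfl, hY.2.1, ?_⟩
    intro M hM hYM hMX
    by_cases hMe : M = x.L
    · exact Or.inr (Or.inl hMe)
    · exact Or.inl (hY.2.2 M hM hYM (Finset.ssubset_iff_subset_ne.2 ⟨hMX, hMe⟩))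
  | step _ hm hz ih =>
    obtain ⟨W, hW, rfl, hWX, hall⟩ := ih
    obtain ⟨Y, hY, rfl⟩ := hz
    have hY' : IsKid x.F W Y := hY
    refine ⟨Y, hY'.1, rfl, hY'.2.1.trans hWX, ?_⟩
    intro M hM hYM hMX
    obtain ⟨y, hy⟩ := x.hF.ne Y hY'.1
    rcases lam_sub x.hF.lam hM hW (hYM hy) (hY'.2.1.subset hy) with h1 | h1
    · by_cases hMe : M = W
      · right
        right
        rw [hMe]
        exact hm
      · exact Or.inl (hY'.2.2 M hM hYM (Finset.ssubset_iff_subset_ne.2 ⟨h1, hMe⟩))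
    · rcases hall M hM h1 hMX with h2 | h2 | h2
      · right
        right
        rw [h2]
        exact hm
      · exact Or.inr (Or.inl h2)
      · exact Or.inr (Or.inr h2)

theorem outer_hnode {t : ℕ} {k : ℕ∞} {T M M1 : ℕ} (hM1 : 2 * M1 ≤ M)
    (hnp : ∀ (W : Set (Pc (Lb Ω))), W.PartiallyWellOrderedOn Rp →
      ∀ M k T, ThinOK Ω k → (NodeC W M M1 k t T).PartiallyWellOrderedOn CR) (hkT : ThinOK Ω k)
    (W : Set ((x : ON Ω t k T M) × En x.P.G x.L))
    (hW : W.PartiallyWellOrderedOn fun p q => Rp (pcO p) (pcO q)) :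
    {p : (x : ON Ω t k T M) × En x.P.G x.L | ∀ z ∈ kidsO p.1, ∃ q ∈ W, q.1 = z}.PartiallyWellOrderedOn
      fun p q => Rp (pcO p) (pcO q) := by
  have hV : (pcO '' W).PartiallyWellOrderedOn Rp := hW.image_of_monotone_on fun _ _ _ _ h => h
  have hV1 : ((pcO '' W) ∪ Sing (M + 2) (T + M)).PartiallyWellOrderedOn Rp :=
    hV.union (sing_pwo (M + 2) (T + M))
  have hN := hnp _ (satur_pwo hV1) (M + 2) (k + (1 : ℕ)) (T + M) (hkT.add 1)
  have h1 : (Set.univ : Set (Fin (M + 1))).PartiallyWellOrderedOn Eq :=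
    Set.finite_univ.partiallyWellOrderedOn
  rw [partiallyWellOrderedOn_iff_exists_lt]
  intro f hf
  have hn : ∀ i, (pcO (f i)).n < M := by
    intro i
    show (f i).2.n < M
    rw [En.n_eq]
    exact (f i).1.hF.ord _ (f i).1.hL
  choose ty hty1 hty2 using fun i => exists_ty (pcO (f i)) T
  have hlab : ∀ i, LabT (pcO (f i)).G (pcO (f i)).X T := by
    intro i x hx
    exact (f i).1.hP.2.2.2.1 x ((f i).1.hF.sub _ (f i).1.hL hx)
  obtain ⟨m, n, hmn, hr1, hr2⟩ := (h1.prod hN).exists_lt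
    (f := fun i => ((⟨(pcO (f i)).n, (hn i).trans (Nat.lt_succ_self M)⟩ : Fin (M + 1)),
      cl (pcO (f i)).G (pcO (f i)).X (ty i))) (fun i => ⟨Set.mem_univ _, by
        refine outer_node (W := pcO '' W) hM1 (f i).1 ?_ (satur_sat _) ?_ ?_ (by omega) (by omega)
          le_self_add (by rw [Nat.cast_one]; exact le_add_self) (by omega) ?_
        · intro Y hY
          obtain ⟨q, hqW, hq⟩ := hf i ((f i).1.sub Y hY.1) ⟨Y, hY, rfl⟩
          obtain ⟨q1, q2⟩ := q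
          simp only at hq
          subst hq
          exact ⟨q2, ⟨_, hqW, rfl⟩⟩
        · exact Set.subset_union_left.trans (subset_satur _)
        · exact Set.subset_union_right.trans (subset_satur _)
        · intro e he
          have h2 := hty2 i e he
          have h3 := hn i
          omega⟩)
  refine ⟨m, n, hmn, ?_⟩
  simp only [Fin.mk.injEq] at hr1
  exact rp_of_cr (hlab m) (hlab n) hr1 (hty1 m) (hty1 n) hr2

theorem outer_seq {t : ℕ} {k : ℕ∞} {T M M1 : ℕ} (hM1 : 2 * M1 ≤ M)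
    (hnp : ∀ (W : Set (Pc (Lb Ω))), W.PartiallyWellOrderedOn Rp →
      ∀ M k T, ThinOK Ω k → (NodeC W M M1 k t T).PartiallyWellOrderedOn CR) (hkT : ThinOK Ω k) :
    ∀ f : ℕ → ((x : ON Ω t k T M) × En x.P.G x.L), ∃ m n, m < n ∧ Rp (pcO (f m)) (pcO (f n)) := by
  let R : ((x : ON Ω t k T M) × En x.P.G x.L) → ((x : ON Ω t k T M) × En x.P.G x.L) → Prop :=
    fun p q => Rp (pcO p) (pcO q)
  have : IsPreorder ((x : ON Ω t k T M) × En x.P.G x.L) R :=
    { refl := fun p => Rp.refl _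
      trans := fun _ _ _ h h' => Rp.trans h h' }
  refine gap (R := R) (fun p => p.1) (fun x => ⟨⟨x, mkEn x.P.G x.L⟩, rfl⟩)
    (fun x => x.P.G.d x.L) (fun x => x.L.card) kidsO M (fun x => (x.hF.ord x.L x.hL).le) ?_ ?_ ?_
  · rintro x z ⟨Y, hY, rfl⟩
    exact Finset.card_lt_card hY.2.1
  · intro W hW
    exact outer_hnode hM1 hnp hkT W hW
  · intro p z hch hlab
    obtain ⟨Y, hY, rfl, hYX, hall⟩ := chainO_mem hch
    have hd : p.1.P.G.d Y = p.1.P.G.d p.1.L := hlab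
    obtain ⟨oY, hoY⟩ := link hYX.subset p.2 hd (by
      intro Z hYZ hZX
      obtain ⟨M', hM', hYM, hMX, hMZ⟩ := p.1.hF.linked Y hY p.1.L p.1.hL Z hYZ hZX
      rcases hall M' hM' hYM hMX with h1 | h1 | h1
      · rw [h1] at hMZ
        exact hMZ
      · rw [h1] at hMZ
        exact hd.le.trans hMZ
      · exact hd.le.trans (h1.trans hMZ))
    exact ⟨⟨p.1.sub Y hY, oY⟩, rfl, hoY⟩

/-- connected graphs -/
theorem out_pwo (t : ℕ) (k : ℕ∞) (hkT : ThinOK Ω k) (T : ℕ) :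
    (OutC t k T : Set (CG Ω)).PartiallyWellOrderedOn CR := by
  obtain ⟨M1, hnp⟩ := node_pwo (Ω := Ω) t
  rw [partiallyWellOrderedOn_iff_exists_lt]
  intro f hf
  choose F hF using fun i => exists_of (M := 2 * M1 + 1) (by omega) (hf i)
  obtain ⟨m, n, hmn, hr⟩ := outer_seq (t := t) (k := k) (T := T) (M := 2 * M1 + 1) (M1 := M1)
    (by omega) hnp hkT fun i =>
    ⟨⟨f i, hf i, F i, hF i, (f i).X, (hF i).top⟩, mkEn (f i).G (f i).X⟩
  exact ⟨m, n, hmn, cr_of_rp0 (hf m).1 hr⟩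

end Pool.Agent.W2411ls
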