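import Mathlib
import Pool.Agent.W_2411ls_h59.OutPwo
import Pool.Agent.W_2411tw_h80.Outer

/-! From connected graphs to all graphs. -/

set_option autoImplicit false
set_option linter.unusedSectionVars false

open Set

namespace Pool.Agent.W2411ls

open Pool.Agent.W2411c4

variable {Ω : Type} [Preorder Ω] [Inhabited Ω] [WellQuasiOrderedLE Ω]

/-- the part of a closed graph inside `C` -/
def subC (P : (CG Ω)) (C : Finset ℕ) : (CG Ω) where
  G := { P.G with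
    E := P.G.E.filter fun e => P.G.Inner C e
    ne := fun e he => P.G.ne e (Finset.mem_filter.1 he).1 }
  X := C

theorem mem_subC {P : (CG Ω)} {C : Finset ℕ} {e : ℕ} :
    e ∈ (subC P C).G.E ↔ e ∈ P.G.E ∧ P.G.Inner C e := Finset.mem_filter

/-- connectivity does not depend on the edge set of the graph -/
theorem conn_subC {P : (CG Ω)} {C : Finset ℕ} {F : Set ℕ} {u v : ℕ} :
    (subC P C).G.Conn F u v ↔ P.G.Conn F u v := Iff.rfl

theorem inner_subC {P : (CG Ω)} {C Y : Finset ℕ} {e : ℕ} :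
    (subC P C).G.Inner Y e ↔ P.G.Inner Y e := Iff.rfl

theorem connOn_subC {P : (CG Ω)} {C Y : Finset ℕ} (hY : Y ⊆ C) :
    ConnOn (subC P C).G Y ↔ ConnOn P.G Y := by
  have h : inE (subC P C).G Y = inE P.G Y := by
    ext e
    show (e ∈ (subC P C).G.E ∧ _) ↔ (e ∈ P.G.E ∧ _)
    rw [mem_subC]
    constructor
    · rintro ⟨⟨h1, _⟩, h2⟩
      exact ⟨h1, h2⟩
    · rintro ⟨h1, h2⟩
      exact ⟨⟨h1, hY h2.1, hY h2.2⟩, h2⟩
  unfold ConnOn
  rw [h]
  exact Iff.rfl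

theorem hasK_subC {P : (CG Ω)} {C : Finset ℕ} {t : ℕ} (h : HasK t (subC P C).G) : HasK t P.G := by
  obtain ⟨s, Ψ, h1, h2, h3⟩ := h
  refine ⟨s, Ψ, h1, ?_, h3⟩
  intro i j l hij hj hl
  obtain ⟨h4, h5, h6⟩ := h2 i j l hij hj hl
  exact ⟨fun f hf => (mem_subC.1 (h4 f hf)).1, h5, h6⟩

/-- a closed connected part of a graph in `GenC` is in `OutC` -/
theorem subC_mem {t : ℕ} {k : ℕ∞} {T : ℕ} {P : (CG Ω)} (hP : P ∈ GenC t k T) {C : Finset ℕ} (hC : C ⊆ P.X)
    (hne : C.Nonempty) (hcon : ConnOn P.G C) : subC P C ∈ OutC t k T := by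
  obtain ⟨hcls, hlab, hfree, htw⟩ := hP
  refine ⟨fun e he => (mem_subC.1 he).2, hne, (connOn_subC (Finset.Subset.refl _)).2 hcon,
    fun x hx => hlab x (hC hx), fun h => hfree (hasK_subC h), ?_⟩
  intro X' hX' pt hpt
  obtain ⟨up, rk, hE⟩ := htw X' (hX'.trans hC) pt (fun x hx =>
    (connOn_subC ((Finset.filter_subset _ _).trans hX')).1 (hpt x hx))
  exact ⟨up, rk, hE.card, hE.rk, hE.chord, fun e he ha hb => hE.edge e (mem_subC.1 he).1 ha hb⟩

/-- an immersion of closed parts gives one of pieces -/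
theorem rp_of_subC {G G' : Gr (Lb Ω)} {C C' : Finset ℕ} (hC : Closed G C) (hC' : Closed G' C')
    {en : En G C} {en' : En G' C'} (h : CR (subC ⟨G, C⟩ C) (subC ⟨G', C'⟩ C')) :
    Rp (⟨G, C, en⟩ : Pc (Lb Ω)) ⟨G', C', en'⟩ := by
  obtain ⟨η, Φ, hI⟩ := h
  have hn : en.n = 0 := by rw [En.n_eq, d_closed hC]
  have hn' : en'.n = 0 := by rw [En.n_eq, d_closed hC']
  have hin : ∀ e ∈ G.E, G.Touch C e → e ∈ (subC ⟨G, C⟩ C).G.E := by
    intro e he ht
    refine mem_subC.2 ⟨he, ?_⟩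
    have h1 := hC e he
    unfold Gr.Touch at ht
    show G.a e ∈ C ∧ G.b e ∈ C
    tauto
  refine ⟨η, Φ, ?_, hI.maps, hI.inj, hI.lab, ?_, ?_, ?_, ?_, ?_, ?_, ?_⟩
  · show en.n = en'.n
    rw [hn, hn']
  · intro e he hi f hf
    exact mem_subC.1 (hI.sub e (hin e he hi.touch) f hf)
  · intro i hi
    have hi' : i < en.n := hi
    omega
  · intro i hi
    have hi' : i < en.n := hi
    omega
  · intro e he hi
    exact hI.conn e (hin e he hi.touch)
  · intro i hi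
    have hi' : i < en.n := hi
    omega
  · intro e he f hf hte htf hef
    exact hI.disj e (hin e he hte) f (hin f hf htf) hef
  · intro e he ht y hy hey f hf
    exact hI.strong e (hin e he ht) y hy hey f hf

/-- all graphs -/
theorem gen_pwo (t : ℕ) (k : ℕ∞) (hkT : ThinOK Ω k) (T : ℕ) :
    (GenC t k T : Set (CG Ω)).PartiallyWellOrderedOn CR := by
  let Pr : Gr (Lb Ω) → Finset ℕ → Prop := fun G C => C.Nonempty → subC ⟨G, C⟩ C ∈ OutC t k T
  have h0 := out_pwo (Ω := Ω) t k hkT T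
  have h1 : (ConnP Pr).PartiallyWellOrderedOn Rp := by
    rw [partiallyWellOrderedOn_iff_exists_lt] at h0 ⊢
    intro f hf
    by_cases hE : ∃ m n, m < n ∧ (f m).X = ∅ ∧ (f n).X = ∅
    · obtain ⟨m, n, hmn, h1, h2⟩ := hE
      exact ⟨m, n, hmn, emp_rp h1 h2⟩
    · have hs : ∃ n0, ∀ n, n0 ≤ n → (f n).X ≠ ∅ := by
        by_cases h1 : ∃ m, (f m).X = ∅
        · obtain ⟨m, hm⟩ := h1
          exact ⟨m + 1, fun n hn hn' => hE ⟨m, n, by omega, hm, hn'⟩⟩
        · push Not at h1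
          exact ⟨0, fun n _ => Finset.nonempty_iff_ne_empty.1 (h1 n)⟩
      obtain ⟨n0, hn0⟩ := hs
      obtain ⟨m, n, hmn, hr⟩ := h0 (fun i => subC ⟨(f (n0 + i)).G, (f (n0 + i)).X⟩ (f (n0 + i)).X)
        (fun i => (hf (n0 + i)).2.2 (Finset.nonempty_iff_ne_empty.2 (hn0 _ (by omega))))
      exact ⟨n0 + m, n0 + n, by omega, rp_of_subC (hf (n0 + m)).1 (hf (n0 + n)).1 hr⟩
  have h2 := disc_pwo Pr h1
  rw [partiallyWellOrderedOn_iff_exists_lt] at h2 ⊢
  intro f hf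
  obtain ⟨m, n, hmn, hr⟩ := h2 (fun i => ⟨(f i).G, (f i).X, mkEn (f i).G (f i).X⟩) (by
    intro i
    refine ⟨cls_closed (hf i).1, ?_⟩
    intro C hC hcl hcon hne
    exact subC_mem (P := f i) (hf i) hC hne hcon)
  exact ⟨m, n, hmn, cr_of_rp0 (hf m).1 hr⟩

end Pool.Agent.W2411ls
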