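import Mathlib
import Pool.Agent.W_2411ls_h59.TreeB
import Pool.Agent.W_2411c4_h59.Extract

/-! From closed graphs to graphs. -/

set_option autoImplicit false
set_option linter.unusedSectionVars false

namespace Pool.Agent.W2411ls

open Pool.Agent.W2411c4

variable {Ω : Type} [Preorder Ω] [Inhabited Ω]

/-- PROOF. As the proof of `extract` in W_2411c4_h59/Extract.lean, without apices: for
`CImm` `η, Φ` put `η' v :=` the vertex with code `η (cV v)` (`maps`, `mem_cs`), injective. For an edge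
`e` with `ends e = s(u, v)` (`u := fst e`, `v := snd e`) the set `Φ (cE e)` connects
`η (cV u)` and `η (cV v)` in `toGr`; `walk_of_conn` and `Walk.exists_path` give a path from `η' u` to
`η' v` with edges coded in `Φ (cE e)`. `src e := η' u`, `dst e := η' v`. `disj`: from `disj`.
`strong`: `v ∉ ends e`; by `Walk.mem_verts'` (`η' (fst e) ≠ η' (snd e)`) a vertex of the path is an
end of an edge `g` of the path with code in `Φ (cE e)`, and `CImm.strong` says that this edge is not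
incident with `η (cV v)` (`inc_cV`). -/
theorem si_of_cr {H G : MGraph} {φ : H.V → Ω} {ψ : G.V → Ω} (h : CR (ofM H φ) (ofM G ψ)) :
    ∃ I : StrongImmersion H G, ∀ v, φ v ≤ ψ (I.η v) := by
  classical
  obtain ⟨η, Φ, hI⟩ := h
  have hE : ∀ e, H.cE e ∈ (ofM H φ).G.E := fun e =>
    (H.mem_E ∅ (fun v => (⟨0, φ v⟩ : (Lb Ω))) ⟨0, default⟩).2
      ⟨e, fun _ _ => Set.notMem_empty _, rfl⟩
  have hX : ∀ v, H.cV v ∈ (ofM H φ).X := fun v => H.cV_mem.2 (Set.mem_univ v)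
  have hθ : ∀ v : H.V, ∃ w : G.V, G.cV w = η (H.cV v) := by
    intro v
    obtain ⟨w, _, hw⟩ := G.mem_cs.1 (hI.maps _ (hX v))
    exact ⟨w, hw⟩
  choose θ hθ using hθ
  have hθinj : Function.Injective θ := by
    intro u v huv
    have h1 := hθ u
    rw [huv, hθ v] at h1
    exact H.cV_inj (hI.inj _ (hX u) _ (hX v) h1.symm)
  have hpath : ∀ e : H.E, ∃ (x y : G.V) (p : Walk G x y), s(x, y) = (H.ends e).map θ ∧
      p.verts.Nodup ∧ x ≠ y ∧ ∀ g ∈ p.edges, G.cE g ∈ Φ (H.cE e) := by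
    intro e
    have hxy : θ (H.fst e) ≠ θ (H.snd e) := fun h => H.fst_ne_snd e (hθinj h)
    have hmap : (H.ends e).map θ = s(θ (H.fst e), θ (H.snd e)) := by
      rw [H.ends_fs e, Sym2.map_mk]
    have hc := hI.conn (H.cE e) (hE e)
    have ha : (H.toGr ∅ (fun v => (⟨0, φ v⟩ : (Lb Ω))) ⟨0, default⟩).a (H.cE e) =
      H.cV (H.fst e) := H.a_cE _ _ _ e
    have hb : (H.toGr ∅ (fun v => (⟨0, φ v⟩ : (Lb Ω))) ⟨0, default⟩).b (H.cE e) =
      H.cV (H.snd e) := H.b_cE _ _ _ e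
    change (G.toGr ∅ (fun v => (⟨0, ψ v⟩ : (Lb Ω))) ⟨0, default⟩).Conn (Φ (H.cE e))
      (η ((H.toGr ∅ (fun v => (⟨0, φ v⟩ : (Lb Ω))) ⟨0, default⟩).a (H.cE e)))
      (η ((H.toGr ∅ (fun v => (⟨0, φ v⟩ : (Lb Ω))) ⟨0, default⟩).b (H.cE e))) at hc
    rw [ha, hb, ← hθ, ← hθ] at hc
    obtain ⟨p, hp⟩ := walk_of_conn (fun n hn => hI.sub _ (hE e) n hn) hc _ _ rfl rfl
    obtain ⟨p', hp1, hp2⟩ := p.exists_path
    exact ⟨_, _, p', hmap.symm, hp1, hxy, fun g hg => hp g (hp2 g hg)⟩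
  choose x y p hp1 hp2 hp3 hp4 using hpath
  refine ⟨⟨θ, hθinj, x, y, p, hp1, hp2, ?_, ?_⟩, ?_⟩
  · intro e f hef g hg hg'
    exact Set.disjoint_left.1 (hI.disj _ (hE e) _ (hE f) (fun h => hef (H.cE_inj h)))
      (hp4 e g hg) (hp4 f g hg')
  · intro e v hv hmem
    obtain ⟨g, hg, hvg⟩ := (p e).mem_verts' (hp3 e) hmem
    have h1 := hI.strong (H.cE e) (hE e) (H.cV v) (hX v)
      (fun h => hv ((H.inc_cV ∅ (fun v => (⟨0, φ v⟩ : (Lb Ω))) ⟨0, default⟩).1 h)) (G.cE g)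
      (hp4 e g hg)
    apply h1
    rw [← hθ v]
    exact (G.inc_cV ∅ (fun v => (⟨0, ψ v⟩ : (Lb Ω))) ⟨0, default⟩).2 hvg
  · intro v
    have h1 := hI.lab _ (hX v)
    rw [← hθ v] at h1
    change (H.toGr ∅ (fun v => (⟨0, φ v⟩ : (Lb Ω))) ⟨0, default⟩).lab (H.cV v) ≤
      (G.toGr ∅ (fun v => (⟨0, ψ v⟩ : (Lb Ω))) ⟨0, default⟩).lab (G.cV (θ v)) at h1
    rw [H.lab_cV, G.lab_cV] at h1
    exact h1.2

private theorem pubA_code (s : Finset ℕ) {n : ℕ} (h : s.card ≤ n) :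
    ∃ f : ℕ → ℕ, (∀ x ∈ s, f x < n) ∧ ∀ x ∈ s, ∀ y ∈ s, f x = f y → x = y := by
  classical
  refine ⟨fun x => if h : x ∈ s then (s.equivFin ⟨x, h⟩).1 else 0, ?_, ?_⟩
  · intro x hx
    simp only [hx, dif_pos]
    exact (s.equivFin ⟨x, hx⟩).2.trans_le h
  · intro x hx y hy hxy
    simp only [hx, hy, dif_pos] at hxy
    have h1 := s.equivFin.injective (Fin.ext hxy)
    exact congrArg Subtype.val h1

/-- PROOF. Let `s, Ψ` be as in `HasK t P'.G`. Let `c` be an injection of `P.X` into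
`{0, ..., t-1}` and `g` an injection of `P.G.E` into `{0, ..., t-1}`. `η x := s (c x)`,
`Φ e := Ψ i j (g e)` with `i := min (c (a e)) (c (b e))`, `j := max ...` (`i < j` as the ends are
different elements of `P.X`). `maps`: each `s i` with `i < t` is in `P'.X`: as `t ≥ 2` there is
`j < t`, `j ≠ i`, and `Ψ` connects `s i` with `s j ≠ s i`, so some edge of `P'.G` is incident with
`s i` (`Relation.ReflTransGen.cases_head`), and `Cls P'`. `inj`: injectivity of `s`, `c`. `lab`: all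
labels are `⟨0⟩` (`LabT _ _ 1`). `conn`: from `HasK` (`Gr.Conn.symm` if `c (a e) > c (b e)`).
`disj`: `g` injective. `strong`: `y ∈ P.X` not an end of `e` has `c y ≠ c (a e), c (b e)`. -/
theorem cr_of_hasK {P P' : (CG Ω)} (hP : Cls P) (hP' : Cls P')
    (hl : ∀ x ∈ P.X, ∀ y ∈ P'.X, P.G.lab x ≤ P'.G.lab y) {t : ℕ} (ht : 2 ≤ t) (hX : P.X.card ≤ t) (hE : P.G.E.card ≤ t)
    (h : HasK t P'.G) : CR P P' := by
  classical
  obtain ⟨s, Ψ, hs, hΨ, hd⟩ := h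
  obtain ⟨c, hc1, hc2⟩ := pubA_code P.X hX
  obtain ⟨g, hg1, hg2⟩ := pubA_code P.G.E hE
  -- the connections in symmetric form
  let Θ : ℕ → ℕ → ℕ → Set ℕ := fun i j l => if i < j then Ψ i j l else Ψ j i l
  have hlt : ∀ i j l, i < t → j < t → i ≠ j → l < t → (∀ f ∈ Θ i j l, f ∈ P'.G.E) ∧
      P'.G.Conn (Θ i j l) (s i) (s j) ∧
      ∀ q < t, q ≠ i → q ≠ j → ∀ f ∈ Θ i j l, ¬ P'.G.Inc f (s q) := by
    intro i j l hi hj hij hl
    rcases lt_or_gt_of_ne hij with h1 | h1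
    · simp only [Θ, if_pos h1]
      exact hΨ i j l h1 hj hl
    · simp only [Θ, if_neg (not_lt.2 h1.le)]
      obtain ⟨h2, h3, h4⟩ := hΨ j i l h1 hi hl
      exact ⟨h2, h3.symm, fun q hq hqi hqj => h4 q hq hqj hqi⟩
  have hdis : ∀ i j l i' j' l', i < t → j < t → i ≠ j → l < t → i' < t → j' < t → i' ≠ j' →
      l' < t → l ≠ l' → Disjoint (Θ i j l) (Θ i' j' l') := by
    intro i j l i' j' l' hi hj hij hl hi' hj' hij' hl' hne
    rcases lt_or_gt_of_ne hij with h1 | h1 <;> rcases lt_or_gt_of_ne hij' with h2 | h2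
    · simp only [Θ, if_pos h1, if_pos h2]
      exact hd _ _ _ _ _ _ h1 hj hl h2 hj' hl' fun h => hne h.2.2
    · simp only [Θ, if_pos h1, if_neg (not_lt.2 h2.le)]
      exact hd _ _ _ _ _ _ h1 hj hl h2 hi' hl' fun h => hne h.2.2
    · simp only [Θ, if_neg (not_lt.2 h1.le), if_pos h2]
      exact hd _ _ _ _ _ _ h1 hi hl h2 hj' hl' fun h => hne h.2.2
    · simp only [Θ, if_neg (not_lt.2 h1.le), if_neg (not_lt.2 h2.le)]
      exact hd _ _ _ _ _ _ h1 hi hl h2 hi' hl' fun h => hne h.2.2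
  have hsX : ∀ i < t, s i ∈ P'.X := by
    intro i hi
    obtain ⟨j, hj, hij⟩ : ∃ j < t, i ≠ j := by
      by_cases h0 : i = 0
      · exact ⟨1, by omega, by omega⟩
      · exact ⟨0, by omega, h0⟩
    obtain ⟨h1, h2, _⟩ := hlt i j 0 hi hj hij (by omega)
    rcases Relation.ReflTransGen.cases_head h2 with h3 | ⟨v, h3, _⟩
    · exact absurd (hs i hi j hj h3) hij
    · obtain ⟨f, hf, h4⟩ := h3
      have h5 := hP' f (h1 f hf)
      rcases h4 with ⟨h6, _⟩ | ⟨_, h6⟩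
      · exact h6 ▸ h5.1
      · exact h6 ▸ h5.2
  have hab : ∀ e ∈ P.G.E, c (P.G.a e) < t ∧ c (P.G.b e) < t ∧ c (P.G.a e) ≠ c (P.G.b e) := by
    intro e he
    obtain ⟨h1, h2⟩ := hP e he
    exact ⟨hc1 _ h1, hc1 _ h2, fun h => P.G.ne e he (hc2 _ h1 _ h2 h)⟩
  refine ⟨fun x => s (c x), fun e => Θ (c (P.G.a e)) (c (P.G.b e)) (g e), ?_⟩
  refine
    { maps := fun x hx => hsX _ (hc1 x hx)
      inj := fun x hx y hy h => hc2 x hx y hy (hs _ (hc1 x hx) _ (hc1 y hy) h)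
      lab := fun x hx => hl x hx _ (hsX _ (hc1 x hx))
      sub := ?_
      conn := ?_
      disj := ?_
      strong := ?_ }
  · intro e he f hf
    obtain ⟨h1, h2, h3⟩ := hab e he
    exact (hlt _ _ _ h1 h2 h3 (hg1 e he)).1 f hf
  · intro e he
    obtain ⟨h1, h2, h3⟩ := hab e he
    exact (hlt _ _ _ h1 h2 h3 (hg1 e he)).2.1
  · intro e he f hf hef
    obtain ⟨h1, h2, h3⟩ := hab e he
    obtain ⟨h1', h2', h3'⟩ := hab f hf
    exact hdis _ _ _ _ _ _ h1 h2 h3 (hg1 e he) h1' h2' h3' (hg1 f hf)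
      fun h => hef (hg2 e he f hf h)
  · intro e he y hy hny f hf
    obtain ⟨h1, h2, h3⟩ := hab e he
    refine (hlt _ _ _ h1 h2 h3 (hg1 e he)).2.2 (c y) (hc1 y hy) ?_ ?_ f hf
    · exact fun h => hny (Or.inl (hc2 _ hy _ (hP e he).1 h))
    · exact fun h => hny (Or.inr (hc2 _ hy _ (hP e he).2 h))

end Pool.Agent.W2411ls
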