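import Mathlib
import Pool.Agent.W_2411ls_h59.PubA
import Pool.Agent.W_2411ls_h59.GenPwo

/-! Strong immersion with labels: graphs without `K(t)` and with bounded width; all graphs relative
to thin closed graphs. -/

set_option autoImplicit false
set_option linter.unusedSectionVars false

open Set

namespace Pool.Agent.W2411ls

open Pool.Agent.W2411c4

theorem twi_top {Q : Type} (G : Gr Q) (X : Finset ℕ) : TWI G X ⊤ := by
  intro X' _ pt _
  refine ⟨fun p => (X'.image pt).filter fun q => p < q, id, fun _ => le_top, ?_, ?_, ?_⟩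
  · intro p q hq
    exact (Finset.mem_filter.1 hq).2
  · intro p q hq r hr
    rcases lt_trichotomy q r with h | h | h
    · exact Or.inr (Or.inl (Finset.mem_filter.2 ⟨(Finset.mem_filter.1 hr).1, h⟩))
    · exact Or.inl h
    · exact Or.inr (Or.inr (Finset.mem_filter.2 ⟨(Finset.mem_filter.1 hq).1, h⟩))
  · intro e _ ha hb
    rcases lt_trichotomy (pt (G.a e)) (pt (G.b e)) with h | h | h
    · exact Or.inr (Or.inl (Finset.mem_filter.2 ⟨Finset.mem_image_of_mem _ hb, h⟩))
    · exact Or.inl h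
    · exact Or.inr (Or.inr (Finset.mem_filter.2 ⟨Finset.mem_image_of_mem _ ha, h⟩))

/-- labelled graphs without `K(t)`, quotients of width at most `k` -/
theorem main_lab {Ω : Type} [Preorder Ω] [Inhabited Ω] [WellQuasiOrderedLE Ω] {k : ℕ∞}
    (hk : ThinOK Ω k) (t : ℕ) (G : ℕ → MGraph) (φ : ∀ n, (G n).V → Ω)
    (hG : ∀ n, TWI (ofM (G n) (φ n)).G (ofM (G n) (φ n)).X k)
    (hfree : ∀ n, ¬ HasK t (ofM (G n) (φ n)).G) :
    ∃ i j, i < j ∧ ∃ I : StrongImmersion (G i) (G j), ∀ v, φ i v ≤ φ j (I.η v) := by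
  have h := gen_pwo t k hk 1
  rw [partiallyWellOrderedOn_iff_exists_lt] at h
  obtain ⟨i, j, hij, hr⟩ := h (fun n => ofM (G n) (φ n))
    fun n => ⟨ofM_cls _ _, ofM_lab _ _, hfree n, hG n⟩
  exact ⟨i, j, hij, si_of_cr hr⟩

/-- graphs without labels -/
theorem main_k {k : ℕ∞} (hk : ThinOK Unit k) (G : ℕ → MGraph)
    (hG : ∀ n, TWI (ofM (G n) fun _ => ()).G (ofM (G n) fun _ => ()).X k) :
    ∃ i j, i < j ∧ Nonempty (StrongImmersion (G i) (G j)) := by
  by_contra hcon
  push Not at hcon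
  have hno : ∀ i j, i < j → ¬ CR (ofM (G i) fun _ => ()) (ofM (G j) fun _ => ()) :=
    fun i j hij h => (hcon i j hij).false (si_of_cr h).choose
  let t : ℕ := (ofM (G 0) fun _ => ()).X.card + (ofM (G 0) fun _ => ()).G.E.card + 2
  have hlab : ∀ n, ∀ x ∈ (ofM (G n) fun _ => ()).X, ((ofM (G n) fun _ => ()).G.lab x).v = 0 :=
    fun n x hx => Nat.lt_one_iff.1 (ofM_lab _ _ x hx)
  have hfree : ∀ n, ¬ HasK t (ofM (G (n + 1)) fun _ => ()).G := by
    intro n h
    exact hno 0 (n + 1) (by omega) (cr_of_hasK (ofM_cls _ _) (ofM_cls _ _)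
      (fun x hx y hy => ⟨(hlab 0 x hx).trans (hlab (n + 1) y hy).symm, le_rfl⟩)
      (t := t) (by omega) (by omega) (by omega) h)
  obtain ⟨i, j, hij, I, _⟩ := main_lab hk t (fun n => G (n + 1)) (fun _ _ => ())
    (fun n => hG (n + 1)) hfree
  exact (hcon (i + 1) (j + 1) (by omega)).false I

/-- **Bounded tree-width.** -/
theorem main (k : ℕ) (G : ℕ → MGraph) (hG : ∀ n, TreeWidthLE (G n) k) :
    ∃ i j, i < j ∧ Nonempty (StrongImmersion (G i) (G j)) :=
  main_k (thinOK_nat k) G fun n => ofM_twi _ (hG n)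

/-- **All graphs**, relative to thin closed graphs. -/
theorem main_top (hk : ThinOK Unit ⊤) (G : ℕ → MGraph) :
    ∃ i j, i < j ∧ Nonempty (StrongImmersion (G i) (G j)) :=
  main_k hk G fun _ => twi_top _ _

end Pool.Agent.W2411ls
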